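import Pool.Agent.Work.MP_aa9b22_lc.M1b

set_option autoImplicit false

namespace Pool.Agent.Work.MP_aa9b22_lc.M1

open Pool.Agent.Work.Helper86
open Relation

section sem

variable {C : CM} {q0 : C.Q} {r0 r1 : Fin C.B} {e : ℕ}

/-- simulation phase without halting -/
theorem reach_sim (u : ℕ) : ∀ (b : Bool) (q : C.Q) (a1 : Fin C.B → ℕ) (x1 : ℕ)
    (a2 : Fin C.B → ℕ) (x2 u2 : ℕ), (∀ j ≤ u, (C.step^[j] (q, a1)).1 ≠ C.hlt) →
    TransGen ((rob C q0 r0 r1).fw e) ((b, some q), cf b a1 x1 u a2 x2 u2)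
      ((b, none), cf b (C.step^[u] (q, a1)).2 x1 0 a2 x2 (u2 + u)) := by
  induction u with
  | zero =>
    intro b q a1 x1 a2 x2 u2 h
    refine TransGen.single ⟨?_, ?_⟩
    · have := h 0 le_rfl
      simpa [rob] using this
    · exact (step_sim0 e b q a1 x1 a2 x2 u2).symm
  | succ u ih =>
    intro b q a1 x1 a2 x2 u2 h
    refine TransGen.head (b := ((b, some (C.step (q, a1)).1),
      cf b (C.step (q, a1)).2 x1 u a2 x2 (u2 + 1))) ⟨?_, ?_⟩ ?_
    · have := h 0 (Nat.zero_le _)
      simpa [rob] using this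
    · exact (step_sim e b q a1 x1 u a2 x2 u2).symm
    · have h1 := ih b (C.step (q, a1)).1 (C.step (q, a1)).2 x1 a2 x2 (u2 + 1) (by
        intro j hj
        have := h (j + 1) (by omega)
        rwa [Function.iterate_succ_apply] at this)
      rw [Function.iterate_succ_apply]
      have e1 : u2 + 1 + u = u2 + (u + 1) := by omega
      rw [e1] at h1
      exact h1

/-- simulation phase which halts -/
theorem acc_sim (u : ℕ) : ∀ (b : Bool) (q : C.Q) (a1 : Fin C.B → ℕ) (x1 : ℕ)
    (a2 : Fin C.B → ℕ) (x2 u2 : ℕ), (∃ j ≤ u, (C.step^[j] (q, a1)).1 = C.hlt) →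
    Acc ((rob C q0 r0 r1).st e) ((b, some q), cf b a1 x1 u a2 x2 u2) := by
  induction u with
  | zero =>
    intro b q a1 x1 a2 x2 u2 ⟨j, hj, h⟩
    obtain rfl : j = 0 := by omega
    apply acc_of_hlt
    simpa [rob] using h
  | succ u ih =>
    intro b q a1 x1 a2 x2 u2 ⟨j, hj, h⟩
    by_cases hq : q = C.hlt
    · apply acc_of_hlt
      simpa [rob] using hq
    · cases j with
      | zero => exact absurd h hq
      | succ j =>
        rw [Function.iterate_succ_apply] at h
        refine acc_of_fw (c' := ((b, some (C.step (q, a1)).1),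
          cf b (C.step (q, a1)).2 x1 u a2 x2 (u2 + 1))) ⟨?_, ?_⟩ ?_
        · simpa [rob] using hq
        · exact (step_sim e b q a1 x1 u a2 x2 u2).symm
        · exact ih b _ _ x1 a2 x2 (u2 + 1) ⟨j, by omega, h⟩

/-- the clearing phase -/
theorem reach_clear (k : ℕ) : ∀ (b : Bool) (a1 : Fin C.B → ℕ) (x1 u1 : ℕ)
    (a2 : Fin C.B → ℕ) (x2 u2 : ℕ), x1 + ∑ r, a1 r ≤ k →
    TransGen ((rob C q0 r0 r1).fw e) ((b, none), cf b a1 x1 u1 a2 x2 u2)
      ((!b, some q0), cf (!b) (fun r => a2 r + (if r = r0 then x1 else 0) +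
        (if r = r1 then e else 0)) (x2 + x1) (u2 + 1) (fun _ => 0) 0 u1) := by
  induction k with
  | zero =>
    intro b a1 x1 u1 a2 x2 u2 h
    have hx : x1 = 0 := by omega
    have hs : ∑ r, a1 r = 0 := by omega
    have ha : a1 = fun _ => 0 := by
      funext r
      exact (Finset.sum_eq_zero_iff.1 hs) r (Finset.mem_univ r)
    subst hx ha
    refine TransGen.single ⟨by simp [rob], ?_⟩
    rw [step_restart]
    simp
  | succ k ih =>
    intro b a1 x1 u1 a2 x2 u2 h
    by_cases h0 : a1 ≠ 0 ∨ x1 ≠ 0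
    · refine TransGen.head (b := ((b, none), cf b (fun r => a1 r - 1) (x1 - 1) u1
        (fun r => a2 r + if r = r0 then (if x1 ≠ 0 then 1 else 0) else 0)
        (x2 + if x1 ≠ 0 then 1 else 0) u2)) ⟨by simp [rob], ?_⟩ ?_
      · exact (step_clear e b a1 x1 u1 a2 x2 u2 h0).symm
      · have hle : (x1 - 1) + ∑ r, (a1 r - 1) ≤ k := by
          have h1 : ∑ r, (a1 r - 1) ≤ ∑ r, a1 r := Finset.sum_le_sum fun r _ => Nat.sub_le _ _
          rcases h0 with h0 | h0
          · obtain ⟨r, hr⟩ := Function.ne_iff.1 h0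
            have h2 : ∑ r, (a1 r - 1) < ∑ r, a1 r := by
              apply Finset.sum_lt_sum (fun r _ => Nat.sub_le _ _)
              refine ⟨r, Finset.mem_univ r, ?_⟩
              have : a1 r ≠ 0 := hr
              omega
            omega
          · omega
        have h1 := ih b (fun r => a1 r - 1) (x1 - 1) u1
          (fun r => a2 r + if r = r0 then (if x1 ≠ 0 then 1 else 0) else 0)
          (x2 + if x1 ≠ 0 then 1 else 0) u2 hle
        have e1 : (fun r => (a2 r + if r = r0 then (if x1 ≠ 0 then 1 else 0) else 0) +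
            (if r = r0 then x1 - 1 else 0) + (if r = r1 then e else 0)) =
            (fun r => a2 r + (if r = r0 then x1 else 0) + (if r = r1 then e else 0)) := by
          funext r
          by_cases hr : r = r0 <;> by_cases hx : x1 = 0 <;> simp [hr, hx] <;> omega
        have e2 : (x2 + if x1 ≠ 0 then 1 else 0) + (x1 - 1) = x2 + x1 := by
          split_ifs <;> omega
        rw [e1, e2] at h1
        exact h1
    · push Not at h0
      obtain ⟨ha, hx⟩ := h0
      have ha' : a1 = fun _ => 0 := ha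
      subst hx ha'
      refine TransGen.single ⟨by simp [rob], ?_⟩
      rw [step_restart]
      simp

/-- initial registers -/
def ini (r0 r1 : Fin C.B) (x e : ℕ) : Fin C.B → ℕ :=
  fun i => if i = r0 then x else if i = r1 then e else 0

/-- the start of a clean round -/
def cln (q0 : C.Q) (r0 r1 : Fin C.B) (e : ℕ) (b : Bool) (x z : ℕ) :
    (Bool × Option C.Q) × (Bool × (Fin C.B ⊕ Bool) → ℕ) :=
  ((b, some q0), cf b (ini r0 r1 x e) x z (fun _ => 0) 0 0)

theorem reach_cln (h01 : r0 ≠ r1) (b : Bool) (x z : ℕ)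
    (h : ∀ j ≤ z, (C.step^[j] (q0, ini r0 r1 x e)).1 ≠ C.hlt) :
    TransGen ((rob C q0 r0 r1).fw e) (cln q0 r0 r1 e b x z) (cln q0 r0 r1 e (!b) x (z + 1)) := by
  have h1 := reach_sim (r0 := r0) (r1 := r1) (q0 := q0) (e := e) z b q0 (ini r0 r1 x e) x
    (fun _ => 0) 0 0 h
  have h2 := reach_clear (q0 := q0) (r0 := r0) (r1 := r1) (e := e) _ b
    (C.step^[z] (q0, ini r0 r1 x e)).2 x 0 (fun _ => 0) 0 (0 + z) le_rfl
  have h3 := h1.trans h2
  have e1 : (fun r => (fun _ => 0 : Fin C.B → ℕ) r + (if r = r0 then x else 0) +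
      (if r = r1 then e else 0)) = ini r0 r1 x e := by
    funext r
    unfold ini
    by_cases hr : r = r0
    · subst hr; simp [h01]
    · simp [hr]
  rw [e1, Nat.zero_add, Nat.zero_add] at h3
  exact h3

theorem acc_cln (h01 : r0 ≠ r1) (x N : ℕ)
    (hN : (C.step^[N] (q0, ini r0 r1 x e)).1 = C.hlt) (d : ℕ) : ∀ (b : Bool) (z : ℕ),
    N ≤ z + d → Acc ((rob C q0 r0 r1).st e) (cln q0 r0 r1 e b x z) := by
  induction d with
  | zero =>
    intro b z hz
    exact acc_sim z b q0 _ x _ 0 0 ⟨N, by omega, hN⟩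
  | succ d ih =>
    intro b z hz
    by_cases h : ∃ j ≤ z, (C.step^[j] (q0, ini r0 r1 x e)).1 = C.hlt
    · exact acc_sim z b q0 _ x _ 0 0 h
    · push Not at h
      exact acc_of_reach (reach_cln h01 b x z h) (ih (!b) (z + 1) (by omega))

theorem acc_all (h01 : r0 ≠ r1)
    (H : ∀ x, ∃ N, (C.step^[N] (q0, ini r0 r1 x e)).1 = C.hlt) :
    ∀ c, Acc ((rob C q0 r0 r1).st e) c := by
  have hc : ∀ b x z, Acc ((rob C q0 r0 r1).st e) (cln q0 r0 r1 e b x z) := by
    intro b x z
    obtain ⟨N, hN⟩ := H x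
    exact acc_cln h01 x N hN N b z (by omega)
  have h2 : ∀ b w, Acc ((rob C q0 r0 r1).st e) ((b, none), w) := by
    intro b w
    obtain ⟨a1, x1, u1, a2, x2, u2, rfl⟩ := exists_cf b w
    refine acc_of_reach (reach_clear _ b a1 x1 u1 a2 x2 u2 le_rfl) ?_
    set a' := (fun r => a2 r + (if r = r0 then x1 else 0) + (if r = r1 then e else 0)) with ha'
    by_cases h : ∃ j ≤ u2 + 1, (C.step^[j] (q0, a')).1 = C.hlt
    · exact acc_sim (u2 + 1) (!b) q0 _ _ _ 0 u1 h
    · push Not at h
      refine acc_of_reach (reach_sim (u2 + 1) (!b) q0 a' (x2 + x1) (fun _ => 0) 0 u1 h) ?_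
      refine acc_of_reach (reach_clear _ (!b) _ (x2 + x1) 0 (fun _ => 0) 0 (u1 + (u2 + 1))
        le_rfl) ?_
      have e1 : (fun r => (fun _ => 0 : Fin C.B → ℕ) r + (if r = r0 then x2 + x1 else 0) +
          (if r = r1 then e else 0)) = ini r0 r1 (x2 + x1) e := by
        funext r
        unfold ini
        by_cases hr : r = r0
        · subst hr; simp [h01]
        · simp [hr]
      rw [e1, Nat.zero_add, Bool.not_not]
      exact hc b (x2 + x1) (u1 + (u2 + 1) + 1)
  rintro ⟨⟨b, q⟩, w⟩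
  cases q with
  | none => exact h2 b w
  | some q =>
    obtain ⟨a1, x1, u1, a2, x2, u2, rfl⟩ := exists_cf b w
    by_cases h : ∃ j ≤ u1, (C.step^[j] (q, a1)).1 = C.hlt
    · exact acc_sim u1 b q a1 x1 a2 x2 u2 h
    · push Not at h
      exact acc_of_reach (reach_sim u1 b q a1 x1 a2 x2 u2 h) (h2 b _)

theorem acc_iff (h01 : r0 ≠ r1) :
    (∀ c, Acc ((rob C q0 r0 r1).st e) c) ↔
      ∀ x, ∃ N, (C.step^[N] (q0, ini r0 r1 x e)).1 = C.hlt := by
  refine ⟨?_, acc_all h01⟩
  intro H x
  by_contra hx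
  push Not at hx
  exact not_acc (M := rob C q0 r0 r1) (e := e) (fun c => ∃ b z, c = cln q0 r0 r1 e b x z) (by
    rintro c ⟨b, z, rfl⟩
    exact ⟨_, reach_cln h01 b x z (fun j _ => hx j), _, _, rfl⟩) (cln q0 r0 r1 e true x 0)
    ⟨_, _, rfl⟩ (H _)

end sem

open Nat.Partrec (Code)
open Encodable

/-- a `Π₂` predicate as the totality of a computable family of codes -/
theorem exists_total_code (B : ℕ → Prop) (hB : IsPi2 B) :
    ∃ e : ℕ → Code, (Computable fun n => encode (e n)) ∧
      ∀ n, B n ↔ ∀ x, ((e n).eval x).Dom := by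
  classical
  obtain ⟨R, hR, hBR⟩ := hB
  obtain ⟨f, hf, hfR⟩ : ∃ f : ℕ × ℕ × ℕ → Bool, Computable f ∧ ∀ a, R a ↔ f a = true := by
    obtain ⟨hdec, hcomp⟩ := hR
    exact ⟨fun a => @decide (R a) (hdec a), hcomp, fun a => by simp⟩
  have h1 : Partrec₂ fun (k : ℕ) (y : ℕ) =>
      (Part.some (f ((Nat.unpair k).1, (Nat.unpair k).2, y)) : Part Bool) := by
    refine Computable.partrec ?_
    refine hf.comp ?_
    refine Computable.pair ?_ (Computable.pair ?_ Computable.snd)
    · exact (Computable.fst.comp Computable.unpair).comp Computable.fst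
    · exact (Computable.snd.comp Computable.unpair).comp Computable.fst
  have h2 : Nat.Partrec fun k => Nat.rfind fun y =>
      (Part.some (f ((Nat.unpair k).1, (Nat.unpair k).2, y)) : Part Bool) :=
    Partrec.nat_iff.1 (Partrec.rfind h1)
  obtain ⟨c, hc⟩ := Code.exists_code.1 h2
  refine ⟨fun n => Code.curry c n, ?_, ?_⟩
  · exact Computable.encode.comp
      ((Code.primrec₂_curry.to_comp).comp (Computable.const c) Computable.id)
  · intro n
    rw [hBR]
    apply forall_congr'
    intro x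
    rw [Code.eval_curry, hc]
    constructor
    · rintro ⟨y, hy⟩
      rw [Nat.rfind_dom]
      refine ⟨y, ?_, ?_⟩
      · rw [Part.mem_some_iff]
        simp only [Nat.unpair_pair]
        exact ((hfR _).1 hy).symm
      · intro m _
        exact Part.some_dom _
    · intro h
      rw [Nat.rfind_dom] at h
      obtain ⟨y, hy, _⟩ := h
      refine ⟨y, ?_⟩
      rw [Part.mem_some_iff] at hy
      simp only [Nat.unpair_pair] at hy
      exact (hfR _).2 hy.symm

end M1

/-- Module M1. -/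
theorem collatzHard : CollatzHard := by
  intro B hB
  obtain ⟨e, he, hBe⟩ := M1.exists_total_code B hB
  obtain ⟨C, q0, r0, r1, h01, habs, hrun, hdom⟩ := Helper86.universal_CM
  haveI := C.fin
  obtain ⟨m, k, v, h, hm, hk, hv, hH⟩ :=
    M1.coding_layer (M1.rob C q0 r0 r1) ((true, none) : Bool × Option C.Q) he
  refine ⟨m, k, v, h, hm, hk, hv, ?_⟩
  intro n
  rw [hBe, hH, M1.acc_iff h01]
  apply forall_congr'
  intro x
  constructor
  · intro hd
    obtain ⟨y, hy⟩ := Part.dom_iff_mem.1 hd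
    obtain ⟨N, hN, _⟩ := hrun (e n) x y hy
    exact ⟨N, hN⟩
  · intro hN
    exact hdom (e n) x hN

end Pool.Agent.Work.MP_aa9b22_lc
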