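import Pool.Agent.Work.MP_aa9b22_lc.Defs

set_option autoImplicit false

namespace Pool.Agent.Work.MP_aa9b22_lc.M2

abbrev W : Type := List (ℕ × Bool)
abbrev PR : Type := ℕ × List W
abbrev Cert : Type := List (W × ℕ × Bool)

/-! ### certificates for the word problem -/

/-- one step of free reduction -/
def stp (x : ℕ × Bool) (L : W) : W :=
  List.casesOn L [x] fun hd tl =>
    if x.1 = hd.1 ∧ x.2 = !hd.2 then tl else x :: hd :: tl

def red (L : W) : W := L.foldr stp []

theorem red_eq (L : W) : red L = FreeGroup.reduce L := by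
  induction L with
  | nil => rfl
  | cons x L ih =>
    rw [FreeGroup.reduce.cons, ← ih]
    rfl

def relw (p : PR) (j : ℕ) : W := (p.2[j]?).getD [(p.1 + (j - p.2.length), true)]

def iv (w : W) : W := (w.map fun x => (x.1, !x.2)).reverse

theorem iv_eq (w : W) : iv w = FreeGroup.invRev w := rfl

def trm (p : PR) (t : W × ℕ × Bool) : W :=
  t.1 ++ ((bif t.2.2 then relw p t.2.1 else iv (relw p t.2.1)) ++ iv t.1)

def wrd (p : PR) (c : Cert) : W := c.flatMap (trm p)

def chk (p : PR) (w : W) (c : Cert) : Bool := decide (red w = red (wrd p c))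

theorem chk_iff (p : PR) (w : W) (c : Cert) :
    chk p w c = true ↔ FreeGroup.mk w = FreeGroup.mk (wrd p c) := by
  unfold chk
  rw [decide_eq_true_iff, red_eq, red_eq]
  exact ⟨FreeGroup.reduce.exact, FreeGroup.reduce.sound⟩

theorem mk_relw_mem (p : PR) (j : ℕ) : FreeGroup.mk (relw p j) ∈ rels p := by
  unfold relw
  by_cases h : j < p.2.length
  · rw [List.getElem?_eq_getElem h]
    right
    exact ⟨p.2[j], List.getElem_mem h, rfl⟩
  · rw [List.getElem?_eq_none (by omega)]
    left
    exact ⟨p.1 + (j - p.2.length), by omega, rfl⟩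

theorem exists_relw (p : PR) (r : FreeGroup ℕ) (hr : r ∈ rels p) :
    ∃ j, r = FreeGroup.mk (relw p j) := by
  rcases hr with ⟨i, hi, rfl⟩ | ⟨w, hw, rfl⟩
  · refine ⟨p.2.length + (i - p.1), ?_⟩
    unfold relw
    rw [List.getElem?_eq_none (by omega)]
    have : p.1 + (p.2.length + (i - p.1) - p.2.length) = i := by omega
    rw [this]
    rfl
  · obtain ⟨j, hj, rfl⟩ := List.getElem_of_mem hw
    refine ⟨j, ?_⟩
    unfold relw
    rw [List.getElem?_eq_getElem hj]
    rfl

theorem wrd_mem (p : PR) (c : Cert) : FreeGroup.mk (wrd p c) ∈ Subgroup.normalClosure (rels p) := by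
  induction c with
  | nil => exact one_mem _
  | cons t c ih =>
    have e1 : wrd p (t :: c) = trm p t ++ wrd p c := rfl
    rw [e1, ← FreeGroup.mul_mk]
    refine mul_mem ?_ ih
    unfold trm
    rw [← FreeGroup.mul_mk, ← FreeGroup.mul_mk, ← mul_assoc, iv_eq t.1, ← FreeGroup.inv_mk]
    apply Subgroup.normalClosure_normal.conj_mem
    have h1 : FreeGroup.mk (relw p t.2.1) ∈ Subgroup.normalClosure (rels p) :=
      Subgroup.subset_normalClosure (mk_relw_mem p _)
    cases t.2.2 with
    | true => exact h1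
    | false =>
      simp only [cond_false]
      rw [iv_eq, ← FreeGroup.inv_mk]
      exact inv_mem h1

theorem mem_wrd (p : PR) (g : FreeGroup ℕ) (hg : g ∈ Subgroup.normalClosure (rels p)) :
    ∃ c, g = FreeGroup.mk (wrd p c) := by
  unfold Subgroup.normalClosure at hg
  induction hg using Subgroup.closure_induction with
  | mem x hx =>
    obtain ⟨r, hr, hc⟩ := Group.mem_conjugatesOfSet_iff.1 hx
    obtain ⟨u, hu⟩ := isConj_iff.1 hc
    obtain ⟨j, rfl⟩ := exists_relw p r hr
    obtain ⟨u, rfl⟩ : ∃ L, u = FreeGroup.mk L := ⟨u.toWord, (FreeGroup.mk_toWord).symm⟩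
    refine ⟨[(u, j, true)], ?_⟩
    have e1 : wrd p [(u, j, true)] = u ++ (relw p j ++ iv u) := by
      simp [wrd, trm]
    rw [e1, ← FreeGroup.mul_mk, ← FreeGroup.mul_mk, ← mul_assoc, iv_eq u, ← FreeGroup.inv_mk, hu]
  | one => exact ⟨[], rfl⟩
  | mul x y _ _ hx hy =>
    obtain ⟨c, rfl⟩ := hx
    obtain ⟨d, rfl⟩ := hy
    refine ⟨c ++ d, ?_⟩
    unfold wrd
    rw [List.flatMap_append, ← FreeGroup.mul_mk]
  | inv x _ hx =>
    obtain ⟨c, rfl⟩ := hx
    clear * -
    induction c with
    | nil => exact ⟨[], by simp [wrd]⟩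
    | cons t c ih =>
      obtain ⟨d, hd⟩ := ih
      have e1 : wrd p (t :: c) = trm p t ++ wrd p c := rfl
      refine ⟨d ++ [(t.1, t.2.1, !t.2.2)], ?_⟩
      have e2 : wrd p (d ++ [(t.1, t.2.1, !t.2.2)]) = wrd p d ++ trm p (t.1, t.2.1, !t.2.2) := by
        simp [wrd]
      rw [e1, e2, ← FreeGroup.mul_mk, ← FreeGroup.mul_mk, mul_inv_rev, hd]
      congr 1
      unfold trm
      obtain ⟨u, j, b⟩ := t
      simp only [← FreeGroup.mul_mk, iv_eq, ← FreeGroup.inv_mk]
      cases b with
      | true => simp [FreeGroup.inv_mk]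
      | false => simp [FreeGroup.inv_mk]

theorem mem_iff (p : PR) (w : W) :
    FreeGroup.mk w ∈ Subgroup.normalClosure (rels p) ↔ ∃ c, chk p w c = true := by
  constructor
  · intro h
    obtain ⟨c, hc⟩ := mem_wrd p _ h
    exact ⟨c, (chk_iff p w c).2 hc⟩
  · rintro ⟨c, hc⟩
    rw [(chk_iff p w c).1 hc]
    exact wrd_mem p c

/-! ### computability of the checker -/

theorem primrec_stp : Primrec₂ stp := by
  have h : Primrec fun a : (ℕ × Bool) × W => (List.casesOn a.2 [a.1] fun hd tl =>
      if a.1.1 = hd.1 ∧ a.1.2 = !hd.2 then tl else a.1 :: hd :: tl : W) := by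
    refine Primrec.list_casesOn (f := fun a : (ℕ × Bool) × W => a.2)
      (g := fun a : (ℕ × Bool) × W => [a.1])
      (h := fun a b => if a.1.1 = b.1.1 ∧ a.1.2 = !b.1.2 then b.2 else a.1 :: b.1 :: b.2)
      Primrec.snd (Primrec.list_cons.comp Primrec.fst (Primrec.const [])) ?_
    have h1 : Primrec fun x : ((ℕ × Bool) × W) × ((ℕ × Bool) × W) => x.1.1 :=
      Primrec.fst.comp Primrec.fst
    have h2 : Primrec fun x : ((ℕ × Bool) × W) × ((ℕ × Bool) × W) => x.2.1 :=
      Primrec.fst.comp Primrec.snd
    have h3 : Primrec fun x : ((ℕ × Bool) × W) × ((ℕ × Bool) × W) => x.2.2 :=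
      Primrec.snd.comp Primrec.snd
    refine Primrec.ite (PrimrecPred.and ?_ ?_) h3 (Primrec.list_cons.comp h1
      (Primrec.list_cons.comp h2 h3))
    · exact Primrec.eq.comp (Primrec.fst.comp h1) (Primrec.fst.comp h2)
    · exact Primrec.eq.comp (Primrec.snd.comp h1) (Primrec.not.comp (Primrec.snd.comp h2))
  exact h

theorem primrec_red : Primrec red := by
  have h := Primrec.list_foldr (f := fun L : W => L) (g := fun _ : W => ([] : W))
    (h := fun _ b => stp b.1 b.2) Primrec.id (Primrec.const [])
    (primrec_stp.comp (Primrec.fst.comp Primrec.snd) (Primrec.snd.comp Primrec.snd))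
  exact h

theorem primrec_relw : Primrec₂ relw := by
  have h1 : Primrec fun a : PR × ℕ => (a.1.2[a.2]? : Option W) :=
    Primrec.list_getElem?.comp (Primrec.snd.comp Primrec.fst) Primrec.snd
  have h2 : Primrec fun a : PR × ℕ => ([(a.1.1 + (a.2 - a.1.2.length), true)] : W) := by
    refine Primrec.list_cons.comp (Primrec.pair ?_ (Primrec.const true)) (Primrec.const [])
    refine Primrec.nat_add.comp (Primrec.fst.comp Primrec.fst) ?_
    exact Primrec.nat_sub.comp Primrec.snd
      (Primrec.list_length.comp (Primrec.snd.comp Primrec.fst))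
  exact Primrec.option_getD.comp h1 h2

theorem primrec_iv : Primrec iv := by
  refine Primrec.list_reverse.comp ?_
  refine Primrec.list_map Primrec.id ?_
  exact Primrec.pair (Primrec.fst.comp Primrec.snd)
    (Primrec.not.comp (Primrec.snd.comp Primrec.snd))

theorem primrec_trm : Primrec₂ trm := by
  have h1 : Primrec fun a : PR × (W × ℕ × Bool) => a.2.1 := Primrec.fst.comp Primrec.snd
  have h2 : Primrec fun a : PR × (W × ℕ × Bool) => relw a.1 a.2.2.1 :=
    primrec_relw.comp Primrec.fst (Primrec.fst.comp (Primrec.snd.comp Primrec.snd))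
  have h3 : Primrec fun a : PR × (W × ℕ × Bool) => a.2.2.2 :=
    Primrec.snd.comp (Primrec.snd.comp Primrec.snd)
  exact Primrec.list_append.comp h1 (Primrec.list_append.comp
    (Primrec.cond h3 h2 (primrec_iv.comp h2)) (primrec_iv.comp h1))

theorem primrec_wrd : Primrec₂ wrd := by
  have h : Primrec fun a : PR × Cert => a.2.flatMap fun t => trm a.1 t :=
    Primrec.list_flatMap Primrec.snd
      (primrec_trm.comp (Primrec.fst.comp Primrec.fst) Primrec.snd)
  exact h

theorem primrec_chk : Primrec fun a : (PR × W) × Cert => chk a.1.1 a.1.2 a.2 := by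
  have h1 : Primrec fun a : (PR × W) × Cert => red a.1.2 :=
    primrec_red.comp (Primrec.snd.comp Primrec.fst)
  have h2 : Primrec fun a : (PR × W) × Cert => red (wrd a.1.1 a.2) :=
    primrec_red.comp (primrec_wrd.comp (Primrec.fst.comp Primrec.fst) Primrec.snd)
  exact (Primrec.beq.comp h1 h2).of_eq fun a => rfl

/-! ### the relation -/

/-- `x = (s, w, i)`, `y = (j, c)` -/
def body (p : PR) (x : List Cert × W × ℕ) (y : ℕ × Cert) : Bool :=
  (decide (y.1 < p.1) && !(chk p [(y.1, true)] (x.1.getD y.1 []))) &&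
    (chk p x.2.1 y.2 || chk (p.1, x.2.1 :: p.2) [(x.2.2, true)] y.2)

theorem primrec_body : Primrec fun a : PR × (List Cert × W × ℕ) × (ℕ × Cert) =>
    body a.1 a.2.1 a.2.2 := by
  have hp : Primrec fun a : PR × (List Cert × W × ℕ) × (ℕ × Cert) => a.1 := Primrec.fst
  have hx : Primrec fun a : PR × (List Cert × W × ℕ) × (ℕ × Cert) => a.2.1 :=
    Primrec.fst.comp Primrec.snd
  have hy : Primrec fun a : PR × (List Cert × W × ℕ) × (ℕ × Cert) => a.2.2 :=
    Primrec.snd.comp Primrec.snd
  have hj := Primrec.fst.comp hy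
  have hc := Primrec.snd.comp hy
  have hs := Primrec.fst.comp hx
  have hw := Primrec.fst.comp (Primrec.snd.comp hx)
  have hi := Primrec.snd.comp (Primrec.snd.comp hx)
  have hone : ∀ {f : PR × (List Cert × W × ℕ) × (ℕ × Cert) → ℕ}, Primrec f →
      Primrec fun a => ([(f a, true)] : W) := fun hf =>
    Primrec.list_cons.comp (Primrec.pair hf (Primrec.const true)) (Primrec.const [])
  refine Primrec.and.comp (Primrec.and.comp ?_ (Primrec.not.comp ?_)) (Primrec.or.comp ?_ ?_)
  · exact (PrimrecPred.decide (Primrec.nat_lt.comp hj (Primrec.fst.comp hp)))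
  · exact primrec_chk.comp (Primrec.pair (Primrec.pair hp (hone hj))
      ((Primrec.list_getD []).comp hs hj))
  · exact primrec_chk.comp (Primrec.pair (Primrec.pair hp hw) hc)
  · exact primrec_chk.comp (Primrec.pair (Primrec.pair (Primrec.pair (Primrec.fst.comp hp)
      (Primrec.list_cons.comp hw (Primrec.snd.comp hp))) (hone hi)) hc)

section gen

variable {α β γ : Type} [Primcodable α] [Primcodable β] [Primcodable γ]

/-- a relation on codes from a relation on decoded objects -/
def RG (f : α × β × γ → Bool) (a : ℕ × ℕ × ℕ) : Bool :=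
  Option.casesOn (Encodable.decode a.1 : Option α) false fun p =>
    Option.casesOn (Encodable.decode a.2.1 : Option β) true fun x =>
      Option.casesOn (Encodable.decode a.2.2 : Option γ) false fun y => f (p, x, y)

theorem primrec_RG {f : α × β × γ → Bool} (hf : Primrec f) : Primrec (RG f) := by
  refine Primrec.option_casesOn (o := fun a : ℕ × ℕ × ℕ => (Encodable.decode a.1 : Option α))
    (f := fun _ => false) (g := fun a p =>
      Option.casesOn (Encodable.decode a.2.1 : Option β) true fun x =>
      Option.casesOn (Encodable.decode a.2.2 : Option γ) false fun y =>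
        f (p, x, y)) (Primrec.decode.comp Primrec.fst) (Primrec.const false) ?_
  refine Primrec.option_casesOn
    (o := fun a : (ℕ × ℕ × ℕ) × α => (Encodable.decode a.1.2.1 : Option β))
    (f := fun _ => true) (g := fun a x =>
      Option.casesOn (Encodable.decode a.1.2.2 : Option γ) false fun y =>
        f (a.2, x, y))
    (Primrec.decode.comp (Primrec.fst.comp (Primrec.snd.comp Primrec.fst)))
    (Primrec.const true) ?_
  refine Primrec.option_casesOn
    (o := fun a : ((ℕ × ℕ × ℕ) × α) × β => (Encodable.decode a.1.1.2.2 : Option γ))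
    (f := fun _ => false) (g := fun a y => f (a.1.2, a.2, y))
    (Primrec.decode.comp (Primrec.snd.comp (Primrec.snd.comp (Primrec.fst.comp Primrec.fst))))
    (Primrec.const false) ?_
  exact hf.comp (Primrec.pair (Primrec.snd.comp (Primrec.fst.comp Primrec.fst))
    (Primrec.pair (Primrec.snd.comp Primrec.fst) Primrec.snd))

theorem computablePred_of {f : ℕ × ℕ × ℕ → Bool} (hf : Primrec f) :
    ComputablePred fun a => f a = true := by
  refine ⟨fun a => inferInstance, ?_⟩
  exact hf.to_comp.of_eq fun a => by simp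

theorem pi2_RG {f : α × β × γ → Bool} (n : ℕ) :
    (∃ p : α, Encodable.decode n = some p ∧ ∀ x, ∃ y, f (p, x, y) = true) ↔
      ((Encodable.decode n : Option α).isSome ∧ ∀ x, ∃ y, RG f (n, x, y) = true) := by
  constructor
  · rintro ⟨p, hp, hs⟩
    refine ⟨by rw [hp]; rfl, ?_⟩
    intro x
    cases hx : (Encodable.decode x : Option β) with
    | none =>
      refine ⟨0, ?_⟩
      unfold RG
      simp only [hp, hx]
    | some x' =>
      obtain ⟨y, hy⟩ := hs x'
      refine ⟨Encodable.encode y, ?_⟩
      unfold RG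
      simp only [hp, hx, Encodable.encodek]
      exact hy
  · rintro ⟨h1, H⟩
    cases hp : (Encodable.decode n : Option α) with
    | none => rw [hp] at h1; exact absurd h1 (by simp)
    | some p =>
      refine ⟨p, rfl, ?_⟩
      intro x
      obtain ⟨y, hy⟩ := H (Encodable.encode x)
      unfold RG at hy
      simp only [hp, Encodable.encodek] at hy
      cases hyd : (Encodable.decode y : Option γ) with
      | none => rw [hyd] at hy; exact absurd hy (by simp)
      | some y' => rw [hyd] at hy; exact ⟨y', hy⟩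

theorem isSome_of_RG {f : α × β × γ → Bool} (n : ℕ) (H : ∀ x, ∃ y, RG f (n, x, y) = true) :
    (Encodable.decode n : Option α).isSome := by
  obtain ⟨y, hy⟩ := H 0
  unfold RG at hy
  cases hp : (Encodable.decode n : Option α) with
  | none => simp only [hp] at hy; exact absurd hy (by simp)
  | some p => rfl

end gen

/-! ### simplicity -/

theorem rels_cons (p : PR) (w : W) : rels (p.1, w :: p.2) = rels p ∪ {FreeGroup.mk w} := by
  ext r
  unfold rels
  simp only [Set.mem_union, Set.mem_ofPred_eq, List.mem_cons, Set.mem_singleton_iff]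
  constructor
  · rintro (h | ⟨v, rfl | hv, rfl⟩)
    · exact Or.inl (Or.inl h)
    · exact Or.inr rfl
    · exact Or.inl (Or.inr ⟨v, hv, rfl⟩)
  · rintro ((h | ⟨v, hv, rfl⟩) | rfl)
    · exact Or.inl h
    · exact Or.inr ⟨v, Or.inr hv, rfl⟩
    · exact Or.inr ⟨w, Or.inl rfl, rfl⟩

theorem eq_top_iff_gen (N : Subgroup (FreeGroup ℕ)) :
    N = ⊤ ↔ ∀ i : ℕ, FreeGroup.of i ∈ N := by
  constructor
  · rintro rfl i; trivial
  · intro h
    rw [eq_top_iff, ← FreeGroup.closure_range_of, Subgroup.closure_le]
    rintro _ ⟨i, rfl⟩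
    exact h i

theorem simple_iff (p : PR) : IsSimpleGroup (PresentedGroup (rels p)) ↔
    (∃ i < p.1, FreeGroup.of i ∉ Subgroup.normalClosure (rels p)) ∧
    ∀ (w : W) (i : ℕ), FreeGroup.mk w ∈ Subgroup.normalClosure (rels p) ∨
      FreeGroup.of i ∈ Subgroup.normalClosure (rels (p.1, w :: p.2)) := by
  set N := Subgroup.normalClosure (rels p) with hN
  have hNn : N.Normal := Subgroup.normalClosure_normal
  have hbig : ∀ i, p.1 ≤ i → FreeGroup.of i ∈ N := fun i hi =>
    Subgroup.subset_normalClosure (Or.inl ⟨i, hi, rfl⟩)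
  change IsSimpleGroup (FreeGroup ℕ ⧸ N) ↔ _
  constructor
  · intro hs
    have hnt : N ≠ ⊤ := by
      intro h
      have h1 : Nontrivial (FreeGroup ℕ ⧸ N) := hs.toNontrivial
      obtain ⟨x, hx⟩ := exists_ne (1 : FreeGroup ℕ ⧸ N)
      obtain ⟨g, rfl⟩ := QuotientGroup.mk_surjective x
      apply hx
      rw [QuotientGroup.eq_one_iff, h]
      trivial
    refine ⟨?_, ?_⟩
    · by_contra hcon
      push Not at hcon
      apply hnt
      rw [eq_top_iff_gen]
      intro i
      by_cases hi : i < p.1
      · exact hcon i hi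
      · exact hbig i (by omega)
    · intro w i
      by_cases hw : FreeGroup.mk w ∈ N
      · exact Or.inl hw
      · right
        set K := Subgroup.normalClosure (rels (p.1, w :: p.2)) with hK
        have hKn : K.Normal := Subgroup.normalClosure_normal
        have hNK : N ≤ K := by
          apply Subgroup.normalClosure_mono
          rw [rels_cons]
          exact Set.subset_union_left
        have hwK : FreeGroup.mk w ∈ K := by
          apply Subgroup.subset_normalClosure
          rw [rels_cons]
          exact Or.inr rfl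
        have hmap : (K.map (QuotientGroup.mk' N)).Normal :=
          hKn.map _ (QuotientGroup.mk'_surjective N)
        rcases hs.eq_bot_or_eq_top_of_normal _ hmap with h | h
        · exfalso
          apply hw
          have h1 : (QuotientGroup.mk' N) (FreeGroup.mk w) ∈ K.map (QuotientGroup.mk' N) :=
            ⟨_, hwK, rfl⟩
          rw [h, Subgroup.mem_bot] at h1
          exact (QuotientGroup.eq_one_iff _).1 h1
        · have h1 : (QuotientGroup.mk' N) (FreeGroup.of i) ∈ K.map (QuotientGroup.mk' N) := by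
            rw [h]; trivial
          obtain ⟨g, hg, hgi⟩ := h1
          have h2 : g⁻¹ * FreeGroup.of i ∈ N := QuotientGroup.eq.1 hgi
          have h3 := mul_mem hg (hNK h2)
          simpa using h3
  · rintro ⟨⟨i, _, hi⟩, H⟩
    have hnt : Nontrivial (FreeGroup ℕ ⧸ N) := by
      refine ⟨⟨(QuotientGroup.mk' N) (FreeGroup.of i), 1, ?_⟩⟩
      intro h
      exact hi ((QuotientGroup.eq_one_iff _).1 h)
    refine ⟨?_⟩
    intro K hK
    by_cases hb : K = ⊥
    · exact Or.inl hb
    · right
      obtain ⟨k, hk, hk1⟩ : ∃ k : FreeGroup ℕ ⧸ N, k ∈ K ∧ k ≠ 1 := by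
        obtain ⟨⟨k, hk⟩, hk1⟩ := (Subgroup.ne_bot_iff_exists_ne_one).1 hb
        exact ⟨k, hk, fun h => hk1 (Subtype.ext h)⟩
      obtain ⟨g, hg⟩ := QuotientGroup.mk_surjective k
      obtain ⟨w, rfl⟩ : ∃ L, g = FreeGroup.mk L := ⟨g.toWord, (FreeGroup.mk_toWord).symm⟩
      have hwN : FreeGroup.mk w ∉ N := by
        intro h
        apply hk1
        rw [← hg]
        exact (QuotientGroup.eq_one_iff _).2 h
      have hcom : (K.comap (QuotientGroup.mk' N)).Normal := hK.comap _
      have hle : Subgroup.normalClosure (rels (p.1, w :: p.2)) ≤ K.comap (QuotientGroup.mk' N) := by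
        apply Subgroup.normalClosure_le_normal
        rw [rels_cons]
        rintro r (hr | hr)
        · have : r ∈ N := Subgroup.subset_normalClosure hr
          show (QuotientGroup.mk' N) r ∈ K
          have h1 : (QuotientGroup.mk' N) r = 1 := (QuotientGroup.eq_one_iff _).2 this
          rw [h1]
          exact one_mem _
        · rw [Set.mem_singleton_iff] at hr
          subst hr
          show (QuotientGroup.mk' N) (FreeGroup.mk w) ∈ K
          have h1 : (QuotientGroup.mk' N) (FreeGroup.mk w) = k := hg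
          rw [h1]
          exact hk
      have htop : K.comap (QuotientGroup.mk' N) = ⊤ := by
        rw [eq_top_iff_gen]
        intro j
        exact hle ((H w j).resolve_left hwN)
      rw [eq_top_iff]
      rintro x _
      obtain ⟨g, rfl⟩ := QuotientGroup.mk_surjective x
      have : g ∈ K.comap (QuotientGroup.mk' N) := by rw [htop]; trivial
      exact this

theorem simple_iff_body (p : PR) : IsSimpleGroup (PresentedGroup (rels p)) ↔
    ∀ x : List Cert × W × ℕ, ∃ y : ℕ × Cert, body p x y = true := by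
  rw [simple_iff]
  constructor
  · rintro ⟨⟨j, hj, hjN⟩, H⟩ ⟨s, w, i⟩
    have h1 : ∃ c, (chk p w c || chk (p.1, w :: p.2) [(i, true)] c) = true := by
      rcases H w i with h | h
      · obtain ⟨c, hc⟩ := (mem_iff p w).1 h
        exact ⟨c, by simp [hc]⟩
      · obtain ⟨c, hc⟩ := (mem_iff (p.1, w :: p.2) [(i, true)]).1 h
        exact ⟨c, by simp [hc]⟩
    obtain ⟨c, hc⟩ := h1
    refine ⟨(j, c), ?_⟩
    unfold body
    simp only [hc, Bool.and_true, Bool.and_eq_true, decide_eq_true_eq, Bool.not_eq_true']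
    refine ⟨hj, ?_⟩
    cases hch : chk p [(j, true)] (s.getD j []) with
    | false => rfl
    | true => exact absurd ((mem_iff p [(j, true)]).2 ⟨_, hch⟩) hjN
  · intro H
    refine ⟨?_, ?_⟩
    · by_contra hcon
      push Not at hcon
      have h1 : ∀ i, ∃ c, i < p.1 → chk p [(i, true)] c = true := by
        intro i
        by_cases hi : i < p.1
        · obtain ⟨c, hc⟩ := (mem_iff p [(i, true)]).1 (hcon i hi)
          exact ⟨c, fun _ => hc⟩
        · exact ⟨[], fun h => absurd h hi⟩
      choose f hf using h1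
      obtain ⟨⟨j, c⟩, hy⟩ := H ((List.range p.1).map f, [], 0)
      unfold body at hy
      simp only [Bool.and_eq_true, decide_eq_true_eq, Bool.not_eq_true'] at hy
      obtain ⟨⟨hj, hc⟩, _⟩ := hy
      have e1 : ((List.range p.1).map f).getD j [] = f j := by
        simp [List.getD, hj]
      rw [e1, hf j hj] at hc
      exact absurd hc (by simp)
    · intro w i
      obtain ⟨⟨j, c⟩, hy⟩ := H ([], w, i)
      unfold body at hy
      simp only [Bool.and_eq_true, Bool.or_eq_true] at hy
      rcases hy.2 with h | h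
      · exact Or.inl ((mem_iff p w).2 ⟨c, h⟩)
      · exact Or.inr ((mem_iff (p.1, w :: p.2) [(i, true)]).2 ⟨c, h⟩)

end M2

/-- Module M2. -/
theorem simpUpper : SimpUpper := by
  refine ⟨fun a => M2.RG (fun b : M2.PR × (List M2.Cert × M2.W × ℕ) × (ℕ × M2.Cert) =>
    M2.body b.1 b.2.1 b.2.2) a = true,
    M2.computablePred_of (M2.primrec_RG M2.primrec_body), ?_⟩
  intro n
  have h := M2.pi2_RG (f := fun b : M2.PR × (List M2.Cert × M2.W × ℕ) × (ℕ × M2.Cert) =>
    M2.body b.1 b.2.1 b.2.2) n
  constructor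
  · rintro ⟨p, hp, hs⟩
    exact (h.1 ⟨p, hp, (M2.simple_iff_body p).1 hs⟩).2
  · intro H
    obtain ⟨p, hp, hs⟩ := h.2 ⟨M2.isSome_of_RG n H, H⟩
    exact ⟨p, hp, (M2.simple_iff_body p).2 hs⟩

end Pool.Agent.Work.MP_aa9b22_lc
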