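import Pool.Agent.Work.MP_aa9b22_lc.Spec2
import Mathlib

set_option autoImplicit false

/-!
Module M5: a faithful wreath recursion of the free group of rank two on four letters,
through the Sanov embedding into integer matrices and the commensurator.
-/

namespace Pool.Agent.Work.MP_aa9b22_lc

namespace M5

open Matrix
open scoped Pointwise

/-- integer matrices of determinant one -/
abbrev SL2 := Matrix.SpecialLinearGroup (Fin 2) ℤ

def mT : SL2 := ⟨!![1, 2; 0, 1], by decide⟩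
def mA : SL2 := ⟨!![1, 0; 2, 1], by decide⟩

/-- images of the two generators -/
def gens : Fin 2 → SL2 := ![mT, mA]

/-- The Sanov representation. -/
def theta : FreeGroup (Fin 2) →* SL2 := FreeGroup.lift gens

abbrev gt : FreeGroup (Fin 2) := FreeGroup.of 0
abbrev ga : FreeGroup (Fin 2) := FreeGroup.of 1

theorem theta_gt : theta gt = mT := by simp [theta, gens]
theorem theta_ga : theta ga = mA := by simp [theta, gens]

/-! ### Injectivity -/

/-- ping-pong sets -/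
def setX : Fin 2 → Set SL2 :=
  ![{g | g.1 0 0 * g.1 1 0 ≥ g.1 1 0 ^ 2},
    {g | 0 < g.1 0 0 * g.1 1 0 ∧ g.1 0 0 * g.1 1 0 < g.1 1 0 ^ 2}]

def setY : Fin 2 → Set SL2 :=
  ![{g | g.1 0 0 * g.1 1 0 < - g.1 1 0 ^ 2},
    {g | -g.1 1 0 ^ 2 ≤ g.1 0 0 * g.1 1 0 ∧ g.1 0 0 * g.1 1 0 ≤ 0 ∧ g.1 1 0 ≠ 0}]

theorem det_ne (g : SL2) : g.1 0 0 ≠ 0 ∨ g.1 1 0 ≠ 0 := by
  by_contra h
  push Not at h
  have hd := g.2
  rw [Matrix.det_fin_two, h.1, h.2] at hd
  simp at hd

theorem mT_mul_0 (g : SL2) : (mT * g).1 0 0 = g.1 0 0 + 2 * g.1 1 0 := by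
  simp [mT, Matrix.mul_apply, Fin.sum_univ_two]
theorem mT_mul_1 (g : SL2) : (mT * g).1 1 0 = g.1 1 0 := by
  simp [mT, Matrix.mul_apply, Fin.sum_univ_two]
theorem mA_mul_0 (g : SL2) : (mA * g).1 0 0 = g.1 0 0 := by
  simp [mA, Matrix.mul_apply, Fin.sum_univ_two]
theorem mA_mul_1 (g : SL2) : (mA * g).1 1 0 = 2 * g.1 0 0 + g.1 1 0 := by
  simp [mA, Matrix.mul_apply, Fin.sum_univ_two]

theorem mT_inv_mul_0 (g : SL2) : (mT⁻¹ * g).1 0 0 = g.1 0 0 - 2 * g.1 1 0 := by
  simp [mT, Matrix.mul_apply, Fin.sum_univ_two, Matrix.adjugate_fin_two]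
  ring
theorem mT_inv_mul_1 (g : SL2) : (mT⁻¹ * g).1 1 0 = g.1 1 0 := by
  simp [mT, Matrix.mul_apply, Fin.sum_univ_two, Matrix.adjugate_fin_two]
theorem mA_inv_mul_0 (g : SL2) : (mA⁻¹ * g).1 0 0 = g.1 0 0 := by
  simp [mA, Matrix.mul_apply, Fin.sum_univ_two, Matrix.adjugate_fin_two]
theorem mA_inv_mul_1 (g : SL2) : (mA⁻¹ * g).1 1 0 = -2 * g.1 0 0 + g.1 1 0 := by
  simp [mA, Matrix.mul_apply, Fin.sum_univ_two, Matrix.adjugate_fin_two]

theorem pp_A (x y : ℤ) (hne : x ≠ 0 ∨ y ≠ 0) (h : ¬ (-y ^ 2 ≤ x * y ∧ x * y ≤ 0 ∧ y ≠ 0)) :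
    0 < x * (2 * x + y) ∧ x * (2 * x + y) < (2 * x + y) ^ 2 := by
  by_cases hy : y = 0
  · subst hy
    have hx : x ≠ 0 := by simpa using hne
    have : 0 < x ^ 2 := by positivity
    constructor <;> nlinarith
  · by_cases h1 : 0 < x * y
    · constructor <;> nlinarith [sq_nonneg x, sq_nonneg y, sq_nonneg (x + y)]
    · have h2 : x * y < -y ^ 2 := by
        by_contra h3
        exact h ⟨by linarith, by linarith, hy⟩
      have hx : y ^ 2 < x ^ 2 := by
        have hy2 : 0 < y ^ 2 := by positivity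
        by_contra h4
        push Not at h4
        nlinarith [sq_nonneg (x + y)]
      have h5 : x ^ 2 + x * y > 0 := by
        nlinarith [sq_nonneg (x + y)]
      constructor
      · nlinarith [sq_nonneg x]
      · nlinarith [sq_nonneg x]

theorem pp_A' (x y : ℤ) (hne : x ≠ 0 ∨ y ≠ 0) (h : ¬ (0 < x * y ∧ x * y < y ^ 2)) :
    -(-2 * x + y) ^ 2 ≤ x * (-2 * x + y) ∧ x * (-2 * x + y) ≤ 0 ∧ (-2 * x + y) ≠ 0 := by
  by_cases hx : x = 0
  · subst hx
    have hy : y ≠ 0 := by simpa using hne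
    refine ⟨by simp; positivity, by simp, by simpa using hy⟩
  · have hx2 : 0 < x ^ 2 := by positivity
    by_cases h1 : 0 < x * y
    · have h2 : y ^ 2 ≤ x * y := by
        by_contra h3
        exact h ⟨h1, by linarith⟩
      have h3 : x * y ≤ x ^ 2 := by
        by_contra h4
        push Not at h4
        nlinarith [sq_nonneg (x - y)]
      refine ⟨by nlinarith, by nlinarith, ?_⟩
      intro h4
      have : y = 2 * x := by linarith
      subst this
      nlinarith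
    · push Not at h1
      refine ⟨by nlinarith [sq_nonneg y], by nlinarith, ?_⟩
      intro h4
      have : y = 2 * x := by linarith
      subst this
      nlinarith

theorem theta_injective : Function.Injective theta := by
  unfold theta
  refine FreeGroup.injective_lift_of_ping_pong gens setX setY ?_ ?_ ?_ ?_ ?_ ?_
  · intro i
    fin_cases i
    · exact ⟨1, by simp [setX]⟩
    · exact ⟨mA, by simp [setX, mA]⟩
  · intro i j hij
    rw [Function.onFun, Set.disjoint_left]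
    fin_cases i <;> fin_cases j <;> simp [setX] at hij ⊢ <;> intro a <;> intros <;> linarith
  · intro i j hij
    rw [Function.onFun, Set.disjoint_left]
    fin_cases i <;> fin_cases j <;> simp [setY] at hij ⊢ <;> intro a <;> intros <;> linarith
  · intro i j
    rw [Set.disjoint_left]
    fin_cases i <;> fin_cases j <;> simp [setX, setY] <;> intro a <;> intros <;>
      nlinarith [sq_nonneg (a.1 1 0)]
  · intro i
    rintro _ ⟨g, hg, rfl⟩
    fin_cases i
    · simp only [setY, setX, Set.mem_compl_iff, Set.mem_ofPred_eq, Fin.zero_eta, Matrix.cons_val_zero,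
        gens, smul_eq_mul, mT_mul_0, mT_mul_1] at hg ⊢
      nlinarith
    · change 0 < (mA * g).1 0 0 * (mA * g).1 1 0 ∧
        (mA * g).1 0 0 * (mA * g).1 1 0 < (mA * g).1 1 0 ^ 2
      rw [mA_mul_0, mA_mul_1]
      exact pp_A _ _ (det_ne g) hg
  · intro i
    rintro _ ⟨g, hg, rfl⟩
    fin_cases i
    · simp only [setY, setX, Set.mem_compl_iff, Set.mem_ofPred_eq, Fin.zero_eta, Matrix.cons_val_zero,
        gens, smul_eq_mul, Pi.inv_apply, mT_inv_mul_0, mT_inv_mul_1] at hg ⊢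
      nlinarith
    · change -(mA⁻¹ * g).1 1 0 ^ 2 ≤ (mA⁻¹ * g).1 0 0 * (mA⁻¹ * g).1 1 0 ∧
        (mA⁻¹ * g).1 0 0 * (mA⁻¹ * g).1 1 0 ≤ 0 ∧ (mA⁻¹ * g).1 1 0 ≠ 0
      rw [mA_inv_mul_0, mA_inv_mul_1]
      exact pp_A' _ _ (det_ne g) hg

/-! ### The image lies in the Sanov group -/

theorem sanov (g : FreeGroup (Fin 2)) :
    (theta g).1 0 0 % 4 = 1 ∧ (theta g).1 0 1 % 2 = 0 ∧ (theta g).1 1 0 % 2 = 0 ∧
      (theta g).1 1 1 % 4 = 1 := by
  have hmul : ∀ a b : SL2,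
      (a.1 0 0 % 4 = 1 ∧ a.1 0 1 % 2 = 0 ∧ a.1 1 0 % 2 = 0 ∧ a.1 1 1 % 4 = 1) →
      (b.1 0 0 % 4 = 1 ∧ b.1 0 1 % 2 = 0 ∧ b.1 1 0 % 2 = 0 ∧ b.1 1 1 % 4 = 1) →
      ((a * b).1 0 0 % 4 = 1 ∧ (a * b).1 0 1 % 2 = 0 ∧ (a * b).1 1 0 % 2 = 0 ∧
        (a * b).1 1 1 % 4 = 1) := by
    intro a b ha hb
    obtain ⟨a1, a2, a3, a4⟩ := ha
    obtain ⟨b1, b2, b3, b4⟩ := hb
    simp only [Matrix.SpecialLinearGroup.coe_mul, Matrix.mul_apply, Fin.sum_univ_two]
    generalize a.1 0 0 = p at *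
    generalize a.1 0 1 = q at *
    generalize a.1 1 0 = r at *
    generalize a.1 1 1 = s at *
    generalize b.1 0 0 = p' at *
    generalize b.1 0 1 = q' at *
    generalize b.1 1 0 = r' at *
    generalize b.1 1 1 = s' at *
    obtain ⟨P, rfl⟩ : ∃ k, p = 4 * k + 1 := ⟨p / 4, by omega⟩
    obtain ⟨Q, rfl⟩ : ∃ k, q = 2 * k := ⟨q / 2, by omega⟩
    obtain ⟨R, rfl⟩ : ∃ k, r = 2 * k := ⟨r / 2, by omega⟩
    obtain ⟨S, rfl⟩ : ∃ k, s = 4 * k + 1 := ⟨s / 4, by omega⟩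
    obtain ⟨P', rfl⟩ : ∃ k, p' = 4 * k + 1 := ⟨p' / 4, by omega⟩
    obtain ⟨Q', rfl⟩ : ∃ k, q' = 2 * k := ⟨q' / 2, by omega⟩
    obtain ⟨R', rfl⟩ : ∃ k, r' = 2 * k := ⟨r' / 2, by omega⟩
    obtain ⟨S', rfl⟩ : ∃ k, s' = 4 * k + 1 := ⟨s' / 4, by omega⟩
    refine ⟨?_, ?_, ?_, ?_⟩
    · have : (4 * P + 1) * (4 * P' + 1) + 2 * Q * (2 * R') = 4 * (4 * P * P' + P + P' + Q * R') + 1 := by
        ring
      omega
    · have : (4 * P + 1) * (2 * Q') + 2 * Q * (4 * S' + 1) = 2 * ((4 * P + 1) * Q' + Q * (4 * S' + 1)) := by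
        ring
      omega
    · have : 2 * R * (4 * P' + 1) + (4 * S + 1) * (2 * R') = 2 * (R * (4 * P' + 1) + (4 * S + 1) * R') := by
        ring
      omega
    · have : 2 * R * (2 * Q') + (4 * S + 1) * (4 * S' + 1) = 4 * (4 * S * S' + S + S' + R * Q') + 1 := by
        ring
      omega
  induction g using FreeGroup.induction_on with
  | C1 => simp
  | of i => fin_cases i <;> simp [theta, gens, mT, mA]
  | inv_of i _ =>
      fin_cases i <;> simp [theta, gens, mT, mA, Matrix.adjugate_fin_two]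
  | mul x y hx hy => rw [map_mul]; exact hmul _ _ hx hy

theorem eq_one_of_diag (g : FreeGroup (Fin 2)) (h1 : (theta g).1 1 0 = 0) (h2 : (theta g).1 0 1 = 0) :
    g = 1 := by
  have hd := (theta g).2
  rw [Matrix.det_fin_two, h1, h2] at hd
  obtain ⟨s1, -, -, s4⟩ := sanov g
  have h3 : (theta g).1 0 0 = 1 ∧ (theta g).1 1 1 = 1 := by
    have h4 : (theta g).1 0 0 * (theta g).1 1 1 = 1 := by linarith
    rcases Int.eq_one_or_neg_one_of_mul_eq_one' h4 with h5 | h5
    · exact h5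
    · rw [h5.1] at s1
      norm_num at s1
  apply theta_injective
  rw [map_one]
  ext i j
  fin_cases i <;> fin_cases j
  · simpa using h3.1
  · simpa using h2
  · simpa using h1
  · simpa using h3.2

/-! ### The wreath recursion -/

def pA : Equiv.Perm (Fin 4) where
  toFun := ![1, 2, 0, 3]
  invFun := ![2, 0, 1, 3]
  left_inv := by decide
  right_inv := by decide

def pT : Equiv.Perm (Fin 4) where
  toFun := ![0, 2, 3, 1]
  invFun := ![0, 3, 1, 2]
  left_inv := by decide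
  right_inv := by decide

def w1 : FreeGroup (Fin 2) := ga⁻¹ * gt * ga * ga * ga * gt⁻¹ * ga
def w2 : FreeGroup (Fin 2) := gt⁻¹ * ga * ga * gt⁻¹ * ga
def w3 : FreeGroup (Fin 2) := ga⁻¹ * gt * ga⁻¹ * gt * ga⁻¹ * gt

def wT : Wr (FreeGroup (Fin 2)) (Fin 4) := ⟨pT, ![gt ^ 3, w3, 1, w2]⟩
def wA : Wr (FreeGroup (Fin 2)) (Fin 4) := ⟨pA, ![1, 1, ga, w1]⟩

def psi : FreeGroup (Fin 2) →* Wr (FreeGroup (Fin 2)) (Fin 4) :=
  FreeGroup.lift ![wT, wA]

/-- The intertwining matrices. -/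
def mF : Fin 4 → Matrix (Fin 2) (Fin 2) ℤ :=
  ![!![1, 0; 0, 3], !![1, 0; 2, 3], !![1, 0; 4, 3], !![9, 6; 4, 3]]

theorem inter_T (i : Fin 4) : (mT : Matrix (Fin 2) (Fin 2) ℤ) * mF i =
    mF (wT.p i) * (theta (wT.r i)).1 := by
  fin_cases i <;> decide

theorem inter_A (i : Fin 4) : (mA : Matrix (Fin 2) (Fin 2) ℤ) * mF i =
    mF (wA.p i) * (theta (wA.r i)).1 := by
  fin_cases i <;> decide

theorem inter_mul {x y : FreeGroup (Fin 2)}
    (hx : ∀ i, (theta x).1 * mF i = mF ((psi x).p i) * (theta ((psi x).r i)).1)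
    (hy : ∀ i, (theta y).1 * mF i = mF ((psi y).p i) * (theta ((psi y).r i)).1) (i : Fin 4) :
    (theta (x * y)).1 * mF i = mF ((psi (x * y)).p i) * (theta ((psi (x * y)).r i)).1 := by
  rw [map_mul, map_mul, Wr.mul_p, Wr.mul_r, map_mul, Matrix.SpecialLinearGroup.coe_mul,
    Matrix.SpecialLinearGroup.coe_mul, Matrix.mul_assoc, hy i, ← Matrix.mul_assoc, hx _,
    Matrix.mul_assoc, Equiv.Perm.mul_apply]

theorem inter_inv {x : FreeGroup (Fin 2)}
    (hx : ∀ i, (theta x).1 * mF i = mF ((psi x).p i) * (theta ((psi x).r i)).1) (i : Fin 4) :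
    (theta x⁻¹).1 * mF i = mF ((psi x⁻¹).p i) * (theta ((psi x⁻¹).r i)).1 := by
  have h := hx ((psi x).p⁻¹ i)
  have hpi : (psi x).p ((psi x).p⁻¹ i) = i := (psi x).p.apply_symm_apply i
  rw [hpi] at h
  rw [map_inv, map_inv, Wr.inv_p, Wr.inv_r, map_inv]
  have e1 : (theta x)⁻¹.1 * (theta x).1 = 1 := by
    rw [← Matrix.SpecialLinearGroup.coe_mul, inv_mul_cancel, Matrix.SpecialLinearGroup.coe_one]
  have e2 : (theta ((psi x).r ((psi x).p⁻¹ i))).1 * (theta ((psi x).r ((psi x).p⁻¹ i)))⁻¹.1 = 1 := by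
    rw [← Matrix.SpecialLinearGroup.coe_mul, mul_inv_cancel, Matrix.SpecialLinearGroup.coe_one]
  calc (theta x)⁻¹.1 * mF i
      = (theta x)⁻¹.1 * (mF i * (theta ((psi x).r ((psi x).p⁻¹ i))).1) *
          (theta ((psi x).r ((psi x).p⁻¹ i)))⁻¹.1 := by
        rw [Matrix.mul_assoc, Matrix.mul_assoc, e2, Matrix.mul_one]
    _ = (theta x)⁻¹.1 * ((theta x).1 * mF ((psi x).p⁻¹ i)) *
          (theta ((psi x).r ((psi x).p⁻¹ i)))⁻¹.1 := by rw [h]
    _ = mF ((psi x).p⁻¹ i) * (theta ((psi x).r ((psi x).p⁻¹ i)))⁻¹.1 := by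
        rw [← Matrix.mul_assoc, e1, Matrix.one_mul]

theorem psi_gt : psi (FreeGroup.of 0) = wT := by simp [psi]
theorem psi_ga : psi (FreeGroup.of 1) = wA := by simp [psi]

theorem inter (g : FreeGroup (Fin 2)) :
    ∀ i, (theta g).1 * mF i = mF ((psi g).p i) * (theta ((psi g).r i)).1 := by
  induction g using FreeGroup.induction_on with
  | C1 => intro i; simp
  | of j =>
      intro i
      fin_cases j
      · simp only [Fin.zero_eta]
        rw [psi_gt]
        change (theta gt).1 * _ = _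
        rw [theta_gt]
        exact inter_T i
      · simp only [Fin.mk_one]
        rw [psi_ga]
        change (theta ga).1 * _ = _
        rw [theta_ga]
        exact inter_A i
  | inv_of j h => exact inter_inv h
  | mul x y hx hy => exact inter_mul hx hy

theorem step0 (g : FreeGroup (Fin 2)) (hp : (psi g).p = 1) :
    (theta g).1 1 0 = 3 * (theta ((psi g).r 0)).1 1 0 := by
  have h := inter g 0
  rw [hp, Equiv.Perm.one_apply] at h
  have h2 := congrFun (congrFun h 1) 0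
  simpa [mF, Matrix.mul_apply, Fin.sum_univ_two] using h2

theorem low_zero (T : Set (FreeGroup (Fin 2)))
    (hT : ∀ g ∈ T, (psi g).p = 1 ∧ ∀ i, (psi g).r i ∈ T) (g : FreeGroup (Fin 2)) (hg : g ∈ T) :
    (theta g).1 1 0 = 0 := by
  have key : ∀ n : ℕ, ∀ g ∈ T, (3 : ℤ) ^ n ∣ (theta g).1 1 0 := by
    intro n
    induction n with
    | zero => intro g _; simp
    | succ n ih =>
        intro g hg
        rw [step0 g (hT g hg).1, pow_succ, mul_comm ((3 : ℤ) ^ n)]
        exact mul_dvd_mul_left 3 (ih _ ((hT g hg).2 0))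
  by_contra hne
  have h1 := key ((theta g).1 1 0).natAbs g hg
  have h2 := Int.natAbs_dvd_natAbs.mpr h1
  have h3 := Nat.le_of_dvd (Int.natAbs_pos.mpr hne) h2
  rw [Int.natAbs_pow] at h3
  have h4 : ((theta g).1 1 0).natAbs < 3 ^ ((theta g).1 1 0).natAbs := Nat.lt_pow_self (by norm_num)
  simp at h3
  omega

theorem blockSpec' : BlockSpec := by
  refine ⟨psi, fun T hT g hg => ?_⟩
  have h0 := low_zero T hT g hg
  have h1 := low_zero T hT _ ((hT g hg).2 1)
  have h := inter g 1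
  rw [(hT g hg).1, Equiv.Perm.one_apply] at h
  have e00 := congrFun (congrFun h 0) 0
  have e10 := congrFun (congrFun h 1) 0
  simp [mF, Matrix.mul_apply, Fin.sum_univ_two] at e00 e10
  have hd := (theta g).2
  rw [Matrix.det_fin_two, h0] at hd
  have h4 : (theta g).1 0 0 * (theta g).1 1 1 = 1 := by linarith
  refine eq_one_of_diag g h0 ?_
  rcases Int.eq_one_or_neg_one_of_mul_eq_one' h4 with h5 | h5
  · have := h5.1
    have := h5.2
    omega
  · have := h5.1
    have := h5.2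
    omega

end M5

/-- Module M5. -/
theorem blockSpec : BlockSpec := M5.blockSpec'

end Pool.Agent.Work.MP_aa9b22_lc
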