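import Pool.Agent.Work.MP_aa9b22_lc.M6c

set_option autoImplicit false
set_option linter.all false

open scoped commutatorElement

namespace Pool.Agent.Work.MP_aa9b22_lc

section main

variable (m : ℕ) [NeZero m] (K V : ℕ → ℕ) (h : ℕ → Bool)
variable (ψ : FreeGroup (Fin 2) →* Wr (FreeGroup (Fin 2)) (Fin 4))

/-- first auxiliary block -/
def psiA : G3 →* Wr G3 (Fin 4) := (Wr.mapG inA (Fin 4)).comp (ψ.comp prA)
/-- second auxiliary block -/
def psiB : G3 →* Wr G3 (Fin 4) := (Wr.mapG inB (Fin 4)).comp (ψ.comp prB)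

/-- the main letters -/
abbrev X0 : Type := (ZMod m × ZMod m) ⊕ Fin 4 ⊕ Fin 4

/-- all letters -/
abbrev XX : Type := X0 m ⊕ Fin 3 ⊕ Option (ZMod m × ZMod m)

/-- the recursion on the main letters -/
def psi0 : G3 →* Wr G3 (X0 m) := Wr.sum (psiC m K V h) (Wr.sum (psiA ψ) (psiB ψ))

/-- the letters balancing the abelianization -/
def psiE : G3 →* Wr G3 (Fin 3) :=
  Wr.fixed fun j => (zp j).comp (Wr.tot (psi0 m K V h ψ) (expo j))

/-- the dummy letters -/
def psiD : G3 →* Wr G3 (Option (ZMod m × ZMod m)) := Wr.fixed fun _ => 1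

/-- the whole recursion -/
def psiX : G3 →* Wr G3 (XX m) := Wr.sum (psi0 m K V h ψ) (Wr.sum (psiE m K V h ψ) (psiD m))

/-- words for the labels at the main letters -/
def w0 (g : Fin 3) : X0 m → List (Fin 3 × Bool) :=
  Sum.elim (wC m K V h g) (Sum.elim (fun i => ((psiA ψ (FreeGroup.of g)).r i).toWord)
    (fun i => ((psiB ψ (FreeGroup.of g)).r i).toWord))

/-- words for the balancing letters -/
noncomputable def wE (g : Fin 3) (j : Fin 3) : List (Fin 3 × Bool) :=
  (((Finset.univ : Finset (X0 m)).toList).map fun x => wflip j (w0 m K V h ψ g x)).flatten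

/-- all words -/
noncomputable def wX (g : Fin 3) : XX m → List (Fin 3 × Bool) :=
  Sum.elim (w0 m K V h ψ g) (Sum.elim (wE m K V h ψ g) fun _ => [])

theorem mk_w0 (g : Fin 3) (x : X0 m) :
    (FreeGroup.mk (w0 m K V h ψ g x) : G3) = (psi0 m K V h ψ (FreeGroup.of g)).r x := by
  rcases x with x | x | x
  · exact mk_wC m K V h g x
  · exact FreeGroup.mk_toWord
  · exact FreeGroup.mk_toWord

theorem mk_wE (g : Fin 3) (j : Fin 3) :
    (FreeGroup.mk (wE m K V h ψ g j) : G3) = (psiE m K V h ψ (FreeGroup.of g)).r j := by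
  rw [wE, mk_flatten]
  simp only [mk_wflip, mk_w0]
  rw [psiE, Wr.fixed_r, MonoidHom.comp_apply, Wr.tot_apply, ← Finset.prod_map_toList, map_list_prod,
    List.map_map]
  rfl

theorem mk_wX (g : Fin 3) (x : XX m) :
    (FreeGroup.mk (wX m K V h ψ g x) : G3) = (psiX m K V h ψ (FreeGroup.of g)).r x := by
  rcases x with x | x | x
  · exact mk_w0 m K V h ψ g x
  · exact mk_wE m K V h ψ g x
  · rfl

theorem computable_wX {m : ℕ} [NeZero m] {k v : ℕ → ℕ → ℕ} (h : ℕ → Bool)
    (ψ : FreeGroup (Fin 2) →* Wr (FreeGroup (Fin 2)) (Fin 4))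
    (hk : ∀ r, Computable fun n => k n r) (hv : ∀ r, Computable fun n => v n r)
    (g : Fin 3) (x : XX m) : Computable fun n => wX m (k n) (v n) h ψ g x := by
  have h0 : ∀ x : X0 m, Computable fun n => w0 m (k n) (v n) h ψ g x := by
    intro x
    rcases x with x | x | x
    · exact computable_wC h hk hv g x
    · exact Computable.const _
    · exact Computable.const _
  rcases x with x | x | x
  · exact h0 x
  · exact computable_flatten _ (fun n y => wflip x (w0 m (k n) (v n) h ψ g y))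
      (fun y => (primrec_wflip x).to_comp.comp (h0 y))
  · exact Computable.const _

theorem psiX_nel_p (t : ℤ) : (psiX m K V h ψ (nel t)).p = 1 := by
  have hA : prA (nel t) = 1 := Ncl_le_prA (nel_mem t)
  have hB : prB (nel t) = 1 := Ncl_le_prB (nel_mem t)
  ext1 x
  rcases x with (x | x | x) | x | x
  · change Sum.inl (Sum.inl ((psiC m K V h (nel t)).p x)) = _
    rw [psiC_nel_p]; rfl
  · change Sum.inl (Sum.inr (Sum.inl ((ψ (prA (nel t))).p x))) = _
    rw [hA, map_one]; rfl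
  · change Sum.inl (Sum.inr (Sum.inr ((ψ (prB (nel t))).p x))) = _
    rw [hB, map_one]; rfl
  · rfl
  · rfl

theorem psiX_nel_r (t : ℤ) (x : XX m) : (psiX m K V h ψ (nel t)).r x = 1 ∨
    (h (t % m).toNat = false ∧ x = Sum.inl (Sum.inl ((t : ZMod m), (t : ZMod m))) ∧
      (psiX m K V h ψ (nel t)).r x = (FreeGroup.of 0 ^ V (t % m).toNat)⁻¹ * nel (Fc m K V t) *
        ((FreeGroup.of 0 ^ V (t % m).toNat)⁻¹)⁻¹) := by
  have hA : prA (nel t) = 1 := Ncl_le_prA (nel_mem t)
  have hB : prB (nel t) = 1 := Ncl_le_prB (nel_mem t)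
  rcases x with (x | x | x) | x | x
  · have h1 : (psiX m K V h ψ (nel t)).r (Sum.inl (Sum.inl x)) = (psiC m K V h (nel t)).r x := rfl
    rw [h1, psiC_nel_r]
    split_ifs with h2
    · right
      refine ⟨h2.2.2, ?_, rfl⟩
      obtain ⟨a, b⟩ := x
      simp only at h2
      rw [h2.1, h2.2.1]
    · left; rfl
  · left
    change inA ((ψ (prA (nel t))).r x) = 1
    rw [hA, map_one]; simp
  · left
    change inB ((ψ (prB (nel t))).r x) = 1
    rw [hB, map_one]; simp
  · left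
    change zp x (Wr.tot (psi0 m K V h ψ) (expo x) (nel t)) = 1
    rw [nel, map_commutatorElement, commutatorElement_eq_one_iff_commute.2 (Commute.all _ _),
      map_one]
  · left; rfl

theorem Ncl_le_pull : Ncl ≤ Wr.pull (psiX m K V h ψ) Ncl := by
  conv_lhs => unfold Ncl
  apply Subgroup.normalClosure_le_normal
  rintro _ ⟨t, rfl⟩
  refine ⟨psiX_nel_p m K V h ψ t, fun x => ?_⟩
  rcases psiX_nel_r m K V h ψ t x with h1 | h1
  · rw [h1]; exact one_mem _
  · rw [h1.2.2]
    exact Subgroup.Normal.conj_mem inferInstance _ (nel_mem _) _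

theorem psiX_bal (g : G3) : ∀ j, ∏ x, expo j ((psiX m K V h ψ g).r x) = 1 := by
  intro j
  have h0 : ∏ x : Fin 3 ⊕ Option (ZMod m × ZMod m), expo j ((psiX m K V h ψ g).r (Sum.inr x)) =
      (∏ x : Fin 3, expo j ((psiX m K V h ψ g).r (Sum.inr (Sum.inl x)))) *
      ∏ x : Option (ZMod m × ZMod m), expo j ((psiX m K V h ψ g).r (Sum.inr (Sum.inr x))) :=
    Fintype.prod_sum_type _
  rw [Fintype.prod_sum_type, h0]
  have h1 : ∏ x : X0 m, expo j ((psiX m K V h ψ g).r (Sum.inl x)) =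
      Wr.tot (psi0 m K V h ψ) (expo j) g := rfl
  have h2 : ∏ x : Fin 3, expo j ((psiX m K V h ψ g).r (Sum.inr (Sum.inl x))) =
      (Wr.tot (psi0 m K V h ψ) (expo j) g)⁻¹ := by
    have : ∀ x : Fin 3, expo j ((psiX m K V h ψ g).r (Sum.inr (Sum.inl x))) =
        if x = j then (Wr.tot (psi0 m K V h ψ) (expo j) g)⁻¹ else 1 := by
      intro x
      change expo j (zp x (Wr.tot (psi0 m K V h ψ) (expo x) g)) = _
      rw [expo_zp]
      split_ifs with hx
      · rw [hx]
      · rfl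
    simp only [this]
    rw [Finset.prod_ite_eq' Finset.univ j]
    simp
  have h3 : ∏ x : Option (ZMod m × ZMod m), expo j ((psiX m K V h ψ g).r (Sum.inr (Sum.inr x))) = 1 := by
    apply Finset.prod_eq_one
    intro x _
    change expo j 1 = 1
    exact map_one _
  rw [h1, h2, h3]
  simp

end main

theorem card_XX (m : ℕ) [NeZero m] : Fintype.card (XX m) = (2 * (m * m) + 11) + 1 := by
  simp only [Fintype.card_sum, Fintype.card_option, Fintype.card_prod, ZMod.card, Fintype.card_fin]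
  ring

theorem exists_theta (m : ℕ) [NeZero m] : ∃ θ : XX m ≃ Fin ((2 * (m * m) + 11) + 1),
    θ (Sum.inr (Sum.inr none)) = Fin.last _ := by
  let θ0 := Fintype.equivFinOfCardEq (card_XX m)
  refine ⟨θ0.trans (Equiv.swap (θ0 (Sum.inr (Sum.inr none))) (Fin.last _)), ?_⟩
  simp

/-- the recursion on `Fin (e+1)` -/
noncomputable def theSS (m : ℕ) [NeZero m] (K V : ℕ → ℕ) (h : ℕ → Bool)
    (ψ : FreeGroup (Fin 2) →* Wr (FreeGroup (Fin 2)) (Fin 4)) {e : ℕ}
    (θ : XX m ≃ Fin (e + 1)) (hθ : θ (Sum.inr (Sum.inr none)) = Fin.last e) : SS G3 e :=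
  Wr.toSS ((Wr.transp θ).comp (psiX m K V h ψ))
    (fun g => by
      rw [← hθ, MonoidHom.comp_apply, Wr.transp_p]; rfl)
    (fun g => by
      rw [← hθ, MonoidHom.comp_apply, Wr.transp_r]; rfl)

section ana

variable (m : ℕ) [NeZero m] (K V : ℕ → ℕ) (h : ℕ → Bool)
variable (ψ : FreeGroup (Fin 2) →* Wr (FreeGroup (Fin 2)) (Fin 4)) {e : ℕ}
variable (θ : XX m ≃ Fin (e + 1)) (hθ : θ (Sum.inr (Sum.inr none)) = Fin.last e)

theorem theSS_P (g : G3) (x : XX m) :
    (theSS m K V h ψ θ hθ).P g (θ x) = θ ((psiX m K V h ψ g).p x) := by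
  change ((Wr.transp θ).comp (psiX m K V h ψ) g).p (θ x) = _
  rw [MonoidHom.comp_apply, Wr.transp_p]

theorem theSS_R (g : G3) (x : XX m) :
    (theSS m K V h ψ θ hθ).R g (θ x) = (psiX m K V h ψ g).r x := by
  change ((Wr.transp θ).comp (psiX m K V h ψ) g).r (θ x) = _
  rw [MonoidHom.comp_apply, Wr.transp_r]

theorem theSS_P_eq_one (g : G3) :
    (theSS m K V h ψ θ hθ).P g = 1 ↔ (psiX m K V h ψ g).p = 1 := by
  constructor
  · intro hg
    ext1 x
    apply θ.injective
    rw [← theSS_P m K V h ψ θ hθ, hg]; rfl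
  · intro hg
    ext1 i
    obtain ⟨x, rfl⟩ := θ.surjective i
    rw [theSS_P, hg]; rfl

theorem triv_of_mem (g : G3) (hg : g ∈ Ncl) : (theSS m K V h ψ θ hθ).Triv g := by
  intro u
  induction u generalizing g with
  | nil => rfl
  | cons i u ih =>
    have h1 := Ncl_le_pull m K V h ψ hg
    obtain ⟨x, rfl⟩ := θ.surjective i
    rw [SS.wact_cons, theSS_P, theSS_R, h1.1, ih _ (h1.2 x)]
    rfl

theorem mem_of_triv (hψ : ∀ T : Set (FreeGroup (Fin 2)),
      (∀ g ∈ T, (ψ g).p = 1 ∧ ∀ i, (ψ g).r i ∈ T) → ∀ g ∈ T, g = 1)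
    (g : G3) (hg : (theSS m K V h ψ θ hθ).Triv g) : g ∈ Ncl := by
  set S := theSS m K V h ψ θ hθ with hS
  apply mem_Ncl
  · refine hψ {w | ∃ g, S.Triv g ∧ prA g = w} ?_ _ ⟨g, hg, rfl⟩
    rintro _ ⟨g, hg, rfl⟩
    constructor
    · have h1 := (theSS_P_eq_one m K V h ψ θ hθ g).1 (S.triv_P hg)
      ext1 i
      have h2 : (psiX m K V h ψ g).p (Sum.inl (Sum.inr (Sum.inl i))) =
          Sum.inl (Sum.inr (Sum.inl ((ψ (prA g)).p i))) := rfl
      rw [h1] at h2
      have h3 : (Sum.inl (Sum.inr (Sum.inl i)) : XX m) =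
        Sum.inl (Sum.inr (Sum.inl ((ψ (prA g)).p i))) := h2
      simp only [Sum.inl.injEq, Sum.inr.injEq] at h3
      exact h3.symm
    · intro i
      refine ⟨S.R g (θ (Sum.inl (Sum.inr (Sum.inl i)))), S.triv_R hg _, ?_⟩
      rw [hS, theSS_R]
      change prA (inA ((ψ (prA g)).r i)) = _
      rw [prA_inA]
  · refine hψ {w | ∃ g, S.Triv g ∧ prB g = w} ?_ _ ⟨g, hg, rfl⟩
    rintro _ ⟨g, hg, rfl⟩
    constructor
    · have h1 := (theSS_P_eq_one m K V h ψ θ hθ g).1 (S.triv_P hg)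
      ext1 i
      have h2 : (psiX m K V h ψ g).p (Sum.inl (Sum.inr (Sum.inr i))) =
          Sum.inl (Sum.inr (Sum.inr ((ψ (prB g)).p i))) := rfl
      rw [h1] at h2
      have h3 : (Sum.inl (Sum.inr (Sum.inr i)) : XX m) =
        Sum.inl (Sum.inr (Sum.inr ((ψ (prB g)).p i))) := h2
      simp only [Sum.inl.injEq, Sum.inr.injEq] at h3
      exact h3.symm
    · intro i
      refine ⟨S.R g (θ (Sum.inl (Sum.inr (Sum.inr i)))), S.triv_R hg _, ?_⟩
      rw [hS, theSS_R]
      change prB (inB ((ψ (prB g)).r i)) = _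
      rw [prB_inB]

theorem nel_resolved (t : ℤ) (ht : Hlt m K V h t) : (theSS m K V h ψ θ hθ).Resolved (nel t) := by
  induction ht with
  | stop t ht =>
    apply SS.resolved_of_succ
    · rw [theSS_P_eq_one]; exact psiX_nel_p m K V h ψ t
    · intro i
      obtain ⟨x, rfl⟩ := θ.surjective i
      rw [theSS_R]
      rcases psiX_nel_r m K V h ψ t x with h1 | h1
      · rw [h1]; exact ⟨0, rfl⟩
      · rw [ht] at h1
        exact absurd h1.1 (by simp)
  | step t _ ih =>
    apply SS.resolved_of_succ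
    · rw [theSS_P_eq_one]; exact psiX_nel_p m K V h ψ t
    · intro i
      obtain ⟨x, rfl⟩ := θ.surjective i
      rw [theSS_R]
      rcases psiX_nel_r m K V h ψ t x with h1 | h1
      · rw [h1]; exact ⟨0, rfl⟩
      · rw [h1.2.2]
        have h2 : nel (Fc m K V t) ∈ (theSS m K V h ψ θ hθ).resolvedSubgroup := ih
        exact Subgroup.Normal.conj_mem inferInstance _ h2 _

theorem resolved_of_mem (hH : ∀ t, Hlt m K V h t) (g : G3) (hg : g ∈ Ncl) :
    (theSS m K V h ψ θ hθ).Resolved g := by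
  have : Ncl ≤ (theSS m K V h ψ θ hθ).resolvedSubgroup := by
    apply Subgroup.normalClosure_le_normal
    rintro _ ⟨t, rfl⟩
    exact nel_resolved m K V h ψ θ hθ t (hH t)
  exact this hg

/-- conjugates of special elements with nonhalting parameter -/
def Bad (g : G3) : Prop := ∃ (t : ℤ) (w : G3), ¬ Hlt m K V h t ∧ g = w * nel t * w⁻¹

theorem bad_ne_one (g : G3) (hg : Bad m K V h g) : g ≠ 1 := by
  obtain ⟨t, w, _, rfl⟩ := hg
  intro h1
  exact nel_ne_one t (conj_eq_one_iff.1 h1)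

theorem bad_step (g : G3) (hg : Bad m K V h g) :
    ∃ i, Bad m K V h ((theSS m K V h ψ θ hθ).R g i) := by
  obtain ⟨t, w, ht, rfl⟩ := hg
  set S := theSS m K V h ψ θ hθ with hS
  have hf : h (t % m).toNat = false := by
    by_contra hc
    exact ht (Hlt.stop t (by simpa using hc))
  have hF : ¬ Hlt m K V h (Fc m K V t) := fun hh => ht (Hlt.step t hh)
  set z := θ (Sum.inl (Sum.inl ((t : ZMod m), (t : ZMod m)))) with hz
  have h1 : S.R (nel t) z = (FreeGroup.of 0 ^ V (t % m).toNat)⁻¹ * nel (Fc m K V t) *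
        ((FreeGroup.of 0 ^ V (t % m).toNat)⁻¹)⁻¹ := by
    rw [hS, hz, theSS_R]
    change (psiC m K V h (nel t)).r ((t : ZMod m), (t : ZMod m)) = _
    rw [psiC_nel_r, if_pos ⟨rfl, rfl, hf⟩]
  have h2 : S.P (nel t) = 1 := by
    rw [hS, theSS_P_eq_one]; exact psiX_nel_p m K V h ψ t
  refine ⟨S.P w z, Fc m K V t, S.R w z * (FreeGroup.of 0 ^ V (t % m).toNat)⁻¹, hF, ?_⟩
  have h3 : S.P w⁻¹ (S.P w z) = z := by
    rw [← Equiv.Perm.mul_apply, ← map_mul, inv_mul_cancel, map_one]; rfl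
  rw [S.R_mul, S.R_mul, S.R_inv, h3, h2, Equiv.Perm.one_apply, h1]
  group

theorem exists_bad_seq (t : ℤ) (ht : ¬ Hlt m K V h t) :
    ∃ y : ℕ → Fin (e + 1), ∀ k, (theSS m K V h ψ θ hθ).res (nel t) ((List.range k).map y) ≠ 1 := by
  set S := theSS m K V h ψ θ hθ with hS
  choose f hf using fun g : {g // Bad m K V h g} => bad_step m K V h ψ θ hθ g.1 g.2
  let nx : {g // Bad m K V h g} → {g // Bad m K V h g} := fun g => ⟨S.R g.1 (f g), hf g⟩
  let g0 : {g // Bad m K V h g} := ⟨nel t, t, 1, ht, by simp⟩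
  refine ⟨fun k => f (nx^[k] g0), fun k => ?_⟩
  have key : S.res (nel t) ((List.range k).map fun k => f (nx^[k] g0)) = (nx^[k] g0).1 := by
    induction k with
    | zero => rfl
    | succ k ih =>
      rw [List.range_succ, List.map_append, S.res_append, ih, Function.iterate_succ_apply']
      rfl
  rw [key]
  exact bad_ne_one m K V h _ (nx^[k] g0).2

end ana

theorem psiSpec (h1 : CollatzHard) (h2 : BlockSpec) : PsiSpec := by
  intro B hB
  obtain ⟨m, k, v, h, hm, hk, hv, hBn⟩ := h1 B hB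
  haveI : NeZero m := ⟨by omega⟩
  obtain ⟨ψ, hψ⟩ := h2
  obtain ⟨θ, hθ⟩ := exists_theta m
  refine ⟨2 * (m * m) + 11, fun g => (theSS m 0 0 h ψ θ hθ).P (FreeGroup.of g),
    fun n g κ => wX m (k n) (v n) h ψ g (θ.symm κ), fun n => theSS m (k n) (v n) h ψ θ hθ,
    ⟨m * m + 5, by ring⟩, fun g κ => computable_wX h ψ hk hv g _, ?_, ?_, ?_, ?_, ?_⟩
  · intro n g
    ext1 i
    obtain ⟨x, rfl⟩ := θ.surjective i
    rw [theSS_P, theSS_P]
    congr 1
    rcases x with (x | x | x) | x | x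
    · change Sum.inl (Sum.inl ((psiC m (k n) (v n) h (FreeGroup.of g)).p x)) =
        Sum.inl (Sum.inl ((psiC m 0 0 h (FreeGroup.of g)).p x))
      congr 2
      fin_cases g
      · change (psiC m (k n) (v n) h (FreeGroup.of 0)).p x = (psiC m 0 0 h (FreeGroup.of 0)).p x
        rw [psiC_zero, psiC_zero]; rfl
      · change (psiC m (k n) (v n) h (FreeGroup.of 1)).p x = (psiC m 0 0 h (FreeGroup.of 1)).p x
        rw [psiC_one, psiC_one]
      · change (psiC m (k n) (v n) h (FreeGroup.of 2)).p x = (psiC m 0 0 h (FreeGroup.of 2)).p x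
        rw [psiC_two, psiC_two]; rfl
    · rfl
    · rfl
    · rfl
    · rfl
  · intro n g κ
    obtain ⟨x, rfl⟩ := θ.surjective κ
    change _ = FreeGroup.mk (wX m (k n) (v n) h ψ g (θ.symm (θ x)))
    rw [theSS_R, Equiv.symm_apply_apply, mk_wX]
  · intro n g
    apply mem_commutator_of_expo
    intro j
    rw [map_list_prod, List.map_map, ← psiX_bal m (k n) (v n) h ψ g j,
      ← List.ofFn_eq_map, List.prod_ofFn, ← Equiv.prod_comp θ]
    apply Finset.prod_congr rfl
    intro x _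
    simp only [Function.comp_apply]
    rw [theSS_R]
  · intro n hn g hg
    exact resolved_of_mem m (k n) (v n) h ψ θ hθ ((hBn n).1 hn) g
      (mem_of_triv m (k n) (v n) h ψ θ hθ hψ g hg)
  · intro n hn
    rw [hBn n] at hn
    rw [not_forall] at hn
    obtain ⟨t, ht⟩ := hn
    exact ⟨nel t, triv_of_mem m (k n) (v n) h ψ θ hθ _ (nel_mem t),
      exists_bad_seq m (k n) (v n) h ψ θ hθ t ht⟩

end Pool.Agent.Work.MP_aa9b22_lc
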