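import Pool.Agent.Work.MP_aa9b22_lc.Double

set_option autoImplicit false
set_option linter.all false

namespace Pool.Agent.Work.MP_aa9b22_lc

variable {G : Type} [Group G] {e : ℕ}

theorem pre_eq_map (y : CC e) (n : ℕ) : pre y n = (List.range n).map y := by
  induction n generalizing y with
  | zero => rfl
  | succ n ih =>
    rw [pre, ih, List.range_succ_eq_map, List.map_cons, List.map_map]
    rfl

theorem gact_triv (S : SS G e) (g : G) (hg : S.Triv g) (y : CC e) : S.gact g y = y := by
  funext n
  have h1 := S.wact_pre g y (n + 1)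
  rw [hg] at h1
  rw [pre_eq_map, pre_eq_map] at h1
  have h2 := List.map_inj_left.1 h1 n (List.mem_range.2 (Nat.lt_succ_self n))
  exact h2.symm

/-- The group is not simple if some trivially acting label has nontrivial sections along a path. -/
theorem not_simple {S : SS G e} {Γ : Type*} [Group Γ] (D : Sys S Γ) (he : 1 ≤ e)
    {ρ : Γ →* Equiv.Perm ((Coef.triv S).mod he).X} (hρ : Rho D ((Coef.triv S).mod he) ρ)
    {ρ' : Γ →* Equiv.Perm ((Coef.germ S).mod he).X} (hρ' : Rho D ((Coef.germ S).mod he) ρ')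
    (g : G) (hg : S.Triv g) (y : ℕ → Fin (e + 1))
    (hy : ∀ k, S.res g ((List.range k).map y) ≠ 1) : ¬ IsSimpleGroup Γ := by
  intro hs
  have h1 : ρ (D.la g) = 1 := by
    rw [hρ.la]
    apply Equiv.ext
    rintro (⟨j, y⟩ | a)
    · cases j with
      | zero =>
        obtain ⟨y, u⟩ := y
        change (Sum.inl (0, (S.gact g y, u)) : ((Coef.triv S).mod he).X) = Sum.inl (0, (y, u))
        rw [gact_triv S g hg]
        rfl
      | succ j => rfl
    · rfl
  have h2 : ρ' (D.la g) ≠ 1 := by
    intro h
    rw [hρ'.la] at h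
    have h3 := congrArg (fun p => p (Sum.inl (0, (y, (Quotient.mk (Coef.germS G) fun _ => 1))))) h
    have h4 : (Sum.inl (0, (S.gact g y,
        (Quotient.mk (Coef.germS G) fun k => S.res g (pre y k) * 1))) :
        ((Coef.germ S).mod he).X) = Sum.inl (0, (y, (Quotient.mk (Coef.germS G) fun _ => 1))) := h3
    have h6 := (Prod.mk.inj (Prod.mk.inj (Sum.inl.inj h4)).2).2
    obtain ⟨N, hN⟩ := Quotient.exact h6
    have h5 : S.res g (pre y N) * 1 = 1 := hN N le_rfl
    rw [mul_one, pre_eq_map] at h5
    exact hy N h5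
  have h3 : D.top ≠ 1 := by
    intro h
    have h1 := rho_top_inf D he hρ
    rw [h, map_one] at h1
    simp [pt, pinf] at h1
  have h4 := hs.eq_bot_or_eq_top_of_normal ρ.ker inferInstance
  rcases h4 with h4 | h4
  · have h5 : D.la g ∈ ρ.ker := h1
    rw [h4, Subgroup.mem_bot] at h5
    apply h2
    rw [h5, map_one]
  · have h5 : D.top ∈ ρ.ker := by rw [h4]; trivial
    have h6 : ρ D.top = 1 := h5
    have h7 := rho_top_inf D he hρ
    rw [h6] at h7
    simp [pt, pinf] at h7

end Pool.Agent.Work.MP_aa9b22_lc
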