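import Pool.Agent.Work.MP_aa9b22_lc.Double

set_option autoImplicit false
set_option linter.all false

namespace Pool.Agent.Work.MP_aa9b22_lc

open scoped commutatorElement

variable {G : Type} [Group G] {e : ℕ}

namespace Sys

variable {S : SS G e} {Γ : Type*} [Group Γ] (D : Sys S Γ)

/-- the three families of generators: `0` for `x`, `1` for `s`, and labels -/
def gz (t : Option (Option G)) (j : ℕ) : Γ :=
  match t with
  | none => D.x j
  | some none => D.s j
  | some (some g) => D.lam j g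

theorem gz_mem_Hm {m j : ℕ} (t : Option (Option G)) (h : m ≤ j) : D.gz t j ∈ D.Hm m := by
  match t with
  | none => exact D.x_mem_Hm h
  | some none => exact D.s_mem_Hm h
  | some (some g) => exact D.lam_mem_Hm h g

theorem Hm_le_iff {m : ℕ} (K : Subgroup Γ) (h : ∀ t j, m ≤ j → D.gz t j ∈ K) : D.Hm m ≤ K := by
  rw [Hm, Subgroup.closure_le]
  rintro γ ⟨i, hi, rfl | rfl | ⟨g, rfl⟩⟩
  · exact h none i hi
  · exact h (some none) i hi
  · exact h (some (some g)) i hi

/-- moving past a splitting -/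
theorem gz_x (t : Option (Option G)) (i j : ℕ) (h : i < j) :
    D.gz t j * D.x i = D.x i * D.gz t (j + e) := by
  match t with
  | none => exact D.xx i j h
  | some none => exact D.sx_lt i j h
  | some (some g) =>
    have h1 := D.lam_x i j (by omega) g
    have h2 : pos e i j = j + e := by simp [pos]; omega
    rwa [h2] at h1

theorem gz_s (t : Option (Option G)) (i j : ℕ) (h : i + 2 ≤ j) :
    D.gz t j * D.s i = D.s i * D.gz t j := by
  match t with
  | none => exact (D.sx_gt j i (by omega)).symm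
  | some none => exact (D.cox.comm i j h).symm
  | some (some g) =>
    have := D.s_lam i j g
    rw [Equiv.swap_apply_of_ne_of_ne (by omega) (by omega)] at this
    exact this.symm

theorem gz_la (t : Option (Option G)) (g : G) (j : ℕ) (h : 1 ≤ j) :
    D.gz t j * D.la g = D.la g * D.gz t j := by
  match t with
  | none => exact (D.la_x g j h).symm
  | some none => exact (D.la_s g j h).symm
  | some (some g') =>
    have := D.lam_comm 0 j (by omega) g g'
    rw [D.lam_zero] at this
    exact this.symm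

/-- elements of `H` act on the far away generators by a shift -/
theorem shift (h : Γ) (hh : h ∈ D.H) :
    ∃ M M', ∀ k t, h * D.gz t (M + k) = D.gz t (M' + k) * h := by
  induction hh using Subgroup.closure_induction'' with
  | mem y hy =>
    rcases hy with (⟨i, rfl⟩ | ⟨i, rfl⟩) | ⟨g, rfl⟩
    · refine ⟨i + 1 + e, i + 1, fun k t => ?_⟩
      rw [D.gz_x t i (i + 1 + k) (by omega)]
      congr 2; omega
    · exact ⟨i + 2, i + 2, fun k t => (D.gz_s t i _ (by omega)).symm⟩
    · exact ⟨1, 1, fun k t => (D.gz_la t g _ (by omega)).symm⟩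
  | inv_mem y hy =>
    rcases hy with (⟨i, rfl⟩ | ⟨i, rfl⟩) | ⟨g, rfl⟩
    · refine ⟨i + 1, i + 1 + e, fun k t => ?_⟩
      rw [inv_mul_eq_iff_eq_mul, ← mul_assoc, eq_mul_inv_iff_mul_eq,
        D.gz_x t i (i + 1 + k) (by omega)]
      congr 2; omega
    · refine ⟨i + 2, i + 2, fun k t => ?_⟩
      rw [inv_mul_eq_iff_eq_mul, ← mul_assoc, eq_mul_inv_iff_mul_eq, D.gz_s t i _ (by omega)]
    · refine ⟨1, 1, fun k t => ?_⟩
      rw [inv_mul_eq_iff_eq_mul, ← mul_assoc, eq_mul_inv_iff_mul_eq, D.gz_la t g _ (by omega)]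
  | one => exact ⟨0, 0, fun k t => by simp⟩
  | mul a b _ _ ha hb =>
    obtain ⟨M, M', h1⟩ := ha
    obtain ⟨N, N', h2⟩ := hb
    refine ⟨N + M, M' + N', fun k t => ?_⟩
    rw [mul_assoc, show N + M + k = N + (M + k) by omega, h2 (M + k) t, ← mul_assoc,
      show N' + (M + k) = M + (N' + k) by omega, h1 (N' + k) t, mul_assoc,
      show M' + N' + k = M' + (N' + k) by omega]

/-- the centralizer of `Hm 1` contains `top * Hm 1 * top` -/
theorem top_comm (he : 1 ≤ e) (γ δ : Γ) (hγ : γ ∈ D.Hm 1) (hδ : δ ∈ D.Hm 1) :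
    (D.top * γ * D.top) * δ = δ * (D.top * γ * D.top) := by
  set K : Subgroup Γ := Subgroup.centralizer (D.Hm 1 : Set Γ) with hK
  have hKm : ∀ a, (∀ t j, 1 ≤ j → D.gz t j * a = a * D.gz t j) → a ∈ K := by
    intro a ha
    rw [hK, Subgroup.mem_centralizer_iff]
    have h1 : D.Hm 1 ≤ Subgroup.centralizer {a} := by
      apply D.Hm_le_iff
      intro t j hj
      rw [Subgroup.mem_centralizer_iff]
      intro b hb
      rw [Set.mem_singleton_iff.1 hb]
      exact (ha t j hj).symm
    intro b hb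
    have := h1 hb
    rw [Subgroup.mem_centralizer_iff] at this
    exact (this a rfl).symm
  have hx0 : ∀ t j, 1 ≤ j → D.gz t j * D.x 0 = D.x 0 * D.gz t (j + e) :=
    fun t j hj => D.gz_x t 0 j hj
  have hx0' : ∀ t j, 1 ≤ j → D.gz t (j + e) * (D.x 0)⁻¹ = (D.x 0)⁻¹ * D.gz t j := by
    intro t j hj
    rw [mul_inv_eq_iff_eq_mul, mul_assoc, hx0 t j hj, inv_mul_cancel_left]
  have hxe : ∀ t j, 1 ≤ j → D.gz t (j + e) * D.x e = D.x e * D.gz t (j + e + e) :=
    fun t j hj => D.gz_x t e (j + e) (by omega)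
  have hxe' : ∀ t j, 1 ≤ j → D.gz t (j + e + e) * (D.x e)⁻¹ = (D.x e)⁻¹ * D.gz t (j + e) := by
    intro t j hj
    rw [mul_inv_eq_iff_eq_mul, mul_assoc, hxe t j hj, inv_mul_cancel_left]
  have hmain : D.top * γ * D.top ∈ K := by
    refine D.top_Hm_le he K ?_ ?_ ?_ ?_ ?_ γ hγ
    · intro i hi
      apply hKm
      intro t j hj
      calc D.gz t j * (D.x 0 * D.s i * (D.x 0)⁻¹)
          = (D.gz t j * D.x 0) * D.s i * (D.x 0)⁻¹ := by group
        _ = D.x 0 * (D.gz t (j + e) * D.s i) * (D.x 0)⁻¹ := by rw [hx0 t j hj]; group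
        _ = D.x 0 * D.s i * (D.gz t (j + e) * (D.x 0)⁻¹) := by
            rw [D.gz_s t i (j + e) (by omega)]; group
        _ = _ := by rw [hx0' t j hj]; group
    · apply hKm
      intro t j hj
      calc D.gz t j * (D.x 0 * D.x e * D.s (e - 1) * (D.x e)⁻¹ * (D.x 0)⁻¹)
          = (D.gz t j * D.x 0) * D.x e * D.s (e - 1) * (D.x e)⁻¹ * (D.x 0)⁻¹ := by group
        _ = D.x 0 * (D.gz t (j + e) * D.x e) * D.s (e - 1) * (D.x e)⁻¹ * (D.x 0)⁻¹ := by
            rw [hx0 t j hj]; group
        _ = D.x 0 * D.x e * (D.gz t (j + e + e) * D.s (e - 1)) * (D.x e)⁻¹ * (D.x 0)⁻¹ := by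
            rw [hxe t j hj]; group
        _ = D.x 0 * D.x e * D.s (e - 1) * (D.gz t (j + e + e) * (D.x e)⁻¹) * (D.x 0)⁻¹ := by
            rw [D.gz_s t (e - 1) (j + e + e) (by omega)]; group
        _ = D.x 0 * D.x e * D.s (e - 1) * (D.x e)⁻¹ * (D.gz t (j + e) * (D.x 0)⁻¹) := by
            rw [hxe' t j hj]; group
        _ = _ := by rw [hx0' t j hj]; group
    · apply hKm
      intro t j hj
      have h1 := hx0 t (j + e) (by omega)
      calc D.gz t j * (D.x 0 * D.x 0 * (D.x e)⁻¹ * (D.x 0)⁻¹)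
          = (D.gz t j * D.x 0) * D.x 0 * (D.x e)⁻¹ * (D.x 0)⁻¹ := by group
        _ = D.x 0 * (D.gz t (j + e) * D.x 0) * (D.x e)⁻¹ * (D.x 0)⁻¹ := by
            rw [hx0 t j hj]; group
        _ = D.x 0 * D.x 0 * (D.gz t (j + e + e) * (D.x e)⁻¹) * (D.x 0)⁻¹ := by
            rw [h1]; group
        _ = D.x 0 * D.x 0 * (D.x e)⁻¹ * (D.gz t (j + e) * (D.x 0)⁻¹) := by
            rw [hxe' t j hj]; group
        _ = _ := by rw [hx0' t j hj]; group
    · intro g
      apply hKm
      intro t j hj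
      calc D.gz t j * (D.x 0 * D.la g * (D.x 0)⁻¹)
          = (D.gz t j * D.x 0) * D.la g * (D.x 0)⁻¹ := by group
        _ = D.x 0 * (D.gz t (j + e) * D.la g) * (D.x 0)⁻¹ := by rw [hx0 t j hj]; group
        _ = D.x 0 * D.la g * (D.gz t (j + e) * (D.x 0)⁻¹) := by
            rw [D.gz_la t g (j + e) (by omega)]; group
        _ = _ := by rw [hx0' t j hj]; group
    · intro a ha
      apply hKm
      intro t j hj
      have h2 : D.tt * D.gz t j = D.gz t (j + e) * D.tt := by
        match t with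
        | none => exact D.tt_x j hj
        | some none => exact D.tt_s j hj
        | some (some g) => exact D.tt_lam j hj g
      have h3 : D.gz t j * D.tt⁻¹ = D.tt⁻¹ * D.gz t (j + e) := by
        rw [mul_inv_eq_iff_eq_mul, mul_assoc, ← h2, inv_mul_cancel_left]
      have h4 : D.gz t (j + e) * a = a * D.gz t (j + e) :=
        (Subgroup.mem_centralizer_iff.1 ha) _ (D.gz_mem_Hm t (by omega))
      calc D.gz t j * (D.tt⁻¹ * a * D.tt) = (D.gz t j * D.tt⁻¹) * a * D.tt := by group
        _ = D.tt⁻¹ * (D.gz t (j + e) * a) * D.tt := by rw [h3]; group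
        _ = D.tt⁻¹ * a * (D.gz t (j + e) * D.tt) := by rw [h4]; group
        _ = _ := by rw [← h2]; group
  exact ((Subgroup.mem_centralizer_iff.1 hmain) δ hδ).symm

section quot

variable {Q : Type*} [Group Q] (π : Γ →* Q)

theorem comm_of_top (he : 1 ≤ e) (h : Γ) (hh : h ∈ D.H) (hπ : π D.top = π h)
    (t t' : Option (Option G)) (i j : ℕ) (hi : 1 ≤ i) (hj : 1 ≤ j) :
    π (D.gz t i) * π (D.gz t' j) = π (D.gz t' j) * π (D.gz t i) := by
  obtain ⟨M, M', hM⟩ := D.shift h hh
  -- far away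
  have h1 : ∀ t t' k j, 1 ≤ j → π (D.gz t (M' + 1 + k)) * π (D.gz t' j) =
      π (D.gz t' j) * π (D.gz t (M' + 1 + k)) := by
    intro t t' k j hj
    have h2 := D.top_comm he _ _ (D.gz_mem_Hm t (show 1 ≤ M + (1 + k) by omega))
      (D.gz_mem_Hm t' hj)
    have h3 : π (D.top * D.gz t (M + (1 + k)) * D.top) = π (D.gz t (M' + 1 + k)) := by
      have h4 : π D.top = (π h)⁻¹ := by
        rw [← hπ, ← map_inv, D.top_inv]
      rw [map_mul, map_mul, h4, mul_inv_eq_iff_eq_mul, ← h4, hπ, ← map_mul, hM, map_mul]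
      congr 3; omega
    have h5 := congrArg π h2
    rw [map_mul, map_mul π (D.gz t' j), h3] at h5
    exact h5
  -- conjugate by `x 0`
  have h2 : ∀ k, ∀ t t' i j, 1 ≤ i → 1 ≤ j →
      (π (D.gz t (i + k * e)) * π (D.gz t' (j + k * e)) =
        π (D.gz t' (j + k * e)) * π (D.gz t (i + k * e))) →
      π (D.gz t i) * π (D.gz t' j) = π (D.gz t' j) * π (D.gz t i) := by
    intro k
    induction k with
    | zero => intro t t' i j _ _ h; simpa using h
    | succ k ih =>
      intro t t' i j hi hj h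
      apply ih t t' i j hi hj
      have e1 : i + (k + 1) * e = i + k * e + e := by ring
      have e2 : j + (k + 1) * e = j + k * e + e := by ring
      rw [e1, e2] at h
      have h3 : ∀ t i, 1 ≤ i → D.gz t i = D.x 0 * D.gz t (i + e) * (D.x 0)⁻¹ := by
        intro t i hi
        rw [eq_mul_inv_iff_mul_eq, D.gz_x t 0 i hi]
      rw [h3 t (i + k * e) (by omega), h3 t' (j + k * e) (by omega)]
      simp only [map_mul, map_inv]
      calc π (D.x 0) * π (D.gz t (i + k * e + e)) * (π (D.x 0))⁻¹ *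
            (π (D.x 0) * π (D.gz t' (j + k * e + e)) * (π (D.x 0))⁻¹)
          = π (D.x 0) * (π (D.gz t (i + k * e + e)) * π (D.gz t' (j + k * e + e))) *
            (π (D.x 0))⁻¹ := by group
        _ = _ := by rw [h]; group
  apply h2 (M' + 1) t t' i j hi hj
  have e3 : i + (M' + 1) * e = M' + 1 + (i + (M' + 1) * e - (M' + 1)) := by
    have : M' + 1 ≤ (M' + 1) * e := Nat.le_mul_of_pos_right _ he
    omega
  rw [e3]
  exact h1 _ _ _ _ (by
    have : 0 ≤ (M' + 1) * e := Nat.zero_le _
    omega)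

/-- The collapse of a quotient in which far away elements commute. -/
theorem collapse (hodd : Odd e)
    (hab : ∀ g, ((List.range (e + 1)).map (S.Rn g)).prod ∈ commutator G)
    (hc : ∀ t t' i j, 1 ≤ i → 1 ≤ j →
      π (D.gz t i) * π (D.gz t' j) = π (D.gz t' j) * π (D.gz t i)) :
    (∀ i, π (D.x i) = 1) ∧ (∀ i, π (D.s i) = 1) ∧ (∀ g, π (D.la g) = 1) ∧ π D.top = 1 := by
  have he : 1 ≤ e := hodd.pos
  -- all `s i` agree
  have hs1 : ∀ i, 1 ≤ i → π (D.s (i + 1)) = π (D.s i) := by
    intro i hi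
    have h1 := congrArg π (D.cox.braid i)
    simp only [map_mul] at h1
    have h2 : π (D.s i) * π (D.s (i + 1)) = π (D.s (i + 1)) * π (D.s i) :=
      hc (some none) (some none) i (i + 1) hi (by omega)
    have h3 : π (D.s i) * π (D.s i) = 1 := by rw [← map_mul, D.cox.sq, map_one]
    have h4 : π (D.s (i + 1)) * π (D.s (i + 1)) = 1 := by rw [← map_mul, D.cox.sq, map_one]
    have h5 : π (D.s i) * π (D.s (i + 1)) * π (D.s i) = π (D.s (i + 1)) := by
      rw [h2, mul_assoc, h3, mul_one]
    have h6 : π (D.s (i + 1)) * π (D.s i) * π (D.s (i + 1)) = π (D.s i) := by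
      rw [← h2, mul_assoc, h4, mul_one]
    rw [h5, h6] at h1
    exact h1
  have hs : ∀ i, 1 ≤ i → π (D.s i) = π (D.s 1) := by
    intro i hi
    induction i, hi using Nat.le_induction with
    | base => rfl
    | succ i hi ih => rw [hs1 i hi, ih]
  set σ := π (D.s 1) with hσ
  have hσ2 : σ * σ = 1 := by rw [hσ, ← map_mul, D.cox.sq, map_one]
  have hev : ∀ u : List ℕ, (∀ i ∈ u, 1 ≤ i) → π (ev D.s u) = σ ^ u.length := by
    intro u
    induction u with
    | nil => simp
    | cons i u ih =>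
      intro hu
      rw [ev_cons, map_mul, hs i (hu i (by simp)), ih (fun j hj => hu j (by simp [hj])),
        List.length_cons, pow_succ']
  have hpow : ∀ n, Even n → σ ^ n = 1 := by
    rintro n ⟨k, rfl⟩
    rw [← two_mul, pow_mul, pow_two, hσ2, one_pow]
  have hx1 : ∀ i, 1 ≤ i → π (D.x (i + 1)) = σ * π (D.x i) := by
    intro i hi
    have h1 := congrArg π (D.sx_eq i)
    rw [map_mul, map_mul, hev _ (range'_ge i _ hi), List.length_range', hs i hi,
      hpow _ hodd.add_one, mul_one] at h1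
    exact h1.symm
  have hxk : ∀ k i, 1 ≤ i → π (D.x (i + k)) = σ ^ k * π (D.x i) := by
    intro k i hi
    induction k with
    | zero => simp
    | succ k ih => rw [← add_assoc, hx1 (i + k) (by omega), ih, pow_succ', mul_assoc]
  have hσ1 : σ = 1 := by
    have h1 := congrArg π (D.xx 1 2 (by omega))
    simp only [map_mul] at h1
    have h2 : π (D.x 2) * π (D.x 1) = π (D.x 1) * π (D.x 2) :=
      hc none none 2 1 (by omega) (by omega)
    rw [h2, hxk e 2 (by omega)] at h1
    have h3 := mul_left_cancel h1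
    have h4 : σ ^ e = 1 := by
      exact (right_eq_mul.1 h3)
    obtain ⟨k, hk⟩ := hodd
    rw [hk, pow_add, hpow (2 * k) (even_two_mul k), one_mul, pow_one] at h4
    exact h4
  have hs0 : π (D.s 0) = 1 := by
    have h1 := congrArg π (D.cox.braid 0)
    simp only [map_mul, zero_add] at h1
    rw [← hσ, hσ1, mul_one, one_mul, mul_one, ← map_mul, D.cox.sq, map_one] at h1
    exact h1.symm
  have hsall : ∀ i, π (D.s i) = 1 := by
    intro i
    rcases Nat.eq_zero_or_pos i with h | h
    · rw [h, hs0]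
    · rw [hs i h, hσ1]
  have hevall : ∀ u : List ℕ, π (ev D.s u) = 1 := by
    intro u
    induction u with
    | nil => simp
    | cons i u ih => rw [ev_cons, map_mul, hsall, ih, one_mul]
  have hx : ∀ i, π (D.x i) = π (D.x 0) := by
    intro i
    induction i with
    | zero => rfl
    | succ i ih =>
      have h1 := congrArg π (D.sx_eq i)
      rw [map_mul, map_mul, hsall, hevall, one_mul, mul_one] at h1
      rw [← h1, ih]
  have hχ : π (D.x 0) = 1 := by
    have h1 := congrArg π D.top_x1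
    simp only [map_mul, map_inv] at h1
    rw [hx e, hx 1] at h1
    have h2 : π D.top * π D.top = 1 := by rw [← map_mul, D.top_sq, map_one]
    have h3 : π (D.x 0) * π (D.x 0) * (π (D.x 0))⁻¹ * (π (D.x 0))⁻¹ = 1 := by group
    rw [h3] at h1
    have h4 : π (D.x 0) = (π D.top)⁻¹ * (π D.top)⁻¹ := by
      calc π (D.x 0) = (π D.top)⁻¹ * (π D.top * π (D.x 0) * π D.top) * (π D.top)⁻¹ := by group
        _ = _ := by rw [h1]; group
    rw [h4, ← mul_inv_rev, h2, inv_one]
  have htop : π D.top = 1 := by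
    have h1 := congrArg π D.top_s0
    simp only [map_mul, map_inv] at h1
    have h2 : π D.top * π D.top = 1 := by rw [← map_mul, D.top_sq, map_one]
    rw [hs0, hevall, hχ] at h1
    simp only [mul_one, inv_one, one_mul, h2] at h1
    exact h1.symm
  have hlam : ∀ k g, π (D.lam k g) = π (D.la g) := by
    intro k g
    rw [lam, lamOf, map_mul, map_mul, map_inv, hevall]
    simp
  have hcomm : ∀ g h, π (D.la g) * π (D.la h) = π (D.la h) * π (D.la g) := by
    intro g h
    have h1 := hc (some (some g)) (some (some h)) 1 1 le_rfl le_rfl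
    change π (D.lam 1 g) * π (D.lam 1 h) = π (D.lam 1 h) * π (D.lam 1 g) at h1
    rwa [hlam, hlam] at h1
  have hker : commutator G ≤ (π.comp D.la).ker := by
    rw [commutator_eq_closure, Subgroup.closure_le]
    rintro _ ⟨g, h, rfl⟩
    change (π.comp D.la) ⁅g, h⁆ = 1
    rw [map_commutatorElement, commutatorElement_eq_one_iff_mul_comm]
    exact hcomm g h
  have hla : ∀ g, π (D.la g) = 1 := by
    intro g
    obtain ⟨u, _, _, h1⟩ := D.la_x0 g
    have h2 := congrArg π h1
    have h3 : ∀ l : List ℕ, π (LPOf D.s D.la (l.map fun k => (0 + k, S.Rn g k))) =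
        π (D.la ((l.map (S.Rn g)).prod)) := by
      intro l
      induction l with
      | nil => simp [LPOf]
      | cons k l ih =>
        have h4 : LPOf D.s D.la ((k :: l).map fun k => (0 + k, S.Rn g k)) =
            D.lam (0 + k) (S.Rn g k) * LPOf D.s D.la (l.map fun k => (0 + k, S.Rn g k)) := by
          simp [LPOf, lam]
        rw [h4, map_mul, ih, hlam, List.map_cons, List.prod_cons, map_mul, map_mul]
    rw [SS.secs] at h2
    rw [map_mul, map_mul, map_mul, h3, hχ, hevall, mul_one, one_mul, one_mul] at h2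
    rw [h2]
    exact hker (hab g)
  exact ⟨fun i => by rw [hx, hχ], hsall, hla, htop⟩

end quot

end Sys

section

variable {S : SS G e} {Γ : Type*} [Group Γ] (D : Sys S Γ) (he : 1 ≤ e)
  {ρ : Γ →* Equiv.Perm ((Coef.triv S).mod he).X} (hρ : Rho D ((Coef.triv S).mod he) ρ)

include hρ in
theorem exists_move (j : ℕ) (v : List (Fin (e + 1))) :
    ∃ δ : Γ, ρ δ (pinf S he) = pt S he j v := by
  by_cases h : pt S he j v = pt S he 0 []
  · exact ⟨D.top, by rw [rho_top_inf D he hρ, h]⟩
  · obtain ⟨k, _, h2⟩ := trans2 D he hρ v j h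
    refine ⟨k * (D.s 0 * D.top), ?_⟩
    rw [map_mul, Equiv.Perm.mul_apply, map_mul, Equiv.Perm.mul_apply, rho_top_inf D he hρ,
      rho_s0_q D he hρ, h2]

include hρ in
/-- The simplicity criterion. -/
theorem simple_of_resolved (hres : ∀ g, S.Triv g → S.Resolved g)
    (hgen : Subgroup.closure ((D.H : Set Γ) ∪ {D.top}) = ⊤) (hodd : Odd e)
    (hab : ∀ g, ((List.range (e + 1)).map (S.Rn g)).prod ∈ commutator G) :
    IsSimpleGroup Γ := by
  have htopne : D.top ≠ 1 := by
    intro h
    have h1 := rho_top_inf D he hρ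
    rw [h, map_one] at h1
    simp [pt, pinf] at h1
  haveI : Nontrivial Γ := ⟨⟨D.top, 1, htopne⟩⟩
  refine ⟨fun N hN => ?_⟩
  by_cases hbot : N = ⊥
  · exact Or.inl hbot
  right
  -- an element outside `H`
  obtain ⟨γ, hγN, hγH⟩ : ∃ γ ∈ N, γ ∉ D.H := by
    by_contra hcon
    push Not at hcon
    apply hbot
    rw [eq_bot_iff]
    intro γ hγ
    rw [Subgroup.mem_bot]
    have hfix : ∀ δ : Γ, ρ γ (ρ δ (pinf S he)) = ρ δ (pinf S he) := by
      intro δ
      have h1 : δ⁻¹ * γ * δ ∈ N := by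
        have := hN.conj_mem γ hγ δ⁻¹
        rwa [inv_inv] at this
      have h2 := rho_H_inf D he hρ _ (hcon _ h1)
      rw [map_mul, map_mul, map_inv, Equiv.Perm.mul_apply, Equiv.Perm.mul_apply,
        Equiv.Perm.inv_eq_iff_eq] at h2
      exact h2
    apply faithful_pts D he hρ hres hgen γ
    · have := hfix 1
      rwa [map_one] at this
    · intro j v
      obtain ⟨δ, hδ⟩ := exists_move D he hρ j v
      rw [← hδ]
      exact hfix δ
  obtain ⟨a, ha, b, hb, rfl⟩ : ∃ a ∈ D.H, ∃ b ∈ D.H, γ = a * D.top * b :=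
    (double D he hρ hres hgen γ).resolve_left hγH
  set π := QuotientGroup.mk' N with hπdef
  have h1 : b * a * D.top ∈ N := by
    have := hN.conj_mem _ hγN b
    have e1 : b * (a * D.top * b) * b⁻¹ = b * a * D.top := by group
    rwa [e1] at this
  have h2 : π D.top = π ((b * a)⁻¹) := by
    have h3 : π (b * a * D.top) = 1 := (QuotientGroup.eq_one_iff _).2 h1
    rw [map_mul] at h3
    rw [map_inv]
    exact eq_inv_of_mul_eq_one_right h3
  obtain ⟨c1, c2, c3, c4⟩ := D.collapse π hodd hab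
    (D.comm_of_top π he _ (D.H.inv_mem (D.H.mul_mem hb ha)) h2)
  have h3 : (⊤ : Subgroup Γ) ≤ N := by
    rw [← hgen, Subgroup.closure_le]
    rintro δ (h | h)
    · have h4 : D.H ≤ N := by
        rw [Sys.H, Subgroup.closure_le]
        rintro y ((⟨i, rfl⟩ | ⟨i, rfl⟩) | ⟨g, rfl⟩)
        · exact (QuotientGroup.eq_one_iff _).1 (c1 i)
        · exact (QuotientGroup.eq_one_iff _).1 (c2 i)
        · exact (QuotientGroup.eq_one_iff _).1 (c3 g)
      exact h4 h
    · rw [Set.mem_singleton_iff.1 h]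
      exact (QuotientGroup.eq_one_iff _).1 c4
  exact eq_top_iff.2 h3

end

end Pool.Agent.Work.MP_aa9b22_lc
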