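import Pool.Agent.Work.MP_aa9b22_lc.Pres
import Pool.Agent.Work.MP_aa9b22_lc.Simple
import Pool.Agent.Work.MP_aa9b22_lc.NonSimple
import Pool.Agent.Work.MP_aa9b22_lc.M1
import Pool.Agent.Work.MP_aa9b22_lc.M2
import Pool.Agent.Work.MP_aa9b22_lc.M5
import Pool.Agent.Work.MP_aa9b22_lc.M6

set_option autoImplicit false
set_option linter.all false

namespace Pool.Agent.Work.MP_aa9b22_lc

section

variable {e : ℕ} (he : 1 ≤ e) (S : SS (FreeGroup (Fin 3)) e)
  (u : Fin 3 → List ℕ) (hu1 : ∀ g, ∀ i ∈ u g, i < e)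
  (hu2 : ∀ g, ∀ k : Fin (e + 1), pv (u g) (k : ℕ) = ((S.P (FreeGroup.of g) k : Fin (e + 1)) : ℕ))
  (W : Fin 3 → Fin (e + 1) → List (Fin 3 × Bool))
  (hW : ∀ g k, S.R (FreeGroup.of g) k = FreeGroup.mk (W g k))

theorem dsys_gen : Subgroup.closure (((dsys he S u hu1 hu2 W hW).H : Set (Gam u W)) ∪
    {(dsys he S u hu1 hu2 W hW).top}) = ⊤ := by
  set D := dsys he S u hu1 hu2 W hW with hD
  rw [eq_top_iff, ← PresentedGroup.closure_range_of (rels (vP e u W)), Subgroup.closure_le]
  rintro _ ⟨i, rfl⟩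
  have hH : ∀ γ ∈ D.H, γ ∈ Subgroup.closure ((D.H : Set (Gam u W)) ∪ {D.top}) :=
    fun γ hγ => Subgroup.subset_closure (Or.inl hγ)
  rcases Nat.lt_or_ge i 3 with h3 | h3
  · apply hH
    have : D.la (FreeGroup.of ⟨i, h3⟩) = PresentedGroup.of i := by
      rw [hD, dsys_la, fla, FreeGroup.map.of]; rfl
    rw [← this]
    exact D.la_mem_H _
  · rcases Nat.eq_or_lt_of_le h3 with h4 | h4
    · apply Subgroup.subset_closure
      right
      rw [Set.mem_singleton_iff, ← h4, hD, dsys_top, fT]; rfl
    · rcases Nat.lt_or_ge i (6 + 2 * e) with h5 | h5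
      · rcases Nat.even_or_odd' i with ⟨j, hj | hj⟩
        · apply hH
          have h6 : fX e (j - 2) = FreeGroup.of i := by
            rw [fX, ext_le _ _ _ (by omega)]
            congr 1; omega
          have : D.x (j - 2) = PresentedGroup.of i := by
            rw [hD, dsys_x, h6]; rfl
          rw [← this]
          exact D.x_mem_H _
        · apply hH
          have h6 : fS e (j - 2) = FreeGroup.of i := by
            rw [fS, ext_le _ _ _ (by omega)]
            congr 1; omega
          have : D.s (j - 2) = PresentedGroup.of i := by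
            rw [hD, dsys_s, h6]; rfl
          rw [← this]
          exact D.s_mem_H _
      · have h6 : (PresentedGroup.of i : Gam u W) = 1 := by
          apply PresentedGroup.mk_eq_one_iff.2
          exact Subgroup.subset_normalClosure (Or.inl ⟨i, h5, rfl⟩)
        rw [h6]
        exact Subgroup.one_mem _

include he hu1 hu2 hW

theorem exists_rho (M : Mod S) : ∃ ρ : Gam u W →* Equiv.Perm M.X,
    Rho (dsys he S u hu1 hu2 W hW) M ρ := by
  obtain ⟨ψ, h1, h2, h3, h4⟩ := exists_hom he S u hu1 hu2 W hW (M.sys he)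
  exact ⟨ψ, ⟨h1, h2, h3, h4⟩⟩

theorem gam_simple (hodd : Odd e)
    (hab : ∀ g, ((List.finRange (e + 1)).map (S.R g)).prod ∈ commutator (FreeGroup (Fin 3)))
    (hres : ∀ g, S.Triv g → S.Resolved g) : IsSimpleGroup (Gam u W) := by
  obtain ⟨ρ, hρ⟩ := exists_rho he S u hu1 hu2 W hW ((Coef.triv S).mod he)
  apply simple_of_resolved (dsys he S u hu1 hu2 W hW) he hρ hres
    (dsys_gen he S u hu1 hu2 W hW) hodd
  intro g
  have h1 := hab g
  rw [range_eq_map_finRange, List.map_map]
  have h2 : (S.Rn g ∘ fun (k : Fin (e + 1)) => (k : ℕ)) = S.R g := by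
    funext k
    exact LabSys.Rn_coe S g k
  rw [h2]
  exact h1

theorem gam_not_simple (g : FreeGroup (Fin 3)) (hg : S.Triv g) (y : ℕ → Fin (e + 1))
    (hy : ∀ k, S.res g ((List.range k).map y) ≠ 1) : ¬ IsSimpleGroup (Gam u W) := by
  obtain ⟨ρ, hρ⟩ := exists_rho he S u hu1 hu2 W hW ((Coef.triv S).mod he)
  obtain ⟨ρ', hρ'⟩ := exists_rho he S u hu1 hu2 W hW ((Coef.germ S).mod he)
  exact not_simple (dsys he S u hu1 hu2 W hW) he hρ hρ' g hg y hy

end

theorem primrec_iw : Primrec iw := by
  have h1 : Primrec₂ (fun (_ : List (Fin 3 × Bool)) (a : Fin 3 × Bool) => (((a.1 : ℕ), a.2))) :=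
    (Primrec.pair (Primrec.fin_val.comp (Primrec.fst.comp Primrec.snd))
      (Primrec.snd.comp Primrec.snd)).to₂
  exact Primrec.list_map Primrec.id h1

theorem comp_app {α : Type} [Primcodable α] {f g : ℕ → List α} (hf : Computable f)
    (hg : Computable g) : Computable fun n => f n ++ g n :=
  (Primrec.list_append.to_comp).comp hf hg

theorem comp_vP (e : ℕ) (u : Fin 3 → List ℕ) (W : ℕ → Fin 3 → Fin (e + 1) → List (Fin 3 × Bool))
    (hW : ∀ g k, Computable fun n => W n g k) : Computable fun n => vP e u (W n) := by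
  have h1 : ∀ g, ∀ l : List (Fin (e + 1)), Computable fun n =>
      l.flatMap fun (k : Fin (e + 1)) => vC e (k : ℕ) ++ (iw (W n g k) ++ vC' e (k : ℕ)) := by
    intro g l
    induction l with
    | nil => exact Computable.const []
    | cons k l ih =>
      have h2 : Computable fun n => vC e (k : ℕ) ++ (iw (W n g k) ++ vC' e (k : ℕ)) :=
        comp_app (Computable.const _)
          (comp_app (primrec_iw.to_comp.comp (hW g k)) (Computable.const _))
      exact comp_app h2 ih
  have h2 : ∀ g, Computable fun n => vW e u (W n) g := by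
    intro g
    exact comp_app (Computable.const _) (h1 g _)
  have h3 : Computable fun n => [vW e u (W n) 0, vW e u (W n) 1, vW e u (W n) 2] :=
    Computable.list_cons.comp (h2 0) (Computable.list_cons.comp (h2 1)
      (Computable.list_cons.comp (h2 2) (Computable.const [])))
  exact Computable.pair (Computable.const _) (comp_app (Computable.const _) h3)

theorem reduction (B : ℕ → Prop) (hB : IsPi2 B) :
    ∃ f : ℕ → ℕ, Computable f ∧ ∀ n, B n ↔ IsSimp (f n) := by
  obtain ⟨e, π, W, S, hodd, hcomp, hP, hR, hab, hyes, hno⟩ :=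
    psiSpec collatzHard blockSpec B hB
  have he : 1 ≤ e := hodd.pos
  choose u hu1 hu2 using fun g : Fin 3 => exists_word (π g)
  have hu2' : ∀ n g, ∀ k : Fin (e + 1),
      pv (u g) (k : ℕ) = (((S n).P (FreeGroup.of g) k : Fin (e + 1)) : ℕ) := by
    intro n g k
    rw [hP n g, hu2]
  refine ⟨fun n => Encodable.encode (vP e u (W n)), Computable.encode.comp (comp_vP e u W hcomp),
    fun n => ?_⟩
  have h1 : IsSimp (Encodable.encode (vP e u (W n))) ↔ IsSimpleGroup (Gam u (W n)) := by
    constructor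
    · rintro ⟨p, hp, h⟩
      rw [Encodable.encodek, Option.some_inj] at hp
      subst hp
      exact h
    · intro h
      exact ⟨vP e u (W n), Encodable.encodek _, h⟩
  rw [h1]
  constructor
  · intro hb
    exact gam_simple he (S n) u hu1 (hu2' n) (W n) (hR n) hodd (hab n) (hyes n hb)
  · intro hs
    by_contra hb
    obtain ⟨g, hg, y, hy⟩ := hno n hb
    exact gam_not_simple he (S n) u hu1 (hu2' n) (W n) (hR n) g hg y hy hs

end Pool.Agent.Work.MP_aa9b22_lc
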