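import Mathlib

set_option autoImplicit false
set_option linter.all false

namespace Pool.Agent.Work.MP_aa9b22_lc

/-- Coxeter relations of the infinite symmetric group. -/
structure Cox {Γ : Type*} [Group Γ] (s : ℕ → Γ) : Prop where
  sq : ∀ i, s i * s i = 1
  braid : ∀ i, s i * s (i + 1) * s i = s (i + 1) * s i * s (i + 1)
  comm : ∀ i j, i + 2 ≤ j → s i * s j = s j * s i

/-- evaluation of a word -/
def ev {Γ : Type*} [Group Γ] (s : ℕ → Γ) (u : List ℕ) : Γ := (u.map s).prod

/-- the permutation of `ℕ` given by a word in adjacent swaps -/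
def pv (u : List ℕ) : Equiv.Perm ℕ := ev (fun i => Equiv.swap i (i + 1)) u

section
variable {Γ : Type*} [Group Γ] (s : ℕ → Γ)

@[simp] theorem ev_nil : ev s [] = 1 := rfl
@[simp] theorem ev_cons (i : ℕ) (u : List ℕ) : ev s (i :: u) = s i * ev s u := by simp [ev]
@[simp] theorem ev_append (u v : List ℕ) : ev s (u ++ v) = ev s u * ev s v := by simp [ev]
@[simp] theorem ev_single (i : ℕ) : ev s [i] = s i := by simp [ev]
@[simp] theorem pv_nil : pv [] = 1 := rfl
@[simp] theorem pv_cons (i : ℕ) (u : List ℕ) : pv (i :: u) = Equiv.swap i (i + 1) * pv u := by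
  simp [pv]
@[simp] theorem pv_append (u v : List ℕ) : pv (u ++ v) = pv u * pv v := by simp [pv]

theorem ev_map {Δ : Type*} [Group Δ] (f : Γ →* Δ) (u : List ℕ) :
    f (ev s u) = ev (fun i => f (s i)) u := by
  induction u with
  | nil => simp
  | cons i u ih => simp [ih]

theorem ev_congr (s' : ℕ → Γ) (u : List ℕ) (h : ∀ i ∈ u, s i = s' i) : ev s u = ev s' u := by
  induction u with
  | nil => simp
  | cons i u ih =>
    rw [ev_cons, ev_cons, h i (by simp), ih (fun j hj => h j (by simp [hj]))]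

variable {s}

theorem Cox.inv (h : Cox s) (i : ℕ) : (s i)⁻¹ = s i := by
  rw [inv_eq_iff_mul_eq_one, h.sq]

theorem Cox.comm' (h : Cox s) (i j : ℕ) (hij : i + 2 ≤ j ∨ j + 2 ≤ i) :
    s i * s j = s j * s i := by
  rcases hij with hij | hij
  · exact h.comm i j hij
  · exact (h.comm j i hij).symm

theorem Cox.ev_reverse (h : Cox s) (u : List ℕ) : ev s u.reverse = (ev s u)⁻¹ := by
  induction u with
  | nil => simp
  | cons i u ih => simp [ih, h.inv]

theorem Cox.map {Δ : Type*} [Group Δ] (h : Cox s) (f : Γ →* Δ) : Cox (fun i => f (s i)) where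
  sq i := by rw [← map_mul, h.sq, map_one]
  braid i := by simp only [← map_mul, h.braid]
  comm i j hij := by rw [← map_mul, ← map_mul, h.comm i j hij]

theorem Cox.prod {Δ : Type*} [Group Δ] {s' : ℕ → Δ} (h : Cox s) (h' : Cox s') :
    Cox (fun i => (s i, s' i)) where
  sq i := by simp [h.sq, h'.sq]
  braid i := by simp [Prod.ext_iff, h.braid, h'.braid]
  comm i j hij := by simp [Prod.ext_iff, h.comm i j hij, h'.comm i j hij]

theorem cox_swap : Cox (fun i : ℕ => Equiv.swap i (i + 1)) where
  sq i := Equiv.swap_mul_self _ _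
  braid i := by
    ext k
    simp only [Equiv.Perm.coe_mul, Function.comp, Equiv.swap_apply_def]
    split_ifs <;> omega
  comm i j hij := by
    ext k
    simp only [Equiv.Perm.coe_mul, Function.comp, Equiv.swap_apply_def]
    split_ifs <;> omega

/-- `cw m k` is the word `k-1, k-2, …, m` (for `m ≤ k`) -/
def cwm (m : ℕ) : ℕ → List ℕ
  | 0 => []
  | k + 1 => (m + k) :: cwm m k

/-- coset decomposition: the first letter moves past the coset representative -/
theorem Cox.step_aux (h : Cox s) (m j : ℕ) (hj : m ≤ j) : ∀ k : ℕ,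
    (m + k < j → s j * ev s (cwm m k) = ev s (cwm m k) * s j) ∧
    (j + 1 < m + k → s j * ev s (cwm m k) = ev s (cwm m k) * s (j + 1)) := by
  intro k
  induction k with
  | zero =>
    refine ⟨fun _ => by simp [cwm], fun hk => by omega⟩
  | succ k ih =>
    refine ⟨fun hk => ?_, fun hk => ?_⟩
    · rw [cwm, ev_cons, ← mul_assoc, h.comm' j (m + k) (by omega), mul_assoc,
        ih.1 (by omega), mul_assoc]
    · rcases Nat.lt_or_ge (j + 1) (m + k) with h1 | h1
      · rw [cwm, ev_cons, ← mul_assoc, h.comm' j (m + k) (by omega), mul_assoc,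
          ih.2 h1, mul_assoc]
      · have hk' : m + k = j + 1 := by omega
        obtain ⟨k', rfl⟩ : ∃ k', k = k' + 1 := ⟨k - 1, by omega⟩
        have e1 : m + k' = j := by omega
        have hc : ∀ k'' ≤ k', s (j + 1) * ev s (cwm m k'') = ev s (cwm m k'') * s (j + 1) := by
          intro k'' hk''
          induction k'' with
          | zero => simp [cwm]
          | succ k'' ih' =>
            rw [cwm, ev_cons, ← mul_assoc, h.comm' (j + 1) (m + k'') (by omega), mul_assoc,
              ih' (by omega), mul_assoc]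
        rw [cwm, cwm, ev_cons, ev_cons, e1, show m + (k' + 1) = j + 1 by omega]
        have := hc k' le_rfl
        calc s j * (s (j + 1) * (s j * ev s (cwm m k')))
            = (s j * s (j + 1) * s j) * ev s (cwm m k') := by group
          _ = (s (j + 1) * s j * s (j + 1)) * ev s (cwm m k') := by rw [h.braid]
          _ = s (j + 1) * s j * (s (j + 1) * ev s (cwm m k')) := by group
          _ = s (j + 1) * s j * (ev s (cwm m k') * s (j + 1)) := by rw [this]
          _ = s (j + 1) * (s j * ev s (cwm m k')) * s (j + 1) := by group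

theorem Cox.decomp (h : Cox s) (m n : ℕ) (u : List ℕ) (hu : ∀ i ∈ u, m ≤ i ∧ i < n) :
    ∃ (k : ℕ) (u' : List ℕ), (k ≠ 0 → m + k ≤ n) ∧ (∀ i ∈ u', m + 1 ≤ i ∧ i < n) ∧
      ev s u = ev s (cwm m k) * ev s u' := by
  induction u with
  | nil => exact ⟨0, [], by simp, by simp, by simp [cwm]⟩
  | cons j u ih =>
    obtain ⟨k, u', hk, hu', e⟩ := ih (fun i hi => hu i (by simp [hi]))
    have hj := hu j (by simp)
    rw [ev_cons, e]
    rcases lt_trichotomy (m + k) j with h1 | h1 | h1
    · refine ⟨k, j :: u', hk, ?_, ?_⟩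
      · intro i hi
        rcases List.mem_cons.1 hi with rfl | hi
        · omega
        · exact hu' i hi
      · rw [ev_cons, ← mul_assoc, (h.step_aux m j hj.1 k).1 h1, mul_assoc]
    · refine ⟨k + 1, u', fun _ => by omega, hu', ?_⟩
      rw [cwm, ev_cons, h1, mul_assoc]
    · rcases Nat.lt_or_ge (j + 1) (m + k) with h2 | h2
      · refine ⟨k, (j + 1) :: u', hk, ?_, ?_⟩
        · intro i hi
          rcases List.mem_cons.1 hi with rfl | hi
          · have := hk (by omega)
            omega
          · exact hu' i hi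
        · rw [ev_cons, ← mul_assoc, (h.step_aux m j hj.1 k).2 h2, mul_assoc]
      · obtain ⟨k', rfl⟩ : ∃ k', k = k' + 1 := ⟨k - 1, by omega⟩
        refine ⟨k', u', fun _ => by have := hk (by omega); omega, hu', ?_⟩
        rw [cwm, ev_cons, show m + k' = j by omega, ← mul_assoc, ← mul_assoc, h.sq, one_mul]

theorem pv_cwm_apply (m k : ℕ) : pv (cwm m k) m = m + k := by
  induction k with
  | zero => simp [cwm]
  | succ k ih =>
    rw [cwm, pv_cons, Equiv.Perm.mul_apply, ih, Equiv.swap_apply_left]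
    omega

theorem pv_fix_lt (u : List ℕ) (m : ℕ) (hu : ∀ i ∈ u, m ≤ i) (j : ℕ) (hj : j < m) :
    pv u j = j := by
  induction u with
  | nil => simp
  | cons i u ih =>
    rw [pv_cons, Equiv.Perm.mul_apply, ih (fun i hi => hu i (by simp [hi]))]
    have := hu i (by simp)
    exact Equiv.swap_apply_of_ne_of_ne (by omega) (by omega)

theorem ev_prod {Δ : Type*} [Group Δ] (s : ℕ → Γ) (s' : ℕ → Δ) (u : List ℕ) :
    ev (fun i => (s i, s' i)) u = (ev s u, ev s' u) := by
  induction u with
  | nil => rfl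
  | cons i u ih => simp [ih]

/-- A word whose permutation fixes `m, …, m' - 1` equals a word with letters at least `m'`. -/
theorem Cox.stab (h : Cox s) (n : ℕ) (u : List ℕ) (m m' : ℕ) (hm : m ≤ m')
    (hu : ∀ i ∈ u, m ≤ i ∧ i < n) (hf : ∀ j, m ≤ j → j < m' → pv u j = j) :
    ∃ u' : List ℕ, (∀ i ∈ u', m' ≤ i ∧ i < n) ∧ ev s u = ev s u' ∧ pv u = pv u' := by
  obtain ⟨c, rfl⟩ := Nat.exists_eq_add_of_le hm
  clear hm
  induction c generalizing u m with
  | zero => exact ⟨u, by simpa using hu, rfl, rfl⟩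
  | succ c ih =>
    obtain ⟨k, u', hk, hu', e⟩ := (h.prod cox_swap).decomp m n u hu
    rw [ev_prod, ev_prod, ev_prod, Prod.mk_mul_mk, Prod.mk.injEq] at e
    obtain ⟨e1, e2⟩ := e
    change pv u = pv (cwm m k) * pv u' at e2
    have h0 := hf m le_rfl (by omega)
    rw [e2, Equiv.Perm.mul_apply, pv_fix_lt u' (m + 1) (fun i hi => (hu' i hi).1) m (by omega),
      pv_cwm_apply] at h0
    have hk0 : k = 0 := by omega
    subst hk0
    simp only [cwm, ev_nil, one_mul, pv_nil] at e1 e2
    have := ih u' (m + 1) hu' (fun j hj1 hj2 => by rw [← e2]; exact hf j (by omega) (by omega))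
    obtain ⟨u'', h1, h2, h3⟩ := this
    exact ⟨u'', by intro i hi; have := h1 i hi; omega, e1.trans h2, e2.trans h3⟩

theorem exists_bound (u : List ℕ) : ∃ n, ∀ i ∈ u, i < n := by
  induction u with
  | nil => exact ⟨0, by simp⟩
  | cons i u ih =>
    obtain ⟨n, hn⟩ := ih
    refine ⟨max n (i + 1), ?_⟩
    intro j hj
    rcases List.mem_cons.1 hj with rfl | hj
    · exact lt_of_lt_of_le (Nat.lt_succ_self _) (le_max_right _ _)
    · exact lt_of_lt_of_le (hn j hj) (le_max_left _ _)

theorem Cox.stab' (h : Cox s) (u : List ℕ) (m : ℕ) (hf : ∀ j, j < m → pv u j = j) :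
    ∃ u' : List ℕ, (∀ i ∈ u', m ≤ i) ∧ ev s u = ev s u' ∧ pv u = pv u' := by
  obtain ⟨n, hn⟩ := exists_bound u
  obtain ⟨u', h1, h2, h3⟩ := h.stab n u 0 m (Nat.zero_le _) (fun i hi => ⟨Nat.zero_le _, hn i hi⟩)
    (fun j _ hj => hf j hj)
  exact ⟨u', fun i hi => (h1 i hi).1, h2, h3⟩

theorem Cox.faithful (h : Cox s) (u : List ℕ) (hu : pv u = 1) : ev s u = 1 := by
  obtain ⟨n, hn⟩ := exists_bound u
  obtain ⟨u', h1, h2, h3⟩ := h.stab n u 0 n (Nat.zero_le _) (fun i hi => ⟨Nat.zero_le _, hn i hi⟩)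
    (fun j _ hj => by rw [hu]; rfl)
  have : u' = [] := by
    cases u' with
    | nil => rfl
    | cons i u' =>
      have := h1 i (by simp)
      omega
  rw [h2, this, ev_nil]

theorem Cox.ev_eq (h : Cox s) (u v : List ℕ) (huv : pv u = pv v) : ev s u = ev s v := by
  have h1 : pv (u ++ v.reverse) = 1 := by
    rw [pv_append, huv]
    have : pv v.reverse = (pv v)⁻¹ := cox_swap.ev_reverse v
    rw [this, mul_inv_cancel]
  have := h.faithful _ h1
  rw [ev_append, h.ev_reverse, mul_inv_eq_one] at this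
  exact this

end

end Pool.Agent.Work.MP_aa9b22_lc
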