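import Pool.Agent.Work.MP_aa9b22_lc.Faith

set_option autoImplicit false
set_option linter.all false

namespace Pool.Agent.Work.MP_aa9b22_lc

variable {G : Type} [Group G] {e : ℕ}

namespace Sys

variable {S : SS G e} {Γ : Type*} [Group Γ] (D : Sys S Γ)

/-- the subgroup generated by the elements with indices at least `m` -/
def Hm (m : ℕ) : Subgroup Γ := Subgroup.closure
  ({γ | ∃ i, m ≤ i ∧ (γ = D.x i ∨ γ = D.s i ∨ ∃ g, γ = D.lam i g)})

theorem x_mem_Hm {m i : ℕ} (h : m ≤ i) : D.x i ∈ D.Hm m :=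
  Subgroup.subset_closure ⟨i, h, Or.inl rfl⟩
theorem s_mem_Hm {m i : ℕ} (h : m ≤ i) : D.s i ∈ D.Hm m :=
  Subgroup.subset_closure ⟨i, h, Or.inr (Or.inl rfl)⟩
theorem lam_mem_Hm {m i : ℕ} (h : m ≤ i) (g : G) : D.lam i g ∈ D.Hm m :=
  Subgroup.subset_closure ⟨i, h, Or.inr (Or.inr ⟨g, rfl⟩)⟩

theorem ev_mem {K : Subgroup Γ} (z : ℕ → Γ) (u : List ℕ) (h : ∀ i ∈ u, z i ∈ K) :
    ev z u ∈ K := by
  induction u with
  | nil => exact K.one_mem
  | cons i u ih =>
    rw [ev_cons]
    exact K.mul_mem (h i (by simp)) (ih (fun j hj => h j (by simp [hj])))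

theorem resAt_lam (n : ℕ) (g : G) (h : S.resAt n g) (i : ℕ) : D.lam i g = 1 := by
  induction n generalizing g i with
  | zero =>
    have : g = 1 := h
    rw [this, D.lam_one]
  | succ n ih =>
    obtain ⟨h1, h2⟩ := h
    obtain ⟨u, hu1, hu2, hu3⟩ := D.lam_xi i g
    have hpv : pv u = 1 := by
      ext j
      by_cases hj : ∃ k : Fin (e + 1), j = i + (k : ℕ)
      · obtain ⟨k, rfl⟩ := hj
        rw [hu1 k, h1]; rfl
      · push Not at hj
        rw [hu2 j hj]; rfl
    have hLP : D.LP (S.secs g i) = 1 := by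
      have : ∀ l : List (ℕ × G), (∀ a ∈ l, D.lam a.1 a.2 = 1) → D.LP l = 1 := by
        intro l
        induction l with
        | nil => simp
        | cons a l ihl =>
          intro hl
          rw [LP_cons, hl a (by simp), one_mul, ihl (fun b hb => hl b (by simp [hb]))]
      apply this
      intro a ha
      rw [SS.secs, List.mem_map] at ha
      obtain ⟨k, hk, rfl⟩ := ha
      rw [List.mem_range] at hk
      simp only
      rw [SS.Rn, dif_pos hk]
      exact ih _ (h2 _) _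
    rw [hLP, D.cox.faithful u hpv, mul_one, mul_one] at hu3
    exact mul_eq_right.1 hu3

theorem resolved_lam (g : G) (h : S.Resolved g) (i : ℕ) : D.lam i g = 1 := by
  obtain ⟨n, hn⟩ := h
  exact D.resAt_lam n g hn i

theorem LL_mem {K : Subgroup Γ} (g : ℕ → G) (n : ℕ) (h : ∀ i < n, D.lam i (g i) ∈ K) :
    D.LL g n ∈ K := by
  induction n with
  | zero => rw [LL_zero]; exact K.one_mem
  | succ n ih =>
    rw [LL_succ]
    exact K.mul_mem (ih (fun i hi => h i (by omega))) (h n (by omega))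

theorem Hm_mono {m m' : ℕ} (h : m ≤ m') : D.Hm m' ≤ D.Hm m := by
  apply Subgroup.closure_mono
  rintro γ ⟨i, hi, hγ⟩
  exact ⟨i, by omega, hγ⟩

theorem lam_mem_H (i : ℕ) (g : G) : D.lam i g ∈ D.H := by
  rw [lam, lamOf]
  exact D.H.mul_mem (D.H.mul_mem (ev_mem _ _ fun i _ => D.s_mem_H i) (D.la_mem_H g))
    (D.H.inv_mem (ev_mem _ _ fun i _ => D.s_mem_H i))

theorem Hm_le_H (m : ℕ) : D.Hm m ≤ D.H := by
  rw [Hm, Subgroup.closure_le]
  rintro γ ⟨i, _, rfl | rfl | ⟨g, rfl⟩⟩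
  · exact D.x_mem_H i
  · exact D.s_mem_H i
  · exact D.lam_mem_H i g

/-- conjugation by `x j` lowers the indices -/
theorem conj_x_Hm (j m : ℕ) (hj : j < m) {γ : Γ} (hγ : γ ∈ D.Hm (m + e)) :
    D.x j * γ * (D.x j)⁻¹ ∈ D.Hm m := by
  have : D.Hm (m + e) ≤ (D.Hm m).comap (MulAut.conj (D.x j)).toMonoidHom := by
    rw [Hm, Subgroup.closure_le]
    rintro γ ⟨i, hi, hγ⟩
    obtain ⟨i', rfl⟩ : ∃ i', i = i' + e := ⟨i - e, by omega⟩
    simp only [SetLike.mem_coe, Subgroup.mem_comap, MulEquiv.coe_toMonoidHom, MulAut.conj_apply]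
    rcases hγ with rfl | rfl | ⟨g, rfl⟩
    · rw [← D.xx j i' (by omega), mul_assoc, mul_inv_cancel, mul_one]
      exact D.x_mem_Hm (by omega)
    · rw [← D.sx_lt j i' (by omega), mul_assoc, mul_inv_cancel, mul_one]
      exact D.s_mem_Hm (by omega)
    · have h1 := D.lam_x j i' (by omega) g
      have h2 : pos e j i' = i' + e := by rw [pos, if_neg (by omega)]
      rw [h2] at h1
      rw [← h1, mul_assoc, mul_inv_cancel, mul_one]
      exact D.lam_mem_Hm (by omega) g
  have := this hγ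
  rwa [Subgroup.mem_comap] at this

end Sys

section

variable {S : SS G e} {Γ : Type*} [Group Γ] (D : Sys S Γ) (he : 1 ≤ e)
  {ρ : Γ →* Equiv.Perm ((Coef.triv S).mod he).X} (hρ : Rho D ((Coef.triv S).mod he) ρ)
  (hres : ∀ g, S.Triv g → S.Resolved g)

include hρ

theorem nf_conj (F₁ w : List ℕ) (g : ℕ → G) (n : ℕ) (F₂ F₁' F₂' : List ℕ) (j : ℕ)
    (h1 : ev D.x F₁ = D.x j * ev D.x F₁') (h2 : ev D.x F₂ = D.x j * ev D.x F₂') :
    nf D F₁ w g n F₂ = D.x j * nf D F₁' w g n F₂' * (D.x j)⁻¹ := by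
  rw [nf, nf, h1, h2]; group

/-- points in the roots below `m + e` are moved by `x j` to points in the roots below `m` -/
theorem conj_fix (m j : ℕ) (hj : j < m) (h : Γ)
    (hfix : ∀ j' < m, ∀ v, ρ (D.x j * h * (D.x j)⁻¹) (pt S he j' v) = pt S he j' v) :
    ∀ j' < m + e, ∀ v, ρ h (pt S he j' v) = pt S he j' v := by
  intro j' hj' v
  have key : ∃ j'' < m, ∃ v'', ρ (D.x j) (pt S he j' v) = pt S he j'' v'' := by
    rw [rho_x_pt D he hρ]
    split_ifs
    · exact ⟨j', by omega, v, rfl⟩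
    · exact ⟨j, hj, _, rfl⟩
    · exact ⟨j' - e, by omega, v, rfl⟩
  obtain ⟨j'', h1, v'', h2⟩ := key
  have h3 := hfix j'' h1 v''
  apply (ρ (D.x j)).injective
  rw [h2]
  rw [← h2, map_mul, map_mul, Equiv.Perm.mul_apply, Equiv.Perm.mul_apply, map_inv,
    perm_inv_apply] at h3
  rw [h3, h2]

include hres

/-- analysis of the unsplit case -/
theorem unsplit_case (F₁ w : List ℕ) (g : ℕ → G) (n : ℕ) (F₂ : List ℕ)
    (hg : ∀ i, n ≤ i → g i = 1) (m : ℕ)
    (hfix : ∀ j < m, ∀ v, ρ (nf D F₁ w g n F₂) (pt S he j v) = pt S he j v)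
    (hun : ∀ j < m, ∃ k, fwd e F₂ k = (j, [])) :
    (∀ i ∈ F₂, m ≤ i) ∧ (∀ i ∈ F₁, m ≤ i) ∧ (∀ j < m, pv w j = j) ∧
      (∀ j < m, S.Resolved (g j)) := by
  obtain ⟨h1, h2⟩ := unsplit_letters F₂ m hun
  have h3 : ∀ j < m, fwd e F₁ (pv w j) = (j, []) ∧ S.Triv (g j) := by
    intro j hj
    have h4 : ∀ v, pt S he (fwd e F₁ (pv w j)).1 ((fwd e F₁ (pv w j)).2 ++ S.wact (g j) v) =
        pt S he j v := by
      intro v
      rw [← rho_nf_pt D he hρ F₁ w g n F₂ hg j v, h2 j hj]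
      simp only [List.nil_append]
      exact hfix j hj v
    obtain ⟨h5, h6⟩ := leaf_compare S he (g j) [] (fwd e F₁ (pv w j)).2 (fun v => by
      rw [List.nil_append]
      exact (pt_inj he (h4 v)).2)
    exact ⟨Prod.ext (pt_inj he (h4 [])).1 h5.symm, h6⟩
  obtain ⟨h7, h8⟩ := unsplit_letters F₁ m (fun j hj => ⟨_, (h3 j hj).1⟩)
  refine ⟨h1, h7, ?_, fun j hj => hres _ (h3 j hj).2⟩
  intro j hj
  exact fwd_inj D he hρ F₁ _ _ ((h3 j hj).1.trans (h8 j hj).symm)

/-- An element of `H` fixing the special points of the first `m` roots lies in `Hm m`. -/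
theorem mem_Hm_of_fix (F₁ w : List ℕ) (g : ℕ → G) (n : ℕ) (F₂ : List ℕ)
    (hg : ∀ i, n ≤ i → g i = 1) (m : ℕ)
    (hfix : ∀ j < m, ∀ v, ρ (nf D F₁ w g n F₂) (pt S he j v) = pt S he j v) :
    nf D F₁ w g n F₂ ∈ D.Hm m := by
  induction hN : F₂.length using Nat.strong_induction_on generalizing F₁ F₂ m with
  | _ N ih =>
    by_cases hun : ∀ j < m, ∃ k, fwd e F₂ k = (j, [])
    · obtain ⟨h1, h2, h3, h4⟩ := unsplit_case D he hρ hres F₁ w g n F₂ hg m hfix hun
      obtain ⟨u', h5, h6, _⟩ := D.cox.stab' w m h3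
      rw [nf, h6]
      refine (D.Hm m).mul_mem ((D.Hm m).mul_mem ?_ ((D.Hm m).mul_mem ?_ ?_))
        ((D.Hm m).inv_mem ?_)
      · exact Sys.ev_mem _ _ fun i hi => D.x_mem_Hm (h2 i hi)
      · exact Sys.ev_mem _ _ fun i hi => D.s_mem_Hm (h5 i hi)
      · apply D.LL_mem
        intro i _
        rcases Nat.lt_or_ge i m with hi | hi
        · rw [D.resolved_lam _ (h4 i hi)]
          exact (D.Hm m).one_mem
        · exact D.lam_mem_Hm hi _
      · exact Sys.ev_mem _ _ fun i hi => D.x_mem_Hm (h1 i hi)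
    · push Not at hun
      obtain ⟨j, hj, hun⟩ := hun
      rcases split_or D F₂ j with ⟨k, hk⟩ | ⟨F₂', h1, h2⟩
      · exact absurd hk (hun k)
      · obtain ⟨F₁', h3⟩ := split2 D he hρ F₁ w g n F₂ F₂' hg j h2 (hfix j hj)
        have h4 := nf_conj D he hρ F₁ w g n F₂ F₁' F₂' j h3 h2
        rw [h4]
        apply D.conj_x_Hm j m hj
        apply ih F₂'.length (by omega) F₁' F₂' (m + e) _ rfl
        apply conj_fix D he hρ m j hj
        intro j' hj' v
        rw [← h4]
        exact hfix j' hj' v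

/-- An element of `H` fixing all special points of the roots is trivial. -/
theorem eq_one_of_fix (F₁ w : List ℕ) (g : ℕ → G) (n : ℕ) (F₂ : List ℕ)
    (hg : ∀ i, n ≤ i → g i = 1)
    (hfix : ∀ j v, ρ (nf D F₁ w g n F₂) (pt S he j v) = pt S he j v) :
    nf D F₁ w g n F₂ = 1 := by
  induction hN : F₂.length using Nat.strong_induction_on generalizing F₁ F₂ with
  | _ N ih =>
    cases F₂ with
    | nil =>
      have key : ∀ m, (∀ i ∈ F₁, m ≤ i) ∧ (∀ j < m, pv w j = j) ∧
          (∀ j < m, S.Resolved (g j)) := fun m =>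
        (unsplit_case D he hρ hres F₁ w g n [] hg m (fun j _ v => hfix j v)
          (fun j _ => ⟨j, rfl⟩)).2
      have hF : F₁ = [] := by
        cases F₁ with
        | nil => rfl
        | cons a F =>
          have := (key (a + 1)).1 a (by simp)
          omega
      have hw : pv w = 1 := by
        ext j
        exact (key (j + 1)).2.1 j (by omega)
      have hL : D.LL g n = 1 := by
        have := D.LL_mem (K := ⊥) g n (fun i _ => by
          rw [D.resolved_lam _ ((key (i + 1)).2.2 i (by omega))]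
          exact Subgroup.one_mem _)
        rwa [Subgroup.mem_bot] at this
      rw [nf, hF, D.cox.faithful w hw, hL]
      simp
    | cons i F₂' =>
      have h2 : ev D.x (i :: F₂') = D.x i * ev D.x F₂' := ev_cons _ _ _
      obtain ⟨F₁', h3⟩ := split2 D he hρ F₁ w g n (i :: F₂') F₂' hg i h2 (hfix i)
      have h4 := nf_conj D he hρ F₁ w g n (i :: F₂') F₁' F₂' i h3 h2
      have h5 : nf D F₁' w g n F₂' = 1 := by
        apply ih F₂'.length (by simp at hN; omega) F₁' F₂' _ rfl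
        intro j v
        refine conj_fix D he hρ (max (i + 1) (j + 1)) i (by omega) _ ?_ j (by omega) v
        intro j' _ v'
        rw [← h4]
        exact hfix j' v'
      rw [h4, h5]
      simp

end

end Pool.Agent.Work.MP_aa9b22_lc
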