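import Mathlib

set_option autoImplicit false

namespace Pool.Agent.Work.MP_aa9b22_lc

/-- Halting of a generalized Collatz process on the integers: residue classes modulo `m` with
`h r = true` are halting, and otherwise `m * s + r` is sent to `k r * s + v r`. -/
inductive Hlt (m : ℕ) (k v : ℕ → ℕ) (h : ℕ → Bool) : ℤ → Prop
  | stop (t : ℤ) : h (t % m).toNat = true → Hlt m k v h t
  | step (t : ℤ) : Hlt m k v h (k (t % m).toNat * (t / m) + v (t % m).toNat) → Hlt m k v h t

/-- `B` is a `Π₂` predicate (in the form used by the frozen statement). -/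
def IsPi2 (B : ℕ → Prop) : Prop :=
  ∃ R : ℕ × ℕ × ℕ → Prop, ComputablePred R ∧ ∀ n, B n ↔ ∀ x, ∃ y, R (n, x, y)

/-- Module M1: every Pi-2 predicate is the halting of all integers for a computable family of
generalized Collatz processes with fixed modulus and fixed halting classes. -/
def CollatzHard : Prop :=
  ∀ B : ℕ → Prop, IsPi2 B →
    ∃ (m : ℕ) (k v : ℕ → ℕ → ℕ) (h : ℕ → Bool), 0 < m ∧
      (∀ r, Computable fun n => k n r) ∧ (∀ r, Computable fun n => v n r) ∧
      ∀ n, B n ↔ ∀ t : ℤ, Hlt m (k n) (v n) h t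

/-- relators of a coded presentation -/
def rels (p : ℕ × List (List (ℕ × Bool))) : Set (FreeGroup ℕ) :=
  {r : FreeGroup ℕ | ∃ i : ℕ, p.1 ≤ i ∧ r = FreeGroup.of i} ∪
    {r : FreeGroup ℕ | ∃ w ∈ p.2, r = FreeGroup.mk w}

/-- codes of finite presentations of simple groups -/
def IsSimp (n : ℕ) : Prop :=
  ∃ p : ℕ × List (List (ℕ × Bool)), Encodable.decode n = some p ∧
    IsSimpleGroup (PresentedGroup (rels p))

/-- Module M2: being (a code of) a finitely presented simple group is `Π₂`. -/
def SimpUpper : Prop := IsPi2 IsSimp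

end Pool.Agent.Work.MP_aa9b22_lc
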