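import Pool.Agent.Work.MP_aa9b22_lc.Decomp

set_option autoImplicit false
set_option linter.all false

namespace Pool.Agent.Work.MP_aa9b22_lc

variable {G : Type} [Group G] {e : ℕ}

namespace Sys

variable {S : SS G e} {Γ : Type*} [Group Γ] (D : Sys S Γ)

/-- the translation -/
def tt : Γ := ev D.s (List.range e) * (D.x 0)⁻¹

theorem tt_mem_H : D.tt ∈ D.H :=
  D.H.mul_mem (ev_mem _ _ fun i _ => D.s_mem_H i) (D.H.inv_mem (D.x_mem_H 0))

theorem x0_conj_x (j : ℕ) (hj : 1 ≤ j) : D.x j * D.x 0 = D.x 0 * D.x (j + e) := D.xx 0 j hj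
theorem x0_conj_s (j : ℕ) (hj : 1 ≤ j) : D.s j * D.x 0 = D.x 0 * D.s (j + e) := D.sx_lt 0 j hj
theorem x0_conj_lam (j : ℕ) (hj : 1 ≤ j) (g : G) :
    D.lam j g * D.x 0 = D.x 0 * D.lam (j + e) g := by
  have h1 := D.lam_x 0 j (by omega) g
  have h2 : pos e 0 j = j + e := by simp [pos]
  rwa [h2] at h1

/-- words with letters less than `e` commute with everything far away -/
theorem ev_comm_s (u : List ℕ) (hu : ∀ i ∈ u, i < e) (j : ℕ) (hj : e + 1 ≤ j) :
    ev D.s u * D.s j = D.s j * ev D.s u := by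
  induction u with
  | nil => simp
  | cons i u ih =>
    have hi := hu i (by simp)
    rw [ev_cons, mul_assoc, ih (fun l hl => hu l (by simp [hl])), ← mul_assoc,
      D.cox.comm' i j (by omega), mul_assoc]

theorem ev_comm_x (u : List ℕ) (hu : ∀ i ∈ u, i < e) (j : ℕ) (hj : e + 1 ≤ j) :
    ev D.s u * D.x j = D.x j * ev D.s u := by
  induction u with
  | nil => simp
  | cons i u ih =>
    have hi := hu i (by simp)
    rw [ev_cons, mul_assoc, ih (fun l hl => hu l (by simp [hl])), ← mul_assoc,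
      D.sx_gt j i (by omega), mul_assoc]

theorem ev_comm_lam (u : List ℕ) (hu : ∀ i ∈ u, i < e) (j : ℕ) (hj : e + 1 ≤ j) (g : G) :
    ev D.s u * D.lam j g = D.lam j g * ev D.s u := by
  rw [D.ev_lam, pv_ge_fix u e hu j (by omega)]

theorem mem_range_lt : ∀ i ∈ List.range e, i < e := fun i hi => List.mem_range.1 hi

theorem tt_s (j : ℕ) (hj : 1 ≤ j) : D.tt * D.s j = D.s (j + e) * D.tt := by
  have h1 : (D.x 0)⁻¹ * D.s j = D.s (j + e) * (D.x 0)⁻¹ := by
    rw [inv_mul_eq_iff_eq_mul, ← mul_assoc, eq_mul_inv_iff_mul_eq, D.x0_conj_s j hj]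
  rw [tt, mul_assoc, h1, ← mul_assoc, D.ev_comm_s _ mem_range_lt _ (by omega), mul_assoc]

theorem tt_x (j : ℕ) (hj : 1 ≤ j) : D.tt * D.x j = D.x (j + e) * D.tt := by
  have h1 : (D.x 0)⁻¹ * D.x j = D.x (j + e) * (D.x 0)⁻¹ := by
    rw [inv_mul_eq_iff_eq_mul, ← mul_assoc, eq_mul_inv_iff_mul_eq, D.x0_conj_x j hj]
  rw [tt, mul_assoc, h1, ← mul_assoc, D.ev_comm_x _ mem_range_lt _ (by omega), mul_assoc]

theorem tt_lam (j : ℕ) (hj : 1 ≤ j) (g : G) : D.tt * D.lam j g = D.lam (j + e) g * D.tt := by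
  have h1 : (D.x 0)⁻¹ * D.lam j g = D.lam (j + e) g * (D.x 0)⁻¹ := by
    rw [inv_mul_eq_iff_eq_mul, ← mul_assoc, eq_mul_inv_iff_mul_eq, D.x0_conj_lam j hj g]
  rw [tt, mul_assoc, h1, ← mul_assoc, D.ev_comm_lam _ mem_range_lt _ (by omega), mul_assoc]

theorem top_inv : D.top⁻¹ = D.top := by
  rw [inv_eq_iff_mul_eq_one, D.top_sq]

theorem top_tt : D.top * D.tt * D.top = D.tt⁻¹ := by
  rw [eq_inv_iff_mul_eq_one]
  exact D.top_t

theorem top_mul (a b : Γ) : D.top * (a * b) * D.top = (D.top * a * D.top) * (D.top * b * D.top) := by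
  calc D.top * (a * b) * D.top = D.top * a * 1 * b * D.top := by group
    _ = D.top * a * (D.top * D.top) * b * D.top := by rw [D.top_sq]
    _ = _ := by group

theorem top_inv' (a : Γ) : D.top * a⁻¹ * D.top = (D.top * a * D.top)⁻¹ := by
  rw [mul_inv_rev, mul_inv_rev, D.top_inv]; group

theorem x_succ (i : ℕ) : D.x (i + 1) = D.s i * D.x i * (ev D.s (List.range' i (e + 1)))⁻¹ := by
  rw [D.sx_eq]; group

theorem ev_one_le (u : List ℕ) (h : ∀ i ∈ u, 1 ≤ i) (K : Subgroup Γ)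
    (hK : ∀ i, 1 ≤ i → D.s i ∈ K) : ev D.s u ∈ K := ev_mem _ _ fun i hi => hK i (h i hi)

theorem range'_ge (i n : ℕ) (hi : 1 ≤ i) : ∀ j ∈ List.range' i n, 1 ≤ j := by
  intro j hj
  rw [List.mem_range'] at hj
  obtain ⟨k, _, rfl⟩ := hj
  omega

/-- A subgroup normalised appropriately which contains the basic conjugates contains
`top * Hm 1 * top`. -/
theorem top_Hm_le (he : 1 ≤ e) (K : Subgroup Γ)
    (h1 : ∀ i, i + 1 < e → D.x 0 * D.s i * (D.x 0)⁻¹ ∈ K)
    (h2 : D.x 0 * D.x e * D.s (e - 1) * (D.x e)⁻¹ * (D.x 0)⁻¹ ∈ K)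
    (h3 : D.x 0 * D.x 0 * (D.x e)⁻¹ * (D.x 0)⁻¹ ∈ K)
    (h4 : ∀ g, D.x 0 * D.la g * (D.x 0)⁻¹ ∈ K)
    (ht : ∀ γ ∈ K, D.tt⁻¹ * γ * D.tt ∈ K) :
    ∀ γ ∈ D.Hm 1, D.top * γ * D.top ∈ K := by
  have hs : ∀ i, 1 ≤ i → D.top * D.s i * D.top ∈ K := by
    intro i
    induction i using Nat.strong_induction_on with
    | _ i ih =>
      intro hi
      rcases lt_trichotomy i e with h | h | h
      · obtain ⟨i', rfl⟩ : ∃ i', i = i' + 1 := ⟨i - 1, by omega⟩
        rw [D.top_s i' h]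
        exact h1 i' h
      · subst h
        rw [D.top_se]
        exact h2
      · obtain ⟨i', rfl⟩ : ∃ i', i = i' + e := ⟨i - e, by omega⟩
        have h5 : D.s (i' + e) = D.tt * D.s i' * D.tt⁻¹ := by
          rw [eq_mul_inv_iff_mul_eq, D.tt_s i' (by omega)]
        rw [h5, D.top_mul, D.top_mul, D.top_inv', D.top_tt, inv_inv]
        exact ht _ (ih i' (by omega) (by omega))
  have hev : ∀ u : List ℕ, (∀ i ∈ u, 1 ≤ i) → D.top * ev D.s u * D.top ∈ K := by
    intro u
    induction u with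
    | nil =>
      intro _
      rw [ev_nil, mul_one, D.top_sq]
      exact K.one_mem
    | cons i u ih =>
      intro hu
      rw [ev_cons, D.top_mul]
      exact K.mul_mem (hs i (hu i (by simp))) (ih fun j hj => hu j (by simp [hj]))
  have hx : ∀ i, 1 ≤ i → D.top * D.x i * D.top ∈ K := by
    intro i hi
    induction i, hi using Nat.le_induction with
    | base => rw [D.top_x1]; exact h3
    | succ i hi ih =>
      rw [D.x_succ, D.top_mul, D.top_mul, D.top_inv']
      exact K.mul_mem (K.mul_mem (hs i hi) ih) (K.inv_mem (hev _ (range'_ge i _ hi)))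
  have hl : ∀ i g, 1 ≤ i → D.top * D.lam i g * D.top ∈ K := by
    intro i g hi
    induction i, hi using Nat.le_induction with
    | base =>
      rw [D.lam_succ, D.lam_zero, D.top_la]
      exact h4 g
    | succ i hi ih =>
      rw [D.lam_succ, D.top_mul, D.top_mul]
      exact K.mul_mem (K.mul_mem (hs i hi) ih) (hs i hi)
  intro γ hγ
  induction hγ using Subgroup.closure_induction with
  | mem y hy =>
    obtain ⟨i, hi, rfl | rfl | ⟨g, rfl⟩⟩ := hy
    · exact hx i hi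
    · exact hs i hi
    · exact hl i g hi
  | one => rw [mul_one, D.top_sq]; exact K.one_mem
  | mul a b _ _ ha hb => rw [D.top_mul]; exact K.mul_mem ha hb
  | inv a _ ha => rw [D.top_inv']; exact K.inv_mem ha

/-- the two point stabiliser -/
def Kb : Subgroup Γ := Subgroup.closure ({D.tt} ∪ (D.Hm 1 : Set Γ))

theorem tt_mem_Kb : D.tt ∈ D.Kb := Subgroup.subset_closure (Or.inl rfl)
theorem Hm_le_Kb : D.Hm 1 ≤ D.Kb := fun _ h => Subgroup.subset_closure (Or.inr h)
theorem Kb_le_H : D.Kb ≤ D.H := by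
  rw [Kb, Subgroup.closure_le]
  rintro γ (h | h)
  · rw [Set.mem_singleton_iff.1 h]
    exact D.tt_mem_H
  · exact D.Hm_le_H 1 h

theorem top_Kb (he : 1 ≤ e) (γ : Γ) (hγ : γ ∈ D.Kb) : D.top * γ * D.top ∈ D.H := by
  induction hγ using Subgroup.closure_induction with
  | mem y hy =>
    rcases hy with h | h
    · rw [Set.mem_singleton_iff.1 h, D.top_tt]
      exact D.H.inv_mem D.tt_mem_H
    · refine D.top_Hm_le he D.H ?_ ?_ ?_ ?_ ?_ y h
      · intro i _
        exact D.H.mul_mem (D.H.mul_mem (D.x_mem_H _) (D.s_mem_H _)) (D.H.inv_mem (D.x_mem_H _))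
      · exact D.H.mul_mem (D.H.mul_mem (D.H.mul_mem (D.H.mul_mem (D.x_mem_H _) (D.x_mem_H _))
          (D.s_mem_H _)) (D.H.inv_mem (D.x_mem_H _))) (D.H.inv_mem (D.x_mem_H _))
      · exact D.H.mul_mem (D.H.mul_mem (D.H.mul_mem (D.x_mem_H _) (D.x_mem_H _))
          (D.H.inv_mem (D.x_mem_H _))) (D.H.inv_mem (D.x_mem_H _))
      · intro g
        exact D.H.mul_mem (D.H.mul_mem (D.x_mem_H _) (D.la_mem_H _)) (D.H.inv_mem (D.x_mem_H _))
      · intro γ hγ
        exact D.H.mul_mem (D.H.mul_mem (D.H.inv_mem D.tt_mem_H) hγ) D.tt_mem_H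
  | one => rw [mul_one, D.top_sq]; exact D.H.one_mem
  | mul a b _ _ ha hb => rw [D.top_mul]; exact D.H.mul_mem ha hb
  | inv a _ ha => rw [D.top_inv']; exact D.H.inv_mem ha

end Sys

section

variable {S : SS G e} {Γ : Type*} [Group Γ] (D : Sys S Γ) (he : 1 ≤ e)
  {ρ : Γ →* Equiv.Perm ((Coef.triv S).mod he).X} (hρ : Rho D ((Coef.triv S).mod he) ρ)
  (hres : ∀ g, S.Triv g → S.Resolved g)

/-- the point at infinity -/
def pinf (S : SS G e) (he : 1 ≤ e) : (M0 S he).X := Sum.inr ()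

include hρ

theorem rho_top_inf : ρ D.top (pinf S he) = pt S he 0 [] := by
  have h1 : (M0 S he).Rt (liftW [], ()) = pinf S he := by
    have h3 : (M0 S he).κ (liftW [], ()) = Sum.inr () := (Coef.triv S).kf_kg he (Sum.inr ())
    rw [Mod.Rt, h3]; rfl
  rw [← h1, hρ.top, Mod.ptop_R]; rfl

theorem rho_top_q : ρ D.top (pt S he 0 []) = pinf S he := by
  rw [← rho_top_inf D he hρ, ← Equiv.Perm.mul_apply, ← map_mul, D.top_sq, map_one]; rfl

theorem rho_s0_q : ρ (D.s 0) (pt S he 0 []) = pt S he 1 [] := by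
  have := rho_ev_s_pt D he hρ [0] 0 []
  simpa using this

theorem rho_s0_q' : ρ (D.s 0) (pt S he 1 []) = pt S he 0 [] := by
  have := rho_ev_s_pt D he hρ [0] 1 []
  simpa using this

theorem rho_tt_last (v : List (Fin (e + 1))) :
    ρ D.tt (pt S he 0 (Fin.last e :: v)) = pt S he 0 v := by
  have h1 : ρ D.tt = (M0 S he).pt := by
    rw [Sys.tt, map_mul, map_inv, hρ.x, ev_map, Mod.pt]
    congr 1
    exact ev_congr _ _ _ fun i _ => hρ.s i
  rw [h1]
  have := (M0 S he).pt_Llast (liftW v, ())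
  rw [c_pt] at this
  exact this

theorem rho_tt_lt (i : Fin (e + 1)) (hi : i ≠ Fin.last e) (v : List (Fin (e + 1))) :
    ρ D.tt (pt S he 0 (i :: v)) = pt S he ((i : ℕ) + 1) v := by
  have h1 : ρ D.tt = (M0 S he).pt := by
    rw [Sys.tt, map_mul, map_inv, hρ.x, ev_map, Mod.pt]
    congr 1
    exact ev_congr _ _ _ fun i _ => hρ.s i
  rw [h1]
  have := (M0 S he).pt_Llt i (liftW v, ()) hi
  rw [Mod.Rt_lt _ i _ hi, c_pt] at this
  exact this

theorem rho_H_inf (h : Γ) (hh : h ∈ D.H) : ρ h (pinf S he) = pinf S he := by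
  induction hh using Subgroup.closure_induction with
  | mem y hy =>
    rcases hy with (⟨i, rfl⟩ | ⟨i, rfl⟩) | ⟨g, rfl⟩
    · rw [hρ.x]; rfl
    · rw [hρ.s]; rfl
    · rw [hρ.la]; rfl
  | one => simp
  | mul a b _ _ ha hb => rw [map_mul, Equiv.Perm.mul_apply, hb, ha]
  | inv a _ ha => rw [map_inv, Equiv.Perm.inv_eq_iff_eq, ha]

/-- every special point is in the image of a leaf -/
theorem exists_leaf (F : List ℕ) (j : ℕ) (v : List (Fin (e + 1))) :
    ∃ k v', ρ (ev D.x F) (pt S he k v') = pt S he j v := by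
  induction F generalizing j v with
  | nil => exact ⟨j, v, by simp⟩
  | cons i F ih =>
    have key : ∃ j' v', ρ (D.x i) (pt S he j' v') = pt S he j v := by
      rcases lt_trichotomy j i with h | h | h
      · exact ⟨j, v, by rw [rho_x_pt D he hρ, if_pos h]⟩
      · subst h
        cases v with
        | nil =>
          refine ⟨j + (Fin.last e : Fin (e + 1)), [], ?_⟩
          rw [rho_x_pt D he hρ, if_neg (by omega), if_pos (by simp), Nat.add_sub_cancel_left,
            Mod.ltr_coe, pt_nil_last]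
        | cons a v =>
          refine ⟨j + (a : ℕ), v, ?_⟩
          rw [rho_x_pt D he hρ, if_neg (by omega), if_pos (by omega), Nat.add_sub_cancel_left,
            Mod.ltr_coe]
      · refine ⟨j + e, v, ?_⟩
        rw [rho_x_pt D he hρ, if_neg (by omega), if_neg (by omega), Nat.add_sub_cancel]
    obtain ⟨j', v', h1⟩ := key
    obtain ⟨k, v'', h2⟩ := ih j' v'
    exact ⟨k, v'', by rw [ev_cons, map_mul, Equiv.Perm.mul_apply, h2, h1]⟩

omit hρ in
theorem liftW_replicate (n : ℕ) (u : List (Fin (e + 1))) (h : liftW u = liftW ([] : List (Fin (e+1)))) :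
    u = List.replicate u.length (Fin.last e) := by
  apply liftW_inj (by simp)
  rw [h]
  have : ∀ m, liftW (List.replicate m (Fin.last e)) = liftW ([] : List (Fin (e+1))) := by
    intro m
    induction m with
    | zero => rfl
    | succ m ih => rw [List.replicate_succ, liftW_cons, ih, liftW_nil_cons]
  exact (this _).symm

omit hρ in
theorem liftW_append_nil (u v : List (Fin (e + 1)))
    (h : liftW (u ++ v) = liftW ([] : List (Fin (e + 1)))) :
    liftW u = liftW ([] : List (Fin (e + 1))) ∧ liftW v = liftW ([] : List (Fin (e + 1))) := by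
  have h1 := liftW_replicate 0 _ h
  rw [List.length_append, List.replicate_add] at h1
  have h2 := List.append_inj h1 (by simp)
  have : ∀ m, liftW (List.replicate m (Fin.last e)) = liftW ([] : List (Fin (e+1))) := by
    intro m
    induction m with
    | zero => rfl
    | succ m ih => rw [List.replicate_succ, liftW_cons, ih, liftW_nil_cons]
  rw [h2.1, h2.2]
  exact ⟨this _, this _⟩

theorem rho_tt_pow (n : ℕ) (v : List (Fin (e + 1))) :
    ρ (D.tt ^ n) (pt S he 0 (List.replicate n (Fin.last e) ++ v)) = pt S he 0 v := by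
  induction n generalizing v with
  | zero => simp
  | succ n ih =>
    rw [pow_succ, map_mul, Equiv.Perm.mul_apply, List.replicate_succ, List.cons_append,
      rho_tt_last D he hρ, ih]

include hres

/-- the stabiliser of `q` in `H` -/
theorem mem_Kb_of_fix (h : Γ) (hh : h ∈ D.H) (hq : ρ h (pt S he 0 []) = pt S he 0 []) :
    h ∈ D.Kb := by
  obtain ⟨F₁, w, g, n, F₂, hg, hnf⟩ := isN_nf D (D.isN_of_mem hh)
  obtain ⟨k, v', hk⟩ := exists_leaf D he hρ F₂ 0 []
  rw [rho_F_pt D he hρ] at hk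
  obtain ⟨hr, hu⟩ := pt_inj he hk
  obtain ⟨hu1, hu2⟩ := liftW_append_nil _ _ hu
  set u := (fwd e F₂ k).2 with hudef
  -- image of the leaf
  have h1 : pt S he (fwd e F₁ (pv w k)).1 ((fwd e F₁ (pv w k)).2) = pt S he 0 [] := by
    have h2 := rho_nf_pt D he hρ F₁ w g n F₂ hg k []
    rw [SS.wact_nil, List.append_nil, List.append_nil, ← hnf, hr] at h2
    have h3 : pt S he 0 u = pt S he 0 [] := by rw [pt, hu1]; rfl
    rw [← hudef, h3, hq] at h2
    exact h2.symm
  obtain ⟨hr', hu'⟩ := pt_inj he h1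
  set u' := (fwd e F₁ (pv w k)).2 with hu'def
  have e1 : u = List.replicate u.length (Fin.last e) := liftW_replicate 0 _ hu1
  have e2 : u' = List.replicate u'.length (Fin.last e) := liftW_replicate 0 _ hu'
  have h4 : ∀ v, ρ h (pt S he 0 (u ++ Fin.last e :: v)) = pt S he 0 (u' ++ Fin.last e :: v) := by
    intro v
    have h5 := rho_nf_pt D he hρ F₁ w g n F₂ hg k (Fin.last e :: v)
    rw [← hnf, hr, hr', ← hudef, ← hu'def, SS.wact_cons, S.P_last, S.R_last, S.wact_one] at h5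
    exact h5
  have h6 : ∀ v, ρ (D.tt ^ (u'.length + 1) * h * (D.tt ^ (u.length + 1))⁻¹) (pt S he 0 v) =
      pt S he 0 v := by
    intro v
    have h7 : ρ (D.tt ^ (u.length + 1)) (pt S he 0 (u ++ Fin.last e :: v)) = pt S he 0 v := by
      have := rho_tt_pow D he hρ (u.length + 1) v
      rw [List.replicate_succ', List.append_assoc, ← e1] at this
      simpa using this
    have h8 : ρ (D.tt ^ (u'.length + 1)) (pt S he 0 (u' ++ Fin.last e :: v)) = pt S he 0 v := by
      have := rho_tt_pow D he hρ (u'.length + 1) v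
      rw [List.replicate_succ', List.append_assoc, ← e2] at this
      simpa using this
    have h9 : (ρ (D.tt ^ (u.length + 1)))⁻¹ (pt S he 0 v) = pt S he 0 (u ++ Fin.last e :: v) := by
      rw [Equiv.Perm.inv_eq_iff_eq, h7]
    rw [map_mul, map_mul, map_inv, Equiv.Perm.mul_apply, Equiv.Perm.mul_apply, h9, h4, h8]
  set h' := D.tt ^ (u'.length + 1) * h * (D.tt ^ (u.length + 1))⁻¹ with hh'
  have hH' : h' ∈ D.H := D.H.mul_mem (D.H.mul_mem (D.H.pow_mem D.tt_mem_H _) hh)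
    (D.H.inv_mem (D.H.pow_mem D.tt_mem_H _))
  obtain ⟨E₁, w2, g2, n2, E₂, hg2, hnf2⟩ := isN_nf D (D.isN_of_mem hH')
  have h10 : h' ∈ D.Hm 1 := by
    rw [hnf2]
    apply mem_Hm_of_fix D he hρ hres E₁ w2 g2 n2 E₂ hg2 1
    intro j hj v
    rw [← hnf2, show j = 0 by omega]
    exact h6 v
  have h11 : h = (D.tt ^ (u'.length + 1))⁻¹ * h' * D.tt ^ (u.length + 1) := by
    rw [hh']; group
  rw [h11]
  exact D.Kb.mul_mem (D.Kb.mul_mem (D.Kb.inv_mem (D.Kb.pow_mem D.tt_mem_Kb _)) (D.Hm_le_Kb h10))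
    (D.Kb.pow_mem D.tt_mem_Kb _)

omit hres

theorem trans1 (v : List (Fin (e + 1))) (j : ℕ) (hj : 1 ≤ j) :
    ∃ k ∈ D.Hm 1, ρ k (pt S he 1 []) = pt S he j v := by
  induction v generalizing j with
  | nil =>
    refine ⟨ev D.s (cwm 1 (j - 1)), ?_, ?_⟩
    · apply Sys.ev_mem
      intro i hi
      have : ∀ k, ∀ l ∈ cwm 1 k, 1 ≤ l := by
        intro k
        induction k with
        | zero => simp [cwm]
        | succ k ih =>
          intro l hl
          rw [cwm] at hl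
          rcases List.mem_cons.1 hl with rfl | hl
          · omega
          · exact ih l hl
      exact D.s_mem_Hm (this _ i hi)
    · rw [rho_ev_s_pt D he hρ, pv_cwm_apply]
      congr 1; omega
  | cons a v ih =>
    obtain ⟨k, h1, h2⟩ := ih (j + (a : ℕ)) (by omega)
    refine ⟨D.x j * k, (D.Hm 1).mul_mem (D.x_mem_Hm hj) h1, ?_⟩
    rw [map_mul, Equiv.Perm.mul_apply, h2, rho_x_pt D he hρ, if_neg (by omega),
      if_pos (by omega), Nat.add_sub_cancel_left, Mod.ltr_coe]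

theorem trans2 (v : List (Fin (e + 1))) (j : ℕ) (hne : pt S he j v ≠ pt S he 0 []) :
    ∃ k ∈ D.Kb, ρ k (pt S he 1 []) = pt S he j v := by
  rcases Nat.eq_zero_or_pos j with h0 | h0
  · subst h0
    induction v with
    | nil => exact absurd rfl hne
    | cons a v ih =>
      by_cases ha : a = Fin.last e
      · subst ha
        have h1 := rho_tt_last D he hρ v
        have hne' : pt S he 0 v ≠ pt S he 0 [] := by
          intro h
          apply hne
          rw [pt, liftW_cons, (pt_inj he h).2, liftW_nil_cons]; rfl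
        obtain ⟨k, h2, h3⟩ := ih hne'
        refine ⟨D.tt⁻¹ * k, D.Kb.mul_mem (D.Kb.inv_mem D.tt_mem_Kb) h2, ?_⟩
        rw [map_mul, Equiv.Perm.mul_apply, h3, map_inv, Equiv.Perm.inv_eq_iff_eq, h1]
      · have h1 := rho_tt_lt D he hρ a ha v
        obtain ⟨k, h2, h3⟩ := trans1 D he hρ v ((a : ℕ) + 1) (by omega)
        refine ⟨D.tt⁻¹ * k, D.Kb.mul_mem (D.Kb.inv_mem D.tt_mem_Kb) (D.Hm_le_Kb h2), ?_⟩
        rw [map_mul, Equiv.Perm.mul_apply, h3, map_inv, Equiv.Perm.inv_eq_iff_eq, h1]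
  · obtain ⟨k, h1, h2⟩ := trans1 D he hρ v j h0
    exact ⟨k, D.Hm_le_Kb h1, h2⟩

theorem H_pt (h : Γ) (hh : h ∈ D.H) : ∀ j v, ∃ j' v', ρ h (pt S he j v) = pt S he j' v' := by
  intro j v
  obtain ⟨F₁, w, g, n, F₂, hg, hnf⟩ := isN_nf D (D.isN_of_mem hh)
  obtain ⟨k, v', hk⟩ := exists_leaf D he hρ F₂ j v
  rw [rho_F_pt D he hρ] at hk
  rw [← hk, hnf, rho_nf_pt D he hρ F₁ w g n F₂ hg]
  exact ⟨_, _, rfl⟩

include hres

/-- the double coset decomposition -/
theorem double (hgen : Subgroup.closure ((D.H : Set Γ) ∪ {D.top}) = ⊤) (γ : Γ) :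
    γ ∈ D.H ∨ ∃ a ∈ D.H, ∃ b ∈ D.H, γ = a * D.top * b := by
  have key : ∀ h ∈ D.H, (D.top * h * D.top ∈ D.H) ∨
      ∃ a ∈ D.H, ∃ b ∈ D.H, D.top * h * D.top = a * D.top * b := by
    intro h hh
    by_cases hq : ρ h (pt S he 0 []) = pt S he 0 []
    · left
      exact D.top_Kb he h (mem_Kb_of_fix D he hρ hres h hh hq)
    · right
      obtain ⟨j, v, hjv⟩ := H_pt D he hρ h hh 0 []
      obtain ⟨k, hk1, hk2⟩ := trans2 D he hρ v j (by rw [← hjv]; exact hq)
      set k' := D.s 0 * k⁻¹ * h with hk'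
      have h1 : k' ∈ D.Kb := by
        apply mem_Kb_of_fix D he hρ hres
        · exact D.H.mul_mem (D.H.mul_mem (D.s_mem_H 0) (D.H.inv_mem (D.Kb_le_H hk1))) hh
        · have h2 : (ρ k)⁻¹ (pt S he j v) = pt S he 1 [] := by
            rw [Equiv.Perm.inv_eq_iff_eq, hk2]
          rw [hk', map_mul, map_mul, Equiv.Perm.mul_apply, Equiv.Perm.mul_apply, hjv, map_inv,
            h2, rho_s0_q' D he hρ]
      have h3 : h = k * D.s 0 * k' := by
        rw [hk']
        calc h = k * 1 * k⁻¹ * h := by group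
          _ = k * (D.s 0 * D.s 0) * k⁻¹ * h := by rw [D.cox.sq]
          _ = _ := by group
      refine ⟨(D.top * k * D.top) * (D.x 0 * D.tt), D.H.mul_mem (D.top_Kb he k hk1)
        (D.H.mul_mem (D.x_mem_H 0) D.tt_mem_H), (D.x 0)⁻¹ * (D.top * k' * D.top),
        D.H.mul_mem (D.H.inv_mem (D.x_mem_H 0)) (D.top_Kb he k' h1), ?_⟩
      rw [h3, D.top_mul, D.top_mul, D.top_s0]
      simp only [Sys.tt]
      group
  have hmem : γ ∈ Subgroup.closure ((D.H : Set Γ) ∪ {D.top}) := by rw [hgen]; trivial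
  suffices hh : ∀ δ, (δ ∈ D.H ∨ ∃ a ∈ D.H, ∃ b ∈ D.H, δ = a * D.top * b) →
      (γ * δ ∈ D.H ∨ ∃ a ∈ D.H, ∃ b ∈ D.H, γ * δ = a * D.top * b) by
    have := hh 1 (Or.inl D.H.one_mem)
    rwa [mul_one] at this
  have htop : ∀ δ, (δ ∈ D.H ∨ ∃ a ∈ D.H, ∃ b ∈ D.H, δ = a * D.top * b) →
      (D.top * δ ∈ D.H ∨ ∃ a ∈ D.H, ∃ b ∈ D.H, D.top * δ = a * D.top * b) := by
    rintro δ (hδ | ⟨a, ha, b, hb, rfl⟩)
    · right
      exact ⟨1, D.H.one_mem, δ, hδ, by group⟩
    · rcases key a ha with h | ⟨a', ha', b', hb', h⟩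
      · left
        have : D.top * (a * D.top * b) = (D.top * a * D.top) * b := by group
        rw [this]
        exact D.H.mul_mem h hb
      · right
        refine ⟨a', ha', b' * b, D.H.mul_mem hb' hb, ?_⟩
        have : D.top * (a * D.top * b) = (D.top * a * D.top) * b := by group
        rw [this, h]; group
  have hH : ∀ c ∈ D.H, ∀ δ, (δ ∈ D.H ∨ ∃ a ∈ D.H, ∃ b ∈ D.H, δ = a * D.top * b) →
      (c * δ ∈ D.H ∨ ∃ a ∈ D.H, ∃ b ∈ D.H, c * δ = a * D.top * b) := by
    rintro c hc δ (hδ | ⟨a, ha, b, hb, rfl⟩)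
    · exact Or.inl (D.H.mul_mem hc hδ)
    · exact Or.inr ⟨c * a, D.H.mul_mem hc ha, b, hb, by group⟩
  induction hmem using Subgroup.closure_induction'' with
  | mem y hy =>
    rcases hy with h | h
    · exact hH y h
    · rw [Set.mem_singleton_iff.1 h]
      exact htop
  | inv_mem y hy =>
    rcases hy with h | h
    · exact hH _ (D.H.inv_mem h)
    · rw [Set.mem_singleton_iff.1 h, D.top_inv]
      exact htop
  | one => intro δ hδ; rwa [one_mul]
  | mul y z _ _ hy hz =>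
    intro δ hδ
    rw [mul_assoc]
    exact hy _ (hz _ hδ)

/-- faithfulness on special points -/
theorem faithful_pts (hgen : Subgroup.closure ((D.H : Set Γ) ∪ {D.top}) = ⊤) (γ : Γ)
    (h0 : ρ γ (pinf S he) = pinf S he) (h1 : ∀ j v, ρ γ (pt S he j v) = pt S he j v) :
    γ = 1 := by
  have hH : γ ∈ D.H := by
    rcases double D he hρ hres hgen γ with h | ⟨a, ha, b, hb, rfl⟩
    · exact h
    · exfalso
      rw [map_mul, map_mul, Equiv.Perm.mul_apply, Equiv.Perm.mul_apply,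
        rho_H_inf D he hρ b hb, rho_top_inf D he hρ] at h0
      obtain ⟨j', v', h2⟩ := H_pt D he hρ a ha 0 []
      rw [h2] at h0
      simp [pt, pinf] at h0
  obtain ⟨F₁, w, g, n, F₂, hg, hnf⟩ := isN_nf D (D.isN_of_mem hH)
  rw [hnf]
  apply eq_one_of_fix D he hρ hres F₁ w g n F₂ hg
  intro j v
  rw [← hnf]
  exact h1 j v

end

end Pool.Agent.Work.MP_aa9b22_lc
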