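import Pool.Agent.Work.MP_aa9b22_lc.Std

set_option autoImplicit false
set_option linter.all false

namespace Pool.Agent.Work.MP_aa9b22_lc

variable {G : Type} [Group G] {e : ℕ}

/-- A homomorphism to permutations compatible with a system. -/
structure Rho {S : SS G e} {Γ : Type*} [Group Γ] (D : Sys S Γ) (M : Mod S)
    (ρ : Γ →* Equiv.Perm M.X) : Prop where
  x : ∀ i, ρ (D.x i) = M.px i
  s : ∀ i, ρ (D.s i) = M.ps i
  la : ∀ g, ρ (D.la g) = M.pl g
  top : ρ D.top = M.ptop

/-- where a leaf goes -/
def fwd (e : ℕ) : List ℕ → ℕ → ℕ × List (Fin (e + 1))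
  | [], k => (k, [])
  | i :: F, k =>
    if (fwd e F k).1 < i then fwd e F k
    else if (fwd e F k).1 ≤ i + e then (i, Mod.ltr ((fwd e F k).1 - i) :: (fwd e F k).2)
    else ((fwd e F k).1 - e, (fwd e F k).2)

/-- eventually last words -/
def liftW (v : List (Fin (e + 1))) : CC e := fun n => v.getD n (Fin.last e)

theorem liftW_cons (i : Fin (e + 1)) (v : List (Fin (e + 1))) :
    liftW (i :: v) = consC i (liftW v) := by
  funext n
  cases n <;> rfl

theorem liftW_nil_last : liftW ([Fin.last e]) = liftW ([] : List (Fin (e + 1))) := by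
  funext n
  cases n <;> rfl

theorem liftW_nil_cons : consC (Fin.last e) (liftW []) = liftW ([] : List (Fin (e + 1))) := by
  rw [← liftW_cons, liftW_nil_last]

namespace SS
variable (S : SS G e)

theorem gact_liftW (g : G) (v : List (Fin (e + 1))) :
    S.gact g (liftW v) = liftW (S.wact g v) := by
  induction v generalizing g with
  | nil =>
    have : ∀ n, ∀ g, S.gact g (liftW []) n = Fin.last e := by
      intro n
      induction n with
      | zero => intro g; exact S.P_last g
      | succ n ih =>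
        intro g
        have h1 : S.gact g (liftW []) (n + 1) =
          S.gact (S.R g (liftW [] 0)) (tailC (liftW [])) n := rfl
        have h2 : tailC (liftW ([] : List (Fin (e + 1)))) = liftW [] := by
          funext k; rfl
        rw [h1, h2]
        exact ih _
    funext n
    rw [this]
    rfl
  | cons i v ih => rw [liftW_cons, S.gact_cons, ih, wact_cons, liftW_cons]

end SS

theorem liftW_inj {u v : List (Fin (e + 1))} (hl : u.length = v.length)
    (h : liftW u = liftW v) : u = v := by
  apply List.ext_getElem hl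
  intro n h1 h2
  have := congrFun h n
  simp only [liftW] at this
  rwa [List.getD_eq_getElem _ _ h1, List.getD_eq_getElem _ _ h2] at this

/-- comparison of leaves -/
theorem leaf_compare (S : SS G e) (he : 1 ≤ e) (g : G) (u u' : List (Fin (e + 1)))
    (h : ∀ v, liftW (u' ++ S.wact g v) = liftW (u ++ v)) : u = u' ∧ S.Triv g := by
  have h01 : (0 : Fin (e + 1)) ≠ Fin.last e := by
    rw [Ne, Fin.ext_iff]; simp; omega
  have hlen : u.length = u'.length := by
    rcases lt_trichotomy u.length u'.length with hl | hl | hl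
    · exfalso
      have key : ∀ i : Fin (e + 1), i = u'[u.length] := by
        intro i
        have := congrFun (h [i]) u.length
        simp only [liftW] at this
        rw [List.getD_eq_getElem _ _ (by simp; omega), List.getD_eq_getElem _ _ (by simp)] at this
        rw [List.getElem_append_left hl, List.getElem_append_right le_rfl] at this
        simpa using this.symm
      exact h01 ((key 0).trans (key _).symm)
    · exact hl
    · exfalso
      have key : ∀ i : Fin (e + 1), S.P g i = u[u'.length] := by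
        intro i
        have := congrFun (h [i]) u'.length
        simp only [liftW] at this
        rw [List.getD_eq_getElem _ _ (by simp), List.getD_eq_getElem _ _ (by simp; omega)] at this
        rw [List.getElem_append_right le_rfl, List.getElem_append_left hl] at this
        simpa using this
      exact h01 ((S.P g).injective ((key 0).trans (key _).symm))
  have hu : u = u' := by
    have := h []
    simp only [SS.wact_nil, List.append_nil] at this
    exact (liftW_inj hlen.symm this).symm
  refine ⟨hu, fun v => ?_⟩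
  subst hu
  have := liftW_inj (by simp) (h v)
  exact List.append_cancel_left this

section

variable {S : SS G e} {Γ : Type*} [Group Γ] (D : Sys S Γ) (he : 1 ≤ e)
  {ρ : Γ →* Equiv.Perm ((Coef.triv S).mod he).X} (hρ : Rho D ((Coef.triv S).mod he) ρ)

/-- the unlabelled model -/
noncomputable abbrev M0 (S : SS G e) (he : 1 ≤ e) : Mod S := (Coef.triv S).mod he

/-- special points -/
def pt (S : SS G e) (he : 1 ≤ e) (j : ℕ) (v : List (Fin (e + 1))) : (M0 S he).X :=
  Sum.inl (j, (liftW v, ()))

theorem pt_nil_last (j : ℕ) : pt S he j [Fin.last e] = pt S he j [] := by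
  rw [pt, pt, liftW_nil_last]

theorem c_pt (i : Fin (e + 1)) (v : List (Fin (e + 1))) :
    (M0 S he).c (i, (liftW v, ())) = (liftW (i :: v), ()) := by
  rw [liftW_cons]; rfl

theorem act_pt (g : G) (v : List (Fin (e + 1))) :
    (M0 S he).act g (liftW v, ()) = (liftW (S.wact g v), ()) := by
  rw [← S.gact_liftW]; rfl

theorem pt_inj {j j' : ℕ} {v v' : List (Fin (e + 1))} (h : pt S he j v = pt S he j' v') :
    j = j' ∧ liftW v = liftW v' := by
  simp only [pt, Sum.inl.injEq, Prod.mk.injEq] at h
  exact ⟨h.1, congrArg Prod.fst h.2⟩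

include hρ

theorem rho_x_pt (i j : ℕ) (v : List (Fin (e + 1))) : ρ (D.x i) (pt S he j v) =
    if j < i then pt S he j v else if j ≤ i + e then pt S he i (Mod.ltr (j - i) :: v)
    else pt S he (j - e) v := by
  rw [hρ.x, Mod.px_apply, pt, Mod.fx]
  split_ifs
  · rfl
  · rw [c_pt]; rfl
  · rfl

theorem rho_F_pt (F : List ℕ) (k : ℕ) (v : List (Fin (e + 1))) :
    ρ (ev D.x F) (pt S he k v) = pt S he (fwd e F k).1 ((fwd e F k).2 ++ v) := by
  induction F with
  | nil => simp [fwd]
  | cons i F ih =>
    rw [ev_cons, map_mul, Equiv.Perm.mul_apply, ih, rho_x_pt D he hρ, fwd]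
    split_ifs <;> rfl

theorem rho_ev_s_pt (w : List ℕ) (k : ℕ) (v : List (Fin (e + 1))) :
    ρ (ev D.s w) (pt S he k v) = pt S he (pv w k) v := by
  have : ρ (ev D.s w) = ev (M0 S he).ps w := by
    rw [ev_map]
    exact ev_congr _ _ _ (fun i _ => hρ.s i)
  rw [this, pt, Mod.ev_ps_inl]; rfl

theorem rho_lam_eq (k : ℕ) (g : G) :
    ρ (D.lam k g) = lamOf (M0 S he).ps (M0 S he).pl k g := by
  have : ρ (ev D.s (cwm 0 k)) = ev (M0 S he).ps (cwm 0 k) := by
    rw [ev_map]
    exact ev_congr _ _ _ (fun i _ => hρ.s i)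
  rw [Sys.lam, lamOf, map_mul, map_mul, map_inv, this, hρ.la, lamOf]

theorem rho_lam_pt (i : ℕ) (g : G) (k : ℕ) (v : List (Fin (e + 1))) :
    ρ (D.lam i g) (pt S he k v) = pt S he k (if k = i then S.wact g v else v) := by
  rw [rho_lam_eq D he hρ, pt, Mod.lam_inl]
  split_ifs
  · rw [act_pt]; rfl
  · rfl

theorem rho_LL_pt (g : ℕ → G) (n : ℕ) (hg : ∀ i, n ≤ i → g i = 1) (k : ℕ)
    (v : List (Fin (e + 1))) : ρ (D.LL g n) (pt S he k v) = pt S he k (S.wact (g k) v) := by
  have key : ∀ n, ρ (D.LL g n) (pt S he k v) = pt S he k (if k < n then S.wact (g k) v else v) := by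
    intro n
    induction n with
    | zero => simp
    | succ n ih =>
      rw [Sys.LL_succ, map_mul, Equiv.Perm.mul_apply, rho_lam_pt D he hρ]
      rcases lt_trichotomy k n with h | h | h
      · rw [if_neg (by omega), ih, if_pos h, if_pos (by omega)]
      · subst h
        rw [if_pos rfl, if_pos (by omega)]
        have key2 : ∀ m, m ≤ k → ∀ v', ρ (D.LL g m) (pt S he k v') = pt S he k v' := by
          intro m
          induction m with
          | zero => simp
          | succ m ihm =>
            intro hm v'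
            rw [Sys.LL_succ, map_mul, Equiv.Perm.mul_apply, rho_lam_pt D he hρ,
              if_neg (by omega), ihm (by omega)]
        rw [key2 k le_rfl]
      · rw [if_neg (by omega), ih, if_neg (by omega), if_neg (by omega)]
  rw [key n]
  split_ifs with h
  · rfl
  · rw [hg k (by omega), S.wact_one]

omit hρ

/-- the general element in normal form -/
def nf (F₁ w : List ℕ) (g : ℕ → G) (n : ℕ) (F₂ : List ℕ) : Γ :=
  ev D.x F₁ * (ev D.s w * D.LL g n) * (ev D.x F₂)⁻¹

theorem isN_nf {γ : Γ} (h : D.IsN γ) : ∃ (F₁ w : List ℕ) (g : ℕ → G) (n : ℕ) (F₂ : List ℕ),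
    (∀ i, n ≤ i → g i = 1) ∧ γ = nf D F₁ w g n F₂ := by
  obtain ⟨F₁, ℓ, F₂, ⟨w, l, rfl⟩, rfl⟩ := h
  obtain ⟨g, n, hg, h⟩ := D.LP_eq_LL l
  exact ⟨F₁, w, g, n, F₂, hg, by rw [nf, h]⟩

include hρ

theorem rho_nf_pt (F₁ w : List ℕ) (g : ℕ → G) (n : ℕ) (F₂ : List ℕ)
    (hg : ∀ i, n ≤ i → g i = 1) (k : ℕ) (v : List (Fin (e + 1))) :
    ρ (nf D F₁ w g n F₂) (pt S he (fwd e F₂ k).1 ((fwd e F₂ k).2 ++ v)) =
      pt S he (fwd e F₁ (pv w k)).1 ((fwd e F₁ (pv w k)).2 ++ S.wact (g k) v) := by
  rw [← rho_F_pt D he hρ F₂ k v, ← Equiv.Perm.mul_apply, ← map_mul]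
  have : nf D F₁ w g n F₂ * ev D.x F₂ = ev D.x F₁ * (ev D.s w * D.LL g n) := by
    rw [nf]; group
  rw [this, map_mul, map_mul, Equiv.Perm.mul_apply, Equiv.Perm.mul_apply,
    rho_LL_pt D he hρ g n hg, rho_ev_s_pt D he hρ, rho_F_pt D he hρ]

omit hρ

/-- split lemma -/
theorem split_or (F : List ℕ) (j : ℕ) : (∃ k, fwd e F k = (j, [])) ∨
    ∃ F' : List ℕ, F'.length < F.length ∧ ev D.x F = D.x j * ev D.x F' := by
  induction F generalizing j with
  | nil => exact Or.inl ⟨j, rfl⟩
  | cons i F ih =>
    rcases lt_trichotomy i j with h | h | h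
    · rcases ih (j + e) with ⟨k, hk⟩ | ⟨F', h1, h2⟩
      · left
        refine ⟨k, ?_⟩
        rw [fwd, hk]
        simp only
        rw [if_neg (by omega), if_neg (by omega), Nat.add_sub_cancel]
      · right
        refine ⟨i :: F', by simp; omega, ?_⟩
        rw [ev_cons, h2, ← mul_assoc, ← D.xx i j h, ev_cons, mul_assoc]
    · right
      exact ⟨F, by simp, by rw [ev_cons, h]⟩
    · rcases ih j with ⟨k, hk⟩ | ⟨F', h1, h2⟩
      · left
        refine ⟨k, ?_⟩
        rw [fwd, hk]
        simp only
        rw [if_pos h]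
      · right
        refine ⟨(i + e) :: F', by simp; omega, ?_⟩
        rw [ev_cons, h2, ← mul_assoc, D.xx j i h, ev_cons, mul_assoc]

theorem unsplit_letters (F : List ℕ) (m : ℕ) (h : ∀ j < m, ∃ k, fwd e F k = (j, [])) :
    (∀ i ∈ F, m ≤ i) ∧ ∀ j < m, fwd e F j = (j, []) := by
  induction F with
  | nil => exact ⟨by simp, fun j _ => rfl⟩
  | cons i F ih =>
    have hi : m ≤ i := by
      by_contra hlt
      obtain ⟨k, hk⟩ := h i (by omega)
      rw [fwd] at hk
      split_ifs at hk with h1 h2
      · rw [hk] at h1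
        exact absurd h1 (lt_irrefl _)
      · simp at hk
      · simp only [Prod.mk.injEq] at hk
        omega
    have h' : ∀ j < m, ∃ k, fwd e F k = (j, []) := by
      intro j hj
      obtain ⟨k, hk⟩ := h j hj
      refine ⟨k, ?_⟩
      rw [fwd] at hk
      split_ifs at hk with h1 h2
      · exact hk
      · simp at hk
      · simp only [Prod.mk.injEq] at hk
        omega
    obtain ⟨h1, h2⟩ := ih h'
    refine ⟨?_, fun j hj => ?_⟩
    · intro l hl
      rcases List.mem_cons.1 hl with rfl | hl
      · exact hi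
      · exact h1 l hl
    · rw [fwd, h2 j hj]
      simp only
      rw [if_pos (by omega)]

include hρ

theorem fwd_inj (F : List ℕ) (k k' : ℕ) (h : fwd e F k = fwd e F k') : k = k' := by
  have h1 := rho_F_pt D he hρ F k []
  have h2 := rho_F_pt D he hρ F k' []
  rw [h, ← h2] at h1
  exact (pt_inj he ((ρ (ev D.x F)).injective h1)).1

/-- if `F₂` is split at `j` and the element fixes all points of the root `j`, then `F₁` is
split at `j` -/
theorem split2 (F₁ w : List ℕ) (g : ℕ → G) (n : ℕ) (F₂ F₂' : List ℕ)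
    (hg : ∀ i, n ≤ i → g i = 1) (j : ℕ) (hF : ev D.x F₂ = D.x j * ev D.x F₂')
    (hfix : ∀ v, ρ (nf D F₁ w g n F₂) (pt S he j v) = pt S he j v) :
    ∃ F' : List ℕ, ev D.x F₁ = D.x j * ev D.x F' := by
  rcases split_or D F₁ j with ⟨k1, hk1⟩ | ⟨F', _, h2⟩
  · exfalso
    set k := (pv w)⁻¹ k1 with hk
    have hwk : pv w k = k1 := by rw [hk, perm_apply_inv]
    have h1 : ∀ v, pt S he (fwd e F₂ k).1 ((fwd e F₂ k).2 ++ v) = pt S he j (S.wact (g k) v) := by
      intro v
      apply (ρ (nf D F₁ w g n F₂)).injective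
      rw [rho_nf_pt D he hρ F₁ w g n F₂ hg k v, hwk, hk1, hfix]
      simp
    have h3 : (fwd e F₂ k).1 = j := (pt_inj he (h1 [])).1
    have h4 : (fwd e F₂ k).2 = [] := by
      have := (leaf_compare S he (g k) (fwd e F₂ k).2 [] (fun v => by
        rw [List.nil_append]
        exact (pt_inj he (h1 v)).2.symm)).1
      exact this
    -- now contradiction with the splitting
    have h5 : ∀ i : Fin (e + 1), pt S he (fwd e F₂' k).1 ((fwd e F₂' k).2 ++ [i]) =
        pt S he (j + (i : ℕ)) [] := by
      intro i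
      have h6 := rho_F_pt D he hρ F₂ k [i]
      rw [h3, h4, hF, map_mul, Equiv.Perm.mul_apply, rho_F_pt D he hρ F₂' k [i]] at h6
      apply (ρ (D.x j)).injective
      rw [h6, rho_x_pt D he hρ j (j + (i : ℕ)) [], if_neg (by omega), if_pos (by omega),
        Nat.add_sub_cancel_left, Mod.ltr_coe]
      simp
    have h7 := (pt_inj he (h5 0)).1
    have h8 := (pt_inj he (h5 (Fin.last e))).1
    rw [h7] at h8
    simp at h8
    omega
  · exact ⟨F', h2⟩

end

end Pool.Agent.Work.MP_aa9b22_lc
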