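import Pool.Agent.Work.MP_aa9b22_lc.LabSys

set_option autoImplicit false
set_option linter.all false

namespace Pool.Agent.Work.MP_aa9b22_lc

section shift

variable {Γ : Type*} [Group Γ]

theorem conj_all (e : ℕ) (he : 1 ≤ e) (x z : ℕ → Γ)
    (hx : ∀ j, 1 ≤ j → x j * x 0 = x 0 * x (j + e))
    (hz : ∀ j, 1 ≤ j → z j * x 0 = x 0 * z (j + e))
    (bx : ∀ i < e, ∀ d < e + 1, x (i + 2 + d) * x (i + 1) = x (i + 1) * x (i + 2 + d + e))
    (bz : ∀ i < e, ∀ d < e + 1, z (i + 2 + d) * x (i + 1) = x (i + 1) * z (i + 2 + d + e))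
    (i j : ℕ) (hij : i < j) :
    x j * x i = x i * x (j + e) ∧ z j * x i = x i * z (j + e) := by
  have hsh : ∀ (y : ℕ → Γ), (∀ j, 1 ≤ j → y j * x 0 = x 0 * y (j + e)) →
      ∀ i j, 1 ≤ i → 1 ≤ j → y j * x i = x i * y (j + e) →
      y (j + e) * x (i + e) = x (i + e) * y (j + e + e) := by
    intro y hy i j hi hj h
    have h1 : y (j + e) = (x 0)⁻¹ * y j * x 0 := by rw [mul_assoc, hy j hj]; group
    have h2 : x (i + e) = (x 0)⁻¹ * x i * x 0 := by rw [mul_assoc, hx i hi]; group
    have h3 : y (j + e + e) = (x 0)⁻¹ * y (j + e) * x 0 := by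
      rw [mul_assoc, hy (j + e) (by omega)]; group
    calc y (j + e) * x (i + e) = (x 0)⁻¹ * (y j * x i) * x 0 := by rw [h1, h2]; group
      _ = (x 0)⁻¹ * (x i * y (j + e)) * x 0 := by rw [h]
      _ = _ := by rw [h2, h3]; group
  have key : ∀ d, ∀ i, (x (i + 2 + d) * x (i + 1) = x (i + 1) * x (i + 2 + d + e)) ∧
      (z (i + 2 + d) * x (i + 1) = x (i + 1) * z (i + 2 + d + e)) := by
    intro d
    induction d using Nat.strong_induction_on with
    | _ d ihd =>
      rcases Nat.lt_or_ge d (e + 1) with hd | hd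
      · intro i
        induction i using Nat.strong_induction_on with
        | _ i ihi =>
          rcases Nat.lt_or_ge i e with hi | hi
          · exact ⟨bx i hi d hd, bz i hi d hd⟩
          · obtain ⟨h1, h2⟩ := ihi (i - e) (by omega)
            have h3 := hsh x hx _ _ (by omega) (by omega) h1
            have h4 := hsh z hz _ _ (by omega) (by omega) h2
            have e1 : i - e + 2 + d + e = i + 2 + d := by omega
            have e2 : i - e + 1 + e = i + 1 := by omega
            rw [e1, e2] at h3 h4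
            exact ⟨h3, h4⟩
      · intro i
        have gen : ∀ y : ℕ → Γ,
            (y (i + 1 + 2 + (d - e - 1)) * x (i + 1 + 1) =
              x (i + 1 + 1) * y (i + 1 + 2 + (d - e - 1) + e)) →
            (y (i + 2 + (d - e)) * x (i + 1) = x (i + 1) * y (i + 2 + (d - e) + e)) →
            (y (i + 1 + 2 + (d - e - 1) + e) * x (i + 1 + 1 + e) =
              x (i + 1 + 1 + e) * y (i + 1 + 2 + (d - e - 1) + e + e)) →
            y (i + 2 + d) * x (i + 1) = x (i + 1) * y (i + 2 + d + e) := by
          intro y h1 h3 h4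
          have h2 := (ihd 0 (by omega) i).1
          have e1 : i + 1 + 2 + (d - e - 1) = i + 2 + d - e := by omega
          have e2 : i + 2 + (d - e) = i + 2 + d - e := by omega
          have e3 : i + 2 + d - e + e = i + 2 + d := by omega
          rw [e1] at h1 h4
          rw [e2] at h3
          rw [e3] at h1 h3 h4
          have e4 : i + 1 + 1 = i + 2 := rfl
          have e5 : i + 2 + 0 = i + 2 := rfl
          rw [e4] at h1 h4
          rw [e5] at h2
          have h5 : y (i + 2 + d) = (x (i + 2))⁻¹ * (y (i + 2 + d - e) * x (i + 2)) := by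
            rw [h1]; group
          calc y (i + 2 + d) * x (i + 1)
              = (x (i + 2))⁻¹ * y (i + 2 + d - e) * (x (i + 2) * x (i + 1)) := by
                rw [h5]; group
            _ = (x (i + 2))⁻¹ * (y (i + 2 + d - e) * x (i + 1)) * x (i + 2 + e) := by
                rw [h2]; group
            _ = (x (i + 2))⁻¹ * x (i + 1) * (y (i + 2 + d) * x (i + 2 + e)) := by
                rw [h3]; group
            _ = (x (i + 2))⁻¹ * (x (i + 1) * x (i + 2 + e)) * y (i + 2 + d + e) := by
                rw [h4]; group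
            _ = (x (i + 2))⁻¹ * (x (i + 2) * x (i + 1)) * y (i + 2 + d + e) := by rw [h2]
            _ = _ := by group
        constructor
        · exact gen x (ihd _ (by omega) (i + 1)).1 (ihd _ (by omega) i).1
            (hsh x hx _ _ (by omega) (by omega) (ihd _ (by omega) (i + 1)).1)
        · exact gen z (ihd _ (by omega) (i + 1)).2 (ihd _ (by omega) i).2
            (hsh z hz _ _ (by omega) (by omega) (ihd _ (by omega) (i + 1)).2)
  rcases Nat.eq_zero_or_pos i with h | h
  · subst h
    exact ⟨hx j hij, hz j hij⟩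
  · have := key (j - i - 1) (i - 1)
    have e1 : i - 1 + 2 + (j - i - 1) = j := by omega
    have e2 : i - 1 + 1 = i := by omega
    rwa [e1, e2] at this

theorem comm_all (e : ℕ) (he : 1 ≤ e) (x s z : ℕ → Γ)
    (cx : ∀ i j, i < j → x j * x i = x i * x (j + e))
    (cs : ∀ i j, i < j → s j * x i = x i * s (j + e))
    (cz : ∀ i j, i < j → z j * x i = x i * z (j + e))
    (bx : ∀ i < e + 1, ∀ d < e + 1, s i * x (i + 2 + d) = x (i + 2 + d) * s i)
    (bz : ∀ i < e + 1, ∀ d < e + 1, s i * z (i + 2 + d) = z (i + 2 + d) * s i)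
    (i j : ℕ) (hij : i + 2 ≤ j) :
    s i * x j = x j * s i ∧ s i * z j = z j * s i := by
  have hsh : ∀ (y : ℕ → Γ), (∀ i j, i < j → y j * x i = x i * y (j + e)) →
      ∀ i j, 1 ≤ i → 1 ≤ j → s i * y j = y j * s i →
      s (i + e) * y (j + e) = y (j + e) * s (i + e) := by
    intro y hy i j hi hj h
    have h1 : y (j + e) = (x 0)⁻¹ * y j * x 0 := by rw [mul_assoc, hy 0 j hj]; group
    have h2 : s (i + e) = (x 0)⁻¹ * s i * x 0 := by rw [mul_assoc, cs 0 i hi]; group
    calc s (i + e) * y (j + e) = (x 0)⁻¹ * (s i * y j) * x 0 := by rw [h1, h2]; group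
      _ = (x 0)⁻¹ * (y j * s i) * x 0 := by rw [h]
      _ = _ := by rw [h1, h2]; group
  have key : ∀ d, ∀ i, (s i * x (i + 2 + d) = x (i + 2 + d) * s i) ∧
      (s i * z (i + 2 + d) = z (i + 2 + d) * s i) := by
    intro d
    induction d using Nat.strong_induction_on with
    | _ d ihd =>
      rcases Nat.lt_or_ge d (e + 1) with hd | hd
      · intro i
        induction i using Nat.strong_induction_on with
        | _ i ihi =>
          rcases Nat.lt_or_ge i (e + 1) with hi | hi
          · exact ⟨bx i hi d hd, bz i hi d hd⟩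
          · obtain ⟨h1, h2⟩ := ihi (i - e) (by omega)
            have h3 := hsh x cx _ _ (by omega) (by omega) h1
            have h4 := hsh z cz _ _ (by omega) (by omega) h2
            have e1 : i - e + 2 + d + e = i + 2 + d := by omega
            have e2 : i - e + e = i := by omega
            rw [e1, e2] at h3 h4
            exact ⟨h3, h4⟩
      · intro i
        have gen : ∀ y : ℕ → Γ, (∀ i j, i < j → y j * x i = x i * y (j + e)) →
            (s i * y (i + 2 + (d - e)) = y (i + 2 + (d - e)) * s i) →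
            s i * y (i + 2 + d) = y (i + 2 + d) * s i := by
          intro y hy h1
          have h2 := (ihd 0 (by omega) i).1
          rw [add_zero] at h2
          have h3 := hy (i + 2) (i + 2 + (d - e)) (by omega)
          have e1 : i + 2 + (d - e) + e = i + 2 + d := by omega
          rw [e1] at h3
          have h4 : y (i + 2 + d) = (x (i + 2))⁻¹ * y (i + 2 + (d - e)) * x (i + 2) := by
            rw [mul_assoc, h3]; group
          have h5 : s i * (x (i + 2))⁻¹ = (x (i + 2))⁻¹ * s i := by
            rw [mul_inv_eq_iff_eq_mul, mul_assoc, h2]; group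
          calc s i * y (i + 2 + d) = (s i * (x (i + 2))⁻¹) * y (i + 2 + (d - e)) * x (i + 2) := by
                rw [h4]; group
            _ = (x (i + 2))⁻¹ * (s i * y (i + 2 + (d - e))) * x (i + 2) := by rw [h5]; group
            _ = (x (i + 2))⁻¹ * y (i + 2 + (d - e)) * (s i * x (i + 2)) := by rw [h1]; group
            _ = _ := by rw [h2, h4]; group
        exact ⟨gen x cx (ihd _ (by omega) i).1, gen z cz (ihd _ (by omega) i).2⟩
  have := key (j - i - 2) i
  have e1 : i + 2 + (j - i - 2) = j := by omega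
  rwa [e1] at this

theorem shift_induct (e : ℕ) (he : 1 ≤ e) (R : ℕ → Prop) (hb : ∀ i < e + 1, R i)
    (hs : ∀ i, 1 ≤ i → R i → R (i + e)) (i : ℕ) : R i := by
  induction i using Nat.strong_induction_on with
  | _ i ih =>
    rcases Nat.lt_or_ge i (e + 1) with h | h
    · exact hb i h
    · have := hs (i - e) (by omega) (ih (i - e) (by omega))
      rwa [Nat.sub_add_cancel (by omega)] at this

end shift

/-- the finite list of relations which do not depend on the wreath recursion -/
def relList (e : ℕ) {Γ : Type*} [Group Γ] (x s : ℕ → Γ) (la : FreeGroup (Fin 3) →* Γ) (top : Γ) :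
    List (Γ × Γ) :=
  ((List.range e).flatMap fun i => (List.range (e + 1)).flatMap fun d =>
      [(x (i + 2 + d) * x (i + 1), x (i + 1) * x (i + 2 + d + e)),
       (s (i + 2 + d) * x (i + 1), x (i + 1) * s (i + 2 + d + e))]) ++
  (((List.range (e + 1)).flatMap fun i => (List.range (e + 1)).flatMap fun d =>
      [(s i * x (i + 2 + d), x (i + 2 + d) * s i),
       (s i * s (i + 2 + d), s (i + 2 + d) * s i)]) ++
  (((List.range (e + 1)).flatMap fun i =>
      [(s i * s i, 1), (s i * s (i + 1) * s i, s (i + 1) * s i * s (i + 1)),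
       (s i * x i, x (i + 1) * ev s (List.range' i (e + 1)))]) ++
  (((List.finRange 3).flatMap fun g => (List.range (e + 1)).map fun i =>
      (la (FreeGroup.of g) * s (i + 1), s (i + 1) * la (FreeGroup.of g))) ++
  (((List.finRange 3).flatMap fun g =>
      [(la (FreeGroup.of g) * x 1, x 1 * la (FreeGroup.of g)),
       (top * (s 0 * la (FreeGroup.of g) * s 0) * top, x 0 * la (FreeGroup.of g) * (x 0)⁻¹)]) ++
  (((List.finRange 3).flatMap fun g => (List.finRange 3).map fun h =>
      (la (FreeGroup.of g) * (s 0 * la (FreeGroup.of h) * s 0),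
        (s 0 * la (FreeGroup.of h) * s 0) * la (FreeGroup.of g))) ++
  (((List.range (e - 1)).map fun i =>
      (top * s (i + 1) * top, x 0 * s i * (x 0)⁻¹)) ++
  [(top * top, 1),
   (top * (ev s (List.range e) * (x 0)⁻¹) * top * (ev s (List.range e) * (x 0)⁻¹), 1),
   (top * s e * top, x 0 * x e * s (e - 1) * (x e)⁻¹ * (x 0)⁻¹),
   (top * x 1 * top, x 0 * x 0 * (x e)⁻¹ * (x 0)⁻¹),
   (top * s 0 * top, x 0 * (ev s (List.range e) * (x 0)⁻¹) * top * (x 0)⁻¹)]))))))

theorem relList_map (e : ℕ) {Γ Δ : Type*} [Group Γ] [Group Δ] (φ : Γ →* Δ) (x s : ℕ → Γ)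
    (la : FreeGroup (Fin 3) →* Γ) (top : Γ) :
    (relList e x s la top).map (fun p => (φ p.1, φ p.2)) =
      relList e (fun i => φ (x i)) (fun i => φ (s i)) (φ.comp la) (φ top) := by
  simp only [relList, List.map_append, List.map_flatMap, List.map_cons, List.map_nil,
    List.map_map, map_mul, map_inv, map_one, ev_map, MonoidHom.comp_apply, Function.comp_def]

/-- the finite set of relations -/
structure FS (e : ℕ) {Γ : Type*} [Group Γ] (x s : ℕ → Γ) (la : FreeGroup (Fin 3) →* Γ)
    (top : Γ) : Prop where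
  cx : ∀ i < e, ∀ d < e + 1, x (i + 2 + d) * x (i + 1) = x (i + 1) * x (i + 2 + d + e)
  cs : ∀ i < e, ∀ d < e + 1, s (i + 2 + d) * x (i + 1) = x (i + 1) * s (i + 2 + d + e)
  bx : ∀ i < e + 1, ∀ d < e + 1, s i * x (i + 2 + d) = x (i + 2 + d) * s i
  bs : ∀ i < e + 1, ∀ d < e + 1, s i * s (i + 2 + d) = s (i + 2 + d) * s i
  sq : ∀ i < e + 1, s i * s i = 1
  braid : ∀ i < e + 1, s i * s (i + 1) * s i = s (i + 1) * s i * s (i + 1)
  sx_eq : ∀ i < e + 1, s i * x i = x (i + 1) * ev s (List.range' i (e + 1))
  la_s : ∀ g, ∀ i < e + 1, la (FreeGroup.of g) * s (i + 1) = s (i + 1) * la (FreeGroup.of g)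
  la_x1 : ∀ g, la (FreeGroup.of g) * x 1 = x 1 * la (FreeGroup.of g)
  top_la : ∀ g, top * (s 0 * la (FreeGroup.of g) * s 0) * top =
    x 0 * la (FreeGroup.of g) * (x 0)⁻¹
  la_la : ∀ g h, la (FreeGroup.of g) * (s 0 * la (FreeGroup.of h) * s 0) =
        (s 0 * la (FreeGroup.of h) * s 0) * la (FreeGroup.of g)
  top_s : ∀ i, i < e - 1 → top * s (i + 1) * top = x 0 * s i * (x 0)⁻¹
  top_sq : top * top = 1
  top_t : top * (ev s (List.range e) * (x 0)⁻¹) * top * (ev s (List.range e) * (x 0)⁻¹) = 1
  top_se : top * s e * top = x 0 * x e * s (e - 1) * (x e)⁻¹ * (x 0)⁻¹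
  top_x1 : top * x 1 * top = x 0 * x 0 * (x e)⁻¹ * (x 0)⁻¹
  top_s0 : top * s 0 * top = x 0 * (ev s (List.range e) * (x 0)⁻¹) * top * (x 0)⁻¹

theorem forall_mem_flatMap' {α β : Type*} (l : List α) (f : α → List β) (P : β → Prop) :
    (∀ b ∈ l.flatMap f, P b) ↔ ∀ a ∈ l, ∀ b ∈ f a, P b := by
  simp only [List.mem_flatMap]
  constructor
  · intro h a ha b hb
    exact h b ⟨a, ha, hb⟩
  · rintro h b ⟨a, ha, hb⟩
    exact h a ha b hb

theorem relList_iff (e : ℕ) {Γ : Type*} [Group Γ] (x s : ℕ → Γ) (la : FreeGroup (Fin 3) →* Γ)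
    (top : Γ) : (∀ p ∈ relList e x s la top, p.1 = p.2) ↔ FS e x s la top := by
  simp only [relList, List.forall_mem_append, forall_mem_flatMap', List.forall_mem_cons,
    List.forall_mem_map, List.mem_range, List.mem_finRange, forall_true_left]
  constructor
  · rintro ⟨h1, h2, h3, h4, h5, h6, h7, h8, h9, h10, h11, h12, _⟩
    exact
      { cx := fun i hi d hd => (h1 i hi d hd).1
        cs := fun i hi d hd => (h1 i hi d hd).2.1
        bx := fun i hi d hd => (h2 i hi d hd).1
        bs := fun i hi d hd => (h2 i hi d hd).2.1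
        sq := fun i hi => (h3 i hi).1
        braid := fun i hi => (h3 i hi).2.1
        sx_eq := fun i hi => (h3 i hi).2.2.1
        la_s := h4
        la_x1 := fun g => (h5 g).1
        top_la := fun g => (h5 g).2.1
        la_la := h6
        top_s := h7
        top_sq := h8
        top_t := h9
        top_se := h10
        top_x1 := h11
        top_s0 := h12 }
  · intro h
    refine ⟨fun i hi d hd => ⟨h.cx i hi d hd, h.cs i hi d hd, by simp⟩,
      fun i hi d hd => ⟨h.bx i hi d hd, h.bs i hi d hd, by simp⟩,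
      fun i hi => ⟨h.sq i hi, h.braid i hi, h.sx_eq i hi, by simp⟩,
      h.la_s, fun g => ⟨h.la_x1 g, h.top_la g, by simp⟩, h.la_la, h.top_s, h.top_sq, h.top_t,
      h.top_se, h.top_x1, h.top_s0, by simp⟩

theorem hom_comm {Γ : Type*} [Group Γ] (la : FreeGroup (Fin 3) →* Γ) (t : Γ)
    (h : ∀ g, la (FreeGroup.of g) * t = t * la (FreeGroup.of g)) (g : FreeGroup (Fin 3)) :
    la g * t = t * la g := by
  induction g using FreeGroup.induction_on with
  | C1 => simp
  | of i => exact h i
  | inv_of i _ =>
    rw [map_inv, inv_mul_eq_iff_eq_mul, ← mul_assoc, eq_mul_inv_iff_mul_eq, h]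
  | mul a b ha hb => rw [map_mul, mul_assoc, hb, ← mul_assoc, ha, mul_assoc]

/-- all relations from the finite list -/
def FS.toSys {e : ℕ} (he : 1 ≤ e) {Γ : Type*} [Group Γ] {x s : ℕ → Γ}
    {la : FreeGroup (Fin 3) →* Γ} {top : Γ} (h : FS e x s la top)
    (hx : ∀ j, 1 ≤ j → x j * x 0 = x 0 * x (j + e))
    (hs : ∀ j, 1 ≤ j → s j * x 0 = x 0 * s (j + e))
    (S : SS (FreeGroup (Fin 3)) e)
    (h0 : ∀ g : Fin 3, LabSys.Rel0 S (x 0) s la (FreeGroup.of g)) : Sys S Γ :=
  have C1 := conj_all e he x s hx hs h.cx h.cs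
  have cx : ∀ i j, i < j → x j * x i = x i * x (j + e) := fun i j hij => (C1 i j hij).1
  have cs : ∀ i j, i < j → s j * x i = x i * s (j + e) := fun i j hij => (C1 i j hij).2
  have C2 := comm_all e he x s s cx cs cs h.bx h.bs
  have sx : ∀ i j, i + 2 ≤ j → s i * x j = x j * s i := fun i j hij => (C2 i j hij).1
  have ss : ∀ i j, i + 2 ≤ j → s i * s j = s j * s i := fun i j hij => (C2 i j hij).2
  have s_e : ∀ i, 1 ≤ i → s (i + e) = (x 0)⁻¹ * s i * x 0 := fun i hi => by
    rw [mul_assoc, hs i hi]; group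
  have x_e : ∀ i, 1 ≤ i → x (i + e) = (x 0)⁻¹ * x i * x 0 := fun i hi => by
    rw [mul_assoc, hx i hi]; group
  have sq : ∀ i, s i * s i = 1 := by
    apply shift_induct e he _ h.sq
    intro i hi h1
    calc s (i + e) * s (i + e) = (x 0)⁻¹ * (s i * s i) * x 0 := by rw [s_e i hi]; group
      _ = 1 := by rw [h1]; group
  have braid : ∀ i, s i * s (i + 1) * s i = s (i + 1) * s i * s (i + 1) := by
    apply shift_induct e he _ h.braid
    intro i hi h1
    have e1 : i + e + 1 = i + 1 + e := by ring
    calc s (i + e) * s (i + e + 1) * s (i + e) = (x 0)⁻¹ * (s i * s (i + 1) * s i) * x 0 := by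
          rw [e1, s_e i hi, s_e (i + 1) (by omega)]; group
      _ = (x 0)⁻¹ * (s (i + 1) * s i * s (i + 1)) * x 0 := by rw [h1]
      _ = _ := by rw [e1, s_e i hi, s_e (i + 1) (by omega)]; group
  have evr : ∀ n i, 1 ≤ i → ev s (List.range' (i + e) n) =
      (x 0)⁻¹ * ev s (List.range' i n) * x 0 := by
    intro n
    induction n with
    | zero => intro i hi; simp
    | succ n ih =>
      intro i hi
      rw [List.range'_succ, List.range'_succ, ev_cons, ev_cons,
        show i + e + 1 = i + 1 + e by ring, ih (i + 1) (by omega), s_e i hi]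
      group
  have sx_eq : ∀ i, s i * x i = x (i + 1) * ev s (List.range' i (e + 1)) := by
    apply shift_induct e he _ h.sx_eq
    intro i hi h1
    calc s (i + e) * x (i + e) = (x 0)⁻¹ * (s i * x i) * x 0 := by
          rw [s_e i hi, x_e i hi]; group
      _ = (x 0)⁻¹ * (x (i + 1) * ev s (List.range' i (e + 1))) * x 0 := by rw [h1]
      _ = _ := by rw [show i + e + 1 = i + 1 + e by ring, x_e (i + 1) (by omega),
          evr _ i hi]; group
  have cox : Cox s := ⟨sq, braid, ss⟩
  have la_s : ∀ g i, 1 ≤ i → la g * s i = s i * la g := by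
    intro g i hi
    apply hom_comm
    intro g
    obtain ⟨i, rfl⟩ : ∃ i', i = i' + 1 := ⟨i - 1, by omega⟩
    clear hi
    induction i using Nat.strong_induction_on with
    | _ i ih =>
      rcases Nat.lt_or_ge i (e + 1) with h1 | h1
      · exact h.la_s g i h1
      · have h2 := ih (i - e) (by omega)
        have h3 := cs 1 (i - e + 1) (by omega)
        rw [show i - e + 1 + e = i + 1 by omega] at h3
        have h4 : s (i + 1) = (x 1)⁻¹ * s (i - e + 1) * x 1 := by
          rw [mul_assoc, h3]; group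
        have h5 := h.la_x1 g
        have h6 : la (FreeGroup.of g) * (x 1)⁻¹ = (x 1)⁻¹ * la (FreeGroup.of g) := by
          rw [mul_inv_eq_iff_eq_mul, mul_assoc, h5]; group
        calc la (FreeGroup.of g) * s (i + 1)
            = (la (FreeGroup.of g) * (x 1)⁻¹) * s (i - e + 1) * x 1 := by rw [h4]; group
          _ = (x 1)⁻¹ * (la (FreeGroup.of g) * s (i - e + 1)) * x 1 := by rw [h6]; group
          _ = (x 1)⁻¹ * s (i - e + 1) * (la (FreeGroup.of g) * x 1) := by rw [h2]; group
          _ = _ := by rw [h5, h4]; group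
  have la_x1 : ∀ g, la g * x 1 = x 1 * la g := hom_comm la (x 1) h.la_x1
  have s0 : (s 0)⁻¹ = s 0 := by rw [inv_eq_iff_mul_eq_one, sq]
  have la_la : ∀ g h, la g * (s 0 * la h * s 0) = (s 0 * la h * s 0) * la g := by
    intro g k
    induction k using FreeGroup.induction_on with
    | C1 =>
      rw [map_one, mul_one, sq]; simp
    | of k => exact hom_comm la _ (fun g => h.la_la g k) g
    | inv_of k _ =>
      have h1 := hom_comm la _ (fun g => h.la_la g k) g
      have h2 : s 0 * la (FreeGroup.of k)⁻¹ * s 0 = (s 0 * la (FreeGroup.of k) * s 0)⁻¹ := by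
        rw [map_inv, mul_inv_rev, mul_inv_rev, s0]; group
      rw [h2, mul_inv_eq_iff_eq_mul, mul_assoc, h1]; group
    | mul a b ha hb =>
      have h2 : s 0 * la (a * b) * s 0 = (s 0 * la a * s 0) * (s 0 * la b * s 0) := by
        calc s 0 * la (a * b) * s 0 = s 0 * la a * 1 * la b * s 0 := by rw [map_mul]; group
          _ = s 0 * la a * (s 0 * s 0) * la b * s 0 := by rw [sq]
          _ = _ := by group
      rw [h2, ← mul_assoc, ha, mul_assoc, hb, ← mul_assoc]
  have L : LabSys s la := ⟨cox, la_s, la_la⟩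
  have top_inv : top⁻¹ = top := by rw [inv_eq_iff_mul_eq_one, h.top_sq]
  { x := x
    s := s
    la := la
    top := top
    cox := cox
    xx := cx
    sx_lt := cs
    sx_gt := fun i j hij => sx j i hij
    sx_eq := sx_eq
    la_s := la_s
    la_x1 := la_x1
    la_la := la_la
    la_x0 := by
      intro g
      change LabSys.Rel0 S (x 0) s la g
      induction g using FreeGroup.induction_on with
      | C1 => exact L.rel0_one S (x 0)
      | of g => exact h0 g
      | inv_of g hg => exact L.rel0_inv S (x 0) _ hg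
      | mul a b ha hb => exact L.rel0_mul S (x 0) a b ha hb
    top_sq := h.top_sq
    top_t := h.top_t
    top_s := fun i hi => h.top_s i (by omega)
    top_se := h.top_se
    top_x1 := h.top_x1
    top_la := by
      intro g
      induction g using FreeGroup.induction_on with
      | C1 =>
        rw [map_one, mul_one, sq, mul_one, h.top_sq, mul_one, mul_inv_cancel]
      | of g => exact h.top_la g
      | inv_of g hg =>
        have h1 : top * (s 0 * la (FreeGroup.of g)⁻¹ * s 0) * top =
            (top * (s 0 * la (FreeGroup.of g) * s 0) * top)⁻¹ := by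
          rw [map_inv, mul_inv_rev, mul_inv_rev, mul_inv_rev, mul_inv_rev, s0, top_inv]; group
        rw [h1, hg, map_inv]; group
      | mul a b ha hb =>
        have h2 : top * (s 0 * la (a * b) * s 0) * top =
            (top * (s 0 * la a * s 0) * top) * (top * (s 0 * la b * s 0) * top) := by
          calc top * (s 0 * la (a * b) * s 0) * top
              = top * s 0 * la a * 1 * la b * s 0 * top := by rw [map_mul]; group
            _ = top * s 0 * la a * (s 0 * s 0) * la b * s 0 * top := by rw [sq]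
            _ = top * s 0 * la a * s 0 * 1 * s 0 * la b * s 0 * top := by group
            _ = top * s 0 * la a * s 0 * (top * top) * s 0 * la b * s 0 * top := by
                rw [h.top_sq]
            _ = _ := by group
        rw [h2, ha, hb, map_mul]; group
    top_s0 := h.top_s0 }

/-- every system satisfies the finite list -/
theorem Sys.toFS {e : ℕ} {Γ : Type*} [Group Γ] {S : SS (FreeGroup (Fin 3)) e} (D : Sys S Γ) :
    FS e D.x D.s D.la D.top where
  cx i hi d hd := D.xx _ _ (by omega)
  cs i hi d hd := D.sx_lt _ _ (by omega)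
  bx i hi d hd := D.sx_gt _ _ (by omega)
  bs i hi d hd := D.cox.comm _ _ (by omega)
  sq i _ := D.cox.sq i
  braid i _ := D.cox.braid i
  sx_eq i _ := D.sx_eq i
  la_s g i _ := D.la_s _ _ (by omega)
  la_x1 g := D.la_x1 _
  top_la g := D.top_la _
  la_la g h := D.la_la _ _
  top_s i hi := D.top_s i (by omega)
  top_sq := D.top_sq
  top_t := D.top_t
  top_se := D.top_se
  top_x1 := D.top_x1
  top_s0 := D.top_s0

end Pool.Agent.Work.MP_aa9b22_lc
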