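import Pool.Agent.Work.MP_aa9b22_lc.System

set_option autoImplicit false
set_option linter.all false

namespace Pool.Agent.Work.MP_aa9b22_lc

variable {G : Type} [Group G] {e : ℕ}

/-- the relations between the labels and the symmetric part -/
structure LabSys {Γ : Type*} [Group Γ] (s : ℕ → Γ) (la : G →* Γ) : Prop where
  cox : Cox s
  la_s : ∀ g i, 1 ≤ i → la g * s i = s i * la g
  la_la : ∀ g h, la g * (s 0 * la h * s 0) = (s 0 * la h * s 0) * la g

namespace LabSys

variable {Γ : Type*} [Group Γ] {s : ℕ → Γ} {la : G →* Γ}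

theorem lam_zero (g : G) : lamOf s la 0 g = la g := by simp [lamOf, cwm]

theorem lam_mul (k : ℕ) (g h : G) : lamOf s la k (g * h) = lamOf s la k g * lamOf s la k h := by
  simp only [lamOf, map_mul]; group

theorem lam_one (k : ℕ) : lamOf s la k 1 = 1 := by
  simp [lamOf]

theorem lam_inv (k : ℕ) (g : G) : lamOf s la k g⁻¹ = (lamOf s la k g)⁻¹ := by
  rw [eq_inv_iff_mul_eq_one, ← lam_mul, inv_mul_cancel, lam_one]

variable (D : LabSys s la)

include D

theorem lam_succ (k : ℕ) (g : G) : lamOf s la (k + 1) g = s k * lamOf s la k g * s k := by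
  have h : s k = (s k)⁻¹ := (D.cox.inv k).symm
  simp only [lamOf, cwm, ev_cons, zero_add, mul_inv_rev]
  rw [D.cox.inv k]
  group

/-- conjugation of a label by an adjacent swap -/
theorem s_lam (i k : ℕ) (g : G) :
    s i * lamOf s la k g = lamOf s la (Equiv.swap i (i + 1) k) g * s i := by
  rcases lt_trichotomy k i with h | h | h
  · rw [Equiv.swap_apply_of_ne_of_ne (by omega) (by omega)]
    have h1 := (D.cox.step_aux 0 i (Nat.zero_le _) k).1 (by omega)
    have h2 : (ev s (cwm 0 k))⁻¹ * s i = s i * (ev s (cwm 0 k))⁻¹ := by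
      rw [inv_mul_eq_iff_eq_mul, ← mul_assoc, eq_mul_inv_iff_mul_eq, h1]
    simp only [lamOf]
    calc s i * (ev s (cwm 0 k) * la g * (ev s (cwm 0 k))⁻¹)
        = (s i * ev s (cwm 0 k)) * la g * (ev s (cwm 0 k))⁻¹ := by group
      _ = ev s (cwm 0 k) * (s i * la g) * (ev s (cwm 0 k))⁻¹ := by rw [h1]; group
      _ = ev s (cwm 0 k) * (la g * s i) * (ev s (cwm 0 k))⁻¹ := by
          rw [D.la_s g i (by omega)]
      _ = ev s (cwm 0 k) * la g * (s i * (ev s (cwm 0 k))⁻¹) := by group
      _ = _ := by rw [← h2]; group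
  · subst h
    rw [Equiv.swap_apply_left, D.lam_succ, mul_assoc, D.cox.sq, mul_one]
  · rcases Nat.lt_or_ge (i + 1) k with h' | h'
    · rw [Equiv.swap_apply_of_ne_of_ne (by omega) (by omega)]
      have h1 := (D.cox.step_aux 0 i (Nat.zero_le _) k).2 (by omega)
      have h2 : (ev s (cwm 0 k))⁻¹ * s i = s (i + 1) * (ev s (cwm 0 k))⁻¹ := by
        rw [inv_mul_eq_iff_eq_mul, ← mul_assoc, eq_mul_inv_iff_mul_eq, h1]
      simp only [lamOf]
      calc s i * (ev s (cwm 0 k) * la g * (ev s (cwm 0 k))⁻¹)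
          = (s i * ev s (cwm 0 k)) * la g * (ev s (cwm 0 k))⁻¹ := by group
        _ = ev s (cwm 0 k) * (s (i + 1) * la g) * (ev s (cwm 0 k))⁻¹ := by rw [h1]; group
        _ = ev s (cwm 0 k) * (la g * s (i + 1)) * (ev s (cwm 0 k))⁻¹ := by
            rw [D.la_s g (i + 1) (by omega)]
        _ = ev s (cwm 0 k) * la g * (s (i + 1) * (ev s (cwm 0 k))⁻¹) := by group
        _ = _ := by rw [← h2]; group
    · have : k = i + 1 := by omega
      subst this
      rw [Equiv.swap_apply_right, D.lam_succ, ← mul_assoc, ← mul_assoc, D.cox.sq, one_mul]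

theorem ev_lam (w : List ℕ) (k : ℕ) (g : G) :
    ev s w * lamOf s la k g = lamOf s la (pv w k) g * ev s w := by
  induction w with
  | nil => simp
  | cons i w ih =>
    rw [ev_cons, mul_assoc, ih, ← mul_assoc, D.s_lam, pv_cons, Equiv.Perm.mul_apply, mul_assoc]

theorem lam_comm (i j : ℕ) (hij : i ≠ j) (g h : G) :
    lamOf s la i g * lamOf s la j h = lamOf s la j h * lamOf s la i g := by
  -- the basic case
  have h01 : ∀ g h, lamOf s la 0 g * lamOf s la 1 h = lamOf s la 1 h * lamOf s la 0 g := by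
    intro g h
    rw [D.lam_succ, lam_zero, lam_zero, D.la_la]
  have key : ∀ i j, i < j → ∀ g h,
      lamOf s la i g * lamOf s la j h = lamOf s la j h * lamOf s la i g := by
    intro i j hij g h
    -- word moving `0 ↦ i`, `1 ↦ j`
    set w := cwm 0 i ++ cwm 1 (j - 1) with hw
    have e0 : pv w 0 = i := by
      rw [hw, pv_append, Equiv.Perm.mul_apply]
      have : pv (cwm 1 (j - 1)) 0 = 0 := by
        apply pv_fix_lt _ 1 _ 0 (by omega)
        intro l hl
        have : ∀ k, ∀ l ∈ cwm 1 k, 1 ≤ l := by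
          intro k
          induction k with
          | zero => simp [cwm]
          | succ k ih =>
            intro l hl
            rw [cwm] at hl
            rcases List.mem_cons.1 hl with rfl | hl
            · omega
            · exact ih l hl
        exact this _ l hl
      rw [this, pv_cwm_apply, zero_add]
    have e1 : pv w 1 = j := by
      rw [hw, pv_append, Equiv.Perm.mul_apply, pv_cwm_apply, show 1 + (j - 1) = j by omega,
        Sys.pv_cwm_gt 0 i j (by omega)]
    have a1 := D.ev_lam w 0 g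
    have a2 := D.ev_lam w 1 h
    rw [e0] at a1
    rw [e1] at a2
    have b1 : lamOf s la i g = ev s w * lamOf s la 0 g * (ev s w)⁻¹ := by rw [a1]; group
    have b2 : lamOf s la j h = ev s w * lamOf s la 1 h * (ev s w)⁻¹ := by rw [a2]; group
    rw [b1, b2]
    calc ev s w * lamOf s la 0 g * (ev s w)⁻¹ * (ev s w * lamOf s la 1 h * (ev s w)⁻¹)
        = ev s w * (lamOf s la 0 g * lamOf s la 1 h) * (ev s w)⁻¹ := by group
      _ = ev s w * (lamOf s la 1 h * lamOf s la 0 g) * (ev s w)⁻¹ := by rw [h01]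
      _ = _ := by group
  rcases lt_or_gt_of_ne hij with h' | h'
  · exact key i j h' g h
  · exact (key j i h' h g).symm

end LabSys

/-- product of labels given by a function -/
def LF {Γ : Type*} [Group Γ] (s : ℕ → Γ) (la : G →* Γ) (n : ℕ) (f : ℕ → G) : Γ :=
  ((List.range n).map fun k => lamOf s la k (f k)).prod

namespace LabSys

variable {Γ : Type*} [Group Γ] {s : ℕ → Γ} {la : G →* Γ}

theorem LF_one (n : ℕ) : LF s la n (fun _ => (1 : G)) = 1 := by
  rw [LF]
  apply List.prod_eq_one
  intro x hx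
  rw [List.mem_map] at hx
  obtain ⟨k, _, rfl⟩ := hx
  exact lam_one k

theorem LF_congr (n : ℕ) (f f' : ℕ → G) (h : ∀ k < n, f k = f' k) :
    LF s la n f = LF s la n f' := by
  rw [LF, LF]
  congr 1
  apply List.map_congr_left
  intro k hk
  rw [h k (List.mem_range.1 hk)]

variable (D : LabSys s la)

include D

theorem LF_mul (n : ℕ) (f f' : ℕ → G) :
    LF s la n (fun k => f k * f' k) = LF s la n f * LF s la n f' := by
  induction n with
  | zero => simp [LF]
  | succ n ih =>
    have h1 : ∀ f : ℕ → G, LF s la (n + 1) f = LF s la n f * lamOf s la n (f n) := by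
      intro f
      simp [LF, List.range_succ]
    have h2 : ∀ m, m ≤ n → lamOf s la n (f n) * LF s la m f' =
        LF s la m f' * lamOf s la n (f n) := by
      intro m
      induction m with
      | zero => simp [LF]
      | succ m ihm =>
        intro hm
        have h3 : LF s la (m + 1) f' = LF s la m f' * lamOf s la m (f' m) := by
          simp [LF, List.range_succ]
        rw [h3, ← mul_assoc, ihm (by omega), mul_assoc, D.lam_comm n m (by omega), mul_assoc]
    rw [h1, h1, h1, ih, lam_mul]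
    calc LF s la n f * LF s la n f' * (lamOf s la n (f n) * lamOf s la n (f' n))
        = LF s la n f * (LF s la n f' * lamOf s la n (f n)) * lamOf s la n (f' n) := by group
      _ = _ := by rw [← h2 n le_rfl]; group

theorem ev_LF (n : ℕ) (w : List ℕ) (hw : ∀ k < n, pv w k < n) (f : ℕ → G) :
    ev s w * LF s la n f = LF s la n (fun k => f ((pv w)⁻¹ k)) * ev s w := by
  have h1 : ∀ l : List ℕ, ev s w * (l.map fun k => lamOf s la k (f k)).prod =
      (l.map fun k => lamOf s la (pv w k) (f k)).prod * ev s w := by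
    intro l
    induction l with
    | nil => simp
    | cons k l ih =>
      rw [List.map_cons, List.prod_cons, List.map_cons, List.prod_cons, ← mul_assoc, D.ev_lam,
        mul_assoc, ih, mul_assoc]
  rw [LF, h1]
  congr 1
  rw [LF]
  have h2 : (List.range n).map (fun k => lamOf s la (pv w k) (f k)) =
      ((List.range n).map (pv w)).map (fun k => lamOf s la k (f ((pv w)⁻¹ k))) := by
    rw [List.map_map]
    apply List.map_congr_left
    intro k _
    simp only [Function.comp, perm_inv_apply]
  rw [h2]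
  have hnd : ((List.range n).map (pv w)).Nodup := List.nodup_range.map (pv w).injective
  have h3 : ((List.range n).map (pv w)).Perm (List.range n) := by
    have hsub : ((List.range n).map (pv w)).Subperm (List.range n) := by
      apply hnd.subperm
      intro k hk
      rw [List.mem_map] at hk
      obtain ⟨j, hj, rfl⟩ := hk
      exact List.mem_range.2 (hw j (List.mem_range.1 hj))
    exact hsub.perm_of_length_le (by simp)
  apply (h3.map _).prod_eq'
  rw [List.pairwise_map]
  apply hnd.imp
  intro a b hab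
  exact D.lam_comm a b hab _ _

theorem secs_LF (S : SS G e) (g : G) : LPOf s la (S.secs g 0) = LF s la (e + 1) (S.Rn g) := by
  rw [LPOf, SS.secs, List.map_map, LF]
  congr 1
  apply List.map_congr_left
  intro k _
  simp

omit D in
theorem Rn_coe (S : SS G e) (g : G) (k : Fin (e + 1)) : S.Rn g (k : ℕ) = S.R g k := by
  rw [SS.Rn, dif_pos k.isLt]

/-- the relation for `g` -/
def Rel0 (S : SS G e) (x0 : Γ) (s : ℕ → Γ) (la : G →* Γ) (g : G) : Prop :=
  ∃ u : List ℕ, (∀ i ∈ u, i < e) ∧
    (∀ k : Fin (e + 1), pv u (k : ℕ) = ((S.P g k : Fin (e + 1)) : ℕ)) ∧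
    la g * x0 = x0 * ev s u * LPOf s la (S.secs g 0)

theorem rel0_one (S : SS G e) (x0 : Γ) : Rel0 S x0 s la 1 := by
  refine ⟨[], by simp, fun k => by simp, ?_⟩
  rw [D.secs_LF, LF_congr (e + 1) (S.Rn 1) (fun _ => 1) (by
    intro k hk
    rw [SS.Rn, dif_pos hk, S.R_one]), LF_one]
  simp

theorem rel0_mul (S : SS G e) (x0 : Γ) (g h : G) (hg : Rel0 S x0 s la g)
    (hh : Rel0 S x0 s la h) : Rel0 S x0 s la (g * h) := by
  obtain ⟨u, hu1, hu2, hu3⟩ := hg
  obtain ⟨v, hv1, hv2, hv3⟩ := hh
  refine ⟨u ++ v, ?_, ?_, ?_⟩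
  · intro i hi
    rcases List.mem_append.1 hi with h | h
    · exact hu1 i h
    · exact hv1 i h
  · intro k
    rw [pv_append, Equiv.Perm.mul_apply, hv2, hu2, map_mul, Equiv.Perm.mul_apply]
  · have hv : ∀ k < e + 1, pv v k < e + 1 := by
      intro k hk
      have := hv2 ⟨k, hk⟩
      simp only at this
      rw [this]
      exact Fin.isLt _
    have hvr : ∀ k < e + 1, pv v.reverse k < e + 1 := by
      intro k hk
      rw [Sys.pv_reverse]
      by_contra hcon
      have h1 : pv v ((pv v)⁻¹ k) = (pv v)⁻¹ k := by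
        have : ∀ (u : List ℕ), (∀ i ∈ u, i < e) → ∀ l, e < l → pv u l = l := by
          intro u
          induction u with
          | nil => simp
          | cons a u ih =>
            intro hu l hl
            rw [pv_cons, Equiv.Perm.mul_apply, ih (fun b hb => hu b (by simp [hb])) l hl]
            have := hu a (by simp)
            exact Equiv.swap_apply_of_ne_of_ne (by omega) (by omega)
        exact this v hv1 _ (by omega)
      rw [perm_apply_inv] at h1
      omega
    have h1 := D.ev_LF (e + 1) v.reverse hvr (S.Rn g)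
    rw [D.cox.ev_reverse, Sys.pv_reverse, inv_inv] at h1
    have h2 : LF s la (e + 1) (S.Rn g) * ev s v =
        ev s v * LF s la (e + 1) (fun k => S.Rn g (pv v k)) := by
      have h3 := congrArg (fun t => ev s v * t * ev s v) h1
      calc LF s la (e + 1) (S.Rn g) * ev s v
          = ev s v * ((ev s v)⁻¹ * LF s la (e + 1) (S.Rn g)) * ev s v := by group
        _ = ev s v * (LF s la (e + 1) (fun k => S.Rn g (pv v k)) * (ev s v)⁻¹) * ev s v := h3
        _ = _ := by group
    have h4 : LF s la (e + 1) (S.Rn (g * h)) =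
        LF s la (e + 1) (fun k => S.Rn g (pv v k)) * LF s la (e + 1) (S.Rn h) := by
      rw [← D.LF_mul]
      apply LF_congr
      intro k hk
      have e1 := hv2 ⟨k, hk⟩
      simp only at e1
      rw [e1, Rn_coe, SS.Rn, dif_pos hk, SS.Rn, dif_pos hk, S.R_mul]
    rw [D.secs_LF] at hu3 hv3 ⊢
    rw [h4, map_mul, mul_assoc, hv3, ev_append]
    calc la g * (x0 * ev s v * LF s la (e + 1) (S.Rn h))
        = (la g * x0) * ev s v * LF s la (e + 1) (S.Rn h) := by group
      _ = x0 * ev s u * (LF s la (e + 1) (S.Rn g) * ev s v) * LF s la (e + 1) (S.Rn h) := by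
          rw [hu3]; group
      _ = _ := by rw [h2]; group

theorem rel0_inv (S : SS G e) (x0 : Γ) (g : G) (hg : Rel0 S x0 s la g) :
    Rel0 S x0 s la g⁻¹ := by
  obtain ⟨u, hu1, hu2, hu3⟩ := hg
  have hur : ∀ k : Fin (e + 1), pv u.reverse (k : ℕ) = ((S.P g⁻¹ k : Fin (e + 1)) : ℕ) := by
    intro k
    rw [Sys.pv_reverse, Equiv.Perm.inv_eq_iff_eq, hu2, ← Equiv.Perm.mul_apply, ← map_mul,
      mul_inv_cancel, map_one]; rfl
  refine ⟨u.reverse, ?_, hur, ?_⟩
  · intro i hi
    exact hu1 i (List.mem_reverse.1 hi)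
  · have hu : ∀ k < e + 1, pv u k < e + 1 := by
      intro k hk
      have := hu2 ⟨k, hk⟩
      simp only at this
      rw [this]
      exact Fin.isLt _
    have h1 := D.ev_LF (e + 1) u hu (S.Rn g)
    have h2 : LF s la (e + 1) (fun k => S.Rn g ((pv u)⁻¹ k)) * LF s la (e + 1) (S.Rn g⁻¹) = 1 := by
      rw [← D.LF_mul, ← LF_one (s := s) (la := la) (e + 1)]
      apply LF_congr
      intro k hk
      have e1 := hur ⟨k, hk⟩
      rw [Sys.pv_reverse] at e1
      simp only at e1
      have e2 : S.Rn g ((pv u)⁻¹ k) = S.R g (S.P g⁻¹ ⟨k, hk⟩) := by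
        rw [e1, Rn_coe]
      have e3 : S.Rn g⁻¹ k = S.R g⁻¹ ⟨k, hk⟩ := by rw [SS.Rn, dif_pos hk]
      rw [e2, e3, S.R_inv', mul_inv_cancel]
    rw [D.secs_LF] at hu3 ⊢
    rw [D.cox.ev_reverse, map_inv, inv_mul_eq_iff_eq_mul]
    calc x0 = x0 * 1 := by group
      _ = x0 * (LF s la (e + 1) (fun k => S.Rn g ((pv u)⁻¹ k)) *
            LF s la (e + 1) (S.Rn g⁻¹)) := by rw [h2]
      _ = x0 * (LF s la (e + 1) (fun k => S.Rn g ((pv u)⁻¹ k)) * ev s u) * (ev s u)⁻¹ *
            LF s la (e + 1) (S.Rn g⁻¹) := by group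
      _ = (x0 * ev s u * LF s la (e + 1) (S.Rn g)) * (ev s u)⁻¹ *
            LF s la (e + 1) (S.Rn g⁻¹) := by rw [← h1]; group
      _ = _ := by rw [← hu3]; group

end LabSys

end Pool.Agent.Work.MP_aa9b22_lc
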