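import Pool.Agent.Work.MP_aa9b22_lc.Defs

set_option autoImplicit false

namespace Pool.Agent.Work.MP_aa9b22_lc.M1

/-- machines with registers indexed by `ι`; the amounts added are `A + E * e` with a parameter `e` -/
structure PM (ι S : Type) where
  hlt : S → Bool
  nxt : S → (ι → Bool) → S
  dec : S → (ι → Bool) → ι → Bool
  A : S → (ι → Bool) → ι → ℕ
  E : S → (ι → Bool) → ι → ℕ
  dec_le : ∀ s β i, dec s β i = true → β i = true

variable {ι S : Type}

def bits (w : ι → ℕ) : ι → Bool := fun i => decide (w i ≠ 0)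

def PM.step (M : PM ι S) (e : ℕ) (c : S × (ι → ℕ)) : S × (ι → ℕ) :=
  (M.nxt c.1 (bits c.2), fun i => c.2 i - (if M.dec c.1 (bits c.2) i then 1 else 0) +
    (M.A c.1 (bits c.2) i + M.E c.1 (bits c.2) i * e))

def PM.st (M : PM ι S) (e : ℕ) (c' c : S × (ι → ℕ)) : Prop :=
  M.hlt c.1 = false ∧ c' = M.step e c

theorem exists_primes [Fintype ι] :
    ∃ p : ι → ℕ, Function.Injective p ∧ (∀ i, (p i).Prime) ∧ (∀ i, p i ≠ 2) := by
  have hinj := Nat.nth_injective Nat.infinite_setOfPred_prime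
  refine ⟨fun i => Nat.nth Nat.Prime (Fintype.equivFin ι i + 1), ?_, ?_, ?_⟩
  · intro i j h
    have h1 := hinj h
    have h2 : (Fintype.equivFin ι i : ℕ) = Fintype.equivFin ι j := by omega
    exact (Fintype.equivFin ι).injective (Fin.ext h2)
  · intro i
    exact Nat.nth_mem_of_infinite Nat.infinite_setOfPred_prime _
  · intro i h
    have h0 : Nat.nth Nat.Prime 0 = 2 := Nat.nth_prime_zero_eq_two
    rw [← h0] at h
    have := hinj h
    omega

section coding

variable [Fintype ι] {Qn : ℕ} (M : PM ι S) (p : ι → ℕ) (σ : S ≃ Fin Qn) (s0 : S)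

/-- state of a residue -/
def stOf (r : ℕ) : S :=
  σ.symm ⟨r % Qn, Nat.mod_lt _ (lt_of_le_of_lt (Nat.zero_le _) (σ s0).2)⟩

def btOf (Qn : ℕ) (p : ι → ℕ) (r : ℕ) : ι → Bool := fun i => decide (p i ∣ 2 * (r / Qn) + 1)

def alf (r : ℕ) : ℕ := ∏ i, p i ^ (if M.dec (stOf σ s0 r) (btOf Qn p r) i then 1 else 0)

def bet (e r : ℕ) : ℕ :=
  ∏ i, p i ^ (M.A (stOf σ s0 r) (btOf Qn p r) i + M.E (stOf σ s0 r) (btOf Qn p r) i * e)

def kk (e r : ℕ) : ℕ := Qn * ((∏ i, p i) / alf M p σ s0 r * bet M p σ s0 e r)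

def vv (e r : ℕ) : ℕ :=
  Qn * (((2 * (r / Qn) + 1) / alf M p σ s0 r * bet M p σ s0 e r - 1) / 2) +
    σ (M.nxt (stOf σ s0 r) (btOf Qn p r))

def hh (r : ℕ) : Bool := M.hlt (stOf σ s0 r)

def mm (Qn : ℕ) (p : ι → ℕ) : ℕ := Qn * ∏ i, p i

/-- the integer `t` codes the configuration `(s, w)` with cofactor `c` -/
def Rep (t : ℤ) (s : S) (w : ι → ℕ) (c : ℤ) : Prop :=
  ∃ Mt : ℤ, t = (Qn : ℤ) * Mt + ((σ s : ℕ) : ℤ) ∧
    2 * Mt + 1 = c * ∏ i, ((p i : ℕ) : ℤ) ^ (w i) ∧ ∀ i, ¬ ((p i : ℕ) : ℤ) ∣ c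

variable {M p σ}

theorem rep_step (hinj : Function.Injective p) (hp : ∀ i, (p i).Prime) (h2 : ∀ i, p i ≠ 2)
    (e : ℕ) {t : ℤ} {s : S} {w : ι → ℕ} {c : ℤ} (h : Rep p σ t s w c) :
    stOf σ s0 (t % (mm Qn p : ℕ)).toNat = s ∧
    Rep p σ (kk M p σ s0 e (t % (mm Qn p : ℕ)).toNat * (t / (mm Qn p : ℕ)) +
      vv M p σ s0 e (t % (mm Qn p : ℕ)).toNat) (M.step e (s, w)).1 (M.step e (s, w)).2 c := by
  classical
  obtain ⟨Mt, ht, hN, hc⟩ := h
  set P := ∏ i, p i with hP
  have hQ : 0 < Qn := lt_of_le_of_lt (Nat.zero_le _) (σ s0).2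
  have hPpos : 0 < P := Finset.prod_pos fun i _ => (hp i).pos
  obtain ⟨ρ, sI, hρ, hMt⟩ : ∃ (ρ : ℕ) (sI : ℤ), ρ < P ∧ Mt = P * sI + ρ := by
    refine ⟨(Mt % P).toNat, Mt / P, ?_, ?_⟩
    · have h1 := Int.emod_lt_of_pos Mt (b := (P : ℤ)) (by exact_mod_cast hPpos)
      have h2 := Int.emod_nonneg Mt (b := (P : ℤ)) (by exact_mod_cast hPpos.ne')
      omega
    · have h2 := Int.emod_nonneg Mt (b := (P : ℤ)) (by exact_mod_cast hPpos.ne')
      rw [Int.toNat_of_nonneg h2]
      have := Int.emod_add_mul_ediv Mt P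
      linarith
  have hσ : ((σ s : Fin _) : ℕ) < Qn := (σ s).2
  set q : ℕ := (σ s).val with hq
  have hlt : Qn * ρ + q < Qn * P := by
    have : Qn * (ρ + 1) ≤ Qn * P := Nat.mul_le_mul_left _ hρ
    have e1 : Qn * (ρ + 1) = Qn * ρ + Qn := by ring
    omega
  have ht' : t = ((Qn * ρ + q : ℕ) : ℤ) + ((mm Qn p : ℕ) : ℤ) * sI := by
    rw [ht, hMt]
    simp only [mm, ← hP]
    push_cast
    ring
  have hmpos : (0 : ℤ) < ((mm Qn p : ℕ) : ℤ) := by
    have : 0 < Qn * P := Nat.mul_pos hQ hPpos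
    simp only [mm, ← hP]
    exact_mod_cast this
  have hmod : t % ((mm Qn p : ℕ) : ℤ) = ((Qn * ρ + q : ℕ) : ℤ) := by
    rw [ht', Int.add_mul_emod_self_left]
    apply Int.emod_eq_of_lt (by positivity)
    exact_mod_cast hlt
  have hdiv : t / ((mm Qn p : ℕ) : ℤ) = sI := by
    rw [ht', Int.add_mul_ediv_left _ _ hmpos.ne']
    rw [Int.ediv_eq_zero_of_lt (by positivity) (by exact_mod_cast hlt)]
    ring
  rw [hmod, hdiv, Int.toNat_natCast]
  have hr1 : (Qn * ρ + q) % Qn = q := by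
    rw [Nat.mul_add_mod, Nat.mod_eq_of_lt hσ]
  have hr2 : (Qn * ρ + q) / Qn = ρ := by
    rw [Nat.mul_add_div hQ, Nat.div_eq_of_lt hσ, add_zero]
  have hst : stOf σ s0 (Qn * ρ + q) = s := by
    unfold stOf
    rw [Equiv.symm_apply_eq]
    apply Fin.ext
    exact hr1
  have hdP : ∀ i, ((p i : ℕ) : ℤ) ∣ (P : ℤ) := fun i =>
    Int.natCast_dvd_natCast.2 (Finset.dvd_prod_of_mem p (Finset.mem_univ i))
  have hNρ : 2 * Mt + 1 = 2 * (P : ℤ) * sI + ((2 * ρ + 1 : ℕ) : ℤ) := by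
    rw [hMt]; push_cast; ring
  have hbt : btOf Qn p (Qn * ρ + q) = bits w := by
    funext i
    unfold btOf bits
    rw [hr2]
    congr 1
    apply propext
    have e1 : p i ∣ 2 * ρ + 1 ↔ ((p i : ℕ) : ℤ) ∣ 2 * Mt + 1 := by
      rw [hNρ, ← Int.natCast_dvd_natCast]
      exact ((Int.dvd_add_right (Dvd.dvd.mul_right (Dvd.dvd.mul_left (hdP i) 2) sI))).symm
    rw [e1, hN]
    have hpi : Prime ((p i : ℕ) : ℤ) := Nat.prime_iff_prime_int.1 (hp i)
    constructor
    · intro hd h0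
      rcases hpi.dvd_or_dvd hd with hd | hd
      · exact hc i hd
      · obtain ⟨j, _, hj⟩ := (Prime.dvd_finsetProd_iff hpi _).1 hd
        have h3 := hpi.dvd_of_dvd_pow hj
        have h4 : p i ∣ p j := Int.natCast_dvd_natCast.1 h3
        have h5 : p i = p j := (Nat.prime_dvd_prime_iff_eq (hp i) (hp j)).1 h4
        have h6 := hinj h5
        subst h6
        rw [h0, pow_zero] at hj
        exact hpi.not_isUnit (isUnit_of_dvd_one hj)
    · intro h0
      apply Dvd.dvd.mul_left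
      exact (dvd_pow_self _ h0).trans (Finset.dvd_prod_of_mem _ (Finset.mem_univ i))
  refine ⟨hst, ?_⟩
  unfold kk vv
  rw [← hP]
  set α := alf M p σ s0 (Qn * ρ + q) with hα
  set β := bet M p σ s0 e (Qn * ρ + q) with hβ
  have hαe : α = ∏ i, p i ^ (if M.dec s (bits w) i then 1 else 0) := by
    rw [hα]; unfold alf; rw [hst, hbt]
  have hβe : β = ∏ i, p i ^ (M.A s (bits w) i + M.E s (bits w) i * e) := by
    rw [hβ]; unfold bet; rw [hst, hbt]
  rw [hst, hbt, hr2]
  have hαpos : 0 < α := by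
    rw [hαe]; exact Finset.prod_pos fun i _ => pow_pos (hp i).pos _
  have hdw : ∀ i, (if M.dec s (bits w) i then 1 else 0) ≤ w i := by
    intro i
    split_ifs with h1
    · have := M.dec_le _ _ _ h1
      unfold bits at this
      have := of_decide_eq_true this
      omega
    · exact Nat.zero_le _
  have hαP : α ∣ P := by
    rw [hαe, hP]
    apply Finset.prod_dvd_prod_of_dvd
    intro i _
    split_ifs
    · simp
    · simp
  have hαN : ((α : ℕ) : ℤ) ∣ 2 * Mt + 1 := by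
    rw [hN, hαe]
    push_cast
    apply Dvd.dvd.mul_left
    apply Finset.prod_dvd_prod_of_dvd
    intro i _
    exact pow_dvd_pow _ (hdw i)
  have hαρ : α ∣ 2 * ρ + 1 := by
    rw [← Int.natCast_dvd_natCast]
    have h3 : ((α : ℕ) : ℤ) ∣ 2 * (P : ℤ) * sI :=
      Dvd.dvd.mul_right (Dvd.dvd.mul_left (Int.natCast_dvd_natCast.2 hαP) 2) sI
    rw [hNρ] at hαN
    exact (Int.dvd_add_right h3).1 hαN
  obtain ⟨P', hP'⟩ := hαP
  obtain ⟨R', hR'⟩ := hαρ
  have e1 : P / α = P' := by rw [hP', Nat.mul_div_cancel_left _ hαpos]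
  have e2 : (2 * ρ + 1) / α = R' := by rw [hR', Nat.mul_div_cancel_left _ hαpos]
  rw [e1, e2]
  have hβodd : β % 2 = 1 := by
    have : Odd β := by
      rw [hβe]
      apply Finset.prod_induction _ Odd (fun a b ha hb => ha.mul hb) odd_one
      intro i _
      exact ((hp i).odd_of_ne_two (h2 i)).pow
    exact Nat.odd_iff.1 this
  have hRodd : R' % 2 = 1 := by
    have h3 : Odd (α * R') := by rw [← hR']; exact ⟨ρ, rfl⟩
    exact Nat.odd_iff.1 (Nat.odd_mul.1 h3).2
  obtain ⟨y, hy⟩ : ∃ y, R' * β = 2 * y + 1 := by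
    have h3 : Odd (R' * β) := (Nat.odd_iff.2 hRodd).mul (Nat.odd_iff.2 hβodd)
    exact h3
  have e3 : (R' * β - 1) / 2 = y := by omega
  rw [e3]
  refine ⟨(P' * β : ℕ) * sI + y, ?_, ?_, hc⟩
  · show ((Qn * (P' * β) : ℕ) : ℤ) * sI + ((Qn * y + σ (M.nxt s (bits w)) : ℕ) : ℤ) = _
    have e5 : (M.step e (s, w)).1 = M.nxt s (bits w) := rfl
    rw [e5]
    push_cast
    ring
  · have hα0 : ((α : ℕ) : ℤ) ≠ 0 := by exact_mod_cast hαpos.ne'
    apply mul_left_cancel₀ hα0
    have e4 : ((α : ℕ) : ℤ) * (2 * ((P' * β : ℕ) * sI + y) + 1) = β * (2 * Mt + 1) := by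
      have hy' : ((2 * y + 1 : ℕ) : ℤ) = ((R' * β : ℕ) : ℤ) := by rw [hy]
      have : (2 * (((P' * β : ℕ) : ℤ) * sI + y) + 1) = 2 * ((P' * β : ℕ) : ℤ) * sI + ((2 * y + 1 : ℕ) : ℤ) := by
        push_cast; ring
      rw [this, hy', hNρ, hP', hR']
      push_cast
      ring
    rw [e4, hN, hβe, hαe]
    push_cast
    have e5 : ∀ i, (M.step e (s, w)).2 i = w i - (if M.dec s (bits w) i then 1 else 0) +
      (M.A s (bits w) i + M.E s (bits w) i * e) := fun i => rfl
    simp only [e5]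
    rw [mul_left_comm, mul_left_comm (∏ i, (p i : ℤ) ^ (if M.dec s (bits w) i = true then 1 else 0))]
    congr 1
    rw [← Finset.prod_mul_distrib, ← Finset.prod_mul_distrib]
    apply Finset.prod_congr rfl
    intro i _
    rw [← pow_add, ← pow_add]
    congr 1
    have := hdw i
    omega

include s0 in
theorem exists_rep (hp : ∀ i, (p i).Prime) (t : ℤ) :
    ∃ s w c, Rep p σ t s w c := by
  classical
  have hQ : 0 < Qn := lt_of_le_of_lt (Nat.zero_le _) (σ s0).2
  have hQ' : (0 : ℤ) < Qn := by exact_mod_cast hQ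
  have h0 := Int.emod_nonneg t hQ'.ne'
  have h1 := Int.emod_lt_of_pos t hQ'
  have hlt : (t % Qn).toNat < Qn := by omega
  have key : ∀ (F : Finset ι) (N : ℤ), N ≠ 0 → ∃ (w : ι → ℕ) (c : ℤ),
      N = c * ∏ i ∈ F, ((p i : ℕ) : ℤ) ^ (w i) ∧ ∀ i ∈ F, ¬ ((p i : ℕ) : ℤ) ∣ c := by
    intro F
    induction F using Finset.induction_on with
    | empty => intro N hN; exact ⟨fun _ => 0, N, by simp, by simp⟩
    | insert a F ha ih =>
      intro N hN
      obtain ⟨w, c, hc, hd⟩ := ih N hN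
      have hc0 : c ≠ 0 := by
        intro h; apply hN; rw [hc, h, zero_mul]
      have hpa : Prime ((p a : ℕ) : ℤ) := Nat.prime_iff_prime_int.1 (hp a)
      have hfin : FiniteMultiplicity ((p a : ℕ) : ℤ) c :=
        FiniteMultiplicity.of_prime_left hpa hc0
      obtain ⟨c', hc', hnd⟩ := hfin.exists_eq_pow_mul_and_not_dvd
      refine ⟨Function.update w a (multiplicity ((p a : ℕ) : ℤ) c), c', ?_, ?_⟩
      · rw [Finset.prod_insert ha, Function.update_self, hc]
        have : ∏ i ∈ F, ((p i : ℕ) : ℤ) ^ (Function.update w a (multiplicity ((p a : ℕ) : ℤ) c) i)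
            = ∏ i ∈ F, ((p i : ℕ) : ℤ) ^ (w i) := by
          apply Finset.prod_congr rfl
          intro i hi
          have hne : i ≠ a := fun h => ha (by rw [← h]; exact hi)
          rw [Function.update_of_ne hne]
        rw [this, ← mul_assoc, mul_comm c', ← hc']
      · intro i hi hdv
        rcases Finset.mem_insert.1 hi with rfl | hi
        · exact hnd hdv
        · exact hd i hi (by rw [hc']; exact Dvd.dvd.mul_left hdv _)
  obtain ⟨w, c, hc, hd⟩ := key Finset.univ (2 * (t / Qn) + 1) (by omega)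
  refine ⟨σ.symm ⟨(t % Qn).toNat, hlt⟩, w, c, t / Qn, ?_, hc, fun i => hd i (Finset.mem_univ i)⟩
  rw [Equiv.apply_symm_apply, Int.toNat_of_nonneg h0]
  have := Int.emod_add_mul_ediv t Qn
  linarith

theorem exists_int (hp : ∀ i, (p i).Prime) (h2 : ∀ i, p i ≠ 2) (s : S) (w : ι → ℕ) :
    ∃ t, Rep p σ t s w 1 := by
  have hodd : Odd (∏ i, ((p i : ℕ) : ℤ) ^ (w i)) := by
    apply Finset.prod_induction _ Odd (fun a b ha hb => ha.mul hb) odd_one
    intro i _
    exact Odd.pow (by exact_mod_cast (hp i).odd_of_ne_two (h2 i))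
  obtain ⟨y, hy⟩ := hodd
  refine ⟨(Qn : ℤ) * y + ((σ s : Fin Qn) : ℕ), y, rfl, by rw [one_mul, hy], ?_⟩
  intro i hd
  exact (Nat.prime_iff_prime_int.1 (hp i)).not_isUnit (isUnit_of_dvd_one hd)

theorem hlt_iff (hinj : Function.Injective p) (hp : ∀ i, (p i).Prime) (h2 : ∀ i, p i ≠ 2)
    (e : ℕ) :
    (∀ t : ℤ, Hlt (mm Qn p) (kk M p σ s0 e) (vv M p σ s0 e) (hh M σ s0) t) ↔
      ∀ c, Acc (M.st e) c := by
  constructor
  · intro H
    have main : ∀ t, Hlt (mm Qn p) (kk M p σ s0 e) (vv M p σ s0 e) (hh M σ s0) t →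
        ∀ s w c, Rep p σ t s w c → Acc (M.st e) (s, w) := by
      intro t ht
      induction ht with
      | stop t h =>
        intro s w c hr
        obtain ⟨h1, _⟩ := rep_step s0 hinj hp h2 (M := M) e hr
        refine ⟨_, ?_⟩
        rintro c' ⟨h3, _⟩
        unfold hh at h
        rw [h1, ] at h
        rw [h] at h3
        exact absurd h3 (by simp)
      | step t _ ih =>
        intro s w c hr
        obtain ⟨h1, h3⟩ := rep_step s0 hinj hp h2 (M := M) e hr
        refine ⟨_, ?_⟩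
        rintro c' ⟨_, rfl⟩
        exact ih _ _ _ h3
    rintro ⟨s, w⟩
    obtain ⟨t, ht⟩ := exists_int (p := p) (σ := σ) hp h2 s w
    exact main t (H t) s w 1 ht
  · intro H t
    obtain ⟨s, w, c, hr⟩ := exists_rep (p := p) (σ := σ) s0 hp t
    have main : ∀ cf : S × (ι → ℕ), Acc (M.st e) cf → ∀ t c, Rep p σ t cf.1 cf.2 c →
        Hlt (mm Qn p) (kk M p σ s0 e) (vv M p σ s0 e) (hh M σ s0) t := by
      intro cf hacc
      induction hacc with
      | intro cf _ ih =>
        intro t c hr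
        obtain ⟨h1, h3⟩ := rep_step s0 hinj hp h2 (M := M) e hr
        cases hb : M.hlt cf.1 with
        | true =>
          apply Hlt.stop
          unfold hh
          rw [h1]
          exact hb
        | false =>
          apply Hlt.step
          exact ih _ ⟨hb, rfl⟩ _ c h3
    exact main (s, w) (H _) t c hr

theorem computable_pw {e : ℕ → ℕ} (he : Computable e) (a b : ℕ) :
    Computable fun n => a * b ^ (e n) := by
  have h1 : Primrec fun x : ℕ => a * b ^ x := by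
    have h2 : Primrec fun x : ℕ => b ^ x := by
      have h3 : Primrec fun x : ℕ => Nat.rec (motive := fun _ => ℕ) 1 (fun _ y => y * b) x := by
        exact Primrec.nat_rec₁ 1 (Primrec.nat_mul.comp Primrec.snd (Primrec.const b)).to₂
      refine h3.of_eq ?_
      intro x
      induction x with
      | zero => simp
      | succ x ih => rw [pow_succ, ← ih]
    exact Primrec.nat_mul.comp (Primrec.const a) h2
  exact h1.to_comp.comp he

theorem bet_eq (r : ℕ) : ∃ a b : ℕ, ∀ e, bet M p σ s0 e r = a * b ^ e := by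
  refine ⟨∏ i, p i ^ (M.A (stOf σ s0 r) (btOf Qn p r) i),
    ∏ i, p i ^ (M.E (stOf σ s0 r) (btOf Qn p r) i), ?_⟩
  intro e
  unfold bet
  rw [← Finset.prod_pow, ← Finset.prod_mul_distrib]
  apply Finset.prod_congr rfl
  intro i _
  rw [pow_add, pow_mul]

theorem computable_kk {e : ℕ → ℕ} (he : Computable e) (r : ℕ) :
    Computable fun n => kk M p σ s0 (e n) r := by
  obtain ⟨a, b, hab⟩ := bet_eq (M := M) (p := p) (σ := σ) s0 r
  unfold kk
  simp only [hab]
  have h1 : Primrec fun x : ℕ => Qn * ((∏ i, p i) / alf M p σ s0 r * x) :=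
    Primrec.nat_mul.comp (Primrec.const _) (Primrec.nat_mul.comp (Primrec.const _) Primrec.id)
  exact h1.to_comp.comp (computable_pw he a b)

theorem computable_vv {e : ℕ → ℕ} (he : Computable e) (r : ℕ) :
    Computable fun n => vv M p σ s0 (e n) r := by
  obtain ⟨a, b, hab⟩ := bet_eq (M := M) (p := p) (σ := σ) s0 r
  unfold vv
  simp only [hab]
  have h1 : Primrec fun x : ℕ => Qn * (((2 * (r / Qn) + 1) / alf M p σ s0 r * x - 1) / 2) +
      σ (M.nxt (stOf σ s0 r) (btOf Qn p r)) := by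
    refine Primrec.nat_add.comp (Primrec.nat_mul.comp (Primrec.const _) ?_) (Primrec.const _)
    refine Primrec.nat_div.comp ?_ (Primrec.const 2)
    refine Primrec.nat_sub.comp ?_ (Primrec.const 1)
    exact Primrec.nat_mul.comp (Primrec.const _) Primrec.id
  exact h1.to_comp.comp (computable_pw he a b)

end coding

/-- the coding layer: uniform halting of a machine with computable parameter is uniform halting of
a family of generalized Collatz processes -/
theorem coding_layer {ι S : Type} [Fintype ι] [Fintype S] (M : PM ι S) (s0 : S) {e : ℕ → ℕ}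
    (he : Computable e) :
    ∃ (m : ℕ) (k v : ℕ → ℕ → ℕ) (h : ℕ → Bool), 0 < m ∧
      (∀ r, Computable fun n => k n r) ∧ (∀ r, Computable fun n => v n r) ∧
      ∀ n, (∀ t : ℤ, Hlt m (k n) (v n) h t) ↔ ∀ c, Acc (M.st (e n)) c := by
  obtain ⟨p, hinj, hp, h2⟩ := exists_primes (ι := ι)
  have σ := Fintype.equivFin S
  refine ⟨mm (Fintype.card S) p, fun n => kk M p σ s0 (e n), fun n => vv M p σ s0 (e n),
    hh M σ s0, ?_, fun r => computable_kk s0 he r, fun r => computable_vv s0 he r,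
    fun n => hlt_iff s0 hinj hp h2 (e n)⟩
  exact Nat.mul_pos (Fintype.card_pos_iff.2 ⟨s0⟩) (Finset.prod_pos fun i _ => (hp i).pos)

end Pool.Agent.Work.MP_aa9b22_lc.M1
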