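import Pool.Agent.Work.MP_aa9b22_lc.M1a
import Pool.Agent.Work.Helper86.Machine

set_option autoImplicit false

namespace Pool.Agent.Work.MP_aa9b22_lc.M1

open Pool.Agent.Work.Helper86
open Relation

section reach

variable {ι S : Type} (M : PM ι S) (e : ℕ)

/-- forward steps from non-halting configurations -/
def PM.fw (c c' : S × (ι → ℕ)) : Prop := M.hlt c.1 = false ∧ c' = M.step e c

theorem st_eq : M.st e = Function.swap (M.fw e) := rfl

variable {M e}

theorem acc_of_fw {c c' : S × (ι → ℕ)} (h : M.fw e c c') (hc : Acc (M.st e) c') :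
    Acc (M.st e) c := by
  refine ⟨_, ?_⟩
  rintro d ⟨_, rfl⟩
  rw [← h.2]; exact hc

theorem acc_of_reach {c c' : S × (ι → ℕ)} (h : TransGen (M.fw e) c c') (hc : Acc (M.st e) c') :
    Acc (M.st e) c := by
  induction h using TransGen.head_induction_on with
  | single h => exact acc_of_fw h hc
  | head h _ ih => exact acc_of_fw h ih

theorem acc_of_hlt {c : S × (ι → ℕ)} (h : M.hlt c.1 = true) : Acc (M.st e) c := by
  refine ⟨_, ?_⟩
  rintro d ⟨h1, _⟩
  rw [h] at h1; exact absurd h1 (by simp)

theorem not_acc (P : S × (ι → ℕ) → Prop)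
    (hP : ∀ c, P c → ∃ c', TransGen (M.fw e) c c' ∧ P c') (c : S × (ι → ℕ)) (hc : P c) :
    ¬ Acc (M.st e) c := by
  intro h
  have h1 := h.transGen
  clear h
  induction h1 with
  | intro c _ ih =>
    obtain ⟨c', h2, h3⟩ := hP c hc
    have h4 : TransGen (M.st e) c' c := by
      rw [st_eq]
      exact (transGen_swap).2 h2
    exact ih c' h4 h3

end reach

/-! ### the robust machine -/

section rob

open Classical in
/-- the robust machine built from a counter machine: it simulates `C` for a bounded number of steps,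
then clears the registers, restores the input and restarts with a larger bound -/
noncomputable def rob (C : CM) (q0 : C.Q) (r0 r1 : Fin C.B) :
    PM (Bool × (Fin C.B ⊕ Bool)) (Bool × Option C.Q) where
  hlt s := decide (s.2 = some C.hlt)
  nxt s β := match s.2 with
    | some q => if β (s.1, Sum.inr true) then (s.1, some (C.nxt q (β (s.1, Sum.inl (C.reg q)))))
        else (s.1, none)
    | none => if ∃ i : Fin C.B ⊕ Bool, i ≠ Sum.inr true ∧ β (s.1, i) = true then (s.1, none)
        else (!s.1, some q0)
  dec s β i := β i && (match s.2 with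
    | some q => β (s.1, Sum.inr true) && (decide (i = (s.1, Sum.inr true)) ||
        (decide (i = (s.1, Sum.inl (C.reg q))) &&
          decide (C.op q (β (s.1, Sum.inl (C.reg q))) = Op.dec)))
    | none => decide (i.1 = s.1) && decide (i.2 ≠ Sum.inr true))
  A s β i := match s.2 with
    | some q => if β (s.1, Sum.inr true) then
        (if i = (!s.1, Sum.inr true) then 1 else
          if i = (s.1, Sum.inl (C.reg q)) ∧ C.op q (β (s.1, Sum.inl (C.reg q))) = Op.inc then 1
          else 0) else 0
    | none => if ∃ i : Fin C.B ⊕ Bool, i ≠ Sum.inr true ∧ β (s.1, i) = true then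
        (if β (s.1, Sum.inr false) = true ∧ (i = (!s.1, Sum.inr false) ∨ i = (!s.1, Sum.inl r0))
          then 1 else 0)
        else (if i = (!s.1, Sum.inr true) then 1 else 0)
  E s β i := match s.2 with
    | some _ => 0
    | none => if ∃ i : Fin C.B ⊕ Bool, i ≠ Sum.inr true ∧ β (s.1, i) = true then 0
        else if i = (!s.1, Sum.inl r1) then 1 else 0
  dec_le s β i h := by
    rw [Bool.and_eq_true] at h
    exact h.1

variable {C : CM} {q0 : C.Q} {r0 r1 : Fin C.B}

/-- configurations of the registers, seen from the active copy `b` -/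
def cf {B : ℕ} (b : Bool) (a1 : Fin B → ℕ) (x1 u1 : ℕ) (a2 : Fin B → ℕ) (x2 u2 : ℕ) :
    Bool × (Fin B ⊕ Bool) → ℕ := fun i =>
  if i.1 = b then
    (match i.2 with
    | Sum.inl r => a1 r
    | Sum.inr false => x1
    | Sum.inr true => u1)
  else
    (match i.2 with
    | Sum.inl r => a2 r
    | Sum.inr false => x2
    | Sum.inr true => u2)

theorem exists_cf {B : ℕ} (b : Bool) (w : Bool × (Fin B ⊕ Bool) → ℕ) :
    ∃ a1 x1 u1 a2 x2 u2, w = cf b a1 x1 u1 a2 x2 u2 := by
  refine ⟨fun r => w (b, Sum.inl r), w (b, Sum.inr false), w (b, Sum.inr true),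
    fun r => w (!b, Sum.inl r), w (!b, Sum.inr false), w (!b, Sum.inr true), ?_⟩
  funext i
  obtain ⟨c, i⟩ := i
  unfold cf
  by_cases h : c = b
  · subst h
    rcases i with r | (_ | _) <;> simp
  · have h' : c = !b := by cases b <;> cases c <;> simp_all
    subst h'
    rcases i with r | (_ | _) <;> simp

theorem step_sim (e : ℕ) (b : Bool) (q : C.Q) (a1 : Fin C.B → ℕ) (x1 u : ℕ) (a2 : Fin C.B → ℕ)
    (x2 u2 : ℕ) :
    (rob C q0 r0 r1).step e ((b, some q), cf b a1 x1 (u + 1) a2 x2 u2) =
      ((b, some (C.step (q, a1)).1), cf b (C.step (q, a1)).2 x1 u a2 x2 (u2 + 1)) := by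
  have hu : bits (cf b a1 x1 (u + 1) a2 x2 u2) (b, Sum.inr true) = true := by
    simp [bits, cf]
  have hr : bits (cf b a1 x1 (u + 1) a2 x2 u2) (b, Sum.inl (C.reg q)) =
      decide (a1 (C.reg q) ≠ 0) := by
    simp [bits, cf]
  apply Prod.ext
  · simp only [PM.step, rob, hu, hr, if_true]
    rfl
  · funext i
    simp only [PM.step, rob, hu, hr, if_true]
    obtain ⟨c, i⟩ := i
    have hok := C.op_ok q
    by_cases h : c = b
    · subst h
      rcases i with r | (_ | _)
      · by_cases hrr : r = C.reg q
        · subst hrr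
          by_cases h0 : a1 (C.reg q) = 0
          · have h1 : C.op q false ≠ Op.dec := hok
            cases hop : C.op q false with
            | nop => simp [cf, bits, CM.step, h0, hop, Op.app]
            | inc => simp [cf, bits, CM.step, h0, hop, Op.app]
            | dec => exact absurd hop h1
          · cases hop : C.op q true with
            | nop => simp [cf, bits, CM.step, h0, hop, Op.app]
            | inc => simp [cf, bits, CM.step, h0, hop, Op.app]
            | dec => simp [cf, bits, CM.step, h0, hop, Op.app]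
        · simp [cf, bits, CM.step, hrr, Function.update_of_ne]
      · simp [cf]
      · simp [cf, bits]
    · have h' : c = !b := by cases b <;> cases c <;> simp_all
      subst h'
      rcases i with r | (_ | _) <;> simp [cf, bits]

theorem step_sim0 (e : ℕ) (b : Bool) (q : C.Q) (a1 : Fin C.B → ℕ) (x1 : ℕ) (a2 : Fin C.B → ℕ)
    (x2 u2 : ℕ) :
    (rob C q0 r0 r1).step e ((b, some q), cf b a1 x1 0 a2 x2 u2) =
      ((b, none), cf b a1 x1 0 a2 x2 u2) := by
  have hu : bits (cf b a1 x1 0 a2 x2 u2) (b, Sum.inr true) = false := by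
    simp [bits, cf]
  apply Prod.ext
  · simp [PM.step, rob, hu]
  · funext i
    simp [PM.step, rob, hu]

theorem step_clear (e : ℕ) (b : Bool) (a1 : Fin C.B → ℕ) (x1 u1 : ℕ) (a2 : Fin C.B → ℕ)
    (x2 u2 : ℕ) (h : a1 ≠ 0 ∨ x1 ≠ 0) :
    (rob C q0 r0 r1).step e ((b, none), cf b a1 x1 u1 a2 x2 u2) =
      ((b, none), cf b (fun r => a1 r - 1) (x1 - 1) u1
        (fun r => a2 r + if r = r0 then (if x1 ≠ 0 then 1 else 0) else 0)
        (x2 + if x1 ≠ 0 then 1 else 0) u2) := by
  have hany : ∃ i : Fin C.B ⊕ Bool, i ≠ Sum.inr true ∧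
      bits (cf b a1 x1 u1 a2 x2 u2) (b, i) = true := by
    rcases h with h | h
    · obtain ⟨r, hr⟩ := Function.ne_iff.1 h
      exact ⟨Sum.inl r, by simp, by simpa [bits, cf] using hr⟩
    · exact ⟨Sum.inr false, by simp, by simpa [bits, cf] using h⟩
  apply Prod.ext
  · simp only [PM.step, rob]
    rw [if_pos hany]
  · funext i
    simp only [PM.step, rob]
    rw [if_pos hany, if_pos hany]
    obtain ⟨c, i⟩ := i
    by_cases h : c = b
    · subst h
      rcases i with r | (_ | _)
      · by_cases h0 : a1 r = 0 <;> simp [cf, bits, h0]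
      · by_cases h0 : x1 = 0 <;> simp [cf, bits, h0]
      · simp [cf, bits]
    · have h' : c = !b := by cases b <;> cases c <;> simp_all
      subst h'
      rcases i with r | (_ | _)
      · by_cases h0 : x1 = 0
        · simp [cf, bits, h0]
        · by_cases h3 : r = r0 <;> simp [cf, bits, h0, h3]
      · by_cases h0 : x1 = 0 <;> simp [cf, bits, h0]
      · simp [cf, bits]

theorem step_restart (e : ℕ) (b : Bool) (u1 : ℕ) (a2 : Fin C.B → ℕ) (x2 u2 : ℕ) :
    (rob C q0 r0 r1).step e ((b, none), cf b (fun _ => 0) 0 u1 a2 x2 u2) =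
      ((!b, some q0), cf (!b) (fun r => a2 r + if r = r1 then e else 0) x2 (u2 + 1)
        (fun _ => 0) 0 u1) := by
  have hany : ¬ ∃ i : Fin C.B ⊕ Bool, i ≠ Sum.inr true ∧
      bits (cf b (fun _ => 0) 0 u1 a2 x2 u2) (b, i) = true := by
    rintro ⟨i, h1, h2⟩
    rcases i with r | (_ | _)
    · simp [bits, cf] at h2
    · simp [bits, cf] at h2
    · exact h1 rfl
  apply Prod.ext
  · simp only [PM.step, rob]
    rw [if_neg hany]
  · funext i
    simp only [PM.step, rob]
    rw [if_neg hany, if_neg hany]
    obtain ⟨c, i⟩ := i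
    by_cases h : c = b
    · subst h
      rcases i with r | (_ | _) <;> simp [cf, bits]
    · have h' : c = !b := by cases b <;> cases c <;> simp_all
      subst h'
      rcases i with r | (_ | _)
      · by_cases h3 : r = r1 <;> simp [cf, bits, h3]
      · simp [cf, bits]
      · simp [cf, bits]

end rob

end Pool.Agent.Work.MP_aa9b22_lc.M1
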