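import Pool.Agent.Work.MP_aa9b22_lc.Spec2

set_option autoImplicit false
set_option linter.all false

open scoped commutatorElement

namespace Pool.Agent.Work.MP_aa9b22_lc

namespace Wr

variable {G H L ι κ : Type} [Group G] [Group H] [Group L]

/-- change of label group -/
def mapG (f : G →* H) (ι : Type) : Wr G ι →* Wr H ι where
  toFun a := ⟨a.p, fun i => f (a.r i)⟩
  map_one' := by ext i <;> simp
  map_mul' a b := by ext i <;> simp

@[simp] theorem mapG_p (f : G →* H) (a : Wr G ι) : (mapG f ι a).p = a.p := rfl
@[simp] theorem mapG_r (f : G →* H) (a : Wr G ι) (i : ι) : (mapG f ι a).r i = f (a.r i) := rfl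

/-- transport along a bijection of letters -/
def transp (e : ι ≃ κ) : Wr G ι →* Wr G κ where
  toFun a := ⟨e.permCongr a.p, fun i => a.r (e.symm i)⟩
  map_one' := by
    ext i
    · simp
    · simp
  map_mul' a b := by
    ext i
    · simp
    · simp

@[simp] theorem transp_p (e : ι ≃ κ) (a : Wr G ι) (i : ι) :
    (transp e a).p (e i) = e (a.p i) := by simp [transp]
@[simp] theorem transp_r (e : ι ≃ κ) (a : Wr G ι) (i : ι) :
    (transp e a).r (e i) = a.r i := by simp [transp]

/-- disjoint union of wreath recursions -/
def sum (f : L →* Wr G ι) (g : L →* Wr G κ) : L →* Wr G (ι ⊕ κ) where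
  toFun x := ⟨Equiv.sumCongr (f x).p (g x).p, Sum.elim (f x).r (g x).r⟩
  map_one' := by
    ext i
    · rcases i with i | i <;> simp
    · rcases i with i | i <;> simp
  map_mul' a b := by
    ext i
    · rcases i with i | i <;> simp
    · rcases i with i | i <;> simp

@[simp] theorem sum_p_inl (f : L →* Wr G ι) (g : L →* Wr G κ) (x : L) (i : ι) :
    (sum f g x).p (Sum.inl i) = Sum.inl ((f x).p i) := rfl
@[simp] theorem sum_p_inr (f : L →* Wr G ι) (g : L →* Wr G κ) (x : L) (i : κ) :
    (sum f g x).p (Sum.inr i) = Sum.inr ((g x).p i) := rfl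
@[simp] theorem sum_r_inl (f : L →* Wr G ι) (g : L →* Wr G κ) (x : L) (i : ι) :
    (sum f g x).r (Sum.inl i) = (f x).r i := rfl
@[simp] theorem sum_r_inr (f : L →* Wr G ι) (g : L →* Wr G κ) (x : L) (i : κ) :
    (sum f g x).r (Sum.inr i) = (g x).r i := rfl

/-- wreath recursion without movement -/
def fixed (f : ι → L →* G) : L →* Wr G ι where
  toFun x := ⟨1, fun i => f i x⟩
  map_one' := by ext i <;> simp
  map_mul' a b := by ext i <;> simp

@[simp] theorem fixed_p (f : ι → L →* G) (x : L) : (fixed f x).p = 1 := rfl
@[simp] theorem fixed_r (f : ι → L →* G) (x : L) (i : ι) : (fixed f x).r i = f i x := rfl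

theorem comm_p (a b : Wr G ι) (ha : a.p = 1) (hb : b.p = 1) : (⁅a, b⁆ : Wr G ι).p = 1 := by
  simp [commutatorElement_def, ha, hb]

theorem comm_r (a b : Wr G ι) (ha : a.p = 1) (hb : b.p = 1) (i : ι) :
    (⁅a, b⁆ : Wr G ι).r i = ⁅a.r i, b.r i⁆ := by
  simp [commutatorElement_def, ha, hb]

/-- product of all labels seen in a commutative group -/
def tot {C : Type} [CommGroup C] [Fintype ι] (f : L →* Wr G ι) (φ : G →* C) : L →* C where
  toFun x := ∏ i, φ ((f x).r i)
  map_one' := by simp
  map_mul' a b := by
    simp only [map_mul, mul_r, Finset.prod_mul_distrib]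
    congr 1
    exact Equiv.prod_comp (f b).p (fun i => φ ((f a).r i))

theorem tot_apply {C : Type} [CommGroup C] [Fintype ι] (f : L →* Wr G ι) (φ : G →* C) (x : L) :
    tot f φ x = ∏ i, φ ((f x).r i) := rfl

end Wr

/-- the label group -/
abbrev G3 : Type := FreeGroup (Fin 3)

/-- exponent sum of a generator -/
def expo (j : Fin 3) : G3 →* Multiplicative ℤ :=
  FreeGroup.lift fun i => if i = j then Multiplicative.ofAdd 1 else 1

@[simp] theorem expo_of (j i : Fin 3) :
    expo j (FreeGroup.of i) = if i = j then Multiplicative.ofAdd 1 else 1 := by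
  simp [expo]

/-- inverse powers of a generator -/
def zp (j : Fin 3) : Multiplicative ℤ →* G3 := zpowersHom G3 (FreeGroup.of j)⁻¹

theorem zp_apply (j : Fin 3) (x : Multiplicative ℤ) :
    zp j x = (FreeGroup.of j)⁻¹ ^ (Multiplicative.toAdd x) := rfl

theorem expo_zp (j i : Fin 3) (x : Multiplicative ℤ) :
    expo j (zp i x) = if i = j then x⁻¹ else 1 := by
  rw [zp_apply, map_zpow, map_inv, expo_of]
  split_ifs with h
  · rw [inv_zpow]
    congr 1
    rw [← ofAdd_zsmul, smul_eq_mul, mul_one]
    rfl
  · simp

theorem mem_commutator_of_expo (g : G3) (h : ∀ j, expo j g = 1) : g ∈ commutator G3 := by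
  have key : (Abelianization.of : G3 →* Abelianization G3) =
      ((zpowersHom _ (Abelianization.of (FreeGroup.of 0))).comp (expo 0)) *
      ((zpowersHom _ (Abelianization.of (FreeGroup.of 1))).comp (expo 1)) *
      ((zpowersHom _ (Abelianization.of (FreeGroup.of 2))).comp (expo 2)) := by
    apply FreeGroup.ext_hom
    intro i
    fin_cases i <;> simp [zpowersHom_apply]
  have h1 : (Abelianization.of g : Abelianization G3) = 1 := by
    rw [key]
    simp [h]
  rwa [← Abelianization.ker_of, MonoidHom.mem_ker]

/-- words for the inverse powers -/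
def wflip (j : Fin 3) (l : List (Fin 3 × Bool)) : List (Fin 3 × Bool) :=
  l.flatMap fun q => if q.1 = j then [(j, !q.2)] else []

theorem mk_wflip (j : Fin 3) (l : List (Fin 3 × Bool)) :
    (FreeGroup.mk (wflip j l) : G3) = zp j (expo j (FreeGroup.mk l)) := by
  induction l with
  | nil =>
    have : (FreeGroup.mk ([] : List (Fin 3 × Bool)) : G3) = 1 := rfl
    simp [wflip, this]
  | cons q l ih =>
    have h1 : (FreeGroup.mk (q :: l) : G3) = FreeGroup.mk [q] * FreeGroup.mk l := by
      rw [FreeGroup.mul_mk]; rfl
    have h2 : wflip j (q :: l) = (if q.1 = j then [(j, !q.2)] else []) ++ wflip j l := by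
      simp [wflip]
    rw [h1, h2, ← FreeGroup.mul_mk, ih, map_mul, map_mul]
    congr 1
    rcases q with ⟨i, b⟩
    have h3 : (FreeGroup.mk [(i, true)] : G3) = FreeGroup.of i := rfl
    have h4 : (FreeGroup.mk [(i, false)] : G3) = (FreeGroup.of i)⁻¹ := rfl
    by_cases hij : i = j
    · subst hij
      cases b
      · rw [h4, map_inv, expo_of, if_pos rfl, map_inv, zp_apply]
        simp only [if_true, Bool.not_false, toAdd_ofAdd, zpow_one, inv_inv]
        exact h3
      · rw [h3, expo_of, if_pos rfl, zp_apply]
        simp only [if_true, Bool.not_true, toAdd_ofAdd, zpow_one]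
        exact h4
    · cases b
      · rw [h4]; simp [hij]; rfl
      · rw [h3]; simp [hij]; rfl

theorem mk_flatten {X : Type} (l : List X) (f : X → List (Fin 3 × Bool)) :
    (FreeGroup.mk ((l.map f).flatten) : G3) = (l.map fun x => (FreeGroup.mk (f x) : G3)).prod := by
  induction l with
  | nil => rfl
  | cons x l ih => simp only [List.map_cons, List.flatten_cons, List.prod_cons, ← ih, FreeGroup.mul_mk]

theorem computable_replicate {A : Type} [Primcodable A] (a : A) (f : ℕ → ℕ) (hf : Computable f) :
    Computable fun n => List.replicate (f n) a := by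
  have : (fun n => List.replicate (f n) a) = fun n =>
      (Nat.rec [] (fun _ l => a :: l) (f n) : List A) := by
    funext n
    induction f n with
    | zero => rfl
    | succ k ih => simp only [List.replicate_succ, ih]
  rw [this]
  refine Computable.nat_rec (f := f) (g := fun _ => ([] : List A)) (h := fun _ (p : ℕ × List A) => a :: p.2)
    hf (Computable.const _) ?_
  exact Computable.list_cons.comp (Computable.const a) (Computable.snd.comp Computable.snd)

theorem computable_flatten {A X : Type} [Primcodable A] (l : List X) (f : ℕ → X → List A)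
    (hf : ∀ x, Computable fun n => f n x) : Computable fun n => (l.map (f n)).flatten := by
  induction l with
  | nil => simpa using Computable.const []
  | cons x l ih =>
    simp only [List.map_cons, List.flatten_cons]
    exact Computable.list_append.comp (hf x) ih

theorem primrec_wflip (j : Fin 3) : Primrec (wflip j) := by
  unfold wflip
  refine Primrec.list_flatMap Primrec.id ?_
  have : Primrec fun q : Fin 3 × Bool => (if q.1 = j then [(j, !q.2)] else [] : List (Fin 3 × Bool)) :=
    Primrec.dom_finite _
  exact this.comp Primrec.snd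

end Pool.Agent.Work.MP_aa9b22_lc
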