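import Pool.Agent.Work.MP_aa9b22_lc.M6a

set_option autoImplicit false
set_option linter.all false

open scoped commutatorElement

namespace Pool.Agent.Work.MP_aa9b22_lc

section comp

variable (m : ℕ) [NeZero m] (K V : ℕ → ℕ) (h : ℕ → Bool)

/-- the generator tau and its powers on the component block -/
def rho : Multiplicative ℤ →* Wr G3 (ZMod m × ZMod m) where
  toFun t := ⟨(Equiv.refl _).prodCongr (Equiv.addRight ((Multiplicative.toAdd t : ℤ) : ZMod m)),
    fun x => FreeGroup.of 0 ^ ((K x.1.val : ℤ) * (((x.2.val : ℤ) + Multiplicative.toAdd t) / (m : ℤ)))⟩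
  map_one' := by
    ext x
    · simp
    · simp
    · have h1 : ((x.2.val : ℤ)) / (m : ℤ) = 0 := by
        apply Int.ediv_eq_zero_of_lt (by positivity)
        exact_mod_cast ZMod.val_lt x.2
      simp only [toAdd_one, add_zero, h1, mul_zero, zpow_zero, Wr.one_r]
  map_mul' s t := by
    ext x
    · simp
    · simp [add_comm, add_left_comm]
    · simp only [Wr.mul_r]
      have h1 : (((Equiv.refl (ZMod m)).prodCongr
        (Equiv.addRight ((Multiplicative.toAdd t : ℤ) : ZMod m))) x) =
          (x.1, x.2 + ((Multiplicative.toAdd t : ℤ) : ZMod m)) := rfl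
      rw [h1, ← zpow_add, ← mul_add]
      congr 2
      have h2 : ((x.2 + ((Multiplicative.toAdd t : ℤ) : ZMod m)).val : ℤ) =
          ((x.2.val : ℤ) + Multiplicative.toAdd t) % (m : ℤ) := by
        rw [← ZMod.val_intCast]
        congr 2
        simp
      simp only [h2, toAdd_mul]
      set u := (x.2.val : ℤ) + Multiplicative.toAdd t with hu
      have hm : (m : ℤ) ≠ 0 := by exact_mod_cast NeZero.ne m
      have h3 : (x.2.val : ℤ) + (Multiplicative.toAdd s + Multiplicative.toAdd t) =
          (u % m + Multiplicative.toAdd s) + (m : ℤ) * (u / m) := by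
        have := Int.emod_add_mul_ediv u m
        linarith
      rw [h3, Int.add_mul_ediv_left _ _ hm]

/-- the generator a on the component block -/
def alph : Wr G3 (ZMod m × ZMod m) := ⟨1, fun x => if x.2 = 0 then FreeGroup.of 1 else 1⟩

/-- the generator b on the component block -/
def bet : Wr G3 (ZMod m × ZMod m) :=
  ⟨1, fun x => if x.2 = x.1 ∧ h x.1.val = false then
    (FreeGroup.of 0 ^ V x.1.val)⁻¹ * FreeGroup.of 2 * FreeGroup.of 0 ^ V x.1.val else 1⟩

/-- the component block -/
def psiC : G3 →* Wr G3 (ZMod m × ZMod m) :=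
  FreeGroup.lift ![rho m K (Multiplicative.ofAdd 1), alph m, bet m V h]

theorem psiC_zero : psiC m K V h (FreeGroup.of 0) = rho m K (Multiplicative.ofAdd 1) := by
  simp [psiC]
theorem psiC_one : psiC m K V h (FreeGroup.of 1) = alph m := by
  simp [psiC]
theorem psiC_two : psiC m K V h (FreeGroup.of 2) = bet m V h := by
  simp [psiC]

theorem psiC_zpow (t : ℤ) :
    psiC m K V h (FreeGroup.of 0 ^ t) = rho m K (Multiplicative.ofAdd t) := by
  rw [map_zpow, psiC_zero, ← map_zpow, ← ofAdd_zsmul]
  simp

/-- the special elements -/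
def at' (t : ℤ) : G3 := FreeGroup.of 0 ^ t * FreeGroup.of 1 * (FreeGroup.of 0 ^ t)⁻¹

/-- the special elements -/
def bt' (t : ℤ) : G3 := FreeGroup.of 0 ^ t * FreeGroup.of 2 * (FreeGroup.of 0 ^ t)⁻¹

/-- the special elements -/
def nel (t : ℤ) : G3 := ⁅at' t, FreeGroup.of 2⁆

theorem psiC_at_p (t : ℤ) : (psiC m K V h (at' t)).p = 1 := by
  rw [at', map_mul, map_mul, map_inv, psiC_zpow, psiC_one]
  simp [alph]

theorem psiC_at_r (t : ℤ) (x : ZMod m × ZMod m) : (psiC m K V h (at' t)).r x =
    if x.2 = (t : ZMod m) then at' ((K x.1.val : ℤ) * (t / m)) else 1 := by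
  rw [at', map_mul, map_mul, map_inv, psiC_zpow, psiC_one]
  simp only [Wr.mul_r, Wr.inv_r, Wr.inv_p]
  set z := (rho m K (Multiplicative.ofAdd t)).p⁻¹ x with hz
  have hz1 : z = (x.1, x.2 - (t : ZMod m)) := by
    rw [hz, Equiv.Perm.inv_eq_iff_eq]
    change x = (x.1, x.2 - (t : ZMod m) + (t : ZMod m))
    simp
  have h1 : (alph m).p z = z := rfl
  rw [h1, hz1]
  by_cases hx : x.2 = (t : ZMod m)
  · simp only [hx, sub_self, if_true]
    simp [alph, rho, at']
  · have : x.2 - (t : ZMod m) ≠ 0 := sub_ne_zero.2 hx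
    simp [alph, hx, this]

theorem commutator_conj_nel (q : ℤ) (w : ℕ) :
    ⁅at' q, (FreeGroup.of 0 ^ w)⁻¹ * FreeGroup.of 2 * FreeGroup.of 0 ^ w⁆ =
      (FreeGroup.of 0 ^ w)⁻¹ * nel (q + w) * ((FreeGroup.of 0 ^ w)⁻¹)⁻¹ := by
  rw [nel, at', at', add_comm, zpow_add, zpow_natCast]
  simp only [commutatorElement_def]
  group

theorem psiC_nel_p (t : ℤ) : (psiC m K V h (nel t)).p = 1 := by
  rw [nel, map_commutatorElement]
  exact Wr.comm_p _ _ (psiC_at_p m K V h t) (by rw [psiC_two]; rfl)

/-- the generalized Collatz function -/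
def Fc (t : ℤ) : ℤ := K (t % m).toNat * (t / m) + V (t % m).toNat

theorem val_toNat (t : ℤ) : (t % m).toNat = (t : ZMod m).val := by
  rw [← ZMod.val_intCast]; exact Int.toNat_natCast _

theorem psiC_nel_r (t : ℤ) (x : ZMod m × ZMod m) : (psiC m K V h (nel t)).r x =
    if x.2 = (t : ZMod m) ∧ x.1 = (t : ZMod m) ∧ h (t % m).toNat = false then
      (FreeGroup.of 0 ^ V (t % m).toNat)⁻¹ * nel (Fc m K V t) *
        ((FreeGroup.of 0 ^ V (t % m).toNat)⁻¹)⁻¹ else 1 := by
  rw [nel, map_commutatorElement, Wr.comm_r _ _ (psiC_at_p m K V h t) (by rw [psiC_two]; rfl),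
    psiC_at_r, psiC_two]
  rw [val_toNat, Fc, val_toNat]
  by_cases h1 : x.2 = (t : ZMod m)
  · by_cases h2 : x.1 = (t : ZMod m)
    · by_cases h3 : h (t : ZMod m).val = false
      · simp only [h1, h2, h3, bet, if_true, and_self]
        rw [commutator_conj_nel]
      · simp only [h1, h2, h3, bet, if_true, and_false, if_false]
        simp
    · have h4 : ¬ ((t : ZMod m) = x.1) := fun hh => h2 hh.symm
      simp [h1, h2, h4, bet]
  · simp [h1]

/-- words for the labels -/
def wC : Fin 3 → ZMod m × ZMod m → List (Fin 3 × Bool)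
  | 0, x => if x.2.val + 1 = m then List.replicate (K x.1.val) (0, true) else []
  | 1, x => if x.2 = 0 then [(1, true)] else []
  | 2, x => if x.2 = x.1 ∧ h x.1.val = false then
      List.replicate (V x.1.val) (0, false) ++ [(2, true)] ++ List.replicate (V x.1.val) (0, true)
      else []

theorem mk_replicate_true (i : Fin 3) (k : ℕ) :
    (FreeGroup.mk (List.replicate k (i, true)) : G3) = FreeGroup.of i ^ k := by
  induction k with
  | zero => rfl
  | succ k ih =>
    rw [List.replicate_succ, pow_succ', ← ih, FreeGroup.of, FreeGroup.mul_mk]; rfl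

theorem mk_replicate_false (i : Fin 3) (k : ℕ) :
    (FreeGroup.mk (List.replicate k (i, false)) : G3) = (FreeGroup.of i ^ k)⁻¹ := by
  induction k with
  | zero => rfl
  | succ k ih =>
    have : (FreeGroup.of i : G3)⁻¹ = FreeGroup.mk [(i, false)] := rfl
    rw [List.replicate_succ, pow_succ, mul_inv_rev, ← ih, this, FreeGroup.mul_mk]; rfl

theorem mk_wC (g : Fin 3) (x : ZMod m × ZMod m) :
    (FreeGroup.mk (wC m K V h g x) : G3) = (psiC m K V h (FreeGroup.of g)).r x := by
  fin_cases g
  · change FreeGroup.mk (wC m K V h 0 x) = (psiC m K V h (FreeGroup.of 0)).r x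
    rw [psiC_zero]
    simp only [wC, rho, MonoidHom.coe_mk, OneHom.coe_mk, toAdd_ofAdd]
    have hlt := ZMod.val_lt x.2
    have hm : (m : ℤ) ≠ 0 := by exact_mod_cast NeZero.ne m
    split_ifs with h1
    · have : ((x.2.val : ℤ) + 1) = m := by exact_mod_cast h1
      rw [this, Int.ediv_self hm, mul_one, mk_replicate_true, zpow_natCast]
    · have : ((x.2.val : ℤ) + 1) / m = 0 := by
        apply Int.ediv_eq_zero_of_lt (by positivity)
        have : x.2.val + 1 < m := by omega
        exact_mod_cast this
      rw [this]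
      simp
      rfl
  · change FreeGroup.mk (wC m K V h 1 x) = (psiC m K V h (FreeGroup.of 1)).r x
    rw [psiC_one]
    simp only [wC, alph]
    split_ifs with h1 <;> rfl
  · change FreeGroup.mk (wC m K V h 2 x) = (psiC m K V h (FreeGroup.of 2)).r x
    rw [psiC_two]
    simp only [wC, bet]
    split_ifs with h1
    · rw [← FreeGroup.mul_mk, ← FreeGroup.mul_mk, mk_replicate_false, mk_replicate_true]
      rfl
    · rfl

theorem computable_wC {m : ℕ} [NeZero m] {k v : ℕ → ℕ → ℕ} (h : ℕ → Bool)
    (hk : ∀ r, Computable fun n => k n r) (hv : ∀ r, Computable fun n => v n r)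
    (g : Fin 3) (x : ZMod m × ZMod m) : Computable fun n => wC m (k n) (v n) h g x := by
  fin_cases g
  · change Computable fun n => wC m (k n) (v n) h 0 x
    simp only [wC]
    split_ifs with h1
    · exact computable_replicate _ _ (hk _)
    · exact Computable.const _
  · change Computable fun n => wC m (k n) (v n) h 1 x
    simp only [wC]
    exact Computable.const _
  · change Computable fun n => wC m (k n) (v n) h 2 x
    simp only [wC]
    split_ifs with h1
    · exact Computable.list_append.comp (Computable.list_append.comp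
        (computable_replicate _ _ (hv _)) (Computable.const _)) (computable_replicate _ _ (hv _))
    · exact Computable.const _

end comp

end Pool.Agent.Work.MP_aa9b22_lc
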