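import Pool.Agent.Work.MP_aa9b22_lc.M6b

set_option autoImplicit false
set_option linter.all false

open scoped commutatorElement

namespace Pool.Agent.Work.MP_aa9b22_lc

/-- killing the third generator -/
def prA : G3 →* FreeGroup (Fin 2) := FreeGroup.lift ![FreeGroup.of 0, FreeGroup.of 1, 1]
/-- inclusion of the first two generators -/
def inA : FreeGroup (Fin 2) →* G3 := FreeGroup.lift ![FreeGroup.of 0, FreeGroup.of 1]
/-- killing the second generator -/
def prB : G3 →* FreeGroup (Fin 2) := FreeGroup.lift ![FreeGroup.of 0, 1, FreeGroup.of 1]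
/-- inclusion of the first and third generators -/
def inB : FreeGroup (Fin 2) →* G3 := FreeGroup.lift ![FreeGroup.of 0, FreeGroup.of 2]

@[simp] theorem prA_zero : prA (FreeGroup.of 0) = FreeGroup.of 0 := by simp [prA]
@[simp] theorem prA_one : prA (FreeGroup.of 1) = FreeGroup.of 1 := by simp [prA]
@[simp] theorem prA_two : prA (FreeGroup.of 2) = 1 := by simp [prA]
@[simp] theorem prB_zero : prB (FreeGroup.of 0) = FreeGroup.of 0 := by simp [prB]
@[simp] theorem prB_one : prB (FreeGroup.of 1) = 1 := by simp [prB]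
@[simp] theorem prB_two : prB (FreeGroup.of 2) = FreeGroup.of 1 := by simp [prB]
@[simp] theorem inA_zero : inA (FreeGroup.of 0) = FreeGroup.of 0 := by simp [inA]
@[simp] theorem inA_one : inA (FreeGroup.of 1) = FreeGroup.of 1 := by simp [inA]
@[simp] theorem inB_zero : inB (FreeGroup.of 0) = FreeGroup.of 0 := by simp [inB]
@[simp] theorem inB_one : inB (FreeGroup.of 1) = FreeGroup.of 2 := by simp [inB]

theorem prA_inA (w : FreeGroup (Fin 2)) : prA (inA w) = w := by
  have : prA.comp inA = MonoidHom.id _ := by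
    apply FreeGroup.ext_hom
    intro i
    fin_cases i <;> simp
  exact DFunLike.congr_fun this w

theorem prB_inB (w : FreeGroup (Fin 2)) : prB (inB w) = w := by
  have : prB.comp inB = MonoidHom.id _ := by
    apply FreeGroup.ext_hom
    intro i
    fin_cases i <;> simp
  exact DFunLike.congr_fun this w

/-- subgroup generated by the conjugates of a -/
def Acl : Subgroup G3 := Subgroup.closure (Set.range at')
/-- subgroup generated by the conjugates of b -/
def Bcl : Subgroup G3 := Subgroup.closure (Set.range bt')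
/-- the normal closure of all commutators -/
def Ncl : Subgroup G3 := Subgroup.normalClosure (Set.range nel)

instance : Ncl.Normal := Subgroup.normalClosure_normal

theorem nel_mem (t : ℤ) : nel t ∈ Ncl := Subgroup.subset_normalClosure ⟨t, rfl⟩
theorem at_mem (t : ℤ) : at' t ∈ Acl := Subgroup.subset_closure ⟨t, rfl⟩
theorem bt_mem (t : ℤ) : bt' t ∈ Bcl := Subgroup.subset_closure ⟨t, rfl⟩

theorem at_zero : at' 0 = FreeGroup.of 1 := by simp [at']
theorem bt_zero : bt' 0 = FreeGroup.of 2 := by simp [bt']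

theorem conj_at (s t : ℤ) : FreeGroup.of 0 ^ s * at' t * (FreeGroup.of 0 ^ s)⁻¹ = at' (s + t) := by
  rw [at', at', zpow_add]; group

theorem conj_bt (s t : ℤ) : FreeGroup.of 0 ^ s * bt' t * (FreeGroup.of 0 ^ s)⁻¹ = bt' (s + t) := by
  rw [bt', bt', zpow_add]; group

theorem conj_Acl (s : ℤ) (x : G3) (hx : x ∈ Acl) :
    FreeGroup.of 0 ^ s * x * (FreeGroup.of 0 ^ s)⁻¹ ∈ Acl := by
  have : Acl ≤ Acl.comap (MulAut.conj (FreeGroup.of 0 ^ s : G3)).toMonoidHom := by
    conv_lhs => unfold Acl
    rw [Subgroup.closure_le]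
    rintro _ ⟨t, rfl⟩
    simp only [Subgroup.coe_comap, Set.mem_preimage, SetLike.mem_coe]
    change FreeGroup.of 0 ^ s * at' t * (FreeGroup.of 0 ^ s)⁻¹ ∈ Acl
    rw [conj_at]
    exact at_mem _
  exact this hx

theorem conj_Bcl (s : ℤ) (x : G3) (hx : x ∈ Bcl) :
    FreeGroup.of 0 ^ s * x * (FreeGroup.of 0 ^ s)⁻¹ ∈ Bcl := by
  have : Bcl ≤ Bcl.comap (MulAut.conj (FreeGroup.of 0 ^ s : G3)).toMonoidHom := by
    conv_lhs => unfold Bcl
    rw [Subgroup.closure_le]
    rintro _ ⟨t, rfl⟩
    simp only [Subgroup.coe_comap, Set.mem_preimage, SetLike.mem_coe]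
    change FreeGroup.of 0 ^ s * bt' t * (FreeGroup.of 0 ^ s)⁻¹ ∈ Bcl
    rw [conj_bt]
    exact bt_mem _
  exact this hx

theorem comm_at_bt (t s : ℤ) : ⁅at' t, bt' s⁆ ∈ Ncl := by
  have : ⁅at' t, bt' s⁆ = FreeGroup.of 0 ^ s * nel (t - s) * (FreeGroup.of 0 ^ s)⁻¹ := by
    have h1 : at' t = FreeGroup.of 0 ^ s * at' (t - s) * (FreeGroup.of 0 ^ s)⁻¹ := by
      rw [conj_at]; congr 1; ring
    rw [h1, nel, bt']
    simp only [commutatorElement_def]
    group
  rw [this]
  exact Subgroup.Normal.conj_mem inferInstance _ (nel_mem _) _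

theorem comm_Acl_Bcl (x y : G3) (hx : x ∈ Acl) (hy : y ∈ Bcl) :
    Commute (QuotientGroup.mk' Ncl x) (QuotientGroup.mk' Ncl y) := by
  unfold Acl at hx
  induction hx using Subgroup.closure_induction with
  | mem x hx =>
    obtain ⟨t, rfl⟩ := hx
    unfold Bcl at hy
    induction hy using Subgroup.closure_induction with
    | mem y hy =>
      obtain ⟨s, rfl⟩ := hy
      rw [← commutatorElement_eq_one_iff_commute, ← map_commutatorElement]
      exact (QuotientGroup.eq_one_iff _).2 (comm_at_bt t s)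
    | one => rw [map_one]; exact Commute.one_right _
    | mul a b _ _ ha hb => rw [map_mul]; exact ha.mul_right hb
    | inv a _ ha => rw [map_inv]; exact ha.inv_right
  | one => rw [map_one]; exact Commute.one_left _
  | mul a b _ _ ha hb => rw [map_mul]; exact ha.mul_left hb
  | inv a _ ha => rw [map_inv]; exact ha.inv_left

theorem decomp (g : G3) : ∃ x ∈ Acl, ∃ y ∈ Bcl, ∃ n : ℤ,
    QuotientGroup.mk' Ncl g = QuotientGroup.mk' Ncl (x * y * FreeGroup.of 0 ^ n) := by
  have key : ∀ L : List (Fin 3 × Bool), ∃ x ∈ Acl, ∃ y ∈ Bcl, ∃ n : ℤ,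
    QuotientGroup.mk' Ncl (FreeGroup.mk L) =
      QuotientGroup.mk' Ncl (x * y * FreeGroup.of 0 ^ n) := by
    intro L
    induction L with
    | nil => exact ⟨1, one_mem _, 1, one_mem _, 0, by simp; exact one_mem Ncl⟩
    | cons q L ih =>
      obtain ⟨x, hx, y, hy, n, hn⟩ := ih
      have h1 : (FreeGroup.mk (q :: L) : G3) = FreeGroup.mk [q] * FreeGroup.mk L := by
        rw [FreeGroup.mul_mk]; rfl
      obtain ⟨i, b⟩ := q
      obtain ⟨ε, hε⟩ : ∃ ε : ℤ, (FreeGroup.mk [(i, b)] : G3) = FreeGroup.of i ^ ε := by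
        cases b
        · exact ⟨-1, by rw [zpow_neg, zpow_one]; rfl⟩
        · exact ⟨1, by rw [zpow_one]; rfl⟩
      rw [h1, map_mul, hn, ← map_mul, hε]
      fin_cases i
      · refine ⟨_, conj_Acl ε x hx, _, conj_Bcl ε y hy, ε + n, ?_⟩
        congr 1
        rw [zpow_add]
        simp only [Fin.zero_eta]
        group
      · refine ⟨FreeGroup.of 1 ^ ε * x, mul_mem (zpow_mem (by rw [← at_zero]; exact at_mem 0) _) hx,
          y, hy, n, ?_⟩
        congr 1
        simp only [Fin.mk_one]
        group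
      · have hb : (FreeGroup.of 2 ^ ε : G3) ∈ Bcl := zpow_mem (by rw [← bt_zero]; exact bt_mem 0) _
        refine ⟨x, hx, FreeGroup.of 2 ^ ε * y, mul_mem hb hy, n, ?_⟩
        simp only [Fin.reduceFinMk]
        have h2 := comm_Acl_Bcl x _ hx hb
        have h3 : QuotientGroup.mk' Ncl (FreeGroup.of 2 ^ ε * x) =
            QuotientGroup.mk' Ncl (x * FreeGroup.of 2 ^ ε) := by
          rw [map_mul, map_mul]; exact h2.eq.symm
        calc QuotientGroup.mk' Ncl (FreeGroup.of 2 ^ ε * (x * y * FreeGroup.of 0 ^ n))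
            = QuotientGroup.mk' Ncl (FreeGroup.of 2 ^ ε * x) *
                QuotientGroup.mk' Ncl (y * FreeGroup.of 0 ^ n) := by
              rw [← map_mul]; congr 1; group
          _ = QuotientGroup.mk' Ncl (x * FreeGroup.of 2 ^ ε) *
                QuotientGroup.mk' Ncl (y * FreeGroup.of 0 ^ n) := by rw [h3]
          _ = _ := by rw [← map_mul]; congr 1; group
  obtain ⟨L, rfl⟩ : ∃ L, FreeGroup.mk L = g := ⟨g.toWord, FreeGroup.mk_toWord⟩
  exact key L

theorem Ncl_le_prA : Ncl ≤ prA.ker := by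
  apply Subgroup.normalClosure_le_normal
  rintro _ ⟨t, rfl⟩
  simp [nel, MonoidHom.mem_ker, map_commutatorElement]

theorem Ncl_le_prB : Ncl ≤ prB.ker := by
  apply Subgroup.normalClosure_le_normal
  rintro _ ⟨t, rfl⟩
  simp [nel, MonoidHom.mem_ker, map_commutatorElement, at']

theorem mem_Ncl (g : G3) (hA : prA g = 1) (hB : prB g = 1) : g ∈ Ncl := by
  obtain ⟨x, hx, y, hy, n, hn⟩ := decomp g
  have h1 : g⁻¹ * (x * y * FreeGroup.of 0 ^ n) ∈ Ncl := QuotientGroup.eq.1 hn
  have h2 : prA (x * y * FreeGroup.of 0 ^ n) = 1 := by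
    have := Ncl_le_prA h1
    rwa [MonoidHom.mem_ker, map_mul, map_inv, hA, inv_one, one_mul] at this
  have h3 : prB (x * y * FreeGroup.of 0 ^ n) = 1 := by
    have := Ncl_le_prB h1
    rwa [MonoidHom.mem_ker, map_mul, map_inv, hB, inv_one, one_mul] at this
  have h4 : prA y = 1 := by
    have : Bcl ≤ prA.ker := by
      unfold Bcl
      rw [Subgroup.closure_le]
      rintro _ ⟨t, rfl⟩
      simp [bt', MonoidHom.mem_ker]
    exact this hy
  have h5 : prB x = 1 := by
    have : Acl ≤ prB.ker := by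
      unfold Acl
      rw [Subgroup.closure_le]
      rintro _ ⟨t, rfl⟩
      simp [at', MonoidHom.mem_ker]
    exact this hx
  have h6 : inA (prA x) = x := by
    have : Acl ≤ (inA.comp prA).eqLocus (MonoidHom.id _) := by
      unfold Acl
      rw [Subgroup.closure_le]
      rintro _ ⟨t, rfl⟩
      change inA (prA (at' t)) = at' t
      simp [at']
    exact this hx
  have h7 : inB (prB y) = y := by
    have : Bcl ≤ (inB.comp prB).eqLocus (MonoidHom.id _) := by
      unfold Bcl
      rw [Subgroup.closure_le]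
      rintro _ ⟨t, rfl⟩
      change inB (prB (bt' t)) = bt' t
      simp [bt']
    exact this hy
  have h8 : expo 0 x = 1 := by
    have : Acl ≤ (expo 0).ker := by
      unfold Acl
      rw [Subgroup.closure_le]
      rintro _ ⟨t, rfl⟩
      simp [at', MonoidHom.mem_ker]
    exact this hx
  have h9 : x * FreeGroup.of 0 ^ n = 1 := by
    rw [map_mul, map_mul, h4, mul_one] at h2
    have := congrArg inA h2
    rw [map_mul, h6, map_zpow, map_zpow, prA_zero, inA_zero, map_one] at this
    exact this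
  have h10 : y * FreeGroup.of 0 ^ n = 1 := by
    rw [map_mul, map_mul, h5, one_mul] at h3
    have := congrArg inB h3
    rw [map_mul, h7, map_zpow, map_zpow, prB_zero, inB_zero, map_one] at this
    exact this
  have h11 : n = 0 := by
    have := congrArg (expo 0) h9
    rw [map_mul, h8, one_mul, map_zpow, expo_of, if_pos rfl, (expo 0).map_one, ← ofAdd_zsmul] at this
    simpa using this
  subst h11
  rw [zpow_zero, mul_one] at h9 h10
  rw [h9, h10, zpow_zero, mul_one, mul_one, map_one] at hn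
  exact (QuotientGroup.eq_one_iff _).1 hn

/-- elements with trivial movement and labels in a normal subgroup -/
def Wr.pull {G ι : Type} [Group G] (f : G →* Wr G ι) (N : Subgroup G) : Subgroup G where
  carrier := {g | (f g).p = 1 ∧ ∀ i, (f g).r i ∈ N}
  one_mem' := by simp [one_mem]
  mul_mem' := by
    rintro a b ⟨ha, ha'⟩ ⟨hb, hb'⟩
    refine ⟨by simp [ha, hb], fun i => ?_⟩
    rw [map_mul, Wr.mul_r]
    exact mul_mem (ha' _) (hb' _)
  inv_mem' := by
    rintro a ⟨ha, ha'⟩
    refine ⟨by simp [ha], fun i => ?_⟩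
    rw [map_inv, Wr.inv_r]
    exact inv_mem (ha' _)

instance Wr.pull_normal {G ι : Type} [Group G] (f : G →* Wr G ι) (N : Subgroup G) [hN : N.Normal] :
    (Wr.pull f N).Normal where
  conj_mem := by
    rintro a ⟨ha, ha'⟩ g
    refine ⟨by simp [ha], fun i => ?_⟩
    rw [map_mul, map_mul, map_inv, Wr.mul_r, Wr.mul_r, Wr.inv_r, Wr.inv_p, ha]
    exact hN.conj_mem _ (ha' _) _

theorem nel_ne_one (t : ℤ) : nel t ≠ 1 := by
  intro h
  have h1 := congrArg (FreeGroup.lift ![(1 : Equiv.Perm (Fin 3)), Equiv.swap 0 1, Equiv.swap 1 2]) h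
  rw [nel, map_commutatorElement, at', map_mul, map_mul, map_inv, map_zpow, map_one] at h1
  simp only [FreeGroup.lift_apply_of, Matrix.cons_val_zero, Matrix.cons_val_one, one_zpow, one_mul,
    inv_one, mul_one, Matrix.cons_val] at h1
  revert h1
  decide

end Pool.Agent.Work.MP_aa9b22_lc
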