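import Pool.Agent.Work.MP_aa9b22_lc.Normal

set_option autoImplicit false
set_option linter.all false

namespace Pool.Agent.Work.MP_aa9b22_lc

variable {G : Type} [Group G] {e : ℕ}

/-- A space on which the labels act, together with the data needed to let the whole group act on
`(ℕ × Y) ⊕ A`. -/
structure Mod (S : SS G e) where
  Y : Type
  A : Type
  c : Fin (e + 1) × Y ≃ Y
  θ : Equiv.Perm A
  κ : Y ≃ (ℕ × Y) ⊕ A
  κ_lt : ∀ (i : Fin (e + 1)) (y : Y), i ≠ Fin.last e → κ (c (i, y)) = Sum.inl ((i : ℕ), y)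
  κ_last : ∀ y : Y, κ (c (Fin.last e, y)) =
    Sum.elim (fun a : ℕ × Y => Sum.inl (a.1 + e, a.2)) (fun a => Sum.inr (θ a)) (κ y)
  act : G →* Equiv.Perm Y
  act_c : ∀ (g : G) (i : Fin (e + 1)) (y : Y),
    act g (c (i, y)) = c (S.P g i, act (S.R g i) y)

namespace Mod

variable {S : SS G e} (M : Mod S)

abbrev X : Type := (ℕ × M.Y) ⊕ M.A

/-- shift of the roots by `e` -/
def sh : M.X → M.X := Sum.elim (fun a => Sum.inl (a.1 + e, a.2)) (fun a => Sum.inr (M.θ a))

@[simp] theorem sh_inl (j : ℕ) (y : M.Y) : M.sh (Sum.inl (j, y)) = Sum.inl (j + e, y) := rfl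
@[simp] theorem sh_inr (a : M.A) : M.sh (Sum.inr a) = Sum.inr (M.θ a) := rfl

/-- being at a root at least `n` (or at infinity) -/
def Hi (n : ℕ) (w : M.X) : Prop := Sum.elim (fun a => n ≤ a.1) (fun _ => True) w

@[simp] theorem Hi_inl (n j : ℕ) (y : M.Y) : M.Hi n (Sum.inl (j, y)) ↔ n ≤ j := Iff.rfl
@[simp] theorem Hi_inr (n : ℕ) (a : M.A) : M.Hi n (Sum.inr a) := trivial

theorem Hi_mono {n m : ℕ} (h : n ≤ m) {w : M.X} (hw : M.Hi m w) : M.Hi n w := by
  rcases w with ⟨j, y⟩ | a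
  · exact le_trans h hw
  · trivial

theorem Hi_sh {n : ℕ} {w : M.X} (hw : M.Hi n w) : M.Hi (n + e) (M.sh w) := by
  rcases w with ⟨j, y⟩ | a
  · rw [sh_inl, Hi_inl]
    have : n ≤ j := hw
    omega
  · trivial

/-- letter number `k` -/
def ltr (k : ℕ) : Fin (e + 1) := Fin.ofNat (e + 1) k

theorem ltr_val {k : ℕ} (hk : k ≤ e) : ((ltr k : Fin (e + 1)) : ℕ) = k := by
  simp [ltr, Fin.ofNat, Nat.mod_eq_of_lt (Nat.lt_succ_of_le hk)]

theorem ltr_coe (k : Fin (e + 1)) : (ltr (k : ℕ) : Fin (e + 1)) = k := by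
  apply Fin.ext
  rw [ltr_val (by omega)]

def fx (i : ℕ) : M.X → M.X
  | Sum.inl (j, y) => if j < i then Sum.inl (j, y)
      else if j ≤ i + e then Sum.inl (i, M.c (ltr (j - i), y)) else Sum.inl (j - e, y)
  | Sum.inr a => Sum.inr (M.θ.symm a)

def gx (i : ℕ) : M.X → M.X
  | Sum.inl (j, y) => if j < i then Sum.inl (j, y)
      else if j = i then Sum.inl (i + ((M.c.symm y).1 : ℕ), (M.c.symm y).2)
      else Sum.inl (j + e, y)
  | Sum.inr a => Sum.inr (M.θ a)

theorem gx_fx (i : ℕ) (z : M.X) : M.gx i (M.fx i z) = z := by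
  rcases z with ⟨j, y⟩ | a
  · by_cases h1 : j < i
    · simp [fx, gx, h1]
    · by_cases h2 : j ≤ i + e
      · simp only [fx, gx, h1, h2, if_true, if_false, lt_irrefl, Equiv.symm_apply_apply]
        rw [ltr_val (by omega)]
        simp only [Sum.inl.injEq, Prod.mk.injEq, and_true]
        omega
      · simp only [fx, gx, h1, h2, if_false]
        rw [if_neg (by omega), if_neg (by omega)]
        simp only [Sum.inl.injEq, Prod.mk.injEq, and_true]
        omega
  · simp [fx, gx]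

theorem fx_gx (i : ℕ) (z : M.X) : M.fx i (M.gx i z) = z := by
  rcases z with ⟨j, y⟩ | a
  · by_cases h1 : j < i
    · simp [fx, gx, h1]
    · by_cases h2 : j = i
      · subst h2
        simp only [fx, gx, lt_irrefl, if_true, if_false]
        rw [if_neg (by omega), if_pos (by omega), Nat.add_sub_cancel_left, ltr_coe]
        simp
      · simp only [fx, gx, h1, h2, if_false]
        rw [if_neg (by omega), if_neg (by omega)]
        simp
  · simp [fx, gx]

/-- the action of `x i` -/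
def px (i : ℕ) : Equiv.Perm M.X where
  toFun := M.fx i
  invFun := M.gx i
  left_inv := M.gx_fx i
  right_inv := M.fx_gx i

/-- the action of `s i` -/
def ps (i : ℕ) : Equiv.Perm M.X :=
  Equiv.sumCongr (Equiv.prodCongr (Equiv.swap i (i + 1)) (Equiv.refl _)) (Equiv.refl _)

theorem ps_inl (i j : ℕ) (y : M.Y) :
    M.ps i (Sum.inl (j, y)) = Sum.inl (Equiv.swap i (i + 1) j, y) := rfl
theorem ps_inr (i : ℕ) (a : M.A) : M.ps i (Sum.inr a) = Sum.inr a := rfl

theorem px_apply (i : ℕ) (z : M.X) : M.px i z = M.fx i z := rfl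
theorem pxi_apply (i : ℕ) (z : M.X) : (M.px i)⁻¹ z = M.gx i z := rfl

theorem px_lt (i j : ℕ) (y : M.Y) (h : j < i) : M.px i (Sum.inl (j, y)) = Sum.inl (j, y) := by
  simp [px_apply, fx, h]

theorem px_mid (i : ℕ) (k : Fin (e + 1)) (y : M.Y) :
    M.px i (Sum.inl (i + (k : ℕ), y)) = Sum.inl (i, M.c (k, y)) := by
  simp only [px_apply, fx]
  rw [if_neg (by omega), if_pos (by omega), Nat.add_sub_cancel_left, ltr_coe]

theorem px_sh (i : ℕ) (w : M.X) (h : M.Hi (i + 1) w) : M.px i (M.sh w) = w := by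
  rcases w with ⟨j, y⟩ | a
  · have h' : i + 1 ≤ j := h
    simp only [px_apply, fx, sh_inl]
    rw [if_neg (by omega), if_neg (by omega), Nat.add_sub_cancel]
  · simp [px_apply, fx, sh_inr]

theorem pxi_lt (i j : ℕ) (y : M.Y) (h : j < i) : (M.px i)⁻¹ (Sum.inl (j, y)) = Sum.inl (j, y) := by
  simp [pxi_apply, gx, h]

theorem pxi_mid (i : ℕ) (k : Fin (e + 1)) (y : M.Y) :
    (M.px i)⁻¹ (Sum.inl (i, M.c (k, y))) = Sum.inl (i + (k : ℕ), y) := by
  rw [Equiv.Perm.inv_eq_iff_eq, px_mid]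

theorem pxi_hi (i : ℕ) (w : M.X) (h : M.Hi (i + 1) w) : (M.px i)⁻¹ w = M.sh w := by
  rw [Equiv.Perm.inv_eq_iff_eq, px_sh _ _ _ h]

theorem ps_hi (i : ℕ) (w : M.X) (h : M.Hi (i + 2) w) : M.ps i w = w := by
  rcases w with ⟨j, y⟩ | a
  · have h' : i + 2 ≤ j := h
    rw [ps_inl, Equiv.swap_apply_of_ne_of_ne (by omega) (by omega)]
  · rfl

/-- the action of labels at root `0` -/
def pl : G →* Equiv.Perm M.X where
  toFun g :=
    { toFun := fun z => match z with
        | Sum.inl (0, y) => Sum.inl (0, M.act g y)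
        | Sum.inl (j + 1, y) => Sum.inl (j + 1, y)
        | Sum.inr a => Sum.inr a
      invFun := fun z => match z with
        | Sum.inl (0, y) => Sum.inl (0, (M.act g).symm y)
        | Sum.inl (j + 1, y) => Sum.inl (j + 1, y)
        | Sum.inr a => Sum.inr a
      left_inv := by
        rintro (⟨_ | j, y⟩ | a) <;> simp
      right_inv := by
        rintro (⟨_ | j, y⟩ | a) <;> simp }
  map_one' := by
    ext z
    rcases z with ⟨_ | j, y⟩ | a <;> simp
  map_mul' g h := by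
    ext z
    rcases z with ⟨_ | j, y⟩ | a <;> simp

theorem pl_zero (g : G) (y : M.Y) : M.pl g (Sum.inl (0, y)) = Sum.inl (0, M.act g y) := rfl
theorem pl_hi (g : G) (w : M.X) (h : M.Hi 1 w) : M.pl g w = w := by
  rcases w with ⟨_ | j, y⟩ | a
  · have : 1 ≤ 0 := h
    omega
  · rfl
  · rfl

theorem cox_ps : Cox M.ps where
  sq i := by
    ext z
    rcases z with ⟨j, y⟩ | a
    · simp [ps_inl]
    · rfl
  braid i := by
    ext z
    rcases z with ⟨j, y⟩ | a
    · simp only [Equiv.Perm.mul_apply, ps_inl]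
      have := congrArg (fun p : Equiv.Perm ℕ => p j) (cox_swap.braid i)
      simp only [Equiv.Perm.mul_apply] at this
      rw [this]
    · rfl
  comm i j hij := by
    ext z
    rcases z with ⟨k, y⟩ | a
    · simp only [Equiv.Perm.mul_apply, ps_inl]
      have := congrArg (fun p : Equiv.Perm ℕ => p k) (cox_swap.comm i j hij)
      simp only [Equiv.Perm.mul_apply] at this
      rw [this]
    · rfl

theorem ev_ps_inl (w : List ℕ) (j : ℕ) (y : M.Y) :
    ev M.ps w (Sum.inl (j, y)) = Sum.inl (pv w j, y) := by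
  induction w with
  | nil => simp
  | cons i w ih => rw [ev_cons, Equiv.Perm.mul_apply, ih, ps_inl, pv_cons, Equiv.Perm.mul_apply]

theorem ev_ps_inr (w : List ℕ) (a : M.A) : ev M.ps w (Sum.inr a) = Sum.inr a := by
  induction w with
  | nil => simp
  | cons i w ih => rw [ev_cons, Equiv.Perm.mul_apply, ih, ps_inr]

/-- action of the label at root `k` -/
theorem lam_inl (k : ℕ) (g : G) (j : ℕ) (y : M.Y) :
    lamOf M.ps M.pl k g (Sum.inl (j, y)) = Sum.inl (j, if j = k then M.act g y else y) := by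
  have h1 : (ev M.ps (cwm 0 k))⁻¹ (Sum.inl (j, y)) = Sum.inl ((pv (cwm 0 k))⁻¹ j, y) := by
    rw [Equiv.Perm.inv_eq_iff_eq, ev_ps_inl, perm_apply_inv]
  rw [lamOf, Equiv.Perm.mul_apply, Equiv.Perm.mul_apply, h1]
  by_cases hj : j = k
  · subst hj
    have h0 : (pv (cwm 0 j))⁻¹ j = 0 := by
      rw [Equiv.Perm.inv_eq_iff_eq, pv_cwm_apply, zero_add]
    rw [h0, pl_zero, ev_ps_inl, pv_cwm_apply, if_pos rfl, zero_add]
  · have h0 : (pv (cwm 0 k))⁻¹ j ≠ 0 := by
      intro h
      rw [Equiv.Perm.inv_eq_iff_eq, pv_cwm_apply, zero_add] at h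
      exact hj h
    rw [pl_hi _ _ _ (by rw [Hi_inl]; omega), ev_ps_inl, perm_apply_inv, if_neg hj]

theorem lam_inr (k : ℕ) (g : G) (a : M.A) :
    lamOf M.ps M.pl k g (Sum.inr a) = Sum.inr a := by
  have h1 : (ev M.ps (cwm 0 k))⁻¹ (Sum.inr a) = Sum.inr a := by
    rw [Equiv.Perm.inv_eq_iff_eq, ev_ps_inr]
  rw [lamOf, Equiv.Perm.mul_apply, Equiv.Perm.mul_apply, h1]
  have : M.pl g (Sum.inr a) = Sum.inr a := rfl
  rw [this, ev_ps_inr]

/-- total label at root `j` of a list of labels -/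
def labAt (l : List (ℕ × G)) (j : ℕ) : G :=
  (l.map fun a => if j = a.1 then a.2 else 1).prod

theorem LP_inl (l : List (ℕ × G)) (j : ℕ) (y : M.Y) :
    LPOf M.ps M.pl l (Sum.inl (j, y)) = Sum.inl (j, M.act (labAt l j) y) := by
  induction l with
  | nil => simp [LPOf, labAt]
  | cons a l ih =>
    have h1 : LPOf M.ps M.pl (a :: l) = lamOf M.ps M.pl a.1 a.2 * LPOf M.ps M.pl l := by
      simp [LPOf]
    rw [h1, Equiv.Perm.mul_apply, ih, lam_inl]
    simp only [labAt, List.map_cons, List.prod_cons, map_mul, Equiv.Perm.mul_apply]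
    split_ifs <;> simp

theorem LP_inr (l : List (ℕ × G)) (a : M.A) : LPOf M.ps M.pl l (Sum.inr a) = Sum.inr a := by
  induction l with
  | nil => simp [LPOf]
  | cons b l ih =>
    have h1 : LPOf M.ps M.pl (b :: l) = lamOf M.ps M.pl b.1 b.2 * LPOf M.ps M.pl l := by
      simp [LPOf]
    rw [h1, Equiv.Perm.mul_apply, ih, lam_inr]

theorem labAt_range (f : ℕ → G) (i n j : ℕ) :
    labAt ((List.range n).map fun k => (i + k, f k)) (i + j) = if j < n then f j else 1 := by
  induction n with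
  | zero => simp [labAt]
  | succ n ih =>
    simp only [labAt, List.map_map] at ih ⊢
    rw [List.range_succ, List.map_append, List.prod_append, ih]
    simp only [List.map_cons, List.map_nil, List.prod_cons, List.prod_nil, mul_one, Function.comp,
      add_right_inj]
    split_ifs with h1 h2 h3 h4 h5
    all_goals first | omega | simp_all | skip

theorem labAt_secs (g : G) (j : ℕ) : labAt (S.secs g 0) j = S.Rn g j := by
  have := labAt_range (fun k => S.Rn g k) 0 (e + 1) j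
  rw [zero_add] at this
  rw [SS.secs, this]
  split_ifs with h
  · rfl
  · rw [SS.Rn, dif_neg h]

/-! ### the top swap -/

/-- the right half -/
def Rt (y : M.Y) : M.X :=
  Sum.elim (fun a : ℕ × M.Y => Sum.inl (a.1 + 1, a.2)) (fun a => Sum.inr a) (M.κ y)

theorem Rt_lt (i : Fin (e + 1)) (y : M.Y) (hi : i ≠ Fin.last e) :
    M.Rt (M.c (i, y)) = Sum.inl ((i : ℕ) + 1, y) := by
  rw [Rt, M.κ_lt i y hi]; rfl

theorem Rt_last (y : M.Y) : M.Rt (M.c (Fin.last e, y)) = M.sh (M.Rt y) := by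
  rw [Rt, Rt, M.κ_last]
  rcases M.κ y with ⟨j, z⟩ | a
  · simp only [Sum.elim_inl, sh_inl, Sum.inl.injEq, Prod.mk.injEq, and_true]
    omega
  · simp

theorem Rt_hi (y : M.Y) : M.Hi 1 (M.Rt y) := by
  rw [Rt]
  rcases M.κ y with ⟨j, z⟩ | a
  · simp
  · simp

def topE : M.X ≃ M.Y ⊕ M.Y where
  toFun z := match z with
    | Sum.inl (0, y) => Sum.inl y
    | Sum.inl (j + 1, y) => Sum.inr (M.κ.symm (Sum.inl (j, y)))
    | Sum.inr a => Sum.inr (M.κ.symm (Sum.inr a))
  invFun := Sum.elim (fun y => Sum.inl (0, y)) M.Rt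
  left_inv := by
    rintro (⟨_ | j, y⟩ | a) <;> simp [Rt]
  right_inv := by
    rintro (y | y)
    · simp
    · simp only [Sum.elim_inr, Rt]
      rcases h : M.κ y with ⟨j, z⟩ | a
      · have hy : M.κ.symm (Sum.inl (j, z)) = y := by rw [← h, Equiv.symm_apply_apply]
        simp [hy]
      · have hy : M.κ.symm (Sum.inr a) = y := by rw [← h, Equiv.symm_apply_apply]
        simp [hy]

def ptop : Equiv.Perm M.X := (M.topE.trans (Equiv.sumComm M.Y M.Y)).trans M.topE.symm

theorem ptop_L (y : M.Y) : M.ptop (Sum.inl (0, y)) = M.Rt y := rfl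

theorem ptop_R (y : M.Y) : M.ptop (M.Rt y) = Sum.inl (0, y) := by
  have h1 : M.topE (M.Rt y) = Sum.inr y := by
    have : M.topE.symm (Sum.inr y) = M.Rt y := rfl
    rw [← this, Equiv.apply_symm_apply]
  simp only [ptop, Equiv.trans_apply, h1]
  rfl

theorem casesX (z : M.X) : (∃ (k : Fin (e + 1)) (y : M.Y), z = Sum.inl (0, M.c (k, y))) ∨
    ∃ y, z = M.Rt y := by
  rcases h : M.topE z with y | y
  · left
    refine ⟨(M.c.symm y).1, (M.c.symm y).2, ?_⟩
    have : z = M.topE.symm (Sum.inl y) := by rw [← h, Equiv.symm_apply_apply]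
    rw [this]
    simp only [Prod.mk.eta, Equiv.apply_symm_apply]
    rfl
  · right
    refine ⟨y, ?_⟩
    have : z = M.topE.symm (Sum.inr y) := by rw [← h, Equiv.symm_apply_apply]
    rw [this]
    rfl

theorem casesY (y : M.Y) : ∃ (k : Fin (e + 1)) (y' : M.Y), y = M.c (k, y') :=
  ⟨(M.c.symm y).1, (M.c.symm y).2, by simp⟩

end Mod

end Pool.Agent.Work.MP_aa9b22_lc
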