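import Pool.Agent.Work.MP_aa9b22_lc.Model

set_option autoImplicit false
set_option linter.all false

namespace Pool.Agent.Work.MP_aa9b22_lc

variable {G : Type} [Group G] {e : ℕ}

theorem exists_word (π : Equiv.Perm (Fin (e + 1))) :
    ∃ u : List ℕ, (∀ i ∈ u, i < e) ∧ ∀ k : Fin (e + 1), pv u (k : ℕ) = ((π k : Fin (e + 1)) : ℕ) := by
  have h : π ∈ Submonoid.closure (Set.range fun i : Fin e => Equiv.swap i.castSucc i.succ) := by
    rw [Equiv.Perm.mclosure_swap_castSucc_succ]; trivial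
  induction h using Submonoid.closure_induction with
  | mem y hy =>
    obtain ⟨i, rfl⟩ := hy
    refine ⟨[(i : ℕ)], by simp, fun k => ?_⟩
    simp only [pv_cons, pv_nil, mul_one, Equiv.swap_apply_def]
    rcases eq_or_ne k i.castSucc with h1 | h1
    · subst h1; simp
    · rcases eq_or_ne k i.succ with h2 | h2
      · subst h2
        simp [h1]
      · have h3 : (k : ℕ) ≠ i := fun h => h1 (Fin.ext h)
        have h4 : (k : ℕ) ≠ i + 1 := fun h => h2 (Fin.ext h)
        simp [h1, h2, h3, h4]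
  | one => exact ⟨[], by simp, by simp⟩
  | mul y z _ _ hy hz =>
    obtain ⟨u, hu1, hu2⟩ := hy
    obtain ⟨v, hv1, hv2⟩ := hz
    refine ⟨u ++ v, ?_, ?_⟩
    · intro i hi
      rcases List.mem_append.1 hi with hi | hi
      · exact hu1 i hi
      · exact hv1 i hi
    · intro k
      rw [pv_append, Equiv.Perm.mul_apply, hv2, hu2, Equiv.Perm.mul_apply]

theorem pv_ge_fix (u : List ℕ) (n : ℕ) (hu : ∀ i ∈ u, i < n) (j : ℕ) (hj : n < j) :
    pv u j = j := by
  induction u with
  | nil => simp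
  | cons a u ih =>
    rw [pv_cons, Equiv.Perm.mul_apply, ih (fun b hb => hu b (by simp [hb]))]
    have := hu a (by simp)
    exact Equiv.swap_apply_of_ne_of_ne (by omega) (by omega)

namespace Mod

variable {S : SS G e} (M : Mod S)

theorem fxx (i j : ℕ) (hij : i < j) (z : M.X) :
    M.fx j (M.fx i z) = M.fx i (M.fx (j + e) z) := by
  rcases z with ⟨n, y⟩ | a
  · rcases Nat.lt_or_ge n i with h1 | h1
    · simp only [fx]
      rw [if_pos h1, if_pos (show n < j + e by omega)]
      simp only [fx]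
      rw [if_pos (show n < j by omega), if_pos h1]
    · rcases Nat.lt_or_ge (i + e) n with h2 | h2
      · rcases Nat.lt_or_ge n (j + e) with h3 | h3
        · simp only [fx]
          rw [if_neg (by omega), if_neg (by omega), if_pos h3]
          simp only [fx]
          rw [if_pos (by omega), if_neg (by omega), if_neg (by omega)]
        · rcases Nat.lt_or_ge (j + e + e) n with h4 | h4
          · simp only [fx]
            rw [if_neg (by omega), if_neg (by omega), if_neg (by omega), if_neg (by omega)]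
            simp only [fx]
            rw [if_neg (by omega), if_neg (by omega), if_neg (by omega), if_neg (by omega)]
          · simp only [fx]
            rw [if_neg (show ¬ n < i by omega), if_neg (show ¬ n ≤ i + e by omega),
              if_neg (show ¬ n < j + e by omega), if_pos (show n ≤ j + e + e by omega)]
            simp only [fx]
            rw [if_neg (show ¬ n - e < j by omega), if_pos (show n - e ≤ j + e by omega),
              if_neg (show ¬ j + e < i by omega), if_neg (show ¬ j + e ≤ i + e by omega)]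
            have : n - e - j = n - (j + e) := by omega
            rw [this, Nat.add_sub_cancel]
      · simp only [fx]
        rw [if_neg (show ¬ n < i by omega), if_pos h2, if_pos (show n < j + e by omega)]
        simp only [fx]
        rw [if_pos hij, if_neg (show ¬ n < i by omega), if_pos h2]
  · simp [fx]

theorem Rt_ne_zero (y y' : M.Y) : M.Rt y ≠ Sum.inl (0, y') := by
  intro h
  have := M.Rt_hi y
  rw [h] at this
  have h' : 1 ≤ 0 := this
  omega

theorem ps0_L (y : M.Y) (he : 1 ≤ e) : M.ps 0 (Sum.inl (0, y)) = M.Rt (M.c (0, y)) := by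
  rw [M.Rt_lt 0 y (by rw [Ne, Fin.ext_iff]; simp; omega), ps_inl, Equiv.swap_apply_left]
  simp

/-- the translation `t` -/
def pt : Equiv.Perm M.X := ev M.ps (List.range e) * (M.px 0)⁻¹

theorem pv_range (n j : ℕ) : pv (List.range n) j = if j < n then j + 1
    else if j = n then 0 else j := by
  rw [List.range_eq_range', pv_range'_apply]
  split_ifs <;> omega

theorem pt_Llt (k : Fin (e + 1)) (y : M.Y) (hk : k ≠ Fin.last e) :
    M.pt (Sum.inl (0, M.c (k, y))) = M.Rt (M.c (k, y)) := by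
  have hk' : (k : ℕ) < e := Fin.val_lt_last hk
  rw [pt, Equiv.Perm.mul_apply, M.pxi_mid 0 k y, ev_ps_inl, pv_range, M.Rt_lt k y hk, zero_add,
    if_pos hk']

theorem pt_Llast (y : M.Y) : M.pt (Sum.inl (0, M.c (Fin.last e, y))) = Sum.inl (0, y) := by
  rw [pt, Equiv.Perm.mul_apply, M.pxi_mid 0 _ y, ev_ps_inl, pv_range, zero_add, Fin.val_last,
    if_neg (lt_irrefl _), if_pos rfl]

theorem ev_range_hi (w : M.X) (h : M.Hi (e + 1) w) : ev M.ps (List.range e) w = w := by
  rcases w with ⟨j, y⟩ | a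
  · have h' : e + 1 ≤ j := h
    rw [ev_ps_inl, pv_range, if_neg (by omega), if_neg (by omega)]
  · rw [ev_ps_inr]

theorem pt_R (y : M.Y) : M.pt (M.Rt y) = M.Rt (M.c (Fin.last e, y)) := by
  rw [pt, Equiv.Perm.mul_apply, M.pxi_hi 0 _ (M.Rt_hi y), M.Rt_last]
  apply ev_range_hi
  have := M.Hi_sh (M.Rt_hi y)
  exact M.Hi_mono (by omega) this

theorem ptop_inl (j : ℕ) (y : M.Y) (hj : j < e) :
    M.ptop (Sum.inl (j + 1, y)) = Sum.inl (0, M.c (ltr j, y)) := by
  have hl : (ltr j : Fin (e + 1)) ≠ Fin.last e := by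
    rw [Ne, Fin.ext_iff, ltr_val (by omega)]; simp; omega
  have h := M.Rt_lt (ltr j) y hl
  rw [ltr_val (by omega)] at h
  rw [← h, ptop_R]

theorem px0_inl (j : ℕ) (y : M.Y) (hj : j ≤ e) :
    M.px 0 (Sum.inl (j, y)) = Sum.inl (0, M.c (ltr j, y)) := by
  have h := M.px_mid 0 (ltr j) y
  rwa [ltr_val hj, zero_add] at h

theorem ltr_e : (ltr e : Fin (e + 1)) = Fin.last e := by
  apply Fin.ext
  rw [ltr_val le_rfl]; rfl

theorem top_s_aux (i : ℕ) (hi : i + 1 < e) :
    M.ptop * M.ps (i + 1) * M.ptop = M.px 0 * M.ps i * (M.px 0)⁻¹ := by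
  apply Equiv.ext
  intro z
  simp only [Equiv.Perm.mul_apply]
  rcases M.casesX z with ⟨k, y, rfl⟩ | ⟨y, rfl⟩
  · rw [ptop_L, M.pxi_mid 0 k y, zero_add, ps_inl, px0_inl]
    · by_cases hk : k = Fin.last e
      · subst hk
        rw [M.ps_hi (i + 1) _ (by
          rw [M.Rt_last]
          exact M.Hi_mono (by omega) (M.Hi_sh (M.Rt_hi y))), ptop_R, Fin.val_last,
          Equiv.swap_apply_of_ne_of_ne (by omega) (by omega), ltr_e]
      · have hk' : (k : ℕ) < e := Fin.val_lt_last hk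
        rw [M.Rt_lt k y hk, ps_inl]
        have : Equiv.swap (i + 1) (i + 1 + 1) ((k : ℕ) + 1) = Equiv.swap i (i + 1) (k : ℕ) + 1 := by
          simp only [Equiv.swap_apply_def]
          split_ifs <;> omega
        rw [this, ptop_inl]
        simp only [Equiv.swap_apply_def]
        split_ifs <;> omega
    · simp only [Equiv.swap_apply_def]
      split_ifs <;> omega
  · rw [ptop_R, M.pxi_hi 0 _ (M.Rt_hi y), M.ps_hi i _ (M.Hi_mono (by omega) (M.Hi_sh (M.Rt_hi y))),
      M.px_sh 0 _ (M.Rt_hi y), ps_inl, Equiv.swap_apply_of_ne_of_ne (by omega) (by omega), ptop_L]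

theorem top_la_aux (he : 1 ≤ e) (g : G) :
    M.ptop * (M.ps 0 * M.pl g * M.ps 0) * M.ptop = M.px 0 * M.pl g * (M.px 0)⁻¹ := by
  have hs : M.ps 0 * M.pl g * M.ps 0 = lamOf M.ps M.pl 1 g := by
    simp [lamOf, cwm, (M.cox_ps).inv 0]
  have hl : ∀ w : M.X, M.Hi 2 w → lamOf M.ps M.pl 1 g w = w := by
    rintro (⟨j, y⟩ | a) h
    · have h' : 2 ≤ j := h
      rw [lam_inl, if_neg (by omega)]
    · rw [lam_inr]
  rw [hs]
  apply Equiv.ext
  intro z
  simp only [Equiv.Perm.mul_apply]
  rcases M.casesX z with ⟨k, y, rfl⟩ | ⟨y, rfl⟩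
  · rw [ptop_L, M.pxi_mid 0 k y, zero_add]
    by_cases hk0 : (k : ℕ) = 0
    · have hk : k = 0 := Fin.ext hk0
      have hk1 : k ≠ Fin.last e := by
        rw [Ne, Fin.ext_iff, hk0]; simp; omega
      rw [M.Rt_lt k y hk1, hk0, zero_add, lam_inl, if_pos rfl, pl_zero,
        M.px0_inl 0 _ (by omega)]
      exact M.ptop_inl 0 _ (by omega)
    · rw [hl, ptop_R, M.pl_hi g (Sum.inl ((k : ℕ), y)) (by rw [Hi_inl]; omega),
        M.px0_inl _ _ (by omega), ltr_coe]
      by_cases hk : k = Fin.last e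
      · subst hk
        rw [M.Rt_last]
        exact M.Hi_mono (by omega) (M.Hi_sh (M.Rt_hi y))
      · rw [M.Rt_lt k y hk, Hi_inl]; omega
  · rw [ptop_R, M.pxi_hi 0 _ (M.Rt_hi y), M.pl_hi g (M.sh (M.Rt y)) (M.Hi_mono (by omega) (M.Hi_sh (M.Rt_hi y))),
      M.px_sh 0 _ (M.Rt_hi y), lam_inl, if_neg (by omega), ptop_L]

theorem top_s0_aux (he : 1 ≤ e) :
    M.ptop * M.ps 0 * M.ptop = M.px 0 * M.pt * M.ptop * (M.px 0)⁻¹ := by
  have h0l : (0 : Fin (e + 1)) ≠ Fin.last e := by
    rw [Ne, Fin.ext_iff]; simp; omega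
  apply Equiv.ext
  intro z
  simp only [Equiv.Perm.mul_apply]
  rcases M.casesX z with ⟨k, y, rfl⟩ | ⟨y, rfl⟩
  · rw [ptop_L, M.pxi_mid 0 k y, zero_add]
    by_cases hk0 : (k : ℕ) = 0
    · have hk : k = 0 := Fin.ext hk0
      subst hk
      have h1 : M.Rt (M.c (0, y)) = Sum.inl (1, y) := by
        rw [M.Rt_lt 0 y h0l]; simp
      rw [h1, ps_inl, Equiv.swap_apply_right, ptop_L, Fin.val_zero, ptop_L, pt_R, M.Rt_last,
        M.px_sh 0 _ (M.Rt_hi y)]
    · obtain ⟨k', hk'⟩ : ∃ k', (k : ℕ) = k' + 1 := ⟨(k : ℕ) - 1, by omega⟩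
      have hkl : (ltr k' : Fin (e + 1)) ≠ Fin.last e := by
        rw [Ne, Fin.ext_iff, ltr_val (by omega)]; simp; omega
      have h1 : (Sum.inl ((k : ℕ), y) : M.X) = M.Rt (M.c (ltr k', y)) := by
        rw [M.Rt_lt _ y hkl, ltr_val (by omega), hk']
      have h2 : M.ps 0 (M.Rt (M.c (k, y))) = M.Rt (M.c (k, y)) := by
        apply M.ps_hi
        by_cases hk : k = Fin.last e
        · subst hk
          rw [M.Rt_last]
          exact M.Hi_mono (by omega) (M.Hi_sh (M.Rt_hi y))
        · rw [M.Rt_lt k y hk, Hi_inl]; omega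
      rw [h2, ptop_R, h1, ptop_R, M.pt_Llt _ y hkl, ← h1, M.px0_inl _ _ (by omega), ltr_coe]
  · rw [ptop_R, ps0_L _ _ he, ptop_R, M.pxi_hi 0 _ (M.Rt_hi y), ← M.Rt_last, ptop_R, pt_Llast,
      M.px0_inl 0 _ (by omega)]
    rfl

theorem top_se_aux (he : 1 ≤ e) :
    M.ptop * M.ps e * M.ptop =
      M.px 0 * M.px e * M.ps (e - 1) * (M.px e)⁻¹ * (M.px 0)⁻¹ := by
  have h0l : (0 : Fin (e + 1)) ≠ Fin.last e := by
    rw [Ne, Fin.ext_iff]; simp; omega
  apply Equiv.ext
  intro z
  simp only [Equiv.Perm.mul_apply]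
  rcases M.casesX z with ⟨k, y, rfl⟩ | ⟨y, rfl⟩
  · rw [ptop_L, M.pxi_mid 0 k y, zero_add]
    by_cases hk : k = Fin.last e
    · subst hk
      obtain ⟨k2, y2, rfl⟩ := M.casesY y
      rw [Fin.val_last, M.pxi_mid e k2 y2]
      by_cases hk2 : (k2 : ℕ) = 0
      · have hk2' : k2 = 0 := Fin.ext hk2
        subst hk2'
        have h1 : M.Rt (M.c (Fin.last e, M.c (0, y2))) = Sum.inl (e + 1, y2) := by
          rw [M.Rt_last, M.Rt_lt 0 y2 h0l, sh_inl, Fin.val_zero]
          congr 2; omega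
        rw [h1, ps_inl, Equiv.swap_apply_right, Fin.val_zero, add_zero, ps_inl]
        obtain ⟨e', rfl⟩ : ∃ e', e = e' + 1 := ⟨e - 1, by omega⟩
        rw [M.ptop_inl e' _ (by omega), show e' + 1 - 1 = e' by omega, Equiv.swap_apply_right,
          M.px_lt _ _ _ (by omega), M.px0_inl _ _ (by omega)]
      · have h1 : M.ps e (M.Rt (M.c (Fin.last e, M.c (k2, y2)))) =
            M.Rt (M.c (Fin.last e, M.c (k2, y2))) := by
          apply M.ps_hi
          rw [M.Rt_last]
          have : M.Hi 2 (M.Rt (M.c (k2, y2))) := by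
            by_cases hk : k2 = Fin.last e
            · subst hk
              rw [M.Rt_last]
              exact M.Hi_mono (by omega) (M.Hi_sh (M.Rt_hi y2))
            · rw [M.Rt_lt k2 y2 hk, Hi_inl]; omega
          exact M.Hi_mono (by omega) (M.Hi_sh this)
        rw [h1, ptop_R, ps_inl, Equiv.swap_apply_of_ne_of_ne (by omega) (by omega), M.px_mid,
          M.px0_inl _ _ le_rfl, ltr_e]
    · have hk' : (k : ℕ) < e := Fin.val_lt_last hk
      rw [M.Rt_lt k y hk, M.pxi_lt e _ _ hk', ps_inl, ps_inl]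
      obtain ⟨e', rfl⟩ : ∃ e', e = e' + 1 := ⟨e - 1, by omega⟩
      by_cases hke : (k : ℕ) = e'
      · rw [hke, Equiv.swap_apply_left, show e' + 1 - 1 = e' by omega, Equiv.swap_apply_left]
        have h1 : M.Rt (M.c (Fin.last (e' + 1), M.c (0, y))) = Sum.inl (e' + 1 + 1, y) := by
          rw [M.Rt_last, M.Rt_lt 0 y h0l, sh_inl, Fin.val_zero]
          congr 2; omega
        have h2 := M.px_mid (e' + 1) 0 y
        rw [Fin.val_zero, add_zero] at h2
        rw [← h1, ptop_R, h2, M.px0_inl _ _ (by omega), ltr_e]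
      · rw [Equiv.swap_apply_of_ne_of_ne (by omega) (by omega),
          Equiv.swap_apply_of_ne_of_ne (by omega) (by omega), M.ptop_inl _ _ (by omega),
          M.px_lt _ _ _ hk', M.px0_inl _ _ (by omega)]
  · have h1 := M.Hi_sh (M.Rt_hi y)
    have h2 := M.Hi_sh h1
    rw [ptop_R, M.pxi_hi 0 _ (M.Rt_hi y), M.pxi_hi e _ (M.Hi_mono (by omega) h1),
      M.ps_hi (e - 1) _ (M.Hi_mono (by omega) h2), M.px_sh e _ (M.Hi_mono (by omega) h1),
      M.px_sh 0 _ (M.Rt_hi y), ps_inl, Equiv.swap_apply_of_ne_of_ne (by omega) (by omega), ptop_L]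

theorem top_x1_aux (he : 1 ≤ e) :
    M.ptop * M.px 1 * M.ptop = M.px 0 * M.px 0 * (M.px e)⁻¹ * (M.px 0)⁻¹ := by
  have h0l : (0 : Fin (e + 1)) ≠ Fin.last e := by
    rw [Ne, Fin.ext_iff]; simp; omega
  have hR0 : ∀ y, M.Rt (M.c (0, y)) = Sum.inl (1, y) := by
    intro y
    rw [M.Rt_lt 0 y h0l]; simp
  apply Equiv.ext
  intro z
  simp only [Equiv.Perm.mul_apply]
  rcases M.casesX z with ⟨k, y, rfl⟩ | ⟨y, rfl⟩
  · rw [ptop_L, M.pxi_mid 0 k y, zero_add]
    by_cases hk : k = Fin.last e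
    · subst hk
      obtain ⟨k2, y2, rfl⟩ := M.casesY y
      rw [Fin.val_last, M.pxi_mid e k2 y2]
      by_cases hk2 : (k2 : ℕ) = 0
      · have hk2' : k2 = 0 := Fin.ext hk2
        subst hk2'
        have h1 : M.Rt (M.c (Fin.last e, M.c (0, y2))) = Sum.inl (1 + ((Fin.last e : Fin (e + 1)) : ℕ), y2) := by
          rw [M.Rt_last, hR0, sh_inl, Fin.val_last]
        rw [h1, M.px_mid 1, ← hR0, ptop_R, Fin.val_zero, add_zero, M.px0_inl e _ le_rfl,
          M.px0_inl 0 _ (by omega), ltr_e]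
        rfl
      · have hHi : M.Hi 2 (M.Rt (M.c (k2, y2))) := by
          by_cases hk : k2 = Fin.last e
          · subst hk
            rw [M.Rt_last]
            exact M.Hi_mono (by omega) (M.Hi_sh (M.Rt_hi y2))
          · rw [M.Rt_lt k2 y2 hk, Hi_inl]; omega
        rw [M.Rt_last, M.px_sh 1 _ hHi, ptop_R]
        have h1 : (Sum.inl (e + (k2 : ℕ), y2) : M.X) = M.sh (Sum.inl ((k2 : ℕ), y2)) := by
          rw [sh_inl, add_comm]
        rw [h1, M.px_sh 0 _ (by rw [Hi_inl]; omega), M.px0_inl _ _ (by omega), ltr_coe]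
    · have hk' : (k : ℕ) < e := Fin.val_lt_last hk
      rw [M.Rt_lt k y hk, M.pxi_lt e _ _ hk', add_comm (k : ℕ) 1, M.px_mid 1, ← hR0, ptop_R,
        M.px0_inl _ _ (by omega), ltr_coe, M.px0_inl 0 _ (by omega)]
      rfl
  · have h1 := M.Hi_sh (M.Rt_hi y)
    rw [ptop_R, M.pxi_hi 0 _ (M.Rt_hi y), M.pxi_hi e _ (M.Hi_mono (by omega) h1),
      M.px_sh 0 _ (M.Hi_mono (by omega) h1), M.px_sh 0 _ (M.Rt_hi y), M.px_lt 1 0 _ (by omega),
      ptop_L]

/-- the system of permutations attached to a model -/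
def sys (he : 1 ≤ e) : Sys S (Equiv.Perm M.X) where
  x := M.px
  s := M.ps
  la := M.pl
  top := M.ptop
  cox := M.cox_ps
  xx i j hij := by
    apply Equiv.ext
    intro z
    exact M.fxx i j hij z
  sx_lt i j hij := by
    apply Equiv.ext
    rintro (⟨n, y⟩ | a)
    · simp only [Equiv.Perm.mul_apply, px_apply, fx, ps_inl, Equiv.swap_apply_def]
      split_ifs <;> first | omega | (simp only [ps_inl, Equiv.swap_apply_def]; split_ifs <;> first | omega | rfl | (simp only [Sum.inl.injEq, Prod.mk.injEq, and_true]; omega) | (congr 3; omega))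
    · rfl
  sx_gt i j hij := by
    apply Equiv.ext
    rintro (⟨n, y⟩ | a)
    · simp only [Equiv.Perm.mul_apply, px_apply, fx, ps_inl, Equiv.swap_apply_def]
      split_ifs <;> first | omega | (simp only [ps_inl, Equiv.swap_apply_def]; split_ifs <;> first | omega | rfl | (simp only [Sum.inl.injEq, Prod.mk.injEq, and_true]; omega) | (congr 3; omega))
    · rfl
  sx_eq i := by
    apply Equiv.ext
    rintro (⟨n, y⟩ | a)
    · simp only [Equiv.Perm.mul_apply, px_apply, fx, ev_ps_inl, pv_range'_apply]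
      rcases Nat.lt_or_ge n i with h1 | h1
      · rw [if_pos h1, if_pos h1, if_pos (show n < i + 1 by omega), ps_inl,
          Equiv.swap_apply_of_ne_of_ne (by omega) (by omega)]
      · rw [if_neg (show ¬ n < i by omega), if_neg (show ¬ n < i by omega)]
        rcases Nat.lt_or_ge n (i + (e + 1)) with h2 | h2
        · rw [if_pos (show n ≤ i + e by omega), if_pos h2, if_neg (by omega), if_pos (by omega),
            ps_inl, Equiv.swap_apply_left]
          have : n + 1 - (i + 1) = n - i := by omega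
          rw [this]
        · rw [if_neg (show ¬ n ≤ i + e by omega), if_neg (show ¬ n < i + (e + 1) by omega), ps_inl]
          rcases eq_or_ne n (i + (e + 1)) with h3 | h3
          · rw [if_pos h3, if_pos (by omega)]
            have : n - e = i + 1 := by omega
            rw [this, Equiv.swap_apply_right]
          · rw [if_neg h3, if_neg (by omega), if_neg (by omega),
              Equiv.swap_apply_of_ne_of_ne (by omega) (by omega)]
    · simp only [Equiv.Perm.mul_apply, ev_ps_inr]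
      rfl
  la_s g i hi := by
    apply Equiv.ext
    rintro (⟨_ | n, y⟩ | a)
    · simp only [Equiv.Perm.mul_apply, pl_zero, ps_inl]
      rw [Equiv.swap_apply_of_ne_of_ne (by omega) (by omega), pl_zero]
    · simp only [Equiv.Perm.mul_apply, ps_inl]
      rw [M.pl_hi g (Sum.inl (n + 1, y)) (by simp), ps_inl, M.pl_hi]
      rw [Hi_inl, Equiv.swap_apply_def]
      split_ifs <;> omega
    · rfl
  la_x1 g := by
    apply Equiv.ext
    rintro (⟨_ | n, y⟩ | a)
    · simp only [Equiv.Perm.mul_apply, pl_zero]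
      rw [M.px_lt 1 0 _ (by omega), M.px_lt 1 0 _ (by omega), pl_zero]
    · simp only [Equiv.Perm.mul_apply]
      rw [M.pl_hi g (Sum.inl (n + 1, y)) (by simp), M.pl_hi]
      rw [px_apply, fx]
      split_ifs <;> (rw [Hi_inl]; try omega)
    · rfl
  la_la g h := by
    apply Equiv.ext
    have hs : M.ps 0 * M.pl h * M.ps 0 = lamOf M.ps M.pl 1 h := by
      simp [lamOf, cwm, (M.cox_ps).inv 0]
    have hs0 : M.pl g = lamOf M.ps M.pl 0 g := by
      simp [lamOf, cwm]
    intro z
    rw [hs, hs0]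
    rcases z with ⟨n, y⟩ | a
    · simp only [Equiv.Perm.mul_apply, lam_inl]
      split_ifs <;> first | omega | rfl
    · simp only [Equiv.Perm.mul_apply, lam_inr]
  la_x0 g := by
    obtain ⟨u, hu1, hu2⟩ := exists_word (S.P g)
    refine ⟨u, hu1, hu2, ?_⟩
    apply Equiv.ext
    rintro (⟨n, y⟩ | a)
    · simp only [Equiv.Perm.mul_apply, LP_inl, ev_ps_inl, labAt_secs]
      rcases Nat.lt_or_ge n (e + 1) with h | h
      · have h0 := M.px_mid 0 ⟨n, h⟩ y
        simp only [zero_add] at h0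
        rw [h0, pl_zero, M.act_c, hu2 ⟨n, h⟩]
        have h1 := M.px_mid 0 (S.P g ⟨n, h⟩) (M.act (S.Rn g n) y)
        rw [zero_add] at h1
        rw [h1, SS.Rn, dif_pos h]
      · rw [pv_ge_fix u e hu1 n (by omega), SS.Rn, dif_neg (by omega)]
        simp only [map_one, Equiv.Perm.coe_one, id_eq]
        rw [M.pl_hi]
        rw [px_apply, fx, if_neg (by omega), if_neg (by omega), Hi_inl]
        omega
    · simp only [Equiv.Perm.mul_apply, LP_inr, ev_ps_inr]
      rfl
  top_sq := by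
    apply Equiv.ext
    intro z
    rcases M.casesX z with ⟨k, y, rfl⟩ | ⟨y, rfl⟩
    · rw [Equiv.Perm.mul_apply, ptop_L, ptop_R]; rfl
    · rw [Equiv.Perm.mul_apply, ptop_R, ptop_L]; rfl
  top_t := by
    change M.ptop * M.pt * M.ptop * M.pt = 1
    apply Equiv.ext
    intro z
    simp only [Equiv.Perm.mul_apply]
    rcases M.casesX z with ⟨k, y, rfl⟩ | ⟨y, rfl⟩
    · by_cases hk : k = Fin.last e
      · subst hk
        rw [pt_Llast, ptop_L, pt_R, ptop_R]; rfl
      · rw [M.pt_Llt k y hk, ptop_R, M.pt_Llt k y hk, ptop_R]; rfl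
    · rw [pt_R, ptop_R, pt_Llast, ptop_L]; rfl
  top_s i hi := M.top_s_aux i hi
  top_se := M.top_se_aux he
  top_x1 := M.top_x1_aux he
  top_la g := M.top_la_aux he g
  top_s0 := M.top_s0_aux he

end Mod

end Pool.Agent.Work.MP_aa9b22_lc
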