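import Pool.Agent.Work.MP_aa9b22_lc.System

set_option autoImplicit false
set_option linter.all false

namespace Pool.Agent.Work.MP_aa9b22_lc

variable {G : Type} [Group G] {e : ℕ}

namespace Sys

variable {S : SS G e} {Γ : Type*} [Group Γ] (D : Sys S Γ)

/-- elements of the labelled symmetric part -/
def IsL (ℓ : Γ) : Prop := ∃ (w : List ℕ) (l : List (ℕ × G)), ℓ = ev D.s w * D.LP l

theorem isL_one : D.IsL 1 := ⟨[], [], by simp⟩
theorem isL_ev (w : List ℕ) : D.IsL (ev D.s w) := ⟨w, [], by simp⟩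
theorem isL_s (i : ℕ) : D.IsL (D.s i) := ⟨[i], [], by simp⟩
theorem isL_LP (l : List (ℕ × G)) : D.IsL (D.LP l) := ⟨[], l, by simp⟩
theorem isL_lam (i : ℕ) (g : G) : D.IsL (D.lam i g) := ⟨[], [(i, g)], by simp⟩

theorem LP_ev (w : List ℕ) (l : List (ℕ × G)) :
    D.LP l * ev D.s w = ev D.s w * D.LP (mv w.reverse l) := by
  have h := D.ev_LP w.reverse l
  rw [D.cox.ev_reverse] at h
  have h' := congrArg (fun t => ev D.s w * t * ev D.s w) h
  calc D.LP l * ev D.s w = ev D.s w * ((ev D.s w)⁻¹ * D.LP l) * ev D.s w := by group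
    _ = ev D.s w * (D.LP (mv w.reverse l) * (ev D.s w)⁻¹) * ev D.s w := h'
    _ = _ := by group

theorem isL_mul {ℓ ℓ' : Γ} (h : D.IsL ℓ) (h' : D.IsL ℓ') : D.IsL (ℓ * ℓ') := by
  obtain ⟨w, l, rfl⟩ := h
  obtain ⟨w', l', rfl⟩ := h'
  refine ⟨w ++ w', mv w'.reverse l ++ l', ?_⟩
  rw [ev_append, LP_append]
  calc ev D.s w * D.LP l * (ev D.s w' * D.LP l')
      = ev D.s w * (D.LP l * ev D.s w') * D.LP l' := by group
    _ = _ := by rw [D.LP_ev]; group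

theorem LP_inv (l : List (ℕ × G)) :
    (D.LP l)⁻¹ = D.LP (l.reverse.map fun a => (a.1, a.2⁻¹)) := by
  induction l with
  | nil => simp
  | cons a l ih =>
    rw [LP_cons, mul_inv_rev, ih, List.reverse_cons, List.map_append, LP_append]
    simp [D.lam_inv]

theorem isL_inv {ℓ : Γ} (h : D.IsL ℓ) : D.IsL ℓ⁻¹ := by
  obtain ⟨w, l, rfl⟩ := h
  rw [mul_inv_rev, D.LP_inv, ← D.cox.ev_reverse]
  exact D.isL_mul (D.isL_LP _) (D.isL_ev _)

theorem LP_x (l : List (ℕ × G)) (i : ℕ) :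
    ∃ ℓ', D.IsL ℓ' ∧ D.LP l * D.x i = D.x i * ℓ' := by
  induction l with
  | nil => exact ⟨1, D.isL_one, by simp⟩
  | cons a l ih =>
    obtain ⟨ℓ', h1, h2⟩ := ih
    obtain ⟨j, g⟩ := a
    by_cases hj : j = i
    · subst hj
      obtain ⟨u, _, _, h3⟩ := D.lam_xi j g
      refine ⟨ev D.s u * D.LP (S.secs g j) * ℓ',
        D.isL_mul (D.isL_mul (D.isL_ev _) (D.isL_LP _)) h1, ?_⟩
      rw [LP_cons, mul_assoc, h2, ← mul_assoc, h3]
      group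
    · refine ⟨D.lam (pos e i j) g * ℓ', D.isL_mul (D.isL_lam _ _) h1, ?_⟩
      rw [LP_cons, mul_assoc, h2, ← mul_assoc, D.lam_x i j hj]
      group

theorem isL_mul_x {ℓ : Γ} (h : D.IsL ℓ) (i : ℕ) :
    ∃ j ℓ', D.IsL ℓ' ∧ ℓ * D.x i = D.x j * ℓ' := by
  obtain ⟨w, l, rfl⟩ := h
  obtain ⟨ℓ', h1, h2⟩ := D.LP_x l i
  obtain ⟨w', h3, _, _⟩ := D.clone w i
  refine ⟨pv w i, ev D.s w' * ℓ', D.isL_mul (D.isL_ev _) h1, ?_⟩
  rw [mul_assoc, h2, ← mul_assoc, h3, mul_assoc]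

theorem isL_mul_F {ℓ : Γ} (h : D.IsL ℓ) (F : List ℕ) :
    ∃ F' ℓ', D.IsL ℓ' ∧ F'.length = F.length ∧ ℓ * ev D.x F = ev D.x F' * ℓ' := by
  induction F generalizing ℓ with
  | nil => exact ⟨[], ℓ, h, rfl, by simp⟩
  | cons i F ih =>
    obtain ⟨j, ℓ', h1, h2⟩ := D.isL_mul_x h i
    obtain ⟨F', ℓ'', h3, h4, h5⟩ := ih h1
    refine ⟨j :: F', ℓ'', h3, by simp [h4], ?_⟩
    rw [ev_cons, ← mul_assoc, h2, mul_assoc, h5, ev_cons, mul_assoc]

theorem ore1 (i : ℕ) (F : List ℕ) :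
    ∃ C E : List ℕ, D.x i * ev D.x C = ev D.x F * ev D.x E := by
  induction F generalizing i with
  | nil => exact ⟨[], [i], by simp⟩
  | cons j F ih =>
    rcases lt_trichotomy i j with h | h | h
    · obtain ⟨C, E, h1⟩ := ih i
      refine ⟨(j + e) :: C, E, ?_⟩
      rw [ev_cons, ev_cons, ← mul_assoc, ← D.xx i j h, mul_assoc, h1, mul_assoc]
    · subst h
      exact ⟨F, [], by simp⟩
    · obtain ⟨C, E, h1⟩ := ih (i + e)
      refine ⟨j :: C, E, ?_⟩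
      rw [ev_cons, ev_cons, ← mul_assoc, D.xx j i h, mul_assoc, h1, mul_assoc]

/-- normal form -/
def IsN (γ : Γ) : Prop :=
  ∃ (F₁ : List ℕ) (ℓ : Γ) (F₂ : List ℕ), D.IsL ℓ ∧ γ = ev D.x F₁ * ℓ * (ev D.x F₂)⁻¹

/-- the subgroup generated by all `x`, `s`, and labels -/
def H : Subgroup Γ :=
  Subgroup.closure (Set.range D.x ∪ Set.range D.s ∪ Set.range D.la)

theorem x_mem_H (i : ℕ) : D.x i ∈ D.H :=
  Subgroup.subset_closure (Or.inl (Or.inl ⟨i, rfl⟩))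
theorem s_mem_H (i : ℕ) : D.s i ∈ D.H :=
  Subgroup.subset_closure (Or.inl (Or.inr ⟨i, rfl⟩))
theorem la_mem_H (g : G) : D.la g ∈ D.H :=
  Subgroup.subset_closure (Or.inr ⟨g, rfl⟩)

theorem isN_x_mul {γ : Γ} (h : D.IsN γ) (i : ℕ) : D.IsN (D.x i * γ) := by
  obtain ⟨F₁, ℓ, F₂, hℓ, rfl⟩ := h
  exact ⟨i :: F₁, ℓ, F₂, hℓ, by rw [ev_cons]; group⟩

theorem isN_xinv_mul {γ : Γ} (h : D.IsN γ) (i : ℕ) : D.IsN ((D.x i)⁻¹ * γ) := by
  obtain ⟨F₁, ℓ, F₂, hℓ, rfl⟩ := h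
  obtain ⟨C, E, h1⟩ := D.ore1 i F₁
  obtain ⟨E', ℓ', h2, _, h3⟩ := D.isL_mul_F (D.isL_inv hℓ) E
  refine ⟨C, ℓ'⁻¹, F₂ ++ E', D.isL_inv h2, ?_⟩
  have e1 : (D.x i)⁻¹ * ev D.x F₁ = ev D.x C * (ev D.x E)⁻¹ := by
    rw [inv_mul_eq_iff_eq_mul, ← mul_assoc, h1]; group
  have e2 : (ev D.x E)⁻¹ * ℓ = ℓ'⁻¹ * (ev D.x E')⁻¹ := by
    rw [← mul_inv_rev, ← h3]; group
  calc (D.x i)⁻¹ * (ev D.x F₁ * ℓ * (ev D.x F₂)⁻¹)
      = ((D.x i)⁻¹ * ev D.x F₁) * ℓ * (ev D.x F₂)⁻¹ := by group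
    _ = ev D.x C * ((ev D.x E)⁻¹ * ℓ) * (ev D.x F₂)⁻¹ := by rw [e1]; group
    _ = _ := by rw [e2, ev_append]; group

theorem isN_L_mul {γ ℓ₀ : Γ} (h : D.IsN γ) (h0 : D.IsL ℓ₀) : D.IsN (ℓ₀ * γ) := by
  obtain ⟨F₁, ℓ, F₂, hℓ, rfl⟩ := h
  obtain ⟨F', ℓ', h1, _, h2⟩ := D.isL_mul_F h0 F₁
  refine ⟨F', ℓ' * ℓ, F₂, D.isL_mul h1 hℓ, ?_⟩
  calc ℓ₀ * (ev D.x F₁ * ℓ * (ev D.x F₂)⁻¹) = (ℓ₀ * ev D.x F₁) * ℓ * (ev D.x F₂)⁻¹ := by group
    _ = _ := by rw [h2]; group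

theorem isN_of_mem {γ : Γ} (h : γ ∈ D.H) : D.IsN γ := by
  suffices hh : ∀ δ, D.IsN δ → D.IsN (γ * δ) by
    have := hh 1 ⟨[], 1, [], D.isL_one, by simp⟩
    rwa [mul_one] at this
  induction h using Subgroup.closure_induction'' with
  | mem y hy =>
    intro δ hδ
    rcases hy with (⟨i, rfl⟩ | ⟨i, rfl⟩) | ⟨g, rfl⟩
    · exact D.isN_x_mul hδ i
    · exact D.isN_L_mul hδ (D.isL_s i)
    · exact D.isN_L_mul hδ (by rw [← D.lam_zero]; exact D.isL_lam 0 g)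
  | inv_mem y hy =>
    intro δ hδ
    rcases hy with (⟨i, rfl⟩ | ⟨i, rfl⟩) | ⟨g, rfl⟩
    · exact D.isN_xinv_mul hδ i
    · exact D.isN_L_mul hδ (D.isL_inv (D.isL_s i))
    · exact D.isN_L_mul hδ (by rw [← D.lam_zero]; exact D.isL_inv (D.isL_lam 0 g))
  | one => intro δ hδ; rwa [one_mul]
  | mul y z _ _ hy hz =>
    intro δ hδ
    rw [mul_assoc]
    exact hy _ (hz _ hδ)

/-! ### sorted products of labels -/

def LL (g : ℕ → G) (n : ℕ) : Γ := D.LP ((List.range n).map fun i => (i, g i))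

@[simp] theorem LL_zero (g : ℕ → G) : D.LL g 0 = 1 := by simp [LL]

theorem LL_succ (g : ℕ → G) (n : ℕ) : D.LL g (n + 1) = D.LL g n * D.lam n (g n) := by
  simp [LL, List.range_succ]

theorem LL_congr (g g' : ℕ → G) (n : ℕ) (h : ∀ i < n, g i = g' i) : D.LL g n = D.LL g' n := by
  induction n with
  | zero => simp
  | succ n ih => rw [LL_succ, LL_succ, ih (fun i hi => h i (by omega)), h n (by omega)]

theorem lam_LL_comm (j : ℕ) (h : G) (g : ℕ → G) (n : ℕ) (hj : n ≤ j) :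
    D.lam j h * D.LL g n = D.LL g n * D.lam j h := by
  induction n with
  | zero => simp
  | succ n ih =>
    rw [LL_succ, ← mul_assoc, ih (by omega), mul_assoc, D.lam_comm j n (by omega), mul_assoc]

theorem lam_mul_LL (j : ℕ) (h : G) (g : ℕ → G) (n : ℕ) (hj : j < n) :
    D.lam j h * D.LL g n = D.LL (Function.update g j (h * g j)) n := by
  induction n with
  | zero => omega
  | succ n ih =>
    rw [LL_succ, LL_succ]
    rcases Nat.lt_or_ge j n with h1 | h1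
    · rw [← mul_assoc, ih h1, Function.update_of_ne (by omega)]
    · have : j = n := by omega
      subst this
      rw [← mul_assoc, D.lam_LL_comm j h g j le_rfl, mul_assoc, ← D.lam_mul,
        Function.update_self]
      congr 1
      exact D.LL_congr _ _ _ (fun i hi => by rw [Function.update_of_ne (by omega)])

theorem LL_extend (g : ℕ → G) (n m : ℕ) (hnm : n ≤ m) (hg : ∀ i, n ≤ i → g i = 1) :
    D.LL g m = D.LL g n := by
  induction m, hnm using Nat.le_induction with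
  | base => rfl
  | succ m hm ih => rw [LL_succ, hg m hm, D.lam_one, mul_one, ih]

theorem LP_eq_LL (l : List (ℕ × G)) :
    ∃ (g : ℕ → G) (n : ℕ), (∀ i, n ≤ i → g i = 1) ∧ D.LP l = D.LL g n := by
  induction l with
  | nil => exact ⟨fun _ => 1, 0, fun _ _ => rfl, by simp⟩
  | cons a l ih =>
    obtain ⟨g, n, hg, h⟩ := ih
    obtain ⟨j, a⟩ := a
    refine ⟨Function.update g j (a * g j), max n (j + 1), ?_, ?_⟩
    · intro i hi
      rw [Function.update_of_ne (by omega)]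
      exact hg i (by omega)
    · rw [LP_cons, h, ← D.lam_mul_LL j a g (max n (j + 1)) (by omega),
        D.LL_extend g n _ (le_max_left _ _) hg]

end Sys

end Pool.Agent.Work.MP_aa9b22_lc
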