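import Pool.Agent.Work.MP_aa9b22_lc.Coxeter

set_option autoImplicit false
set_option linter.all false

namespace Pool.Agent.Work.MP_aa9b22_lc

/-- A wreath recursion of a group `G` on the alphabet `Fin (e+1)`, trivial at the last letter. -/
structure SS (G : Type) [Group G] (e : ℕ) where
  P : G →* Equiv.Perm (Fin (e + 1))
  R : G → Fin (e + 1) → G
  R_mul : ∀ g h i, R (g * h) i = R g (P h i) * R h i
  P_last : ∀ g, P g (Fin.last e) = Fin.last e
  R_last : ∀ g, R g (Fin.last e) = 1

namespace SS

variable {G : Type} [Group G] {e : ℕ} (S : SS G e)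

@[simp] theorem R_one (i : Fin (e + 1)) : S.R 1 i = 1 := by
  have h := S.R_mul 1 1 i
  simp only [mul_one, map_one, Equiv.Perm.coe_one, id_eq] at h
  exact (left_eq_mul.1 h)

theorem R_inv (g : G) (i : Fin (e + 1)) : S.R g⁻¹ (S.P g i) = (S.R g i)⁻¹ := by
  have h := S.R_mul g⁻¹ g i
  rw [inv_mul_cancel, S.R_one] at h
  exact eq_inv_of_mul_eq_one_left h.symm

theorem R_inv' (g : G) (i : Fin (e + 1)) : S.R g⁻¹ i = (S.R g (S.P g⁻¹ i))⁻¹ := by
  rw [← S.R_inv, ← Equiv.Perm.mul_apply, ← map_mul, mul_inv_cancel, map_one]; rfl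

theorem P_lt (g : G) (i : Fin (e + 1)) (hi : i ≠ Fin.last e) : S.P g i ≠ Fin.last e := by
  intro h
  apply hi
  rw [← S.P_last g] at h
  exact (S.P g).injective h

/-- action on finite words -/
def wact : G → List (Fin (e + 1)) → List (Fin (e + 1))
  | _, [] => []
  | g, i :: u => S.P g i :: wact (S.R g i) u

/-- restriction (section) at a finite word -/
def res : G → List (Fin (e + 1)) → G
  | g, [] => g
  | g, i :: u => res (S.R g i) u

@[simp] theorem wact_nil (g : G) : S.wact g [] = [] := rfl
@[simp] theorem wact_cons (g : G) (i : Fin (e + 1)) (u : List (Fin (e + 1))) :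
    S.wact g (i :: u) = S.P g i :: S.wact (S.R g i) u := rfl
@[simp] theorem res_nil (g : G) : S.res g [] = g := rfl
@[simp] theorem res_cons (g : G) (i : Fin (e + 1)) (u : List (Fin (e + 1))) :
    S.res g (i :: u) = S.res (S.R g i) u := rfl

theorem res_append (g : G) (u v : List (Fin (e + 1))) : S.res g (u ++ v) = S.res (S.res g u) v := by
  induction u generalizing g with
  | nil => rfl
  | cons i u ih => simp [ih]

theorem wact_append (g : G) (u v : List (Fin (e + 1))) :
    S.wact g (u ++ v) = S.wact g u ++ S.wact (S.res g u) v := by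
  induction u generalizing g with
  | nil => rfl
  | cons i u ih => simp [ih]

@[simp] theorem wact_one (u : List (Fin (e + 1))) : S.wact 1 u = u := by
  induction u with
  | nil => rfl
  | cons i u ih => simp [ih]

@[simp] theorem res_one (u : List (Fin (e + 1))) : S.res 1 u = 1 := by
  induction u with
  | nil => rfl
  | cons i u ih => simp [ih]

theorem wact_mul (g h : G) (u : List (Fin (e + 1))) :
    S.wact (g * h) u = S.wact g (S.wact h u) := by
  induction u generalizing g h with
  | nil => rfl
  | cons i u ih => simp [ih, S.R_mul]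

theorem res_mul (g h : G) (u : List (Fin (e + 1))) :
    S.res (g * h) u = S.res g (S.wact h u) * S.res h u := by
  induction u generalizing g h with
  | nil => rfl
  | cons i u ih => simp [ih, S.R_mul]

@[simp] theorem wact_length (g : G) (u : List (Fin (e + 1))) : (S.wact g u).length = u.length := by
  induction u generalizing g with
  | nil => rfl
  | cons i u ih => simp [ih]

/-- `g` acts trivially on all finite words -/
def Triv (g : G) : Prop := ∀ u, S.wact g u = u

/-- `g` becomes trivial after `n` expansions -/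
def resAt : ℕ → G → Prop
  | 0, g => g = 1
  | n + 1, g => S.P g = 1 ∧ ∀ i, resAt n (S.R g i)

def Resolved (g : G) : Prop := ∃ n, S.resAt n g

theorem resAt_one (n : ℕ) : S.resAt n 1 := by
  induction n with
  | zero => rfl
  | succ n ih => exact ⟨map_one _, fun i => by rw [S.R_one]; exact ih⟩

theorem resAt_succ (n : ℕ) (g : G) (h : S.resAt n g) : S.resAt (n + 1) g := by
  induction n generalizing g with
  | zero =>
    have : g = 1 := h
    subst this
    exact S.resAt_one 1
  | succ n ih => exact ⟨h.1, fun i => ih _ (h.2 i)⟩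

theorem resAt_mono {n m : ℕ} (hnm : n ≤ m) (g : G) (h : S.resAt n g) : S.resAt m g := by
  induction m, hnm using Nat.le_induction with
  | base => exact h
  | succ m _ ih => exact S.resAt_succ m g ih

theorem resAt_mul (n : ℕ) (g h : G) (hg : S.resAt n g) (hh : S.resAt n h) :
    S.resAt n (g * h) := by
  induction n generalizing g h with
  | zero =>
    have e1 : g = 1 := hg
    have e2 : h = 1 := hh
    rw [e1, e2, mul_one]; rfl
  | succ n ih =>
    refine ⟨by rw [map_mul, hg.1, hh.1, mul_one], fun i => ?_⟩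
    rw [S.R_mul, hh.1]
    exact ih _ _ (hg.2 _) (hh.2 _)

theorem resAt_inv (n : ℕ) (g : G) (hg : S.resAt n g) : S.resAt n g⁻¹ := by
  induction n generalizing g with
  | zero =>
    have e1 : g = 1 := hg
    rw [e1, inv_one]; rfl
  | succ n ih =>
    refine ⟨by rw [map_inv, hg.1, inv_one], fun i => ?_⟩
    rw [S.R_inv']
    exact ih _ (hg.2 _)

theorem resAt_conj (n : ℕ) (g h : G) (hg : S.resAt n g) : S.resAt n (h * g * h⁻¹) := by
  induction n generalizing g h with
  | zero =>
    have e1 : g = 1 := hg
    rw [e1, mul_one, mul_inv_cancel]; rfl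
  | succ n ih =>
    refine ⟨by rw [map_mul, map_mul, hg.1, mul_one, ← map_mul, mul_inv_cancel, map_one],
      fun i => ?_⟩
    rw [S.R_mul, S.R_mul, S.R_inv', hg.1]
    exact ih _ _ (hg.2 _)

/-- the subgroup of resolved elements -/
def resolvedSubgroup : Subgroup G where
  carrier := {g | S.Resolved g}
  one_mem' := ⟨0, rfl⟩
  mul_mem' := by
    rintro g h ⟨n, hn⟩ ⟨m, hm⟩
    exact ⟨max n m, S.resAt_mul _ _ _ (S.resAt_mono (le_max_left _ _) _ hn)
      (S.resAt_mono (le_max_right _ _) _ hm)⟩
  inv_mem' := by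
    rintro g ⟨n, hn⟩
    exact ⟨n, S.resAt_inv _ _ hn⟩

instance : S.resolvedSubgroup.Normal where
  conj_mem := by
    rintro g ⟨n, hn⟩ h
    exact ⟨n, S.resAt_conj _ _ _ hn⟩

theorem resolved_of_succ (g : G) (h1 : S.P g = 1) (h2 : ∀ i, S.Resolved (S.R g i)) :
    S.Resolved g := by
  choose f hf using h2
  refine ⟨(Finset.univ.sup f) + 1, h1, fun i => ?_⟩
  exact S.resAt_mono (Finset.le_sup (Finset.mem_univ i)) _ (hf i)

theorem triv_mul {g h : G} (hg : S.Triv g) (hh : S.Triv h) : S.Triv (g * h) := by
  intro u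
  rw [S.wact_mul, hh, hg]

theorem triv_P {g : G} (hg : S.Triv g) : S.P g = 1 := by
  ext i
  have := hg [i]
  simp only [wact_cons, wact_nil, List.cons.injEq, and_true] at this
  rw [this]; rfl

theorem triv_R {g : G} (hg : S.Triv g) (i : Fin (e + 1)) : S.Triv (S.R g i) := by
  intro u
  have := hg (i :: u)
  rw [wact_cons, List.cons.injEq] at this
  exact this.2

end SS

end Pool.Agent.Work.MP_aa9b22_lc
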