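import Pool.Agent.Work.MP_aa9b22_lc.Defs
import Pool.Agent.Work.MP_aa9b22_lc.SelfSim

set_option autoImplicit false

namespace Pool.Agent.Work.MP_aa9b22_lc

/-- pairs (permutation, labels), with the wreath product multiplication -/
@[ext] structure Wr (G ι : Type) where
  p : Equiv.Perm ι
  r : ι → G

namespace Wr

variable {G ι : Type} [Group G]

instance : Mul (Wr G ι) := ⟨fun a b => ⟨a.p * b.p, fun i => a.r (b.p i) * b.r i⟩⟩
instance : One (Wr G ι) := ⟨⟨1, fun _ => 1⟩⟩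
instance : Inv (Wr G ι) := ⟨fun a => ⟨a.p⁻¹, fun i => (a.r (a.p⁻¹ i))⁻¹⟩⟩

@[simp] theorem mul_p (a b : Wr G ι) : (a * b).p = a.p * b.p := rfl
@[simp] theorem mul_r (a b : Wr G ι) (i : ι) : (a * b).r i = a.r (b.p i) * b.r i := rfl
@[simp] theorem one_p : (1 : Wr G ι).p = 1 := rfl
@[simp] theorem one_r (i : ι) : (1 : Wr G ι).r i = 1 := rfl
@[simp] theorem inv_p (a : Wr G ι) : (a⁻¹).p = a.p⁻¹ := rfl
@[simp] theorem inv_r (a : Wr G ι) (i : ι) : (a⁻¹).r i = (a.r (a.p⁻¹ i))⁻¹ := rfl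

instance : Group (Wr G ι) where
  mul_assoc a b c := by
    ext i
    · rfl
    · simp [mul_assoc]
  one_mul a := by
    ext i <;> simp
  mul_one a := by
    ext i <;> simp
  inv_mul_cancel a := by
    ext i
    · simp
    · simp

end Wr

/-- A wreath recursion from a homomorphism to the wreath product, trivial at the last letter. -/
def Wr.toSS {G : Type} [Group G] {e : ℕ} (ψ : G →* Wr G (Fin (e + 1)))
    (h1 : ∀ g, (ψ g).p (Fin.last e) = Fin.last e) (h2 : ∀ g, (ψ g).r (Fin.last e) = 1) : SS G e where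
  P :=
    { toFun := fun g => (ψ g).p
      map_one' := by rw [map_one]; rfl
      map_mul' := fun g h => by rw [map_mul]; rfl }
  R g i := (ψ g).r i
  R_mul g h i := by rw [map_mul]; rfl
  P_last := h1
  R_last := h2

/-- Module M5: a faithful wreath recursion of the free group of rank two on four letters. -/
def BlockSpec : Prop :=
  ∃ ψ : FreeGroup (Fin 2) →* Wr (FreeGroup (Fin 2)) (Fin 4),
    ∀ T : Set (FreeGroup (Fin 2)), (∀ g ∈ T, (ψ g).p = 1 ∧ ∀ i, (ψ g).r i ∈ T) →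
      ∀ g ∈ T, g = 1

/-- Module M6: wreath recursions of the free group of rank three, computable in the parameter. -/
def PsiSpec : Prop :=
  ∀ B : ℕ → Prop, IsPi2 B →
    ∃ (e : ℕ) (π : Fin 3 → Equiv.Perm (Fin (e + 1)))
      (W : ℕ → Fin 3 → Fin (e + 1) → List (Fin 3 × Bool))
      (S : ℕ → SS (FreeGroup (Fin 3)) e),
      Odd e ∧ (∀ g k, Computable fun n => W n g k) ∧
      (∀ n g, (S n).P (FreeGroup.of g) = π g) ∧
      (∀ n g k, (S n).R (FreeGroup.of g) k = FreeGroup.mk (W n g k)) ∧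
      (∀ n g, ((List.finRange (e + 1)).map ((S n).R g)).prod ∈ commutator (FreeGroup (Fin 3))) ∧
      (∀ n, B n → ∀ g, (S n).Triv g → (S n).Resolved g) ∧
      (∀ n, ¬ B n → ∃ g, (S n).Triv g ∧
        ∃ y : ℕ → Fin (e + 1), ∀ k, (S n).res g ((List.range k).map y) ≠ 1)

end Pool.Agent.Work.MP_aa9b22_lc
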