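import Pool.Agent.Work.MP_aa9b22_lc.Finite
import Pool.Agent.Work.MP_aa9b22_lc.Spec2

set_option autoImplicit false
set_option linter.all false

namespace Pool.Agent.Work.MP_aa9b22_lc

/-- extension of a sequence by conjugation -/
def ext (e : ℕ) {Γ : Type*} [Group Γ] (x0 : Γ) (b : ℕ → Γ) (j : ℕ) : Γ :=
  if j = 0 then b 0 else (x0 ^ ((j - 1) / e))⁻¹ * b ((j - 1) % e + 1) * x0 ^ ((j - 1) / e)

section ext

variable {e : ℕ} {Γ : Type*} [Group Γ]

theorem ext_zero (x0 : Γ) (b : ℕ → Γ) : ext e x0 b 0 = b 0 := by simp [ext]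

theorem ext_le (x0 : Γ) (b : ℕ → Γ) (j : ℕ) (hj : j ≤ e) : ext e x0 b j = b j := by
  rcases Nat.eq_zero_or_pos j with h | h
  · rw [h, ext_zero]
  · rw [ext, if_neg (by omega), Nat.div_eq_of_lt (by omega), Nat.mod_eq_of_lt (by omega),
      show j - 1 + 1 = j by omega]
    simp

theorem ext_add (he : 1 ≤ e) (x0 : Γ) (b : ℕ → Γ) (j : ℕ) (hj : 1 ≤ j) :
    ext e x0 b j * x0 = x0 * ext e x0 b (j + e) := by
  rw [ext, ext, if_neg (by omega), if_neg (by omega), show j + e - 1 = j - 1 + e by omega,
    Nat.add_div_right _ (by omega), Nat.add_mod_right, pow_succ x0]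
  group

theorem ext_unique (he : 1 ≤ e) (x0 : Γ) (b y : ℕ → Γ) (hy : ∀ j, 1 ≤ j → y j * x0 = x0 * y (j + e))
    (hb : ∀ j, j ≤ e → b j = y j) (j : ℕ) : ext e x0 b j = y j := by
  induction j using Nat.strong_induction_on with
  | _ j ih =>
    rcases Nat.lt_or_ge e j with h | h
    · have h1 := ih (j - e) (by omega)
      have h2 := ext_add he x0 b (j - e) (by omega)
      have h3 := hy (j - e) (by omega)
      rw [show j - e + e = j by omega] at h2 h3
      rw [h1, h3] at h2
      exact (mul_left_cancel h2).symm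
    · rw [ext_le x0 b j h, hb j h]

theorem map_ext {Δ : Type*} [Group Δ] (φ : Γ →* Δ) (x0 : Γ) (b : ℕ → Γ) (j : ℕ) :
    φ (ext e x0 b j) = ext e (φ x0) (fun i => φ (b i)) j := by
  rw [ext, ext]
  split_ifs <;> simp

end ext

/-- formal generators -/
def fX (e : ℕ) : ℕ → FreeGroup ℕ := ext e (FreeGroup.of 4) fun i => FreeGroup.of (4 + 2 * i)
def fS (e : ℕ) : ℕ → FreeGroup ℕ := ext e (FreeGroup.of 4) fun i => FreeGroup.of (5 + 2 * i)
def fT : FreeGroup ℕ := FreeGroup.of 3
def fla : FreeGroup (Fin 3) →* FreeGroup ℕ := FreeGroup.map fun i => (i : ℕ)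

/-- words with letters in `Fin 3` as words with letters in `ℕ` -/
def iw (w : List (Fin 3 × Bool)) : List (ℕ × Bool) := w.map fun a => ((a.1 : ℕ), a.2)

theorem mk_iw (w : List (Fin 3 × Bool)) : FreeGroup.mk (iw w) = fla (FreeGroup.mk w) := by
  rw [iw, fla, FreeGroup.map.mk]

section words

variable (e : ℕ) (u : Fin 3 → List ℕ)

/-- words of the fixed relators -/
def LW : List (List (ℕ × Bool)) :=
  (relList e (fX e) (fS e) fla fT).map fun p => (p.1 * p.2⁻¹).toWord

def vA (g : Fin 3) : List (ℕ × Bool) :=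
  ((fla (FreeGroup.of g) * fX e 0)⁻¹ * (fX e 0 * ev (fS e) (u g))).toWord

def vC (k : ℕ) : List (ℕ × Bool) := (ev (fS e) (cwm 0 k)).toWord
def vC' (k : ℕ) : List (ℕ × Bool) := ((ev (fS e) (cwm 0 k))⁻¹).toWord

/-- words of the variable relators -/
def vW (W : Fin 3 → Fin (e + 1) → List (Fin 3 × Bool)) (g : Fin 3) : List (ℕ × Bool) :=
  vA e u g ++ (List.finRange (e + 1)).flatMap fun (k : Fin (e + 1)) =>
    vC e (k : ℕ) ++ (iw (W g k) ++ vC' e (k : ℕ))

def vP (W : Fin 3 → Fin (e + 1) → List (Fin 3 × Bool)) : ℕ × List (List (ℕ × Bool)) :=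
  (6 + 2 * e, LW e ++ [vW e u W 0, vW e u W 1, vW e u W 2])

theorem range_eq_map_finRange (n : ℕ) :
    List.range n = (List.finRange n).map (fun (k : Fin n) => (k : ℕ)) := by
  apply List.ext_getElem <;> simp

theorem mk_flatMap {ι : Type*} (l : List ι) (f : ι → List (ℕ × Bool)) :
    FreeGroup.mk (l.flatMap f) = (l.map fun a => FreeGroup.mk (f a)).prod := by
  induction l with
  | nil => rfl
  | cons a l ih => rw [List.flatMap_cons, ← FreeGroup.mul_mk, ih, List.map_cons, List.prod_cons]

variable (W : Fin 3 → Fin (e + 1) → List (Fin 3 × Bool)) (S : SS (FreeGroup (Fin 3)) e)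
  (hW : ∀ g k, S.R (FreeGroup.of g) k = FreeGroup.mk (W g k))

include hW

theorem mk_vW (g : Fin 3) : FreeGroup.mk (vW e u W g) =
    (fla (FreeGroup.of g) * fX e 0)⁻¹ *
      (fX e 0 * ev (fS e) (u g) * LPOf (fS e) fla (S.secs (FreeGroup.of g) 0)) := by
  rw [vW, ← FreeGroup.mul_mk, vA, FreeGroup.mk_toWord, mk_flatMap, mul_assoc]
  congr 1
  rw [mul_assoc, mul_assoc]
  congr 2
  rw [LPOf, SS.secs, List.map_map, range_eq_map_finRange, List.map_map]
  congr 1
  apply List.map_congr_left
  intro k _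
  simp only [Function.comp]
  rw [← FreeGroup.mul_mk, ← FreeGroup.mul_mk, mk_iw, vC, vC', FreeGroup.mk_toWord,
    FreeGroup.mk_toWord, lamOf, LabSys.Rn_coe, hW, zero_add, mul_assoc]

omit hW

end words

section pres

variable {e : ℕ} (he : 1 ≤ e) (S : SS (FreeGroup (Fin 3)) e)
  (u : Fin 3 → List ℕ) (hu1 : ∀ g, ∀ i ∈ u g, i < e)
  (hu2 : ∀ g, ∀ k : Fin (e + 1), pv (u g) (k : ℕ) = ((S.P (FreeGroup.of g) k : Fin (e + 1)) : ℕ))
  (W : Fin 3 → Fin (e + 1) → List (Fin 3 × Bool))
  (hW : ∀ g k, S.R (FreeGroup.of g) k = FreeGroup.mk (W g k))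

/-- A homomorphism killing the relators gives a system. -/
theorem fs_of_hom {Γ : Type*} [Group Γ] (φ : FreeGroup ℕ →* Γ)
    (h : ∀ w ∈ LW e, φ (FreeGroup.mk w) = 1) :
    FS e (fun i => φ (fX e i)) (fun i => φ (fS e i)) (φ.comp fla) (φ fT) := by
  rw [← relList_iff, ← relList_map]
  intro p hp
  rw [List.mem_map] at hp
  obtain ⟨q, hq, rfl⟩ := hp
  have h1 := h ((q.1 * q.2⁻¹).toWord) (List.mem_map.2 ⟨q, hq, rfl⟩)
  rw [FreeGroup.mk_toWord, map_mul, map_inv, mul_inv_eq_one] at h1
  exact h1

include hu1 hu2 hW in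
theorem rel0_of_hom {Γ : Type*} [Group Γ] (φ : FreeGroup ℕ →* Γ) (g : Fin 3)
    (h : φ (FreeGroup.mk (vW e u W g)) = 1) :
    LabSys.Rel0 S (φ (fX e 0)) (fun i => φ (fS e i)) (φ.comp fla) (FreeGroup.of g) := by
  refine ⟨u g, hu1 g, hu2 g, ?_⟩
  rw [mk_vW e u W S hW, map_mul, map_inv, inv_mul_eq_one, map_mul, map_mul, map_mul, ev_map] at h
  rw [MonoidHom.comp_apply, h]
  congr 1
  rw [LPOf, LPOf, map_list_prod, List.map_map]
  congr 1
  apply List.map_congr_left
  intro a _
  simp only [Function.comp, lamOf, map_mul, map_inv, ev_map, MonoidHom.comp_apply]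

/-- the group -/
abbrev Gam : Type := PresentedGroup (rels (vP e u W))

theorem rel_mk (w : List (ℕ × Bool)) (hw : w ∈ (vP e u W).2) :
    (PresentedGroup.mk (rels (vP e u W))) (FreeGroup.mk w) = 1 := by
  apply PresentedGroup.mk_eq_one_iff.2
  exact Subgroup.subset_normalClosure (Or.inr ⟨w, hw, rfl⟩)

/-- the system in the presented group -/
def dsys : Sys S (Gam u W) :=
  FS.toSys he (fs_of_hom (PresentedGroup.mk (rels (vP e u W)))
      (fun w hw => rel_mk u W w (List.mem_append_left _ hw)))
    (fun j hj => by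
      rw [← map_mul, ← map_mul]
      congr 1
      have h0 : fX e 0 = FreeGroup.of 4 := ext_zero _ _
      rw [h0]
      exact ext_add he _ _ j hj)
    (fun j hj => by
      rw [← map_mul, ← map_mul]
      congr 1
      have h0 : fX e 0 = FreeGroup.of 4 := ext_zero _ _
      rw [h0]
      exact ext_add he _ _ j hj)
    S
    (fun g => rel0_of_hom S u hu1 hu2 W hW _ g (by
      apply rel_mk
      apply List.mem_append_right
      fin_cases g <;> simp))

theorem dsys_x (i : ℕ) : (dsys he S u hu1 hu2 W hW).x i =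
    PresentedGroup.mk (rels (vP e u W)) (fX e i) := rfl
theorem dsys_s (i : ℕ) : (dsys he S u hu1 hu2 W hW).s i =
    PresentedGroup.mk (rels (vP e u W)) (fS e i) := rfl
theorem dsys_la (g : FreeGroup (Fin 3)) : (dsys he S u hu1 hu2 W hW).la g =
    PresentedGroup.mk (rels (vP e u W)) (fla g) := rfl
theorem dsys_top : (dsys he S u hu1 hu2 W hW).top =
    PresentedGroup.mk (rels (vP e u W)) fT := rfl

/-- images of the generators in a system -/
def gen {Γ : Type*} [Group Γ] (e : ℕ) (x s : ℕ → Γ) (la : FreeGroup (Fin 3) →* Γ) (top : Γ)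
    (i : ℕ) : Γ :=
  if h : i < 3 then la (FreeGroup.of ⟨i, h⟩) else if i = 3 then top
  else if i < 6 + 2 * e then (if i % 2 = 0 then x ((i - 4) / 2) else s ((i - 5) / 2)) else 1

theorem gen_x {Γ : Type*} [Group Γ] (x s : ℕ → Γ) (la : FreeGroup (Fin 3) →* Γ) (top : Γ)
    (j : ℕ) (hj : j ≤ e) : gen e x s la top (4 + 2 * j) = x j := by
  rw [gen, dif_neg (by omega), if_neg (by omega), if_pos (by omega), if_pos (by omega)]
  congr 1; omega

theorem gen_s {Γ : Type*} [Group Γ] (x s : ℕ → Γ) (la : FreeGroup (Fin 3) →* Γ) (top : Γ)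
    (j : ℕ) (hj : j ≤ e) : gen e x s la top (5 + 2 * j) = s j := by
  rw [gen, dif_neg (by omega), if_neg (by omega), if_pos (by omega), if_neg (by omega)]
  congr 1; omega

include he hu1 hu2 hW in
/-- the universal property -/
theorem exists_hom {Γ : Type*} [Group Γ] (D : Sys S Γ) :
    ∃ ψ : Gam u W →* Γ,
      (∀ i, ψ ((dsys he S u hu1 hu2 W hW).x i) = D.x i) ∧
      (∀ i, ψ ((dsys he S u hu1 hu2 W hW).s i) = D.s i) ∧
      (∀ g, ψ ((dsys he S u hu1 hu2 W hW).la g) = D.la g) ∧
      ψ (dsys he S u hu1 hu2 W hW).top = D.top := by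
  set φ : FreeGroup ℕ →* Γ := FreeGroup.lift (gen e D.x D.s D.la D.top) with hφ
  have hof : ∀ i, φ (FreeGroup.of i) = gen e D.x D.s D.la D.top i := fun i =>
    FreeGroup.lift_apply_of
  have h4 : φ (FreeGroup.of 4) = D.x 0 := by
    rw [hof]; exact gen_x D.x D.s D.la D.top 0 (by omega)
  have hX : ∀ i, φ (fX e i) = D.x i := by
    intro i
    rw [fX, map_ext, h4]
    apply ext_unique he
    · intro j hj
      exact D.xx 0 j hj
    · intro j hj
      rw [hof]
      exact gen_x D.x D.s D.la D.top j hj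
  have hS : ∀ i, φ (fS e i) = D.s i := by
    intro i
    rw [fS, map_ext, h4]
    apply ext_unique he
    · intro j hj
      exact D.sx_lt 0 j hj
    · intro j hj
      rw [hof]
      exact gen_s D.x D.s D.la D.top j hj
  have hT : φ fT = D.top := by
    rw [fT, hof, gen, dif_neg (by omega), if_pos rfl]
  have hL : φ.comp fla = D.la := by
    apply FreeGroup.ext_hom
    intro g
    rw [MonoidHom.comp_apply, fla, FreeGroup.map.of, hof, gen, dif_pos g.isLt]
  have hL' : ∀ g, φ (fla g) = D.la g := fun g => by rw [← hL]; rfl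
  have hrel : ∀ r ∈ rels (vP e u W), φ r = 1 := by
    rintro r (⟨i, hi, rfl⟩ | ⟨w, hw, rfl⟩)
    · rw [hof, gen, dif_neg (by simp [vP] at hi; omega), if_neg (by simp [vP] at hi; omega),
        if_neg (by simp [vP] at hi; omega)]
    · rcases List.mem_append.1 hw with h | h
      · rw [LW, List.mem_map] at h
        obtain ⟨p, hp, rfl⟩ := h
        rw [FreeGroup.mk_toWord, map_mul, map_inv, mul_inv_eq_one]
        have h1 := (relList_iff e D.x D.s D.la D.top).2 D.toFS
        have h2 : relList e D.x D.s D.la D.top =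
            (relList e (fX e) (fS e) fla fT).map (fun p => (φ p.1, φ p.2)) := by
          rw [relList_map, hT, hL]
          congr 1
          · funext i; exact (hX i).symm
          · funext i; exact (hS i).symm
        rw [h2] at h1
        exact h1 (φ p.1, φ p.2) (List.mem_map.2 ⟨p, hp, rfl⟩)
      · have key : ∀ g, φ (FreeGroup.mk (vW e u W g)) = 1 := by
          intro g
          rw [mk_vW e u W S hW, map_mul, map_inv, inv_mul_eq_one, map_mul, map_mul, map_mul,
            hX, hL']
          obtain ⟨v, hv1, hv2, hv3⟩ := D.la_x0 (FreeGroup.of g)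
          rw [hv3]
          have h5 : ev D.s v = φ (ev (fS e) (u g)) := by
            rw [ev_map]
            have : (fun i => φ (fS e i)) = D.s := funext hS
            rw [this]
            apply D.cox.ev_eq
            apply Equiv.ext
            intro k
            have hfix : ∀ (u : List ℕ), (∀ i ∈ u, i < e) → ∀ l, e < l → pv u l = l := by
              intro u
              induction u with
              | nil => simp
              | cons a u ih =>
                intro hu l hl
                rw [pv_cons, Equiv.Perm.mul_apply, ih (fun b hb => hu b (by simp [hb])) l hl]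
                have := hu a (by simp)
                exact Equiv.swap_apply_of_ne_of_ne (by omega) (by omega)
            rcases Nat.lt_or_ge e k with hk | hk
            · rw [hfix v hv1 k hk, hfix (u g) (hu1 g) k hk]
            · have h6 := hv2 ⟨k, by omega⟩
              have h7 := hu2 g ⟨k, by omega⟩
              simp only at h6 h7
              rw [h6, h7]
          rw [h5]
          congr 1
          rw [LPOf, LPOf, map_list_prod, List.map_map]
          congr 1
          apply List.map_congr_left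
          intro a _
          simp only [Function.comp, lamOf, map_mul, map_inv, ev_map, hL']
          have : (fun i => φ (fS e i)) = D.s := funext hS
          rw [this]
        simp only [List.mem_cons, List.not_mem_nil, or_false] at h
        rcases h with h | h | h <;> rw [h] <;> exact key _
  refine ⟨PresentedGroup.toGroup (f := gen e D.x D.s D.la D.top) hrel, ?_, ?_, ?_, ?_⟩
  · intro i
    exact hX i
  · intro i
    exact hS i
  · intro g
    exact hL' g
  · exact hT

end pres

end Pool.Agent.Work.MP_aa9b22_lc
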