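import Pool.Agent.Work.MP_aa9b22_lc.ModelSys

set_option autoImplicit false
set_option linter.all false

namespace Pool.Agent.Work.MP_aa9b22_lc

variable {G : Type} [Group G] {e : ℕ}

/-- infinite words -/
abbrev CC (e : ℕ) : Type := ℕ → Fin (e + 1)

/-- add a letter in front -/
def consC (i : Fin (e + 1)) (y : CC e) : CC e
  | 0 => i
  | n + 1 => y n

@[simp] theorem consC_zero (i : Fin (e + 1)) (y : CC e) : consC i y 0 = i := rfl
@[simp] theorem consC_succ (i : Fin (e + 1)) (y : CC e) (n : ℕ) : consC i y (n + 1) = y n := rfl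

def tailC (y : CC e) : CC e := fun n => y (n + 1)

@[simp] theorem tailC_cons (i : Fin (e + 1)) (y : CC e) : tailC (consC i y) = y := rfl

theorem cons_tail (y : CC e) : consC (y 0) (tailC y) = y := by
  funext n
  cases n <;> rfl

namespace SS

variable (S : SS G e)

/-- letters of the image of an infinite word -/
def gactN : ℕ → G → CC e → Fin (e + 1)
  | 0, g, y => S.P g (y 0)
  | n + 1, g, y => gactN n (S.R g (y 0)) (tailC y)

def gact (g : G) (y : CC e) : CC e := fun n => S.gactN n g y

theorem gact_cons (g : G) (i : Fin (e + 1)) (y : CC e) :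
    S.gact g (consC i y) = consC (S.P g i) (S.gact (S.R g i) y) := by
  funext n
  cases n <;> rfl

theorem gact_tail (g : G) (y : CC e) : tailC (S.gact g y) = S.gact (S.R g (y 0)) (tailC y) := rfl

theorem gact_zero (g : G) (y : CC e) : S.gact g y 0 = S.P g (y 0) := rfl

theorem gact_one (y : CC e) : S.gact 1 y = y := by
  funext n
  induction n generalizing y with
  | zero => simp [gact, gactN]
  | succ n ih =>
    have := ih (tailC y)
    change S.gactN n (S.R 1 (y 0)) (tailC y) = y (n + 1)
    rw [S.R_one]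
    exact this

theorem gact_mul (g h : G) (y : CC e) : S.gact (g * h) y = S.gact g (S.gact h y) := by
  funext n
  induction n generalizing g h y with
  | zero => simp [gact, gactN]
  | succ n ih =>
    change S.gactN n (S.R (g * h) (y 0)) (tailC y) =
      S.gactN n (S.R g (S.gact h y 0)) (tailC (S.gact h y))
    rw [S.R_mul, gact_tail, gact_zero]
    exact ih _ _ _

end SS

/-- the first letters of an infinite word -/
def pre : CC e → ℕ → List (Fin (e + 1))
  | _, 0 => []
  | y, n + 1 => y 0 :: pre (tailC y) n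

theorem SS.wact_pre (S : SS G e) (g : G) (y : CC e) (n : ℕ) :
    S.wact g (pre y n) = pre (S.gact g y) n := by
  induction n generalizing g y with
  | zero => rfl
  | succ n ih =>
    rw [pre, SS.wact_cons, ih, pre, S.gact_zero, S.gact_tail]

/-- Coefficients for the standard model. -/
structure Coef (S : SS G e) where
  A : Type
  θ : Equiv.Perm A
  coc : G → CC e → A → A
  coc_one : ∀ y a, coc 1 y a = a
  coc_mul : ∀ g h y a, coc (g * h) y a = coc g (S.gact h y) (coc h y a)
  coc_cons : ∀ g i y a, coc g (consC i y) (θ a) = θ (coc (S.R g i) y a)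

namespace Coef

variable {S : SS G e} (K : Coef S)

/-- `last^n i z` -/
def pad (n : ℕ) (i : Fin (e + 1)) (z : CC e) : CC e := fun k =>
  if k < n then Fin.last e else if k = n then i else z (k - n - 1)

theorem pad_zero (i : Fin (e + 1)) (z : CC e) : pad 0 i z = consC i z := by
  funext k
  cases k with
  | zero => rfl
  | succ k => simp [pad]

theorem pad_succ (n : ℕ) (i : Fin (e + 1)) (z : CC e) :
    pad (n + 1) i z = consC (Fin.last e) (pad n i z) := by
  funext k
  cases k with
  | zero => simp [pad]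
  | succ k =>
    simp only [pad, consC_succ, Nat.add_lt_add_iff_right, Nat.add_right_cancel_iff]
    split_ifs
    · rfl
    · rfl
    · congr 1; omega

open Classical in
noncomputable def kf : CC e × K.A → (ℕ × (CC e × K.A)) ⊕ K.A := fun p =>
  if h : ∃ n, p.1 n ≠ Fin.last e then
    Sum.inl (Nat.find h * e + (p.1 (Nat.find h) : ℕ),
      (fun k => p.1 (Nat.find h + 1 + k), (K.θ ^ (Nat.find h + 1))⁻¹ p.2))
  else Sum.inr p.2

def kg : (ℕ × (CC e × K.A)) ⊕ K.A → CC e × K.A
  | Sum.inl (j, (z, b)) => (pad (j / e) (Mod.ltr (j % e)) z, (K.θ ^ (j / e + 1)) b)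
  | Sum.inr a => (fun _ => Fin.last e, a)

theorem kg_kf (he : 1 ≤ e) (p : CC e × K.A) : K.kg (K.kf p) = p := by
  classical
  obtain ⟨y, a⟩ := p
  by_cases h : ∃ n, y n ≠ Fin.last e
  · have hf := Nat.find_spec h
    set n := Nat.find h with hn
    have hlt : (y n : ℕ) < e := Fin.val_lt_last hf
    have e1 : K.kf (y, a) = Sum.inl (n * e + (y n : ℕ),
      (fun k => y (n + 1 + k), (K.θ ^ (n + 1))⁻¹ a)) := by
      simp only [kf]
      rw [dif_pos h]
    rw [e1]
    have e2 : (n * e + (y n : ℕ)) / e = n := by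
      rw [mul_comm, Nat.mul_add_div (by omega), Nat.div_eq_of_lt hlt, add_zero]
    have e3 : (n * e + (y n : ℕ)) % e = y n := by
      rw [mul_comm, Nat.mul_add_mod, Nat.mod_eq_of_lt hlt]
    simp only [kg, e2, e3, perm_apply_inv]
    congr 1
    funext k
    simp only [pad]
    split_ifs with h1 h2
    · by_contra hc
      exact Nat.find_min h h1 (fun h' => hc h'.symm)
    · rw [h2, Mod.ltr_coe]
    · congr 1; omega
  · have e1 : K.kf (y, a) = Sum.inr a := by
      simp only [kf]
      rw [dif_neg h]
    rw [e1]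
    push Not at h
    simp only [kg]
    congr 1
    funext k
    exact (h k).symm

theorem ltr_ne_last (he : 1 ≤ e) (j : ℕ) : (Mod.ltr (j % e) : Fin (e + 1)) ≠ Fin.last e := by
  have : j % e < e := Nat.mod_lt _ he
  rw [Ne, Fin.ext_iff, Mod.ltr_val (by omega)]
  simp
  omega

theorem kf_kg (he : 1 ≤ e) (q : (ℕ × (CC e × K.A)) ⊕ K.A) : K.kf (K.kg q) = q := by
  classical
  rcases q with ⟨j, z, b⟩ | a
  · set n := j / e with hn
    set i : Fin (e + 1) := Mod.ltr (j % e) with hi
    have hlt : j % e < e := Nat.mod_lt _ he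
    have hil : i ≠ Fin.last e := ltr_ne_last he j
    have hiv : (i : ℕ) = j % e := Mod.ltr_val (by omega)
    have hx : ∃ k, pad n i z k ≠ Fin.last e := ⟨n, by simpa [pad] using hil⟩
    have hfind : Nat.find hx = n := by
      rw [Nat.find_eq_iff]
      refine ⟨by simpa [pad] using hil, fun m hm => ?_⟩
      simp [pad, hm]
    have e1 : K.kg (Sum.inl (j, z, b)) = (pad n i z, (K.θ ^ (n + 1)) b) := rfl
    rw [e1, kf, dif_pos hx]
    simp only [hfind, perm_inv_apply]
    have e2 : pad n i z n = i := by simp [pad]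
    have e3 : (fun k => pad n i z (n + 1 + k)) = z := by
      funext k
      simp only [pad]
      rw [if_neg (by omega), if_neg (by omega)]
      congr 1; omega
    rw [e2, e3, hiv]
    have e4 : n * e + j % e = j := by
      rw [hn, mul_comm]; exact Nat.div_add_mod j e
    rw [e4]
  · have hx : ¬ ∃ k, (fun _ => Fin.last e : CC e) k ≠ Fin.last e := by simp
    have e1 : K.kg (Sum.inr a) = (fun _ => Fin.last e, a) := rfl
    rw [e1, kf, dif_neg hx]

/-- the standard model with coefficients `K` -/
noncomputable def mod (he : 1 ≤ e) : Mod S where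
  Y := CC e × K.A
  A := K.A
  c :=
    { toFun := fun p => (consC p.1 p.2.1, K.θ p.2.2)
      invFun := fun q => (q.1 0, (tailC q.1, K.θ.symm q.2))
      left_inv := by
        rintro ⟨i, y, a⟩
        simp
      right_inv := by
        rintro ⟨y, a⟩
        simp [cons_tail] }
  θ := K.θ
  κ := ⟨K.kf, K.kg, K.kg_kf he, K.kf_kg he⟩
  κ_lt i y hi := by
    have hlt : (i : ℕ) < e := Fin.val_lt_last hi
    obtain ⟨y, a⟩ := y
    change K.kf (consC i y, K.θ a) = Sum.inl ((i : ℕ), (y, a))
    rw [← K.kf_kg he (Sum.inl ((i : ℕ), (y, a)))]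
    congr 1
    simp only [kg]
    rw [Nat.div_eq_of_lt hlt, Nat.mod_eq_of_lt hlt, Mod.ltr_coe, pad_zero]
    simp
  κ_last y := by
    obtain ⟨y, a⟩ := y
    change K.kf (consC (Fin.last e) y, K.θ a) = Sum.elim _ _ (K.kf (y, a))
    rcases hq : K.kf (y, a) with ⟨j, z, b⟩ | b
    · have h1 : (y, a) = K.kg (Sum.inl (j, z, b)) := by rw [← hq, K.kg_kf he]
      simp only [kg, Prod.mk.injEq] at h1
      obtain ⟨h1, h2⟩ := h1
      rw [Sum.elim_inl, ← K.kf_kg he (Sum.inl (j + e, z, b))]
      congr 1
      simp only [kg]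
      rw [Nat.add_div_right j (by omega), Nat.add_mod_right, pad_succ, h1, h2,
        pow_succ' K.θ (j / e + 1), Equiv.Perm.mul_apply]
    · have h1 : (y, a) = K.kg (Sum.inr b) := by rw [← hq, K.kg_kf he]
      simp only [kg, Prod.mk.injEq] at h1
      obtain ⟨h1, h2⟩ := h1
      rw [Sum.elim_inr, ← K.kf_kg he (Sum.inr (K.θ b))]
      congr 1
      simp only [kg, h1, h2, Prod.mk.injEq, and_true]
      funext k
      cases k <;> rfl
  act :=
    { toFun := fun g =>
        { toFun := fun p => (S.gact g p.1, K.coc g p.1 p.2)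
          invFun := fun p => (S.gact g⁻¹ p.1, K.coc g⁻¹ p.1 p.2)
          left_inv := by
            rintro ⟨y, a⟩
            simp only
            rw [← S.gact_mul, ← K.coc_mul, inv_mul_cancel, S.gact_one, K.coc_one]
          right_inv := by
            rintro ⟨y, a⟩
            simp only
            rw [← S.gact_mul, ← K.coc_mul, mul_inv_cancel, S.gact_one, K.coc_one] }
      map_one' := by
        ext ⟨y, a⟩ : 1
        simp [S.gact_one, K.coc_one]
      map_mul' := by
        intro g h
        ext ⟨y, a⟩ : 1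
        simp [S.gact_mul, K.coc_mul] }
  act_c g i y := by
    obtain ⟨y, a⟩ := y
    simp only [Equiv.coe_fn_mk, MonoidHom.coe_mk, OneHom.coe_mk]
    rw [S.gact_cons, K.coc_cons]

/-- trivial coefficients -/
def triv (S : SS G e) : Coef S where
  A := Unit
  θ := 1
  coc _ _ a := a
  coc_one _ _ := rfl
  coc_mul _ _ _ _ := rfl
  coc_cons _ _ _ _ := rfl

/-- eventual equality of sequences -/
def germS (G : Type) : Setoid (ℕ → G) where
  r f g := ∃ N, ∀ k, N ≤ k → f k = g k
  iseqv := {
    refl := fun f => ⟨0, fun _ _ => rfl⟩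
    symm := by
      rintro f g ⟨N, h⟩
      exact ⟨N, fun k hk => (h k hk).symm⟩
    trans := by
      rintro f g h ⟨N, h1⟩ ⟨M, h2⟩
      exact ⟨max N M, fun k hk => (h1 k (le_trans (le_max_left _ _) hk)).trans
        (h2 k (le_trans (le_max_right _ _) hk))⟩ }

abbrev Grm (G : Type) : Type := Quotient (germS G)

/-- germs of sequences of labels -/
def germ (S : SS G e) : Coef S where
  A := Grm G
  θ :=
    { toFun := Quotient.map (fun h k => h (k - 1)) (by
        rintro f g ⟨N, h⟩
        exact ⟨N + 1, fun k hk => h _ (by omega)⟩)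
      invFun := Quotient.map (fun h k => h (k + 1)) (by
        rintro f g ⟨N, h⟩
        exact ⟨N, fun k hk => h _ (by omega)⟩)
      left_inv := by
        rintro ⟨f⟩
        exact Quotient.sound ⟨0, fun k _ => by simp⟩
      right_inv := by
        rintro ⟨f⟩
        refine Quotient.sound ⟨1, fun k hk => ?_⟩
        change f (k - 1 + 1) = f k
        congr 1; omega }
  coc g y := Quotient.map (fun h k => S.res g (pre y k) * h k) (by
    rintro f f' ⟨N, h⟩
    exact ⟨N, fun k hk => congrArg (fun t => S.res g (pre y k) * t) (h k hk)⟩)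
  coc_one y a := by
    revert a
    rintro ⟨f⟩
    exact Quotient.sound ⟨0, fun k _ => by simp⟩
  coc_mul g h y a := by
    revert a
    rintro ⟨f⟩
    refine Quotient.sound ⟨0, fun k _ => ?_⟩
    change S.res (g * h) (pre y k) * f k = S.res g (pre (S.gact h y) k) * (S.res h (pre y k) * f k)
    rw [S.res_mul, S.wact_pre, mul_assoc]
  coc_cons g i y a := by
    revert a
    rintro ⟨f⟩
    refine Quotient.sound ⟨1, fun k hk => ?_⟩
    obtain ⟨k, rfl⟩ : ∃ k', k = k' + 1 := ⟨k - 1, by omega⟩
    rfl

end Coef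

end Pool.Agent.Work.MP_aa9b22_lc
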