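import Pool.Agent.Work.MP_aa9b22_lc.SelfSim

set_option autoImplicit false
set_option linter.all false

namespace Pool.Agent.Work.MP_aa9b22_lc

theorem perm_apply_inv {α : Type*} (p : Equiv.Perm α) (a : α) : p (p⁻¹ a) = a :=
  p.apply_symm_apply a

theorem perm_inv_apply {α : Type*} (p : Equiv.Perm α) (a : α) : p⁻¹ (p a) = a :=
  p.symm_apply_apply a

variable {G : Type} [Group G] {e : ℕ}

/-- sections as a function on `ℕ` -/
def SS.Rn (S : SS G e) (g : G) (k : ℕ) : G := if h : k < e + 1 then S.R g ⟨k, h⟩ else 1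

/-- label at root `k` -/
def lamOf {Γ : Type*} [Group Γ] (s : ℕ → Γ) (la : G →* Γ) (k : ℕ) (g : G) : Γ :=
  ev s (cwm 0 k) * la g * (ev s (cwm 0 k))⁻¹

/-- product of labels -/
def LPOf {Γ : Type*} [Group Γ] (s : ℕ → Γ) (la : G →* Γ) (l : List (ℕ × G)) : Γ :=
  (l.map fun a => lamOf s la a.1 a.2).prod

/-- the list of sections of `g` placed at the roots `i, …, i + e` -/
def SS.secs (S : SS G e) (g : G) (i : ℕ) : List (ℕ × G) :=
  (List.range (e + 1)).map fun k => (i + k, S.Rn g k)

/-- A group with elements satisfying the (infinite) list of relations. -/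
structure Sys (S : SS G e) (Γ : Type*) [Group Γ] where
  x : ℕ → Γ
  s : ℕ → Γ
  la : G →* Γ
  top : Γ
  cox : Cox s
  xx : ∀ i j, i < j → x j * x i = x i * x (j + e)
  sx_lt : ∀ i j, i < j → s j * x i = x i * s (j + e)
  sx_gt : ∀ i j, j + 1 < i → s j * x i = x i * s j
  sx_eq : ∀ i, s i * x i = x (i + 1) * ev s (List.range' i (e + 1))
  la_s : ∀ g i, 1 ≤ i → la g * s i = s i * la g
  la_x1 : ∀ g, la g * x 1 = x 1 * la g
  la_la : ∀ g h, la g * (s 0 * la h * s 0) = (s 0 * la h * s 0) * la g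
  la_x0 : ∀ g, ∃ u : List ℕ, (∀ i ∈ u, i < e) ∧
    (∀ k : Fin (e + 1), pv u (k : ℕ) = ((S.P g k : Fin (e + 1)) : ℕ)) ∧
    la g * x 0 = x 0 * ev s u * LPOf s la (S.secs g 0)
  top_sq : top * top = 1
  top_t : top * (ev s (List.range e) * (x 0)⁻¹) * top * (ev s (List.range e) * (x 0)⁻¹) = 1
  top_s : ∀ i, i + 1 < e → top * s (i + 1) * top = x 0 * s i * (x 0)⁻¹
  top_se : top * s e * top = x 0 * x e * s (e - 1) * (x e)⁻¹ * (x 0)⁻¹
  top_x1 : top * x 1 * top = x 0 * x 0 * (x e)⁻¹ * (x 0)⁻¹
  top_la : ∀ g, top * (s 0 * la g * s 0) * top = x 0 * la g * (x 0)⁻¹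
  top_s0 : top * s 0 * top = x 0 * (ev s (List.range e) * (x 0)⁻¹) * top * (x 0)⁻¹

namespace Sys

variable {S : SS G e} {Γ : Type*} [Group Γ] (D : Sys S Γ)

/-- label at root `k` -/
def lam (k : ℕ) (g : G) : Γ := lamOf D.s D.la k g

/-- product of labels -/
def LP (l : List (ℕ × G)) : Γ := LPOf D.s D.la l

@[simp] theorem LP_nil : D.LP [] = 1 := rfl
@[simp] theorem LP_cons (a : ℕ × G) (l : List (ℕ × G)) :
    D.LP (a :: l) = D.lam a.1 a.2 * D.LP l := by simp [LP, LPOf, lam]
@[simp] theorem LP_append (l l' : List (ℕ × G)) :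
    D.LP (l ++ l') = D.LP l * D.LP l' := by simp [LP, LPOf]

theorem lam_zero (g : G) : D.lam 0 g = D.la g := by simp [lam, lamOf, cwm]

theorem lam_mul (k : ℕ) (g h : G) : D.lam k (g * h) = D.lam k g * D.lam k h := by
  simp only [lam, lamOf, map_mul]; group

theorem lam_one (k : ℕ) : D.lam k 1 = 1 := by
  simp [lam, lamOf]

theorem lam_inv (k : ℕ) (g : G) : D.lam k g⁻¹ = (D.lam k g)⁻¹ := by
  rw [eq_inv_iff_mul_eq_one, ← D.lam_mul, inv_mul_cancel, D.lam_one]

theorem lam_succ (k : ℕ) (g : G) : D.lam (k + 1) g = D.s k * D.lam k g * D.s k := by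
  have h : D.s k = (D.s k)⁻¹ := (D.cox.inv k).symm
  simp only [lam, lamOf, cwm, ev_cons, zero_add, mul_inv_rev]
  rw [D.cox.inv k]
  group

/-- conjugation of a label by an adjacent swap -/
theorem s_lam (i k : ℕ) (g : G) :
    D.s i * D.lam k g = D.lam (Equiv.swap i (i + 1) k) g * D.s i := by
  rcases lt_trichotomy k i with h | h | h
  · rw [Equiv.swap_apply_of_ne_of_ne (by omega) (by omega)]
    have h1 := (D.cox.step_aux 0 i (Nat.zero_le _) k).1 (by omega)
    have h2 : (ev D.s (cwm 0 k))⁻¹ * D.s i = D.s i * (ev D.s (cwm 0 k))⁻¹ := by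
      rw [inv_mul_eq_iff_eq_mul, ← mul_assoc, eq_mul_inv_iff_mul_eq, h1]
    simp only [lam, lamOf]
    calc D.s i * (ev D.s (cwm 0 k) * D.la g * (ev D.s (cwm 0 k))⁻¹)
        = (D.s i * ev D.s (cwm 0 k)) * D.la g * (ev D.s (cwm 0 k))⁻¹ := by group
      _ = ev D.s (cwm 0 k) * (D.s i * D.la g) * (ev D.s (cwm 0 k))⁻¹ := by rw [h1]; group
      _ = ev D.s (cwm 0 k) * (D.la g * D.s i) * (ev D.s (cwm 0 k))⁻¹ := by
          rw [D.la_s g i (by omega)]
      _ = ev D.s (cwm 0 k) * D.la g * (D.s i * (ev D.s (cwm 0 k))⁻¹) := by group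
      _ = _ := by rw [← h2]; group
  · subst h
    rw [Equiv.swap_apply_left, D.lam_succ, mul_assoc, D.cox.sq, mul_one]
  · rcases Nat.lt_or_ge (i + 1) k with h' | h'
    · rw [Equiv.swap_apply_of_ne_of_ne (by omega) (by omega)]
      have h1 := (D.cox.step_aux 0 i (Nat.zero_le _) k).2 (by omega)
      have h2 : (ev D.s (cwm 0 k))⁻¹ * D.s i = D.s (i + 1) * (ev D.s (cwm 0 k))⁻¹ := by
        rw [inv_mul_eq_iff_eq_mul, ← mul_assoc, eq_mul_inv_iff_mul_eq, h1]
      simp only [lam, lamOf]
      calc D.s i * (ev D.s (cwm 0 k) * D.la g * (ev D.s (cwm 0 k))⁻¹)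
          = (D.s i * ev D.s (cwm 0 k)) * D.la g * (ev D.s (cwm 0 k))⁻¹ := by group
        _ = ev D.s (cwm 0 k) * (D.s (i + 1) * D.la g) * (ev D.s (cwm 0 k))⁻¹ := by rw [h1]; group
        _ = ev D.s (cwm 0 k) * (D.la g * D.s (i + 1)) * (ev D.s (cwm 0 k))⁻¹ := by
            rw [D.la_s g (i + 1) (by omega)]
        _ = ev D.s (cwm 0 k) * D.la g * (D.s (i + 1) * (ev D.s (cwm 0 k))⁻¹) := by group
        _ = _ := by rw [← h2]; group
    · have : k = i + 1 := by omega
      subst this
      rw [Equiv.swap_apply_right, D.lam_succ, ← mul_assoc, ← mul_assoc, D.cox.sq, one_mul]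

theorem ev_lam (w : List ℕ) (k : ℕ) (g : G) :
    ev D.s w * D.lam k g = D.lam (pv w k) g * ev D.s w := by
  induction w with
  | nil => simp
  | cons i w ih =>
    rw [ev_cons, mul_assoc, ih, ← mul_assoc, D.s_lam, pv_cons, Equiv.Perm.mul_apply, mul_assoc]

/-- move the positions of a list of labels -/
def mv (w : List ℕ) (l : List (ℕ × G)) : List (ℕ × G) := l.map fun a => (pv w a.1, a.2)

theorem ev_LP (w : List ℕ) (l : List (ℕ × G)) :
    ev D.s w * D.LP l = D.LP (mv w l) * ev D.s w := by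
  induction l with
  | nil => simp [mv]
  | cons a l ih =>
    have : mv w (a :: l) = (pv w a.1, a.2) :: mv w l := rfl
    rw [this, LP_cons, LP_cons, ← mul_assoc, D.ev_lam, mul_assoc, ih, ← mul_assoc]

theorem pv_cwm_gt (m k j : ℕ) (hj : m + k < j) : pv (cwm m k) j = j := by
  induction k with
  | zero => simp [cwm]
  | succ k ih =>
    rw [cwm, pv_cons, Equiv.Perm.mul_apply, ih (by omega)]
    exact Equiv.swap_apply_of_ne_of_ne (by omega) (by omega)

theorem lam_comm (i j : ℕ) (hij : i ≠ j) (g h : G) :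
    D.lam i g * D.lam j h = D.lam j h * D.lam i g := by
  -- the basic case
  have h01 : ∀ g h, D.lam 0 g * D.lam 1 h = D.lam 1 h * D.lam 0 g := by
    intro g h
    rw [D.lam_succ, D.lam_zero, D.lam_zero, D.la_la]
  have key : ∀ i j, i < j → ∀ g h, D.lam i g * D.lam j h = D.lam j h * D.lam i g := by
    intro i j hij g h
    -- word moving `0 ↦ i`, `1 ↦ j`
    set w := cwm 0 i ++ cwm 1 (j - 1) with hw
    have e0 : pv w 0 = i := by
      rw [hw, pv_append, Equiv.Perm.mul_apply]
      have : pv (cwm 1 (j - 1)) 0 = 0 := by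
        apply pv_fix_lt _ 1 _ 0 (by omega)
        intro l hl
        have : ∀ k, ∀ l ∈ cwm 1 k, 1 ≤ l := by
          intro k
          induction k with
          | zero => simp [cwm]
          | succ k ih =>
            intro l hl
            rw [cwm] at hl
            rcases List.mem_cons.1 hl with rfl | hl
            · omega
            · exact ih l hl
        exact this _ l hl
      rw [this, pv_cwm_apply, zero_add]
    have e1 : pv w 1 = j := by
      rw [hw, pv_append, Equiv.Perm.mul_apply, pv_cwm_apply, show 1 + (j - 1) = j by omega,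
        pv_cwm_gt 0 i j (by omega)]
    have a1 := D.ev_lam w 0 g
    have a2 := D.ev_lam w 1 h
    rw [e0] at a1
    rw [e1] at a2
    have b1 : D.lam i g = ev D.s w * D.lam 0 g * (ev D.s w)⁻¹ := by rw [a1]; group
    have b2 : D.lam j h = ev D.s w * D.lam 1 h * (ev D.s w)⁻¹ := by rw [a2]; group
    rw [b1, b2]
    calc ev D.s w * D.lam 0 g * (ev D.s w)⁻¹ * (ev D.s w * D.lam 1 h * (ev D.s w)⁻¹)
        = ev D.s w * (D.lam 0 g * D.lam 1 h) * (ev D.s w)⁻¹ := by group
      _ = ev D.s w * (D.lam 1 h * D.lam 0 g) * (ev D.s w)⁻¹ := by rw [h01]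
      _ = _ := by group
  rcases lt_or_gt_of_ne hij with h' | h'
  · exact key i j h' g h
  · exact (key j i h' h g).symm

end Sys

/-- position of the root `j` after splitting the root `i ≠ j` -/
def pos (e i j : ℕ) : ℕ := if j < i then j else j + e

theorem pv_range'_apply (i n j : ℕ) :
    pv (List.range' i n) j = if j < i then j else if j < i + n then j + 1
      else if j = i + n then i else j := by
  induction n generalizing i with
  | zero =>
    simp only [List.range'_zero, pv_nil, Equiv.Perm.coe_one, id_eq]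
    split_ifs <;> omega
  | succ n ih =>
    rw [List.range'_succ, pv_cons, Equiv.Perm.mul_apply, ih, Equiv.swap_apply_def]
    split_ifs <;> omega

namespace Sys

variable {S : SS G e} {Γ : Type*} [Group Γ] (D : Sys S Γ)

theorem sx_eq' (i : ℕ) :
    D.s i * D.x (i + 1) = D.x i * ev D.s (List.range' i (e + 1)).reverse := by
  rw [D.cox.ev_reverse, eq_mul_inv_iff_mul_eq, mul_assoc, ← D.sx_eq, ← mul_assoc, D.cox.sq,
    one_mul]

theorem pv_reverse (u : List ℕ) : pv u.reverse = (pv u)⁻¹ := cox_swap.ev_reverse u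

/-- The clone lemma: moving a permutation word past a splitting. -/
theorem clone (w : List ℕ) (i : ℕ) : ∃ w' : List ℕ,
    ev D.s w * D.x i = D.x (pv w i) * ev D.s w' ∧
    (∀ j, j ≠ i → pv w' (pos e i j) = pos e (pv w i) (pv w j)) ∧
    (∀ k, k ≤ e → pv w' (i + k) = pv w i + k) := by
  induction w generalizing i with
  | nil => exact ⟨[], by simp, by simp, by simp⟩
  | cons a w ih =>
    obtain ⟨w1, h1, h2, h3⟩ := ih i
    set i' := pv w i with hi'
    -- the one letter case
    have key : ∃ w2 : List ℕ, D.s a * D.x i' = D.x (Equiv.swap a (a + 1) i') * ev D.s w2 ∧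
        (∀ j, j ≠ i' → pv w2 (pos e i' j) =
          pos e (Equiv.swap a (a + 1) i') (Equiv.swap a (a + 1) j)) ∧
        (∀ k, k ≤ e → pv w2 (i' + k) = Equiv.swap a (a + 1) i' + k) := by
      rcases lt_trichotomy i' a with h | h | h
      · refine ⟨[a + e], ?_, ?_, ?_⟩
        · rw [Equiv.swap_apply_of_ne_of_ne (by omega) (by omega), ev_single, D.sx_lt _ _ h]
        · intro j hj
          simp only [pv_cons, pv_nil, mul_one, pos, Equiv.swap_apply_def]
          split_ifs <;> omega
        · intro k hk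
          simp only [pv_cons, pv_nil, mul_one, Equiv.swap_apply_def]
          split_ifs <;> omega
      · refine ⟨List.range' a (e + 1), ?_, ?_, ?_⟩
        · rw [h, Equiv.swap_apply_left, D.sx_eq]
        · intro j hj
          rw [pv_range'_apply]
          simp only [pos, Equiv.swap_apply_def]
          split_ifs <;> omega
        · intro k hk
          rw [pv_range'_apply]
          simp only [Equiv.swap_apply_def]
          split_ifs <;> omega
      · rcases Nat.lt_or_ge (a + 1) i' with h' | h'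
        · refine ⟨[a], ?_, ?_, ?_⟩
          · rw [Equiv.swap_apply_of_ne_of_ne (by omega) (by omega), ev_single, D.sx_gt _ _ h']
          · intro j hj
            simp only [pv_cons, pv_nil, mul_one, pos, Equiv.swap_apply_def]
            split_ifs <;> omega
          · intro k hk
            simp only [pv_cons, pv_nil, mul_one, Equiv.swap_apply_def]
            split_ifs <;> omega
        · have hi : i' = a + 1 := by omega
          refine ⟨(List.range' a (e + 1)).reverse, ?_, ?_, ?_⟩
          · rw [hi, Equiv.swap_apply_right, D.sx_eq']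
          · intro j hj
            rw [pv_reverse, Equiv.Perm.inv_eq_iff_eq, pv_range'_apply]
            simp only [pos, Equiv.swap_apply_def]
            split_ifs <;> omega
          · intro k hk
            rw [pv_reverse, Equiv.Perm.inv_eq_iff_eq, pv_range'_apply]
            simp only [Equiv.swap_apply_def]
            split_ifs <;> omega
    obtain ⟨w2, k1, k2, k3⟩ := key
    refine ⟨w2 ++ w1, ?_, ?_, ?_⟩
    · rw [ev_cons, mul_assoc, h1, ← mul_assoc, k1, pv_cons, Equiv.Perm.mul_apply, ev_append,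
        mul_assoc]
    · intro j hj
      rw [pv_append, Equiv.Perm.mul_apply, h2 j hj, k2 _ (fun h => hj ((pv w).injective h)),
        pv_cons, Equiv.Perm.mul_apply, Equiv.Perm.mul_apply]
    · intro k hk
      rw [pv_append, Equiv.Perm.mul_apply, h3 k hk, k3 k hk, pv_cons, Equiv.Perm.mul_apply]

/-- labels at root `0` commute with `x i`, `i ≥ 1` -/
theorem la_x (g : G) (i : ℕ) (hi : 1 ≤ i) : D.la g * D.x i = D.x i * D.la g := by
  induction i, hi using Nat.le_induction with
  | base => exact D.la_x1 g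
  | succ i hi ih =>
    have hE : ∀ u : List ℕ, (∀ j ∈ u, 1 ≤ j) → D.la g * ev D.s u = ev D.s u * D.la g := by
      intro u
      induction u with
      | nil => simp
      | cons j u ih =>
        intro hu
        rw [ev_cons, ← mul_assoc, D.la_s g j (hu j (by simp)), mul_assoc,
          ih (fun l hl => hu l (by simp [hl])), mul_assoc]
    have h1 : D.x (i + 1) = D.s i * D.x i * (ev D.s (List.range' i (e + 1)))⁻¹ := by
      rw [D.sx_eq]; group
    have h2 := hE (List.range' i (e + 1)) (by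
      intro j hj
      rw [List.mem_range'] at hj
      obtain ⟨k, _, rfl⟩ := hj
      omega)
    have h3 : D.la g * (ev D.s (List.range' i (e + 1)))⁻¹ =
        (ev D.s (List.range' i (e + 1)))⁻¹ * D.la g := by
      rw [eq_inv_mul_iff_mul_eq, ← mul_assoc, ← h2]; group
    rw [h1]
    calc D.la g * (D.s i * D.x i * (ev D.s (List.range' i (e + 1)))⁻¹)
        = (D.la g * D.s i) * D.x i * (ev D.s (List.range' i (e + 1)))⁻¹ := by group
      _ = D.s i * (D.la g * D.x i) * (ev D.s (List.range' i (e + 1)))⁻¹ := by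
          rw [D.la_s g i hi]; group
      _ = D.s i * D.x i * (D.la g * (ev D.s (List.range' i (e + 1)))⁻¹) := by rw [ih]; group
      _ = _ := by rw [h3]; group

theorem lam_x (i j : ℕ) (hij : j ≠ i) (g : G) :
    D.lam j g * D.x i = D.x i * D.lam (pos e i j) g := by
  -- choose the word moving `0` to `j`
  set w := cwm 0 j with hw
  have hw0 : pv w 0 = j := by rw [hw, pv_cwm_apply, zero_add]
  set i0 := (pv w)⁻¹ i with hi0
  have hi0' : pv w i0 = i := by rw [hi0, perm_apply_inv]
  have hne : i0 ≠ 0 := by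
    intro h
    rw [h, hw0] at hi0'
    exact hij hi0'
  obtain ⟨w', h1, h2, h3⟩ := D.clone w i0
  rw [hi0'] at h1 h2
  have h4 := h2 0 (fun h => hne h.symm)
  have hp : pos e i0 0 = 0 := by simp [pos]; omega
  rw [hp, hw0] at h4
  have h5 : (ev D.s w)⁻¹ * D.x i = D.x i0 * (ev D.s w')⁻¹ := by
    rw [inv_mul_eq_iff_eq_mul, ← mul_assoc, eq_mul_inv_iff_mul_eq, h1]
  have h6 : D.lam j g = ev D.s w * D.la g * (ev D.s w)⁻¹ := rfl
  have h7 := D.ev_lam w' 0 g
  rw [h4, D.lam_zero] at h7
  calc D.lam j g * D.x i = ev D.s w * D.la g * ((ev D.s w)⁻¹ * D.x i) := by rw [h6]; group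
    _ = ev D.s w * (D.la g * D.x i0) * (ev D.s w')⁻¹ := by rw [h5]; group
    _ = (ev D.s w * D.x i0) * D.la g * (ev D.s w')⁻¹ := by rw [D.la_x g i0 (by omega)]; group
    _ = D.x i * (ev D.s w' * D.la g) * (ev D.s w')⁻¹ := by rw [h1]; group
    _ = D.x i * D.lam (pos e i j) g := by rw [h7]; group

/-- expansion of a label at root `i` -/
theorem lam_xi (i : ℕ) (g : G) : ∃ u : List ℕ,
    (∀ k : Fin (e + 1), pv u (i + (k : ℕ)) = i + ((S.P g k : Fin (e + 1)) : ℕ)) ∧
    (∀ j, (∀ k : Fin (e + 1), j ≠ i + (k : ℕ)) → pv u j = j) ∧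
    D.lam i g * D.x i = D.x i * ev D.s u * D.LP (S.secs g i) := by
  obtain ⟨u, hu1, hu2, hu3⟩ := D.la_x0 g
  set w := cwm 0 i with hw
  have hw0 : pv w 0 = i := by rw [hw, pv_cwm_apply, zero_add]
  obtain ⟨w', h1, h2, h3⟩ := D.clone w 0
  rw [hw0] at h1 h2 h3
  have hmv : mv w' (S.secs g 0) = S.secs g i := by
    rw [mv, SS.secs, SS.secs, List.map_map]
    apply List.map_congr_left
    intro k hk
    rw [List.mem_range] at hk
    simp only [Function.comp]
    rw [h3 k (by omega)]
  refine ⟨w' ++ u ++ w'.reverse, ?_, ?_, ?_⟩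
  · intro k
    have hk : pv w' (k : ℕ) = i + k := by
      have := h3 k (by omega)
      rwa [zero_add] at this
    rw [pv_append, pv_append, pv_reverse, Equiv.Perm.mul_apply, Equiv.Perm.mul_apply, ← hk,
      perm_inv_apply, hu2 k]
    have := h3 (S.P g k) (by omega)
    rwa [zero_add] at this
  · intro j hj
    have hgt : e < (pv w')⁻¹ j := by
      by_contra hle
      push Not at hle
      apply hj ⟨(pv w')⁻¹ j, by omega⟩
      have := h3 _ hle
      rw [zero_add, perm_apply_inv] at this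
      exact this
    have hfix : ∀ (u : List ℕ), (∀ i ∈ u, i < e) → ∀ l, e < l → pv u l = l := by
      intro u
      induction u with
      | nil => simp
      | cons a u ih =>
        intro hu l hl
        rw [pv_cons, Equiv.Perm.mul_apply, ih (fun b hb => hu b (by simp [hb])) l hl]
        have := hu a (by simp)
        exact Equiv.swap_apply_of_ne_of_ne (by omega) (by omega)
    rw [pv_append, pv_append, pv_reverse, Equiv.Perm.mul_apply, Equiv.Perm.mul_apply,
      hfix u hu1 _ hgt, perm_apply_inv]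
  · have h5 : (ev D.s w)⁻¹ * D.x i = D.x 0 * (ev D.s w')⁻¹ := by
      rw [inv_mul_eq_iff_eq_mul, ← mul_assoc, eq_mul_inv_iff_mul_eq, h1]
    have h6 : D.lam i g = ev D.s w * D.la g * (ev D.s w)⁻¹ := rfl
    have h7 := D.ev_LP w' (S.secs g 0)
    rw [hmv] at h7
    calc D.lam i g * D.x i = ev D.s w * D.la g * ((ev D.s w)⁻¹ * D.x i) := by rw [h6]; group
      _ = ev D.s w * (D.la g * D.x 0) * (ev D.s w')⁻¹ := by rw [h5]; group
      _ = (ev D.s w * D.x 0) * ev D.s u * D.LP (S.secs g 0) * (ev D.s w')⁻¹ := by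
          rw [hu3]; simp only [LP]; group
      _ = D.x i * ev D.s w' * ev D.s u * (ev D.s w')⁻¹ *
          (ev D.s w' * D.LP (S.secs g 0)) * (ev D.s w')⁻¹ := by rw [h1]; group
      _ = D.x i * ev D.s w' * ev D.s u * (ev D.s w')⁻¹ * D.LP (S.secs g i) := by rw [h7]; group
      _ = D.x i * ev D.s (w' ++ u ++ w'.reverse) * D.LP (S.secs g i) := by
          rw [ev_append, ev_append, D.cox.ev_reverse]; group

end Sys

end Pool.Agent.Work.MP_aa9b22_lc
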