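import Mathlib

/-!
Finite presentations of groups, for the own statement of MP_aa9b22_lc (helper48).
-/

set_option autoImplicit false

namespace Pool.Agent.Work.MP_aa9b22_lc

/-- A finite presentation `⟨x_0, ..., x_(n-1) | r_1, ..., r_m⟩`, `n = gens ≥ 1`, `m ≥ 0`; every
relator is a word in the letters `x_i` (written `(i, true)`) and `x_i⁻¹` (written `(i, false)`). -/
structure FinPres where
  gens : ℕ
  pos : 1 ≤ gens
  relators : List (List (Fin gens × Bool))

/-- The presented group: the free group on `x_0, ..., x_(n-1)` modulo the normal closure of the
relators. -/
abbrev FinPres.Group (P : FinPres) : Type :=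
  PresentedGroup {r : FreeGroup (Fin P.gens) | ∃ w ∈ P.relators, r = FreeGroup.mk w}

/-- A presentation as a finite object: the number of generators and the list of relators, letters
given by their numbers and signs. -/
def FinPres.data (P : FinPres) : ℕ × List (List (ℕ × Bool)) :=
  (P.gens, P.relators.map fun w => w.map fun x => ((x.1 : ℕ), x.2))

end Pool.Agent.Work.MP_aa9b22_lc
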