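import Pool.Agent.Work.MP_aa9b22_lc.Main
import Pool.Agent.Work.MP_aa9b22_lc.TwinDefs

/-!
Transport of the theorem on codes to arbitrary standard numberings of finite presentations
(helper48).
-/

set_option autoImplicit false

namespace Pool.Agent.Work.MP_aa9b22_lc

/-! ### conversion of codes -/

/-- drop the letters `≥ n` -/
def cut (n : ℕ) (w : List (ℕ × Bool)) : List (Fin n × Bool) :=
  w.filterMap fun x => if h : x.1 < n then some (⟨x.1, h⟩, x.2) else none

def conv (n : ℕ) (l : List (List (ℕ × Bool))) : FinPres := ⟨n + 1, Nat.succ_pos n, l.map (cut (n + 1))⟩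

theorem cut_data (n : ℕ) (w : List (ℕ × Bool)) :
    (cut n w).map (fun x => ((x.1 : ℕ), x.2)) = w.filter fun x => decide (x.1 < n) := by
  induction w with
  | nil => rfl
  | cons x w ih =>
    unfold cut at ih ⊢
    by_cases h : x.1 < n
    · simp [h, ih]
    · simp [h, ih]

theorem conv_data (n : ℕ) (l : List (List (ℕ × Bool))) :
    (conv n l).data = (n + 1, l.map fun w => w.filter fun x => decide (x.1 < n + 1)) := by
  unfold conv FinPres.data
  simp only [List.map_map]
  congr 1
  apply List.map_congr_left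
  intro w _
  exact cut_data (n + 1) w

theorem data_injective : Function.Injective FinPres.data := by
  rintro ⟨n, hn, l⟩ ⟨m, hm, l'⟩ h
  unfold FinPres.data at h
  obtain ⟨h1, h2⟩ := Prod.mk.inj h
  simp only at h1 h2
  subst h1
  have h3 : Function.Injective (fun x : Fin n × Bool => ((x.1 : ℕ), x.2)) := by
    rintro ⟨a, b⟩ ⟨c, d⟩ hh
    simp only [Prod.mk.injEq] at hh
    exact Prod.ext (Fin.ext hh.1) hh.2
  have h4 := List.map_injective_iff.2 (List.map_injective_iff.2 h3) h2
  rw [h4]

theorem data_lt (P : FinPres) : ∀ w ∈ P.data.2, ∀ x ∈ w, x.1 < P.gens := by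
  intro w hw x hx
  obtain ⟨v, hv, rfl⟩ := List.mem_map.1 hw
  obtain ⟨y, hy, rfl⟩ := List.mem_map.1 hx
  exact y.1.2

theorem conv_of_data (P : FinPres) : conv (P.gens - 1) P.data.2 = P := by
  apply data_injective
  rw [conv_data]
  have h1 : P.gens - 1 + 1 = P.gens := Nat.sub_add_cancel P.pos
  rw [h1]
  have h2 : (P.data.2.map fun w => w.filter fun x => decide (x.1 < P.gens)) = P.data.2 := by
    conv_rhs => rw [← List.map_id P.data.2]
    apply List.map_congr_left
    intro w hw
    simp only [id]
    apply List.filter_eq_self.2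
    intro x hx
    simp [data_lt P w hw x hx]
  rw [h2]
  rfl

/-! ### the groups -/

private noncomputable def toFin {n : ℕ} (r : Set (FreeGroup (Fin n))) (i : ℕ) : PresentedGroup r :=
  if h : i < n then PresentedGroup.of ⟨i, h⟩ else 1

/-- the group of a code is the group of the converted presentation -/
theorem group_equiv (n : ℕ) (l : List (List (ℕ × Bool))) :
    Nonempty (PresentedGroup (rels (n + 1, l)) ≃* (conv n l).Group) := by
  set N := n + 1 with hN
  let P := conv n l
  have hg : P.gens = N := rfl
  let R' : Set (FreeGroup (Fin N)) := {r : FreeGroup (Fin N) | ∃ w ∈ l.map (cut N), r = FreeGroup.mk w}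
  show Nonempty (PresentedGroup (rels (N, l)) ≃* PresentedGroup R')
  -- evaluation of a word
  have key : ∀ w : List (ℕ × Bool), FreeGroup.lift (toFin R') (FreeGroup.mk w) =
      PresentedGroup.mk R' (FreeGroup.mk (cut N w)) := by
    intro w
    induction w with
    | nil => simp [cut, ← FreeGroup.one_eq_mk]
    | cons x w ih =>
      have e1 : FreeGroup.mk (x :: w) = FreeGroup.mk [x] * FreeGroup.mk w := by
        rw [FreeGroup.mul_mk]; rfl
      rw [e1, map_mul, ih]
      by_cases h : x.1 < N
      · have e2 : cut N (x :: w) = (⟨x.1, h⟩, x.2) :: cut N w := by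
          unfold cut
          simp [h]
        have e3 : FreeGroup.mk ((⟨x.1, h⟩, x.2) :: cut N w : List (Fin N × Bool)) =
            FreeGroup.mk [(⟨x.1, h⟩, x.2)] * FreeGroup.mk (cut N w) := by
          rw [FreeGroup.mul_mk]; rfl
        rw [e2, e3, map_mul]
        congr 1
        obtain ⟨i, b⟩ := x
        cases b
        · have e4 : (FreeGroup.mk [(i, false)] : FreeGroup ℕ) = (FreeGroup.of i)⁻¹ := rfl
          have e5 : (FreeGroup.mk [((⟨i, h⟩ : Fin N), false)] : FreeGroup (Fin N)) =
              (FreeGroup.of ⟨i, h⟩)⁻¹ := rfl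
          rw [e4, e5, map_inv, map_inv, FreeGroup.lift_apply_of]
          unfold toFin
          rw [dif_pos h]
          rfl
        · have e4 : (FreeGroup.mk [(i, true)] : FreeGroup ℕ) = FreeGroup.of i := rfl
          have e5 : (FreeGroup.mk [((⟨i, h⟩ : Fin N), true)] : FreeGroup (Fin N)) =
              FreeGroup.of ⟨i, h⟩ := rfl
          rw [e4, e5, FreeGroup.lift_apply_of]
          unfold toFin
          rw [dif_pos h]
          rfl
      · have e2 : cut N (x :: w) = cut N w := by
          unfold cut
          simp [h]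
        rw [e2]
        have e6 : FreeGroup.lift (toFin R') (FreeGroup.mk [x]) = 1 := by
          obtain ⟨i, b⟩ := x
          have e7 : toFin R' i = 1 := by
            unfold toFin
            rw [dif_neg h]
          cases b
          · have e4 : (FreeGroup.mk [(i, false)] : FreeGroup ℕ) = (FreeGroup.of i)⁻¹ := rfl
            rw [e4, map_inv, FreeGroup.lift_apply_of, e7, inv_one]
          · have e4 : (FreeGroup.mk [(i, true)] : FreeGroup ℕ) = FreeGroup.of i := rfl
            rw [e4, FreeGroup.lift_apply_of, e7]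
        rw [e6, one_mul]
  have h1 : ∀ r ∈ rels (N, l), FreeGroup.lift (toFin R') r = 1 := by
    rintro r (⟨i, hi, rfl⟩ | ⟨w, hw, rfl⟩)
    · rw [FreeGroup.lift_apply_of]
      unfold toFin
      rw [dif_neg (Nat.not_lt.2 hi)]
    · rw [key]
      apply PresentedGroup.one_of_mem
      exact ⟨cut N w, List.mem_map.2 ⟨w, hw, rfl⟩, rfl⟩
  let φ : PresentedGroup (rels (N, l)) →* PresentedGroup R' := PresentedGroup.toGroup h1
  -- the inverse
  let g : Fin N → PresentedGroup (rels (N, l)) := fun i => PresentedGroup.of (i : ℕ)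
  have hkill : ∀ i, N ≤ i → (PresentedGroup.of i : PresentedGroup (rels (N, l))) = 1 := by
    intro i hi
    exact PresentedGroup.one_of_mem (rels := rels (N, l)) (Or.inl ⟨i, hi, rfl⟩)
  have key2 : ∀ w : List (ℕ × Bool), FreeGroup.lift g (FreeGroup.mk (cut N w)) =
      PresentedGroup.mk (rels (N, l)) (FreeGroup.mk w) := by
    intro w
    induction w with
    | nil => simp [cut, ← FreeGroup.one_eq_mk]
    | cons x w ih =>
      have e1 : (FreeGroup.mk (x :: w) : FreeGroup ℕ) = FreeGroup.mk [x] * FreeGroup.mk w := by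
        rw [FreeGroup.mul_mk]; rfl
      rw [e1, map_mul, ← ih]
      by_cases h : x.1 < N
      · have e2 : cut N (x :: w) = (⟨x.1, h⟩, x.2) :: cut N w := by
          unfold cut
          simp [h]
        have e3 : FreeGroup.mk ((⟨x.1, h⟩, x.2) :: cut N w : List (Fin N × Bool)) =
            FreeGroup.mk [(⟨x.1, h⟩, x.2)] * FreeGroup.mk (cut N w) := by
          rw [FreeGroup.mul_mk]; rfl
        rw [e2, e3, map_mul]
        congr 1
        obtain ⟨i, b⟩ := x
        cases b
        · have e4 : (FreeGroup.mk [(i, false)] : FreeGroup ℕ) = (FreeGroup.of i)⁻¹ := rfl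
          have e5 : (FreeGroup.mk [((⟨i, h⟩ : Fin N), false)] : FreeGroup (Fin N)) =
              (FreeGroup.of ⟨i, h⟩)⁻¹ := rfl
          rw [e4, e5, map_inv, map_inv, FreeGroup.lift_apply_of]
          rfl
        · have e4 : (FreeGroup.mk [(i, true)] : FreeGroup ℕ) = FreeGroup.of i := rfl
          have e5 : (FreeGroup.mk [((⟨i, h⟩ : Fin N), true)] : FreeGroup (Fin N)) =
              FreeGroup.of ⟨i, h⟩ := rfl
          rw [e4, e5, FreeGroup.lift_apply_of]
          rfl
      · have e2 : cut N (x :: w) = cut N w := by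
          unfold cut
          simp [h]
        rw [e2]
        have e6 : PresentedGroup.mk (rels (N, l)) (FreeGroup.mk [x]) = 1 := by
          obtain ⟨i, b⟩ := x
          have e7 : PresentedGroup.mk (rels (N, l)) (FreeGroup.of i) = 1 := hkill i (Nat.not_lt.1 h)
          cases b
          · have e4 : (FreeGroup.mk [(i, false)] : FreeGroup ℕ) = (FreeGroup.of i)⁻¹ := rfl
            rw [e4, map_inv, e7, inv_one]
          · have e4 : (FreeGroup.mk [(i, true)] : FreeGroup ℕ) = FreeGroup.of i := rfl
            rw [e4, e7]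
        rw [e6, one_mul]
  have h2 : ∀ r ∈ R', FreeGroup.lift g r = 1 := by
    rintro r ⟨v, hv, rfl⟩
    obtain ⟨w, hw, rfl⟩ := List.mem_map.1 hv
    rw [key2]
    exact PresentedGroup.one_of_mem (rels := rels (N, l)) (Or.inr ⟨w, hw, rfl⟩)
  let ψ : PresentedGroup R' →* PresentedGroup (rels (N, l)) := PresentedGroup.toGroup h2
  refine ⟨MonoidHom.toMulEquiv φ ψ ?_ ?_⟩
  · apply PresentedGroup.ext
    intro i
    show ψ (φ (PresentedGroup.of i)) = PresentedGroup.of i
    have e1 : φ (PresentedGroup.of i) = toFin R' i := PresentedGroup.toGroup.of h1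
    rw [e1]
    unfold toFin
    by_cases h : i < N
    · rw [dif_pos h]
      exact PresentedGroup.toGroup.of h2
    · rw [dif_neg h, map_one, hkill i (Nat.not_lt.1 h)]
  · apply PresentedGroup.ext
    intro i
    show φ (ψ (PresentedGroup.of i)) = PresentedGroup.of i
    have e1 : ψ (PresentedGroup.of i) = g i := PresentedGroup.toGroup.of h2
    rw [e1]
    have e2 : φ (PresentedGroup.of (i : ℕ)) = toFin R' i := PresentedGroup.toGroup.of h1
    show φ (PresentedGroup.of (i : ℕ)) = _
    rw [e2]
    unfold toFin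
    rw [dif_pos i.2]

theorem simple_iff_of_equiv {G H : Type*} [Group G] [Group H] (e : G ≃* H) :
    IsSimpleGroup G ↔ IsSimpleGroup H := by
  constructor
  · intro h
    exact MulEquiv.isSimpleGroup e.symm
  · intro h
    exact MulEquiv.isSimpleGroup e

theorem simple_conv (n : ℕ) (l : List (List (ℕ × Bool))) :
    IsSimpleGroup (conv n l).Group ↔ IsSimpleGroup (PresentedGroup (rels (n + 1, l))) := by
  obtain ⟨e⟩ := group_equiv n l
  exact (simple_iff_of_equiv e).symm

theorem simple_data (P : FinPres) :
    IsSimpleGroup P.Group ↔ IsSimp (Encodable.encode P.data) := by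
  have h1 := simple_conv (P.gens - 1) P.data.2
  have h3 : (P.gens - 1 + 1, P.data.2) = P.data := by
    rw [Nat.sub_add_cancel P.pos]
    rfl
  rw [conv_of_data, h3] at h1
  rw [h1]
  constructor
  · intro h
    exact ⟨P.data, Encodable.encodek _, h⟩
  · rintro ⟨p, hp, h⟩
    rw [Encodable.encodek, Option.some_inj] at hp
    subst hp
    exact h

/-! ### computability -/

/-- `data` of the converted presentation -/
def cdat (p : ℕ × List (List (ℕ × Bool))) : ℕ × List (List (ℕ × Bool)) :=
  (p.1 + 1, p.2.map fun w => w.filter fun x => decide (x.1 < p.1 + 1))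

theorem primrec_cdat : Primrec cdat := by
  unfold cdat
  refine Primrec.pair (Primrec.succ.comp Primrec.fst) ?_
  refine Primrec.list_map Primrec.snd ?_
  have h1 : Primrec₂ fun (a : (ℕ × List (List (ℕ × Bool))) × List (ℕ × Bool)) (x : ℕ × Bool) =>
      (if x.1 < a.1.1 + 1 then some x else none : Option (ℕ × Bool)) := by
    refine Primrec.ite ?_ (Primrec.option_some.comp Primrec.snd) (Primrec.const none)
    exact Primrec.nat_lt.comp (Primrec.fst.comp Primrec.snd)
      (Primrec.succ.comp (Primrec.fst.comp (Primrec.fst.comp Primrec.fst)))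
  have h2 := Primrec.listFilterMap (f := fun a : (ℕ × List (List (ℕ × Bool))) × List (ℕ × Bool) =>
    a.2) Primrec.snd h1
  unfold Primrec₂
  refine h2.of_eq ?_
  rintro ⟨a, w⟩
  simp only
  induction w with
  | nil => rfl
  | cons x w ih =>
    by_cases h : x.1 < a.1 + 1
    · simp only [List.filterMap_cons, h, if_true, List.filter_cons, decide_true, ih]
    · simp only [List.filterMap_cons, h, if_false, List.filter_cons, decide_false, ih]
      simp

/-- a standard numbering -/
def num (e : ℕ) : FinPres :=
  match (Encodable.decode e : Option (ℕ × List (List (ℕ × Bool)))) with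
  | some p => conv p.1 p.2
  | none => conv 0 []

theorem num_data (e : ℕ) : (num e).data =
    cdat (((Encodable.decode e : Option (ℕ × List (List (ℕ × Bool))))).getD (0, [])) := by
  unfold num
  cases h : (Encodable.decode e : Option (ℕ × List (List (ℕ × Bool)))) with
  | none =>
    simp only [Option.getD_none]
    rw [conv_data]
    rfl
  | some p =>
    simp only [Option.getD_some]
    rw [conv_data]
    rfl

theorem computable_num : Computable fun e => (num e).data := by
  have h1 : Primrec fun e : ℕ => cdat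
      (((Encodable.decode e : Option (ℕ × List (List (ℕ × Bool))))).getD (0, [])) :=
    primrec_cdat.comp (Primrec.option_getD.comp Primrec.decode (Primrec.const _))
  exact h1.to_comp.of_eq fun e => (num_data e).symm

theorem surjective_num : Function.Surjective num := by
  intro P
  refine ⟨Encodable.encode (P.gens - 1, P.data.2), ?_⟩
  unfold num
  rw [Encodable.encodek]
  exact conv_of_data P

/-- in a standard numbering an index of a given presentation is computable -/
theorem exists_index {π : ℕ → FinPres} (h1 : Function.Surjective π)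
    (h2 : Computable fun e => (π e).data) {P : ℕ → FinPres} (h3 : Computable fun n => (P n).data) :
    ∃ f : ℕ → ℕ, Computable f ∧ ∀ n, π (f n) = P n := by
  classical
  have hex : ∀ n, ∃ e, (π e).data = (P n).data := fun n => by
    obtain ⟨e, he⟩ := h1 (P n)
    exact ⟨e, by rw [he]⟩
  refine ⟨fun n => Nat.find (hex n), ?_, fun n => data_injective (Nat.find_spec (hex n))⟩
  have hb : Computable₂ fun n e : ℕ => decide ((π e).data = (P n).data) := by
    have h4 : Computable₂ fun (a b : ℕ × List (List (ℕ × Bool))) => decide (a = b) :=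
      (Primrec.eq.decide).to_comp
    exact h4.comp (h2.comp Computable.snd) (h3.comp Computable.fst)
  have h5 : Partrec fun n : ℕ => Nat.rfind fun e =>
      (Part.some (decide ((π e).data = (P n).data)) : Part Bool) :=
    Partrec.rfind hb.partrec₂
  refine Partrec.of_eq h5 fun n => ?_
  refine Part.eq_some_iff.2 (Nat.mem_rfind.2 ⟨?_, ?_⟩)
  · refine Part.mem_some_iff.2 ?_
    have h6 := Nat.find_spec (hex n)
    simp [h6]
  · intro m hm
    refine Part.mem_some_iff.2 ?_
    have h6 := Nat.find_min (hex n) hm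
    simp [h6]

/-! ### a universal set -/

/-- the matrix of a universal `Π₂` set -/
def UR (a : ℕ × ℕ × ℕ) : Prop :=
  Nat.Partrec.Code.evaln a.2.2.unpair.1 (Denumerable.ofNat Nat.Partrec.Code a.1.unpair.1)
    (Nat.pair a.1.unpair.2 (Nat.pair a.2.1 a.2.2.unpair.2)) = some 1

def UB (n : ℕ) : Prop := ∀ x, ∃ y, UR (n, x, y)

theorem computable_UR : ComputablePred UR := by
  classical
  have h1 : Primrec fun a : ℕ × ℕ × ℕ => Nat.Partrec.Code.evaln a.2.2.unpair.1
      (Denumerable.ofNat Nat.Partrec.Code a.1.unpair.1)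
      (Nat.pair a.1.unpair.2 (Nat.pair a.2.1 a.2.2.unpair.2)) := by
    refine Nat.Partrec.Code.primrec_evaln.comp (Primrec.pair (Primrec.pair ?_ ?_) ?_)
    · exact Primrec.fst.comp (Primrec.unpair.comp (Primrec.snd.comp Primrec.snd))
    · exact (Primrec.ofNat Nat.Partrec.Code).comp
        (Primrec.fst.comp (Primrec.unpair.comp Primrec.fst))
    · refine Primrec₂.natPair.comp (Primrec.snd.comp (Primrec.unpair.comp Primrec.fst)) ?_
      exact Primrec₂.natPair.comp (Primrec.fst.comp Primrec.snd)
        (Primrec.snd.comp (Primrec.unpair.comp (Primrec.snd.comp Primrec.snd)))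
  have h2 : PrimrecPred UR := Primrec.eq.comp h1 (Primrec.const (some 1))
  exact ⟨inferInstance, h2.decide.to_comp⟩

theorem isPi2_UB : IsPi2 UB := ⟨UR, computable_UR, fun _ => Iff.rfl⟩

theorem universal (B : ℕ → Prop) (hB : IsPi2 B) : ∃ f : ℕ → ℕ, Computable f ∧ ∀ n, B n ↔ UB (f n) := by
  obtain ⟨R, ⟨hd, hR⟩, h⟩ := hB
  have h1 : Partrec fun a : ℕ × ℕ × ℕ => (Part.some (decide (R a)) : Part Bool) := hR
  obtain ⟨c, hc⟩ := Nat.Partrec.Code.exists_code.1 h1
  refine ⟨fun n => Nat.pair (Encodable.encode c) n,
    (Primrec₂.natPair.comp (Primrec.const _) Primrec.id).to_comp, fun n => ?_⟩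
  rw [h n]
  unfold UB UR
  have h2 : ∀ x y : ℕ, R (n, x, y) ↔ ∃ k, Nat.Partrec.Code.evaln k c (Nat.pair n (Nat.pair x y)) =
      some 1 := by
    intro x y
    have h3 : Nat.Partrec.Code.eval c (Nat.pair n (Nat.pair x y)) =
        Part.some (Encodable.encode (decide (R (n, x, y)))) := by
      have h4 : (Nat.pair n (Nat.pair x y)) = Encodable.encode (n, x, y) := rfl
      rw [hc, h4]
      show (((Encodable.decode (Encodable.encode (n, x, y)) : Option (ℕ × ℕ × ℕ)) :
        Part (ℕ × ℕ × ℕ))).bind _ = _
      rw [Encodable.encodek]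
      simp
    have h5 : ∀ v, v ∈ Nat.Partrec.Code.eval c (Nat.pair n (Nat.pair x y)) ↔
        v = Encodable.encode (decide (R (n, x, y))) := by
      intro v
      rw [h3, Part.mem_some_iff]
    have h6 : (∃ k, Nat.Partrec.Code.evaln k c (Nat.pair n (Nat.pair x y)) = some 1) ↔
        1 ∈ Nat.Partrec.Code.eval c (Nat.pair n (Nat.pair x y)) := by
      rw [Nat.Partrec.Code.evaln_complete]
      rfl
    rw [h6, h5]
    by_cases hr : R (n, x, y)
    · simp [hr]
    · simp [hr]
  constructor
  · intro H x
    obtain ⟨y, hy⟩ := H x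
    obtain ⟨k, hk⟩ := (h2 x y).1 hy
    refine ⟨Nat.pair k y, ?_⟩
    simp only [Nat.unpair_pair, Denumerable.ofNat_encode]
    exact hk
  · intro H x
    obtain ⟨y, hy⟩ := H x
    simp only [Nat.unpair_pair, Denumerable.ofNat_encode] at hy
    exact ⟨y.unpair.2, (h2 x _).2 ⟨_, hy⟩⟩

/-! ### the reduction with fixed numbers of generators and relators -/

theorem reduction_fixed (B : ℕ → Prop) (hB : IsPi2 B) :
    ∃ (N M : ℕ) (P : ℕ → FinPres), (Computable fun n => (P n).data) ∧
      ∀ n, (P n).gens = N ∧ (P n).relators.length = M ∧ (B n ↔ IsSimpleGroup (P n).Group) := by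
  obtain ⟨e, π, W, S, hodd, hcomp, hP, hR, hab, hyes, hno⟩ :=
    psiSpec collatzHard blockSpec B hB
  have he : 1 ≤ e := hodd.pos
  choose u hu1 hu2 using fun g : Fin 3 => exists_word (π g)
  have hu2' : ∀ n g, ∀ k : Fin (e + 1),
      pv (u g) (k : ℕ) = (((S n).P (FreeGroup.of g) k : Fin (e + 1)) : ℕ) := by
    intro n g k
    rw [hP n g, hu2]
  have hc := comp_vP e u W hcomp
  refine ⟨6 + 2 * e, ((vP e u (W 0)).2).length,
    fun n => conv (5 + 2 * e) (vP e u (W n)).2, ?_, fun n => ⟨?_, ?_, ?_⟩⟩
  · have h1 : Computable fun n => cdat (5 + 2 * e, (vP e u (W n)).2) :=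
      primrec_cdat.to_comp.comp (Computable.pair (Computable.const _) (Computable.snd.comp hc))
    exact h1.of_eq fun n => (conv_data _ _).symm
  · show 5 + 2 * e + 1 = 6 + 2 * e
    omega
  · have h1 : ∀ (k : ℕ) (l : List (List (ℕ × Bool))), (conv k l).relators.length = l.length := by
      intro k l
      unfold conv
      exact List.length_map _
    rw [h1]
    unfold vP
    simp
  · rw [simple_conv]
    have h0 : (5 + 2 * e + 1, (vP e u (W n)).2) = vP e u (W n) := by
      unfold vP
      simp only [Prod.mk.injEq, and_true]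
      omega
    rw [h0]
    show B n ↔ IsSimpleGroup (Gam u (W n))
    constructor
    · intro hb
      exact gam_simple he (S n) u hu1 (hu2' n) (W n) (hR n) hodd (hab n) (hyes n hb)
    · intro hs
      by_contra hb
      obtain ⟨g, hg, y, hy⟩ := hno n hb
      exact gam_not_simple he (S n) u hu1 (hu2' n) (W n) (hR n) g hg y hy hs

/-- the theorem for all standard numberings -/
theorem twin :
    (∃ π : ℕ → FinPres, Function.Surjective π ∧ Computable fun e => (π e).data) ∧
    ∃ N M : ℕ, ∀ π : ℕ → FinPres, Function.Surjective π → (Computable fun e => (π e).data) →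
      IsPi2 (fun e => IsSimpleGroup (π e).Group) ∧
      ∀ B : ℕ → Prop, IsPi2 B → ∃ f : ℕ → ℕ, Computable f ∧
        ∀ n, (π (f n)).gens = N ∧ (π (f n)).relators.length = M ∧
          (B n ↔ IsSimpleGroup (π (f n)).Group) := by
  refine ⟨⟨num, surjective_num, computable_num⟩, ?_⟩
  obtain ⟨N, M, P, hP, h⟩ := reduction_fixed UB isPi2_UB
  refine ⟨N, M, fun π h1 h2 => ⟨?_, fun B hB => ?_⟩⟩
  · obtain ⟨R, hR, hR2⟩ := simpUpper
    refine ⟨fun a => R (Encodable.encode (π a.1).data, a.2.1, a.2.2), ?_, fun n => ?_⟩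
    · obtain ⟨hd, hR'⟩ := hR
      refine ⟨fun a => hd _, ?_⟩
      exact hR'.comp (Computable.pair (Computable.encode.comp (h2.comp Computable.fst))
        (Computable.pair (Computable.fst.comp Computable.snd)
          (Computable.snd.comp Computable.snd)))
    · exact (simple_data (π n)).trans (hR2 _)
  · obtain ⟨f, hf, hf2⟩ := universal B hB
    obtain ⟨g, hg, hg2⟩ := exists_index h1 h2 hP
    refine ⟨fun n => g (f n), hg.comp hf, fun n => ?_⟩
    rw [hg2 (f n)]
    obtain ⟨h3, h4, h5⟩ := h (f n)
    exact ⟨h3, h4, (hf2 n).trans h5⟩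

end Pool.Agent.Work.MP_aa9b22_lc
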